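import Pool.Agent.Lib_helper25.H2.Main2
import Pool.Agent.Lib_helper25.Aver0

/-!
# Averaging the classes
-/

set_option autoImplicit false
set_option linter.unusedSectionVars false

open Matrix Pool.Agent.WhK

namespace Pool.Agent.Lib25.H2

universe v w

section Abs

variable {n : ℕ} [NeZero n] {B : Type*} [AddCommGroup B] (T : (ZMod n)ˣ → B →+ B) (κ : ℕ → B)

/-- First averaging: over the decomposition group of `p`. -/
noncomputable def ak2 (p : ℕ) : B :=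
  (∏ q ∈ n.primeFactors.erase p, (ucl q (1 : (ZMod n)ˣ)).card) •
    ∑ w ∈ ucl p (1 : (ZMod n)ˣ), T w (κ p)

/-- The sum over all primes and all units. -/
noncomputable def akS : B := ∑ q ∈ n.primeFactors, ∑ u : (ZMod n)ˣ, T u (ak2 T κ q)

/-- Second averaging. -/
noncomputable def ak3 (p : ℕ) : B :=
  (n.primeFactors.card * Fintype.card (ZMod n)ˣ) • ak2 T κ p - akS T κ

variable {T} {κ}

theorem ak2_nat {B' : Type*} [AddCommGroup B'] {T' : (ZMod n)ˣ → B' →+ B'} {κ' : ℕ → B'}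
    (f : B →+ B') (hf : ∀ w x, f (T w x) = T' w (f x)) (hκ : ∀ p, f (κ p) = κ' p) (p : ℕ) :
    f (ak2 T κ p) = ak2 T' κ' p := by
  unfold ak2
  rw [map_nsmul, map_sum]
  congr 1
  refine Finset.sum_congr rfl fun w _ => ?_
  rw [hf, hκ]

theorem ak3_nat {B' : Type*} [AddCommGroup B'] {T' : (ZMod n)ˣ → B' →+ B'} {κ' : ℕ → B'}
    (f : B →+ B') (hf : ∀ w x, f (T w x) = T' w (f x)) (hκ : ∀ p, f (κ p) = κ' p) (p : ℕ) :
    f (ak3 T κ p) = ak3 T' κ' p := by
  unfold ak3 akS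
  rw [map_sub, map_nsmul, ak2_nat f hf hκ, map_sum]
  congr 1
  refine Finset.sum_congr rfl fun q _ => ?_
  rw [map_sum]
  refine Finset.sum_congr rfl fun u _ => ?_
  rw [hf, ak2_nat f hf hκ]

variable (hT : ∀ u w x, T u (T w x) = T (u * w) x)

include hT

theorem ak3_induct {M : Type*} [AddCommGroup M] (Θ : B →+ M)
    (hΘ : ∀ q ∈ n.primeFactors, ∀ w : (ZMod n)ˣ, Θ (T w (κ q)) = 0) (p : ℕ)
    (hp : p ∈ n.primeFactors) : Θ (ak3 T κ p) = 0 := by
  have h2 : ∀ q ∈ n.primeFactors, ∀ u : (ZMod n)ˣ, Θ (T u (ak2 T κ q)) = 0 := by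
    intro q hq u
    unfold ak2
    rw [map_nsmul, map_nsmul, map_sum, map_sum, Finset.sum_eq_zero, smul_zero]
    intro w _
    rw [hT]
    exact hΘ q hq _
  have h3 : ∀ q ∈ n.primeFactors, Θ (ak2 T κ q) = 0 := by
    intro q hq
    unfold ak2
    rw [map_nsmul, map_sum, Finset.sum_eq_zero, smul_zero]
    intro w _
    exact hΘ q hq _
  unfold ak3 akS
  rw [map_sub, map_nsmul, h3 p hp, smul_zero, map_sum, Finset.sum_eq_zero, sub_zero]
  intro q hq
  rw [map_sum, Finset.sum_eq_zero]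
  intro u _
  exact h2 q hq u

theorem T_ak2 (p : ℕ) (w : (ZMod n)ˣ) (hw : uRel n p w 1) : T w (ak2 T κ p) = ak2 T κ p := by
  unfold ak2
  rw [map_nsmul, map_sum]
  congr 1
  refine Finset.sum_bij (fun w' _ => w * w') ?_ ?_ ?_ ?_
  · intro w' hw'
    rw [mem_ucl] at hw' ⊢
    have h1 := uRel_mul hw w'
    rw [one_mul] at h1
    exact uRel_trans h1 hw'
  · intro a _ b _ hab
    exact mul_left_cancel hab
  · intro b hb
    refine ⟨w⁻¹ * b, ?_, by rw [mul_inv_cancel_left]⟩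
    rw [mem_ucl] at hb ⊢
    have h1 := uRel_mul hw (w⁻¹ * b)
    rw [mul_inv_cancel_left, one_mul] at h1
    exact uRel_trans (uRel_symm h1) hb
  · intro w' _
    exact hT w w' _

theorem T_akS (w : (ZMod n)ˣ) : T w (akS T κ) = akS T κ := by
  unfold akS
  rw [map_sum]
  apply Finset.sum_congr rfl
  intro q _
  rw [map_sum, ← Equiv.sum_comp (Equiv.mulLeft w) (fun u : (ZMod n)ˣ => T u (ak2 T κ q))]
  apply Finset.sum_congr rfl
  intro u _
  exact hT w u _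

theorem T_ak3 (p : ℕ) (w : (ZMod n)ˣ) (hw : uRel n p w 1) : T w (ak3 T κ p) = ak3 T κ p := by
  unfold ak3
  rw [map_sub, map_nsmul, T_ak2 hT p w hw, T_akS hT]

theorem sum_ak3 : ∑ q ∈ n.primeFactors, ∑ u : (ZMod n)ˣ, T u (ak3 T κ q) = 0 := by
  have h1 : ∀ q ∈ n.primeFactors, ∑ u : (ZMod n)ˣ, T u (ak3 T κ q) =
      (n.primeFactors.card * Fintype.card (ZMod n)ˣ) • ∑ u : (ZMod n)ˣ, T u (ak2 T κ q) -
        Fintype.card (ZMod n)ˣ • akS T κ := by
    intro q _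
    rw [Finset.smul_sum, ← Finset.card_univ, ← Finset.sum_const, ← Finset.sum_sub_distrib]
    apply Finset.sum_congr rfl
    intro u _
    unfold ak3
    rw [map_sub, map_nsmul, T_akS hT, Finset.card_univ]
  rw [Finset.sum_congr rfl h1, Finset.sum_sub_distrib, ← Finset.smul_sum, Finset.sum_const,
    ← mul_smul]
  exact sub_self _

end Abs

section Act

variable {n : ℕ} [NeZero n]

/-- The automorphism of `C_n × Σ_g` defined by a unit. -/
def alS (g : ℕ) (w : (ZMod n)ˣ) : CS n g →* CS n g :=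
  MonoidHom.prodMap (powMonoidHom (w : ZMod n).val) (MonoidHom.id _)

theorem alS_apply (g : ℕ) (w : (ZMod n)ˣ) (x : CS n g) :
    alS g w x = (x.1 ^ (w : ZMod n).val, x.2) := rfl

theorem alS_gH (g : ℕ) (w : (ZMod n)ˣ) : alS g w (gH n g) = (gH n g) ^ (w : ZMod n).val := by
  rw [alS_apply]
  apply Prod.ext
  · rw [Prod.pow_fst]
  · rw [Prod.pow_snd, one_pow]

theorem alS_gW (g : ℕ) (w : (ZMod n)ˣ) : mapW (alS g w) (gW n g) = gW n g := by
  unfold gW
  rw [mapW_mapW]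
  congr 1
  funext s
  rw [alS_apply, one_pow]

theorem mn_pow (c : Multiplicative (ZMod n)) : c ^ n = 1 := by
  have := pow_card_eq_one' (x := c)
  rwa [card_Cn] at this

theorem alS_comp (g : ℕ) (u w : (ZMod n)ˣ) : (alS g u).comp (alS g w) = alS g (u * w) := by
  refine MonoidHom.ext fun x => ?_
  rw [MonoidHom.comp_apply, alS_apply, alS_apply, alS_apply, mul_comm u w,
    pow_val_mul (mn_pow x.1)]

theorem alS_one (g : ℕ) : alS g (1 : (ZMod n)ˣ) = MonoidHom.id _ := by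
  refine MonoidHom.ext fun x => ?_
  rw [alS_apply, pow_val_one (mn_pow x.1)]
  rfl

theorem mapW_comp_alS {G : Type*} [Group G] {g : ℕ} (φ : CS n g →* G) (w : (ZMod n)ˣ) :
    mapW (φ.comp (alS g w)) (gW n g) = mapW φ (gW n g) := by
  conv_rhs => rw [← alS_gW g w, mapW_mapW]
  rfl

theorem comp_alS_gH {G : Type*} [Group G] {g : ℕ} (φ : CS n g →* G) (w : (ZMod n)ˣ) :
    (φ.comp (alS g w)) (gH n g) = φ (gH n g) ^ (w : ZMod n).val := by
  rw [MonoidHom.comp_apply, alS_gH, map_pow]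

/-- The action of the units on `K₁(ℤ[C_n × Σ_g])`. -/
noncomputable def twS (g : ℕ) (w : (ZMod n)ˣ) : K1 (MonoidAlgebra ℤ (CS n g)) →+
    K1 (MonoidAlgebra ℤ (CS n g)) := k1g (alS g w)

theorem k1g_twS {G : Type v} [Group G] {g : ℕ} (φ : CS n g →* G) (w : (ZMod n)ˣ)
    (z : K1 (MonoidAlgebra ℤ (CS n g))) :
    k1g φ (twS g w z) = k1g (φ.comp (alS g w)) z := k1g_comp φ (alS g w) z

theorem twS_twS (g : ℕ) (u w : (ZMod n)ˣ) (z : K1 (MonoidAlgebra ℤ (CS n g))) :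
    twS g u (twS g w z) = twS g (u * w) z := by
  unfold twS
  rw [k1g_comp, alS_comp]

theorem inj_comp_alS {G : Type*} [Group G] {g : ℕ} (φ : CS n g →* G) (w : (ZMod n)ˣ)
    (hφ : Function.Injective (fun c => φ (c, 1))) :
    Function.Injective (fun c => (φ.comp (alS g w)) (c, 1)) := by
  intro c c' hcc
  have h1 : φ (c ^ (w : ZMod n).val, 1) = φ (c' ^ (w : ZMod n).val, 1) := hcc
  have h2 : c ^ (w : ZMod n).val = c' ^ (w : ZMod n).val := hφ h1
  have h3 : ∀ c : Multiplicative (ZMod n),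
      (c ^ (w : ZMod n).val) ^ ((w⁻¹ : (ZMod n)ˣ) : ZMod n).val = c := by
    intro c
    rw [← pow_val_mul (mn_pow c), mul_inv_cancel, pow_val_one (mn_pow c)]
  rw [← h3 c, ← h3 c', h2]

/-- The averaged classes. -/
noncomputable def kapT (κ : ℕ → ∀ g : ℕ, K1 (MonoidAlgebra ℤ (CS n g))) (p g : ℕ) :
    K1 (MonoidAlgebra ℤ (CS n g)) := ak3 (twS g) (fun q => κ q g) p

/-- The value of the functionals on the averaged classes. -/
theorem functional_kapT {G : Type v} [Group G]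
    (κ : ℕ → ∀ g : ℕ, K1 (MonoidAlgebra ℤ (CS n g)))
    (L : ℕ → G → G → G → ℤ) (hL : IsAdm2 L) (F : K1 (MonoidAlgebra ℤ G) →+ ℚ)
    (hF : ∀ (p g : ℕ) (φ : CS n g →* G), p.Prime → p ∣ n →
      Function.Injective (fun c => φ (c, 1)) →
      F (k1g φ (κ p g)) = ((evw (L p (φ (gH n g))) (mapW φ (gW n g)) : ℤ) : ℚ))
    (p g : ℕ) (hp : p ∈ n.primeFactors) (φ : CS n g →* G)
    (hφ : Function.Injective (fun c => φ (c, 1))) :
    F (k1g φ (kapT κ p g)) =
      ((n.primeFactors.card * Fintype.card (ZMod n)ˣ *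
        ∏ q ∈ n.primeFactors, (ucl q (1 : (ZMod n)ˣ)).card : ℕ) : ℚ) *
        ((evw (L p (φ (gH n g))) (mapW φ (gW n g)) : ℤ) : ℚ) := by
  set K : ℕ := ∏ q ∈ n.primeFactors, (ucl q (1 : (ZMod n)ˣ)).card with hK
  have hpow : ∀ (φ : CS n g →* G), φ (gH n g) ^ n = 1 := by
    intro φ
    rw [← map_pow]
    have h1 : (gH n g) ^ n = 1 := by
      apply Prod.ext
      · rw [Prod.pow_fst]
        exact mn_pow _
      · rw [Prod.pow_snd]
        exact one_pow _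
    rw [h1, map_one]
  have hclw : ∀ (φ : CS n g →* G), Clw (φ (gH n g)) (mapW φ (gW n g)) := fun φ =>
    ⟨CW_gW φ, surf_map_gW φ⟩
  -- the value on `ak2`
  have h2 : ∀ q ∈ n.primeFactors, ∀ φ : CS n g →* G, Function.Injective (fun c => φ (c, 1)) →
      F (k1g φ (ak2 (twS g) (fun q => κ q g) q)) =
        (K : ℚ) * ((evw (L q (φ (gH n g))) (mapW φ (gW n g)) : ℤ) : ℚ) := by
    intro q hq φ hφ
    unfold ak2
    rw [map_nsmul, map_nsmul, map_sum, map_sum]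
    have h3 : ∀ w ∈ ucl q (1 : (ZMod n)ˣ),
        F (k1g φ (twS g w (κ q g))) =
          ((evw (L q (φ (gH n g))) (mapW φ (gW n g)) : ℤ) : ℚ) := by
      intro w hw
      rw [k1g_twS, hF q _ _ (Nat.prime_of_mem_primeFactors hq) (Nat.dvd_of_mem_primeFactors hq)
        (inj_comp_alS φ w hφ), mapW_comp_alS, comp_alS_gH]
      congr 1
      obtain ⟨i, k, hik⟩ := mem_ucl.1 hw
      refine hL.frob q _ _ _ i k ((hclw φ).pow _) (zpowers_pow_val (hpow φ) w) ?_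
      rw [← pow_mul]
      have h4 : ∀ a b : ℕ, ((a : ℕ) : ZMod n) = b → φ (gH n g) ^ a = φ (gH n g) ^ b := by
        intro a b hab
        have h5 : orderOf (φ (gH n g)) ∣ n := orderOf_dvd_of_pow_eq_one (hpow φ)
        rw [pow_eq_pow_iff_modEq]
        exact ((ZMod.natCast_eq_natCast_iff _ _ _).1 hab).of_dvd h5
      apply h4
      push_cast
      rw [ZMod.natCast_zmod_val, hik, Units.val_one, one_mul]
    rw [Finset.sum_congr rfl h3, Finset.sum_const, nsmul_eq_mul, nsmul_eq_mul, ← mul_assoc,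
      ← Nat.cast_mul, hK, Finset.prod_erase_mul _ _ hq]
  have h3 : F (k1g φ (akS (twS g) (fun q => κ q g))) = 0 := by
    unfold akS
    rw [map_sum, map_sum]
    have h4 : ∀ q ∈ n.primeFactors, F (k1g φ
        (∑ u : (ZMod n)ˣ, twS g u (ak2 (twS g) (fun q => κ q g) q))) =
        (K : ℚ) * ((∑ a ∈ (Finset.range n).filter (fun a => a.Coprime n),
          evw (L q (φ (gH n g) ^ a)) (mapW φ (gW n g)) : ℤ) : ℚ) := by
      intro q hq
      rw [← sum_units_eq (fun z => evw (L q z) (mapW φ (gW n g))), map_sum, map_sum]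
      push_cast
      rw [Finset.mul_sum]
      apply Finset.sum_congr rfl
      intro u _
      rw [k1g_twS, h2 q hq _ (inj_comp_alS φ u hφ), mapW_comp_alS, comp_alS_gH]
    rw [Finset.sum_congr rfl h4, ← Finset.mul_sum, ← Int.cast_sum]
    have hord : orderOf (φ (gH n g)) = n := by
      have h5 : orderOf ((φ.comp (MonoidHom.inl _ _)) (Multiplicative.ofAdd 1)) =
        orderOf (Multiplicative.ofAdd (1 : ZMod n)) := orderOf_injective _ hφ _
      change orderOf ((φ.comp (MonoidHom.inl _ _)) (Multiplicative.ofAdd 1)) = n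
      rw [h5, orderOf_gen (zpowers_one_eq_top n), card_Cn]
    have hfin : IsOfFinOrder (φ (gH n g)) := by
      rw [← orderOf_pos_iff, hord]
      exact Nat.pos_of_ne_zero (NeZero.ne n)
    have h6 := hL.sum (φ (gH n g)) (mapW φ (gW n g)) hfin (hclw φ)
    rw [hord] at h6
    rw [h6, Int.cast_zero, mul_zero]
  unfold kapT ak3
  rw [map_sub, map_sub, h3, sub_zero, map_nsmul, map_nsmul, h2 p hp φ hφ, nsmul_eq_mul]
  push_cast
  ring

end Act

theorem exists_kappa3 : ∃ κ : ∀ n : ℕ, ℕ → ∀ g : ℕ, K1 (MonoidAlgebra ℤ (CS n g)),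
    ∀ (G : Type v) [Group G],
      (∀ (n p g g' g'' : ℕ) (φ : CS n g →* G) (φ' : CS n g' →* G) (φ'' : CS n g'' →* G),
        0 < n → p.Prime → p ∣ n →
        φ' (gH n g') = φ (gH n g) → φ'' (gH n g'') = φ (gH n g) →
        mapW φ'' (gW n g'') = mapW φ (gW n g) ++ mapW φ' (gW n g') →
        mt (k1g φ'' (κ n p g'')) = mt (k1g φ (κ n p g)) + mt (k1g φ' (κ n p g'))) ∧
      (∀ (n p g : ℕ) (φ : CS n g →* G), 0 < n → p.Prime → p ∣ n →
        Null (φ (gH n g)) (mapW φ (gW n g)) → mt (k1g φ (κ n p g)) = 0) ∧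
      ∀ L : ℕ → G → G → G → ℤ, IsAdm2 L → ∃ F : K1 (MonoidAlgebra ℤ G) →+ ℚ,
        ∀ (n p g : ℕ) (φ : CS n g →* G), 0 < n → p.Prime → p ∣ n →
          Function.Injective (fun c => φ (c, 1)) →
          F (k1g φ (κ n p g)) = ((evw (L p (φ (gH n g))) (mapW φ (gW n g)) : ℤ) : ℚ) := by
  classical
  have h0 : ∀ n : ℕ, ∃ (N : ℕ) (κ : ℕ → ∀ g : ℕ, K1 (MonoidAlgebra ℤ (CS n g))), ∀ hn : 0 < n,
      haveI : NeZero n := ⟨hn.ne'⟩
      0 < N ∧ ∀ (p : ℕ) [Fact p.Prime], p ∣ n → ∃ t : (ZMod n)ˣ → ℚ_[p],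
      (∀ (Y : (ZMod n)ˣ → ℚ) (y : ℚ), ∑ u, t u * (Y u : ℚ_[p]) = (y : ℚ_[p]) →
        ∀ z, (N : ℚ) * ∑ u ∈ Finset.univ.filter (fun u => uRel n p u z), Y u =
          y * (Finset.univ.filter (fun u => uRel n p u z)).card) ∧
      ∀ {G : Type v} [Group G],
        (∀ (g : ℕ) (φ : CS n g →* G), ∃ W : ∀ (q : ℕ) [Fact q.Prime], Pt2 G → ℚ_[q],
          Triv1 (k1g φ (κ p g)) W ∧
          (∀ x, W p x = ∑ u : (ZMod n)ˣ, t u * ((mu2 x.1.1 x.1.2 (mapW φ (gW n g))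
            (φ (gH n g) ^ (u : ZMod n).val) : ℤ) : ℚ_[p])) ∧
          ∀ (q : ℕ) [Fact q.Prime], q ≠ p → ∀ x, W q x = 0) ∧
        (∀ (g g' g'' : ℕ) (φ : CS n g →* G) (φ' : CS n g' →* G) (φ'' : CS n g'' →* G),
          φ' (gH n g') = φ (gH n g) → φ'' (gH n g'') = φ (gH n g) →
          mapW φ'' (gW n g'') = mapW φ (gW n g) ++ mapW φ' (gW n g') →
          mt (k1g φ'' (κ p g'')) = mt (k1g φ (κ p g)) + mt (k1g φ' (κ p g'))) ∧
        ∀ (g : ℕ) (φ : CS n g →* G), Null (φ (gH n g)) (mapW φ (gW n g)) →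
          mt (k1g φ (κ p g)) = 0 := by
    intro n
    by_cases hn : 0 < n
    · have : NeZero n := ⟨hn.ne'⟩
      obtain ⟨N, κ, hN, hκ⟩ := exists_kappa2.{v} n
      refine ⟨N, κ, fun _ => ⟨hN, fun p _ hpn => ?_⟩⟩
      exact hκ p hpn
    · exact ⟨0, fun _ _ => 0, fun h => absurd h hn⟩
  choose N κ hκ using h0
  refine ⟨κ, fun G _ => ⟨?_, ?_, ?_⟩⟩
  · intro n p g g' g'' φ φ' φ'' hn hp hpn h1 h2 h3
    have : NeZero n := ⟨hn.ne'⟩
    have : Fact p.Prime := ⟨hp⟩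
    obtain ⟨t, -, ht⟩ := (hκ n hn).2 p hpn
    exact (ht (G := G)).2.1 g g' g'' φ φ' φ'' h1 h2 h3
  · intro n p g φ hn hp hpn h1
    have : NeZero n := ⟨hn.ne'⟩
    have : Fact p.Prime := ⟨hp⟩
    obtain ⟨t, -, ht⟩ := (hκ n hn).2 p hpn
    exact (ht (G := G)).2.2 g φ h1
  · intro L hL
    have hrel := relation2 (G := G) N κ (fun n hn => (hκ n hn).1) (by
      intro n hn p hp hpn
      obtain ⟨t, ht1, ht2⟩ := (hκ n (Nat.pos_of_ne_zero hn.ne)).2 p hpn
      refine ⟨t, fun Y y hy z => ht1 Y y hy z, fun g φ => (ht2 (G := G)).1 g φ⟩) L hL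
    obtain ⟨F, hF⟩ := exists_functional
      (fun j : Idx2 G => k1g j.φ (κ j.n j.p j.g))
      (fun j => ((evw (L j.p j.h) j.w : ℤ) : ℚ)) hrel
    exact ⟨F, fun n p g φ hn hp hpn hφ => hF ⟨n, g, p, φ, hn, hp, hpn, hφ⟩⟩

end Pool.Agent.Lib25.H2
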