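import Pool.Agent.Lib_helper25.H2.NodeG

/-!
# Integrality of idempotents, and existence of nodes
-/

set_option autoImplicit false
set_option linter.unusedSectionVars false

open Matrix Pool.Agent.WhK

namespace Pool.Agent.Lib25.H2

section Integ

variable {p : ℕ} [hp : Fact p.Prime] {C : Type*} [CommGroup C]

theorem frob_coeff [Finite C] (hcop : (Nat.card C).Coprime p) (x : MonoidAlgebra ℤ_[p] C) (c : C) :
    (frob p C x).coeff (c ^ p) = x.coeff c := by
  classical
  induction x using MonoidAlgebra.induction_linear with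
  | zero => simp
  | add f g hf hg =>
    rw [map_add, MonoidAlgebra.coeff_add, Finsupp.add_apply, hf, hg, MonoidAlgebra.coeff_add,
      Finsupp.add_apply]
  | single d a =>
    rw [frob_single]
    simp only [MonoidAlgebra.coeff_single, Finsupp.single_apply]
    have h1 : (d ^ p = c ^ p) ↔ d = c := by
      constructor
      · intro h
        exact (powCoprime hcop).injective h
      · rintro rfl
        rfl
    simp only [h1]

theorem dvd_of_dvd_sq [Finite C] (hcop : (Nat.card C).Coprime p) (x : MonoidAlgebra ℤ_[p] C)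
    (h : (p : MonoidAlgebra ℤ_[p] C) ∣ x * x) : (p : MonoidAlgebra ℤ_[p] C) ∣ x := by
  have h1 : x * x ∣ x ^ p := by
    rw [← pow_two]
    exact pow_dvd_pow x hp.out.two_le
  have h2 := dvd_sub (h.trans h1) (dvd_pow_sub_frob x)
  rw [sub_sub_cancel] at h2
  rw [← pow_one (p : MonoidAlgebra ℤ_[p] C), dvd_iff_coeff] at h2 ⊢
  intro c
  rw [← frob_coeff hcop x c]
  exact h2 _

theorem p_mul_cancel {x y : MonoidAlgebra ℤ_[p] C}
    (h : (p : MonoidAlgebra ℤ_[p] C) * x = (p : MonoidAlgebra ℤ_[p] C) * y) : x = y := by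
  have hp0 : (p : ℤ_[p]) ≠ 0 := Nat.cast_ne_zero.2 hp.out.ne_zero
  ext c
  rw [natCast_smul_eq, natCast_smul_eq] at h
  have h1 := congrArg (fun z => z.coeff c) h
  change (p : ℤ_[p]) * x.coeff c = (p : ℤ_[p]) * y.coeff c at h1
  exact mul_left_cancel₀ hp0 h1

theorem pow_dvd_of_idem [Finite C] (hcop : (Nat.card C).Coprime p) (s : ℕ) :
    ∀ x : MonoidAlgebra ℤ_[p] C, x * x = (p : MonoidAlgebra ℤ_[p] C) ^ s * x →
      (p : MonoidAlgebra ℤ_[p] C) ^ s ∣ x := by
  induction s with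
  | zero =>
    intro x _
    rw [pow_zero]
    exact one_dvd x
  | succ s ih =>
    intro x hx
    have h1 : (p : MonoidAlgebra ℤ_[p] C) ∣ x := by
      apply dvd_of_dvd_sq hcop
      rw [hx, pow_succ', mul_assoc]
      exact dvd_mul_right _ _
    obtain ⟨y, rfl⟩ := h1
    have h2 : y * y = (p : MonoidAlgebra ℤ_[p] C) ^ s * y := by
      apply p_mul_cancel
      apply p_mul_cancel
      rw [pow_succ] at hx
      linear_combination hx
    obtain ⟨z, hz⟩ := ih y h2
    exact ⟨z, by rw [hz, pow_succ']; ring⟩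

/-- Idempotents of `ℚ_p[C]` are integral if the order of `C` is prime to `p`. -/
theorem exists_int_idem [Finite C] (hcop : (Nat.card C).Coprime p) (E : MonoidAlgebra ℚ_[p] C)
    (hE : E * E = E) : ∃ E0 : MonoidAlgebra ℤ_[p] C, zp p C E0 = E ∧ E0 * E0 = E0 := by
  have hinj : Function.Injective (zp p C) :=
    mapRingHom_injective' _ Subtype.coe_injective
  obtain ⟨s, -, -, -, E0, -, h2, -⟩ := exists_approx p E
  have h3 : E0 * E0 = (p : MonoidAlgebra ℤ_[p] C) ^ s * E0 := by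
    apply hinj
    rw [map_mul, map_mul, map_pow, map_natCast]
    change zp p C E0 = _ at h2
    rw [h2]
    linear_combination ((p : MonoidAlgebra ℚ_[p] C) ^ s * (p : MonoidAlgebra ℚ_[p] C) ^ s) * hE
  obtain ⟨y, rfl⟩ := pow_dvd_of_idem hcop s E0 h3
  have hp0 : (p : ℚ_[p]) ^ s ≠ 0 := pow_ne_zero _ (Nat.cast_ne_zero.2 hp.out.ne_zero)
  have h4 : zp p C y = E := by
    change zp p C _ = _ at h2
    rw [map_mul, map_pow, map_natCast] at h2
    have h5 : ∀ z : MonoidAlgebra ℚ_[p] C, (p : MonoidAlgebra ℚ_[p] C) ^ s * z =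
        ((p : ℚ_[p]) ^ s) • z := by
      intro z
      rw [Algebra.smul_def, map_pow, map_natCast]
    rw [h5, h5] at h2
    have h6 := congrArg (fun z => ((p : ℚ_[p]) ^ s)⁻¹ • z) h2
    simp only [smul_smul, inv_mul_cancel₀ hp0, one_smul] at h6
    exact h6
  exact ⟨y, h4, hinj (by rw [map_mul, h4, hE])⟩

end Integ

section NodeEx

variable {C : Type*} [CommGroup C] [Finite C]

/-- The sum of the elements of a subgroup. -/
noncomputable def sH (k : Type*) [CommRing k] (H : Subgroup C) : MonoidAlgebra k C :=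
  letI : Fintype H := Fintype.ofFinite H
  ∑ h : H, MonoidAlgebra.single (h : C) 1

theorem sH_map {k k' : Type*} [CommRing k] [CommRing k'] (i : k →+* k') (H : Subgroup C) :
    MonoidAlgebra.mapRingHom C i (sH k H) = sH k' H := by
  unfold sH
  rw [map_sum]
  refine Finset.sum_congr rfl fun h _ => ?_
  rw [MonoidAlgebra.mapRingHom_single, map_one]

theorem sH_sq (k : Type*) [CommRing k] (H : Subgroup C) :
    sH k H * sH k H = (Nat.card H : MonoidAlgebra k C) * sH k H := by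
  let _ : Fintype H := Fintype.ofFinite H
  have h1 : ∀ h : H, MonoidAlgebra.single (h : C) (1 : k) * sH k H = sH k H := by
    intro h
    unfold sH
    rw [Finset.mul_sum]
    have h2 : ∀ g : H, MonoidAlgebra.single (h : C) (1 : k) * MonoidAlgebra.single (g : C) 1 =
        MonoidAlgebra.single ((Equiv.mulLeft h g : H) : C) 1 := by
      intro g
      rw [MonoidAlgebra.single_mul_single, one_mul]
      rfl
    rw [Finset.sum_congr rfl fun g _ => h2 g]
    exact Equiv.sum_comp (Equiv.mulLeft h) (fun g : H => MonoidAlgebra.single (g : C) (1 : k))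
  have h3 : sH k H * sH k H = ∑ h : H, MonoidAlgebra.single (h : C) (1 : k) * sH k H := by
    rw [← Finset.sum_mul]
    rfl
  rw [h3, Finset.sum_congr rfl fun h _ => h1 h, Finset.sum_const, Finset.card_univ,
    nsmul_eq_mul, Nat.card_eq_fintype_card]

theorem sH_coeff (k : Type*) [CommRing k] (H : Subgroup C) (c : C) [Decidable (c ∈ H)] :
    (sH k H).coeff c = if c ∈ H then 1 else 0 := by
  classical
  let _ : Fintype H := Fintype.ofFinite H
  unfold sH
  rw [MonoidAlgebra.coeff_sum, Finset.sum_apply']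
  simp only [MonoidAlgebra.coeff_single, Finsupp.single_apply]
  split_ifs with hc
  · rw [Finset.sum_eq_single ⟨c, hc⟩]
    · simp
    · intro b _ hb
      rw [if_neg]
      intro h
      exact hb (Subtype.ext h)
    · intro h; exact absurd (Finset.mem_univ _) h
  · refine Finset.sum_eq_zero fun b _ => ?_
    rw [if_neg]
    rintro rfl
    exact hc b.2

theorem exists_int_approx (p : ℕ) [hp : Fact p.Prime] (K : ℕ) (E : MonoidAlgebra ℤ_[p] C) :
    ∃ (A : MonoidAlgebra ℤ C) (D : MonoidAlgebra ℤ_[p] C),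
      E = cg ℤ_[p] C A + (p : MonoidAlgebra ℤ_[p] C) ^ K * D := by
  classical
  have h1 : ∀ z : ℤ_[p], ∃ m : ℤ, (p : ℤ_[p]) ^ K ∣ z - m := by
    intro z
    refine ⟨(z.appr K : ℕ), ?_⟩
    have := PadicInt.appr_spec K z
    rw [Ideal.mem_span_singleton] at this
    exact_mod_cast this
  choose f hf using h1
  let f' : ℤ_[p] → ℤ := fun z => if z = 0 then 0 else f z
  have hf' : ∀ z, (p : ℤ_[p]) ^ K ∣ z - f' z := by
    intro z
    by_cases hz : z = 0
    · simp [f', hz]
    · simp only [f', if_neg hz]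
      exact hf z
  have hf0 : f' 0 = 0 := if_pos rfl
  let A : MonoidAlgebra ℤ C := ⟨E.coeff.mapRange f' hf0⟩
  have h2 : (p : MonoidAlgebra ℤ_[p] C) ^ K ∣ E - cg ℤ_[p] C A := by
    rw [dvd_iff_coeff]
    intro c
    rw [MonoidAlgebra.coeff_sub, Finsupp.sub_apply, coeff_mapRingHom']
    exact hf' _
  obtain ⟨D, hD⟩ := h2
  exact ⟨A, D, by rw [← hD]; abel⟩

theorem int_dvd_of_padic (p : ℕ) [hp : Fact p.Prime] (K : ℕ) (A : MonoidAlgebra ℤ C)
    (h : (p : MonoidAlgebra ℤ_[p] C) ^ K ∣ cg ℤ_[p] C A) :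
    ∃ B, A = (p : MonoidAlgebra ℤ C) ^ K * B := by
  classical
  rw [dvd_iff_coeff] at h
  have h1 : ∀ c, ((p : ℤ) ^ K) ∣ A.coeff c := by
    intro c
    have h2 := h c
    rw [coeff_mapRingHom'] at h2
    change (p : ℤ_[p]) ^ K ∣ ((A.coeff c : ℤ) : ℤ_[p]) at h2
    have h3 := (PadicInt.norm_le_pow_iff_mem_span_pow ((A.coeff c : ℤ) : ℤ_[p]) K).2
      (Ideal.mem_span_singleton.2 h2)
    exact_mod_cast (PadicInt.norm_int_le_pow_iff_dvd (p := p)).1 h3
  refine ⟨⟨A.coeff.mapRange (fun z => z / (p : ℤ) ^ K) (by simp)⟩, ?_⟩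
  ext c
  have h2 : ∀ x : MonoidAlgebra ℤ C, (p : MonoidAlgebra ℤ C) ^ K * x = (p ^ K : ℕ) • x := by
    intro x
    rw [nsmul_eq_mul]; push_cast; rfl
  rw [h2]
  change A.coeff c = (p ^ K : ℕ) • (A.coeff c / (p : ℤ) ^ K)
  rw [nsmul_eq_mul]
  push_cast
  rw [Int.mul_ediv_cancel' (h1 c)]

/-- **Existence of nodes.** -/
theorem node_exists (p : ℕ) [hp : Fact p.Prime] (H : Subgroup C) (j : ℕ)
    (hH : Nat.card H = p ^ j) (E : MonoidAlgebra ℤ_[p] C) (hE : E * E = E) :
    ∃ a, Node p a (((p : ℚ_[p]) ^ j)⁻¹ • (sH ℚ_[p] H * zp p C E)) := by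
  obtain ⟨A, D, hA⟩ := exists_int_approx p j E
  have hp0 : (p : ℚ_[p]) ^ j ≠ 0 := pow_ne_zero _ (Nat.cast_ne_zero.2 hp.out.ne_zero)
  have hp0' : (p : ℚ) ^ j ≠ 0 := pow_ne_zero _ (Nat.cast_ne_zero.2 hp.out.ne_zero)
  have hsq : ∀ (k : Type) [CommRing k], sH k H * sH k H = (p : MonoidAlgebra k C) ^ j * sH k H := by
    intro k _
    rw [sH_sq, hH]
    push_cast
    rfl
  have hpow : ∀ {k : Type} [CommRing k] (z : MonoidAlgebra k C),
      (p : MonoidAlgebra k C) ^ j * z = ((p : k) ^ j) • z := by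
    intro k _ z
    rw [Algebra.smul_def, map_pow, map_natCast]
  -- divisibility
  obtain ⟨B, hB⟩ : ∃ B, A - A * A = (p : MonoidAlgebra ℤ C) ^ j * B := by
    apply int_dvd_of_padic p j
    refine ⟨- D + E * D + D * cg ℤ_[p] C A, ?_⟩
    rw [map_sub, map_mul]
    have h1 : cg ℤ_[p] C A = E - (p : MonoidAlgebra ℤ_[p] C) ^ j * D := by rw [hA]; ring
    rw [h1]
    linear_combination -hE
  let ε : MonoidAlgebra ℚ C := ((p : ℚ) ^ j)⁻¹ • sH ℚ H
  have hε : (p : MonoidAlgebra ℚ C) ^ j * ε = sH ℚ H := by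
    rw [hpow, smul_smul, mul_inv_cancel₀ hp0', one_smul]
  have hε2 : ε * ε = ε := by
    change (((p : ℚ) ^ j)⁻¹ • sH ℚ H) * (((p : ℚ) ^ j)⁻¹ • sH ℚ H) = _
    rw [smul_mul_smul_comm, hsq, hpow, smul_smul]
    congr 1
    field_simp
  have hεp : qp p C ε = ((p : ℚ_[p]) ^ j)⁻¹ • sH ℚ_[p] H := by
    have h1 : (p : MonoidAlgebra ℚ_[p] C) ^ j * qp p C ε = sH ℚ_[p] H := by
      rw [← sH_map (algebraMap ℚ ℚ_[p]) H, ← hε, map_mul, map_pow, map_natCast]
    rw [← h1, hpow, smul_smul, inv_mul_cancel₀ hp0, one_smul]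
  have he : ((p : ℚ_[p]) ^ j)⁻¹ • (sH ℚ_[p] H * zp p C E) = qp p C ε * zp p C E := by
    rw [hεp, smul_mul_assoc]
  have hqz : ∀ (q : ℕ) [Fact q.Prime] (x : MonoidAlgebra ℤ C),
      qp q C (cq C x) = zp q C (cg ℤ_[q] C x) := by
    intro q _ x
    have h1 : (qp q C).comp (cq C) = (zp q C).comp (cg ℤ_[q] C) := by
      rw [mapRingHom_comp', mapRingHom_comp']
      congr 1
    exact DFunLike.congr_fun h1 x
  have hE' : zp p C E * zp p C E = zp p C E := by rw [← map_mul, hE]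
  have hε2' : qp p C ε * qp p C ε = qp p C ε := by rw [← map_mul, hε2]
  have hAA : cq C A - cq C A * cq C A = (p : MonoidAlgebra ℚ C) ^ j * cq C B := by
    rw [← map_mul, ← map_sub, hB, map_mul, map_pow, map_natCast]
  -- the integral form of `a - a ^ 2`
  have hb : cq C ((p : MonoidAlgebra ℤ C) ^ j * B - sH ℤ H * B) =
      (1 - ε) * cq C A - (1 - ε) * cq C A * ((1 - ε) * cq C A) := by
    have h1 : cq C (sH ℤ H) = sH ℚ H := sH_map _ H
    rw [map_sub, map_mul, map_mul, map_pow, map_natCast, h1, ← hε]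
    have h2 : (1 - ε) * (1 - ε) = 1 - ε := by linear_combination hε2
    have h3 : (1 - ε) * cq C A - (1 - ε) * cq C A * ((1 - ε) * cq C A) =
        (1 - ε) * (cq C A - cq C A * cq C A) := by
      linear_combination (-(cq C A * cq C A)) * h2
    rw [h3, hAA]
    ring
  refine ⟨(1 - ε) * cq C A, ⟨_, hb⟩, ⟨((p : MonoidAlgebra ℤ C) ^ j * B - sH ℤ H * B) * A, ?_⟩,
    ?_, ?_, ⟨cg ℤ_[p] C A + sH ℤ_[p] H * D, ?_⟩, fun q _ hq => ?_⟩
  · rw [map_mul, hb]
    have h2 : (1 - ε) * (1 - ε) = 1 - ε := by linear_combination hε2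
    have h3 : (1 - ε) * cq C A - (1 - ε) * cq C A * ((1 - ε) * cq C A) =
        (1 - ε) * (cq C A - cq C A * cq C A) := by
      linear_combination (-(cq C A * cq C A)) * h2
    rw [h3]
    linear_combination (-(cq C A * (cq C A - cq C A * cq C A))) * h2
  · rw [he]
    linear_combination (zp p C E * zp p C E) * hε2' + (qp p C ε) * hE'
  · rw [he, map_mul, map_sub, map_one]
    linear_combination (-(zp p C E * qp p C (cq C A))) * hε2'
  · rw [he, map_mul, map_sub, map_one, map_add, map_mul, hqz, hA, map_add, map_mul, map_pow,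
      map_natCast]
    have h1 : zp p C (sH ℤ_[p] H) = sH ℚ_[p] H := sH_map _ H
    have h2 : (p : MonoidAlgebra ℚ_[p] C) ^ j * qp p C ε = sH ℚ_[p] H := by
      rw [← sH_map (algebraMap ℚ ℚ_[p]) H, ← hε, map_mul, map_pow, map_natCast]
    rw [h1, ← h2]
    ring
  · -- integrality away from `p`
    have h1 : ∃ u : ℤ_[q], u * (p : ℤ_[q]) ^ j = 1 := by
      have h2 : IsUnit ((p : ℤ_[q]) ^ j) := by
        apply IsUnit.pow
        rw [PadicInt.isUnit_iff]
        have h3 : ¬ q ∣ p := by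
          intro h
          exact hq ((Nat.prime_dvd_prime_iff_eq (Fact.out : q.Prime) hp.out).1 h)
        by_contra h4
        have h5 : ‖(p : ℤ_[q])‖ < 1 := lt_of_le_of_ne (PadicInt.norm_le_one _) h4
        have h6 := (PadicInt.norm_int_lt_one_iff_dvd (p := q) (p : ℤ)).1 (by exact_mod_cast h5)
        exact h3 (by exact_mod_cast h6)
      obtain ⟨u, hu⟩ := h2.exists_left_inv
      exact ⟨u, hu⟩
    obtain ⟨u, hu⟩ := h1
    have hpq : (p : ℚ_[q]) ^ j ≠ 0 := pow_ne_zero _ (Nat.cast_ne_zero.2 hp.out.ne_zero)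
    have h7 : zp q C (u • sH ℤ_[q] H) = qp q C ε := by
      have h8 : (p : MonoidAlgebra ℚ_[q] C) ^ j * qp q C ε = sH ℚ_[q] H := by
        rw [← sH_map (algebraMap ℚ ℚ_[q]) H, ← hε, map_mul, map_pow, map_natCast]
      have h9 : (p : MonoidAlgebra ℤ_[q] C) ^ j * (u • sH ℤ_[q] H) = sH ℤ_[q] H := by
        rw [hpow, smul_smul, mul_comm, hu, one_smul]
      have h10 : (p : MonoidAlgebra ℚ_[q] C) ^ j * zp q C (u • sH ℤ_[q] H) = sH ℚ_[q] H := by
        rw [← sH_map (PadicInt.Coe.ringHom (p := q)) H, ← h9, map_mul, map_pow, map_natCast, h9]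
      rw [← h8, hpow, hpow] at h10
      have h11 := congrArg (fun z => ((p : ℚ_[q]) ^ j)⁻¹ • z) h10
      simp only [smul_smul, inv_mul_cancel₀ hpq, one_smul] at h11
      exact h11
    refine ⟨(1 - u • sH ℤ_[q] H) * cg ℤ_[q] C A, ?_⟩
    rw [map_mul, map_sub, map_one, h7, ← hqz, map_mul, map_sub, map_one]

end NodeEx

end Pool.Agent.Lib25.H2
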