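import Pool.Agent.Lib_helper25.H2.Base

/-!
# Evaluation of a group cocycle of degree two on a surface word
-/

set_option autoImplicit false
set_option linter.unusedSectionVars false

namespace Pool.Agent.Lib25.H2

universe u v

section Ev

variable {Γ : Type*} [Group Γ] {k : Type*} [AddCommGroup k]

/-- Normalised cocycles of degree two. -/
structure IsCoc2 (lam : Γ → Γ → k) : Prop where
  coc : ∀ x y z, lam x y + lam (x * y) z = lam y z + lam x (y * z)
  one_left : ∀ x, lam 1 x = 0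
  one_right : ∀ x, lam x 1 = 0

theorem surf_nil : surf ([] : List (Γ × Γ)) = 1 := rfl

theorem surf_cons (q : Γ × Γ) (w : List (Γ × Γ)) :
    surf (q :: w) = q.1 * q.2 * q.1⁻¹ * q.2⁻¹ * surf w := rfl

theorem evw_nil (lam : Γ → Γ → k) : evw lam [] = 0 := rfl

theorem evw_cons (lam : Γ → Γ → k) (q : Γ × Γ) (w : List (Γ × Γ)) :
    evw lam (q :: w) = lam q.1 q.2 - lam q.2 q.1 -
      lam (q.1 * q.2 * q.1⁻¹ * q.2⁻¹) (q.2 * q.1) + evw lam w +
      lam (q.1 * q.2 * q.1⁻¹ * q.2⁻¹) (surf w) := rfl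

theorem surf_append (w w' : List (Γ × Γ)) : surf (w ++ w') = surf w * surf w' := by
  induction w with
  | nil => rw [List.nil_append, surf_nil, one_mul]
  | cons q w ih => rw [List.cons_append, surf_cons, surf_cons, ih]; group

theorem mapW_nil {Δ : Type*} (f : Γ → Δ) : mapW f [] = [] := rfl

theorem mapW_cons {Δ : Type*} (f : Γ → Δ) (q : Γ × Γ) (w : List (Γ × Γ)) :
    mapW f (q :: w) = (f q.1, f q.2) :: mapW f w := rfl

theorem mapW_mapW {Δ Ξ : Type*} (f : Γ → Δ) (g : Δ → Ξ) (w : List (Γ × Γ)) :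
    mapW g (mapW f w) = mapW (fun x => g (f x)) w := by
  unfold mapW
  rw [List.map_map]
  rfl

theorem mapW_id (w : List (Γ × Γ)) : mapW (fun x => x) w = w := by
  unfold mapW
  exact List.map_id w

theorem mapW_append {Δ : Type*} (f : Γ → Δ) (w w' : List (Γ × Γ)) :
    mapW f (w ++ w') = mapW f w ++ mapW f w' := List.map_append

theorem surf_map {Δ : Type*} [Group Δ] (f : Γ →* Δ) (w : List (Γ × Γ)) :
    surf (mapW f w) = f (surf w) := by
  induction w with
  | nil => rw [mapW_nil, surf_nil, surf_nil, map_one]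
  | cons q w ih =>
    rw [mapW_cons, surf_cons, surf_cons, ih]
    simp only [map_mul, map_inv]

theorem evw_map {Δ : Type*} [Group Δ] (f : Γ →* Δ) (lam : Δ → Δ → k) (w : List (Γ × Γ)) :
    evw lam (mapW f w) = evw (fun x y => lam (f x) (f y)) w := by
  induction w with
  | nil => rfl
  | cons q w ih =>
    rw [mapW_cons, evw_cons, evw_cons, ih, surf_map]
    simp only [map_mul, map_inv]

theorem evw_add (lam mu : Γ → Γ → k) (w : List (Γ × Γ)) :
    evw (fun x y => lam x y + mu x y) w = evw lam w + evw mu w := by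
  induction w with
  | nil => simp [evw_nil]
  | cons q w ih =>
    rw [evw_cons, evw_cons, evw_cons, ih]
    abel

theorem evw_zero (w : List (Γ × Γ)) : evw (fun _ _ : Γ => (0 : k)) w = 0 := by
  induction w with
  | nil => rfl
  | cons q w ih =>
    rw [evw_cons, ih]
    abel

theorem evw_hom {l : Type*} [AddCommGroup l] (f : k →+ l) (lam : Γ → Γ → k)
    (w : List (Γ × Γ)) : evw (fun x y => f (lam x y)) w = f (evw lam w) := by
  induction w with
  | nil => rw [evw_nil, evw_nil, map_zero]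
  | cons q w ih =>
    rw [evw_cons, evw_cons, ih]
    simp only [map_add, map_sub]

theorem evw_neg (lam : Γ → Γ → k) (w : List (Γ × Γ)) :
    evw (fun x y => - lam x y) w = - evw lam w :=
  evw_hom (negAddMonoidHom : k →+ k) lam w

theorem evw_sub (lam mu : Γ → Γ → k) (w : List (Γ × Γ)) :
    evw (fun x y => lam x y - mu x y) w = evw lam w - evw mu w := by
  have h := evw_add lam (fun x y => - mu x y) w
  rw [evw_neg] at h
  rw [sub_eq_add_neg, ← h]
  congr 1
  funext x y
  exact sub_eq_add_neg _ _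

theorem evw_sum {ι : Type*} (s : Finset ι) (lam : ι → Γ → Γ → k) (w : List (Γ × Γ)) :
    evw (fun x y => ∑ i ∈ s, lam i x y) w = ∑ i ∈ s, evw (lam i) w := by
  classical
  induction s using Finset.induction_on with
  | empty =>
    simp only [Finset.sum_empty]
    exact evw_zero w
  | insert a s ha ih =>
    rw [Finset.sum_insert ha, ← ih, ← evw_add]
    congr 1
    funext x y
    rw [Finset.sum_insert ha]

/-- The evaluation of a coboundary. -/
theorem evw_coboundary (θ : Γ → k) (w : List (Γ × Γ)) :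
    evw (fun x y => θ x + θ y - θ (x * y)) w = θ 1 - θ (surf w) := by
  induction w with
  | nil => rw [evw_nil, surf_nil, sub_self]
  | cons q w ih =>
    rw [evw_cons, ih, surf_cons]
    have h1 : q.1 * q.2 * q.1⁻¹ * q.2⁻¹ * (q.2 * q.1) = q.1 * q.2 := by group
    rw [h1]
    abel

theorem evw_congr {lam mu : Γ → Γ → k} (P : Set Γ)
    (hP : ∀ x ∈ P, ∀ y ∈ P, x * y ∈ P → lam x y = mu x y) (w : List (Γ × Γ))
    (h1 : (1 : Γ) ∈ P)
    (hw : ∀ q ∈ w, q.1 ∈ P ∧ q.2 ∈ P ∧ q.1 * q.2 ∈ P ∧ q.2 * q.1 ∈ P ∧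
      q.1 * q.2 * q.1⁻¹ * q.2⁻¹ ∈ P)
    (hs : ∀ w', w' <:+ w → surf w' ∈ P) : evw lam w = evw mu w := by
  induction w with
  | nil => rfl
  | cons q w ih =>
    obtain ⟨h2, h3, h4, h5, h6⟩ := hw q List.mem_cons_self
    have h7 : q.1 * q.2 * q.1⁻¹ * q.2⁻¹ * (q.2 * q.1) = q.1 * q.2 := by group
    rw [evw_cons, evw_cons, ih (fun q hq => hw q (List.mem_cons_of_mem _ hq))
      (fun w' hw' => hs w' (hw'.trans (List.suffix_cons q w))), hP _ h2 _ h3 h4,
      hP _ h3 _ h2 h5, hP _ h6 _ h5 (by rw [h7]; exact h4),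
      hP _ h6 _ (hs w (List.suffix_cons q w)) (by
        rw [← surf_cons]
        exact hs _ (List.suffix_refl _))]

end Ev

section InvW

/-- The inverse word. -/
def invW {α : Type*} : List (α × α) → List (α × α)
  | [] => []
  | q :: w => invW w ++ [(q.2, q.1)]

theorem surf_invW {Γ : Type*} [Group Γ] (w : List (Γ × Γ)) : surf (invW w) = (surf w)⁻¹ := by
  induction w with
  | nil => change surf [] = (surf [])⁻¹; rw [surf_nil, inv_one]
  | cons q w ih =>
    change surf (invW w ++ [(q.2, q.1)]) = (surf (q :: w))⁻¹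
    rw [surf_append, ih, surf_cons, surf_cons, surf_nil]
    group

theorem mapW_invW {Γ Δ : Type*} [Group Γ] (f : Γ → Δ) (w : List (Γ × Γ)) :
    mapW f (invW w) = invW (mapW f w) := by
  induction w with
  | nil => rfl
  | cons q w ih =>
    change mapW f (invW w ++ [(q.2, q.1)]) = invW (mapW f w) ++ [(f q.2, f q.1)]
    rw [mapW_append, ih]
    rfl

end InvW

section CE

variable {Γ : Type*} [Group Γ] {k : Type*} [AddCommGroup k]

/-- The central extension defined by a cocycle. -/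
structure CE {lam : Γ → Γ → k} (_ : IsCoc2 lam) where
  /-- the central component -/
  fst : k
  /-- the image in the quotient -/
  snd : Γ

variable {lam : Γ → Γ → k} (H : IsCoc2 lam)

theorem IsCoc2.inv_comm {lam : Γ → Γ → k} (H : IsCoc2 lam) (x : Γ) : lam x⁻¹ x = lam x x⁻¹ := by
  have h := H.coc x x⁻¹ x
  rw [mul_inv_cancel, inv_mul_cancel, H.one_left, H.one_right, add_zero, add_zero] at h
  exact h.symm

namespace CE

variable {H}

@[ext] theorem ext' {x y : CE H} (h1 : x.fst = y.fst) (h2 : x.snd = y.snd) : x = y := by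
  cases x; cases y
  cases h1; cases h2
  rfl

instance : Mul (CE H) := ⟨fun x y => ⟨x.fst + y.fst + lam x.snd y.snd, x.snd * y.snd⟩⟩
instance : One (CE H) := ⟨⟨0, 1⟩⟩
instance : Inv (CE H) := ⟨fun x => ⟨- x.fst - lam x.snd x.snd⁻¹, x.snd⁻¹⟩⟩

theorem fst_mul (x y : CE H) : (x * y).fst = x.fst + y.fst + lam x.snd y.snd := rfl
theorem snd_mul (x y : CE H) : (x * y).snd = x.snd * y.snd := rfl
theorem fst_one : (1 : CE H).fst = 0 := rfl
theorem snd_one : (1 : CE H).snd = 1 := rfl
theorem fst_inv (x : CE H) : x⁻¹.fst = - x.fst - lam x.snd x.snd⁻¹ := rfl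
theorem snd_inv (x : CE H) : x⁻¹.snd = x.snd⁻¹ := rfl

instance : Group (CE H) where
  mul_assoc x y z := by
    ext
    · rw [fst_mul, fst_mul, fst_mul, fst_mul, snd_mul, snd_mul]
      have h := H.coc x.snd y.snd z.snd
      have h2 : x.fst + y.fst + lam x.snd y.snd + z.fst + lam (x.snd * y.snd) z.snd =
          x.fst + y.fst + z.fst + (lam x.snd y.snd + lam (x.snd * y.snd) z.snd) := by abel
      rw [h2, h]
      abel
    · rw [snd_mul, snd_mul, snd_mul, snd_mul, mul_assoc]
  one_mul x := by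
    ext
    · rw [fst_mul, fst_one, snd_one, H.one_left, zero_add, add_zero]
    · rw [snd_mul, snd_one, one_mul]
  mul_one x := by
    ext
    · rw [fst_mul, fst_one, snd_one, H.one_right, add_zero, add_zero]
    · rw [snd_mul, snd_one, mul_one]
  inv_mul_cancel x := by
    ext
    · rw [fst_mul, fst_inv, snd_inv, fst_one, H.inv_comm]
      abel
    · rw [snd_mul, snd_inv, inv_mul_cancel, snd_one]

/-- The projection. -/
def pr : CE H →* Γ where
  toFun := snd
  map_one' := rfl
  map_mul' _ _ := rfl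

theorem pr_apply (x : CE H) : pr x = x.snd := rfl

/-- The section. -/
def s (x : Γ) : CE H := ⟨0, x⟩

/-- The central subgroup. -/
def ctr (a : k) : CE H := ⟨a, 1⟩

theorem s_mul (x y : Γ) : (s x * s y : CE H) = ctr (lam x y) * s (x * y) := by
  ext
  · rw [fst_mul, fst_mul]
    change (0 : k) + 0 + lam x y = lam x y + 0 + lam 1 (x * y)
    rw [H.one_left]
    abel
  · rw [snd_mul, snd_mul]
    change x * y = 1 * (x * y)
    rw [one_mul]

theorem s_one : (s 1 : CE H) = 1 := rfl

theorem ctr_mul (a b : k) : (ctr a * ctr b : CE H) = ctr (a + b) := by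
  ext
  · rw [fst_mul]
    change a + b + lam 1 1 = a + b
    rw [H.one_left, add_zero]
  · rw [snd_mul]
    change (1 : Γ) * 1 = 1
    rw [one_mul]

theorem ctr_zero : (ctr 0 : CE H) = 1 := rfl

theorem ctr_comm (a : k) (x : CE H) : ctr a * x = x * ctr a := by
  ext
  · rw [fst_mul, fst_mul]
    change a + x.fst + lam 1 x.snd = x.fst + a + lam x.snd 1
    rw [H.one_left, H.one_right]
    abel
  · rw [snd_mul, snd_mul]
    change 1 * x.snd = x.snd * 1
    rw [one_mul, mul_one]

theorem eq_ctr_s (x : CE H) : x = ctr x.fst * s x.snd := by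
  ext
  · rw [fst_mul]
    change x.fst = x.fst + 0 + lam 1 x.snd
    rw [H.one_left]
    abel
  · rw [snd_mul]
    change x.snd = 1 * x.snd
    rw [one_mul]

theorem ctr_inj {a b : k} (h : (ctr a : CE H) = ctr b) : a = b := congrArg fst h

theorem fst_ctr_mul (a : k) (x : CE H) : (ctr a * x).fst = a + x.fst := by
  rw [fst_mul]
  change a + x.fst + lam 1 x.snd = _
  rw [H.one_left, add_zero]

theorem comm_of_snd {x x' y y' : CE H} (hx : x.snd = x'.snd) (hy : y.snd = y'.snd) :
    x * y * x⁻¹ * y⁻¹ = x' * y' * x'⁻¹ * y'⁻¹ := by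
  have h1 : ∀ z z' : CE H, z.snd = z'.snd → z = ctr (z.fst - z'.fst) * z' := by
    intro z z' h
    rw [eq_ctr_s z', ← mul_assoc, ctr_mul, ← h]
    conv_lhs => rw [eq_ctr_s z]
    congr 2
    rw [fst_ctr_mul]
    change z.fst = z.fst - (z'.fst + 0) + z'.fst
    abel
  rw [h1 x x' hx, h1 y y' hy]
  set c := (ctr (x.fst - x'.fst) : CE H) with hc
  set d := (ctr (y.fst - y'.fst) : CE H) with hd
  have hcc : ∀ z, c * z = z * c := ctr_comm _
  have hdc : ∀ z, d * z = z * d := ctr_comm _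
  calc c * x' * (d * y') * (c * x')⁻¹ * (d * y')⁻¹
      = c * (x' * d) * y' * x'⁻¹ * (c⁻¹ * y'⁻¹) * d⁻¹ := by group
    _ = c * (d * x') * y' * x'⁻¹ * (y'⁻¹ * c⁻¹) * d⁻¹ := by
      have h2 : c⁻¹ * y'⁻¹ = y'⁻¹ * c⁻¹ := by
        rw [← mul_inv_rev, ← mul_inv_rev, hcc]
      rw [hdc x', h2]
    _ = c * d * (x' * y' * x'⁻¹ * y'⁻¹) * c⁻¹ * d⁻¹ := by group
    _ = (x' * y' * x'⁻¹ * y'⁻¹) * (c * d) * c⁻¹ * d⁻¹ := by
      have h2 : c * d * (x' * y' * x'⁻¹ * y'⁻¹) = (x' * y' * x'⁻¹ * y'⁻¹) * (c * d) := by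
        rw [mul_assoc, hdc, ← mul_assoc, hcc]
        group
      rw [h2]
    _ = x' * y' * x'⁻¹ * y'⁻¹ := by
      have h3 : c * d = d * c := hcc d
      rw [h3]
      group

end CE

/-- The product of the commutators of the lifts. -/
theorem surf_lift (w : List (Γ × Γ)) :
    surf (mapW (CE.s (H := H)) w) = CE.ctr (evw lam w) * CE.s (surf w) := by
  induction w with
  | nil =>
    rw [mapW_nil, surf_nil, evw_nil, surf_nil, CE.ctr_zero, CE.s_one, mul_one]
  | cons q w ih =>
    rw [mapW_cons, surf_cons, ih, evw_cons, surf_cons]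
    set x := q.1
    set y := q.2
    set c := x * y * x⁻¹ * y⁻¹ with hc
    have h1 : (CE.s x * CE.s y * (CE.s x)⁻¹ * (CE.s y)⁻¹ : CE H) =
        CE.ctr (lam x y - lam y x - lam c (y * x)) * CE.s c := by
      have h2 : (CE.s x * CE.s y * (CE.s x)⁻¹ * (CE.s y)⁻¹ : CE H) =
          (CE.s x * CE.s y) * (CE.s y * CE.s x)⁻¹ := by group
      rw [h2, mul_inv_eq_iff_eq_mul, CE.s_mul, CE.s_mul, ← mul_assoc, mul_assoc _ (CE.s c),
        ← CE.ctr_comm (lam y x) (CE.s c), ← mul_assoc, CE.ctr_mul, mul_assoc, CE.s_mul,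
        ← mul_assoc, CE.ctr_mul]
      have h3 : c * (y * x) = x * y := by rw [hc]; group
      rw [h3]
      congr 2
      abel
    rw [h1]
    have h4 : (CE.ctr (lam x y - lam y x - lam c (y * x)) * CE.s c *
        (CE.ctr (evw lam w) * CE.s (surf w)) : CE H) =
        CE.ctr (lam x y - lam y x - lam c (y * x)) * (CE.ctr (evw lam w) *
          (CE.s c * CE.s (surf w))) := by
      rw [← mul_assoc, mul_assoc _ (CE.s c), ← CE.ctr_comm (evw lam w) (CE.s c)]
      group
    rw [h4, CE.s_mul, ← mul_assoc, CE.ctr_mul, ← mul_assoc, CE.ctr_mul]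

theorem surf_congr_snd {w w' : List (CE H × CE H)}
    (h : List.Forall₂ (fun q q' => q.1.snd = q'.1.snd ∧ q.2.snd = q'.2.snd) w w') :
    surf w = surf w' := by
  induction h with
  | nil => rfl
  | cons h _ ih => rw [surf_cons, surf_cons, ih, CE.comm_of_snd h.1 h.2]

theorem surf_eq_ctr {w : List (CE H × CE H)} :
    surf w = CE.ctr (evw lam (mapW CE.snd w)) * CE.s (surf (mapW CE.snd w)) := by
  rw [← surf_lift H]
  apply surf_congr_snd
  rw [mapW_mapW]
  induction w with
  | nil => exact List.Forall₂.nil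
  | cons q w ih => exact List.Forall₂.cons ⟨rfl, rfl⟩ ih

theorem evw_eq_fst (w : List (Γ × Γ)) : evw lam w = (surf (mapW (CE.s (H := H)) w)).fst := by
  rw [surf_lift, CE.fst_ctr_mul]
  change _ = _ + 0
  rw [add_zero]

include H

/-- Additivity. -/
theorem evw_append (w w' : List (Γ × Γ)) :
    evw lam (w ++ w') = evw lam w + evw lam w' + lam (surf w) (surf w') := by
  rw [evw_eq_fst H, mapW_append, surf_append, CE.fst_mul, ← evw_eq_fst, ← evw_eq_fst, surf_lift,
    surf_lift, CE.snd_mul, CE.snd_mul]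
  change _ + _ + lam (1 * surf w) (1 * surf w') = _
  rw [one_mul, one_mul]

/-- Conjugation invariance for closed words. -/
theorem evw_conj (g : Γ) (w : List (Γ × Γ)) (hw : surf w = 1) :
    evw lam (mapW (fun x => g * x * g⁻¹) w) = evw lam w := by
  have h1 : surf (mapW (CE.s (H := H)) (mapW (fun x => g * x * g⁻¹) w)) =
      surf (mapW (MulAut.conj (CE.s (H := H) g)).toMonoidHom (mapW CE.s w)) := by
    apply surf_congr_snd
    rw [mapW_mapW, mapW_mapW]
    clear hw
    induction w with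
    | nil => exact List.Forall₂.nil
    | cons q w ih => exact List.Forall₂.cons ⟨rfl, rfl⟩ ih
  have h2 : evw lam (mapW (fun x => g * x * g⁻¹) w) =
      (surf (mapW (MulAut.conj (CE.s (H := H) g)).toMonoidHom (mapW CE.s w))).fst := by
    rw [evw_eq_fst H, h1]
  rw [h2, surf_map, surf_lift, hw, CE.s_one, mul_one]
  change (CE.s g * CE.ctr (evw lam w) * (CE.s g)⁻¹ : CE H).fst = _
  rw [← CE.ctr_comm, mul_assoc, mul_inv_cancel, mul_one]
  rfl

/-- The evaluation on the inverse word. -/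
theorem evw_invW (w : List (Γ × Γ)) :
    evw lam (invW w) = - evw lam w - lam (surf w) (surf w)⁻¹ := by
  have h1 : surf (mapW (CE.s (H := H)) (invW w)) = (surf (mapW (CE.s (H := H)) w))⁻¹ := by
    rw [← surf_invW, mapW_invW]
  rw [evw_eq_fst H, h1, CE.fst_inv, ← evw_eq_fst, surf_lift, CE.snd_mul]
  change - evw lam w - lam (1 * surf w) (1 * surf w)⁻¹ = _
  rw [one_mul]

/-- Elements of finite order commuting with `x` commute with the lifts of `x`. -/
theorem IsCoc2.comm_of_finOrder {x y : Γ} (hxy : Commute x y) (hy : IsOfFinOrder y)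
    (hk : ∀ (n : ℕ) (a : k), 0 < n → n • a = 0 → a = 0) : lam x y = lam y x := by
  set X : CE H := CE.s x
  set Y : CE H := CE.s y
  have h1 : X * Y * X⁻¹ * Y⁻¹ = CE.ctr (lam x y - lam y x) := by
    have h2 : X * Y * X⁻¹ * Y⁻¹ = (X * Y) * (Y * X)⁻¹ := by group
    rw [h2, mul_inv_eq_iff_eq_mul, CE.s_mul, CE.s_mul, ← mul_assoc, CE.ctr_mul, hxy.eq,
      sub_add_cancel]
  set c : CE H := CE.ctr (lam x y - lam y x) with hc
  have h3 : X * Y * X⁻¹ = c * Y := by rw [← h1]; group
  have h4 : ∀ n : ℕ, X * Y ^ n * X⁻¹ = CE.ctr (n • (lam x y - lam y x)) * Y ^ n := by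
    intro n
    induction n with
    | zero => rw [pow_zero, zero_smul, CE.ctr_zero]; group
    | succ n ih =>
      have h5 : X * Y ^ (n + 1) * X⁻¹ = (X * Y ^ n * X⁻¹) * (X * Y * X⁻¹) := by
        rw [pow_succ]; group
      rw [h5, ih, h3, mul_assoc, ← mul_assoc (Y ^ n), ← CE.ctr_comm _ (Y ^ n), mul_assoc,
        ← mul_assoc, CE.ctr_mul, succ_nsmul, pow_succ]
  have h5 : ∃ a : k, Y ^ orderOf y = CE.ctr a := by
    refine ⟨(Y ^ orderOf y).fst, ?_⟩
    have h6 : (Y ^ orderOf y).snd = 1 := by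
      have h7 : CE.pr (Y ^ orderOf y) = 1 := by
        rw [map_pow]
        change y ^ orderOf y = 1
        exact pow_orderOf_eq_one y
      exact h7
    conv_lhs => rw [CE.eq_ctr_s (Y ^ orderOf y), h6, CE.s_one, mul_one]
  obtain ⟨a, ha⟩ := h5
  have h6 := h4 (orderOf y)
  rw [ha, ← CE.ctr_comm, mul_assoc, mul_inv_cancel, mul_one, CE.ctr_mul] at h6
  have h7 := CE.ctr_inj h6
  have h8 : orderOf y • (lam x y - lam y x) = 0 := by
    have h9 : a = orderOf y • (lam x y - lam y x) + a := h7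
    exact right_eq_add.1 h9
  exact sub_eq_zero.1 (hk _ _ (orderOf_pos_iff.2 hy) h8)

end CE

end Pool.Agent.Lib25.H2
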