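import Pool.Agent.Lib_helper25.Cyc
import Pool.Agent.Lib_helper25.H2.Ev

/-!
# Conjugation cocycles of degree two and cyclic words
-/

set_option autoImplicit false
set_option linter.unusedSectionVars false

namespace Pool.Agent.Lib25.H2

section GCo

variable {G : Type*} [Group G]

/-- A cocycle of degree two on the action groupoid of the conjugation action of `G`, supported at
elements of finite order divisible by `p`. -/
structure GCo (p : ℕ) (L : G → G → G → ℤ) : Prop where
  coc : ∀ x y z c, L x y c + L (x * y) z c = L y z (x⁻¹ * c * x) + L x (y * z) c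
  one_left : ∀ x c, L 1 x c = 0
  one_right : ∀ x c, L x 1 c = 0
  sing : ∀ x y c, L x y c ≠ 0 → IsOfFinOrder c ∧ p ∣ orderOf c

theorem GCo.pow {p : ℕ} {L : G → G → G → ℤ} (H : GCo p L) (hp : p ≠ 0) :
    GCo p (fun x y c => L x y (c ^ p)) where
  coc x y z c := by
    have h1 : (x⁻¹ * c * x) ^ p = x⁻¹ * c ^ p * x := by
      have := conj_pow (i := p) (a := x⁻¹) (b := c)
      rwa [inv_inv] at this
    change L x y (c ^ p) + L (x * y) z (c ^ p) = L y z ((x⁻¹ * c * x) ^ p) + L x (y * z) (c ^ p)
    rw [h1, H.coc]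
  one_left x c := H.one_left x _
  one_right x c := H.one_right x _
  sing x y c h := by
    obtain ⟨h1, h2⟩ := H.sing x y _ h
    exact ⟨IsOfFinOrder.of_pow h1 hp, h2.trans (orderOf_pow_dvd p)⟩

/-- the restriction to a centraliser -/
def Lc (L : G → G → G → ℤ) (c : G) (x y : Subgroup.centralizer {c}) : ℤ := L x y c

theorem GCo.isCoc2 {p : ℕ} {L : G → G → G → ℤ} (H : GCo p L) (c : G) : IsCoc2 (Lc L c) where
  coc x y z := by
    have h1 := H.coc x y z c
    have h2 : (x : G)⁻¹ * c * x = c := by
      have h3 := Subgroup.mem_centralizer_singleton_iff.1 x.2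
      rw [mul_assoc, ← h3]
      group
    rw [h2] at h1
    exact h1
  one_left x := H.one_left _ _
  one_right x := H.one_right _ _

theorem GCo.comm {p : ℕ} {L : G → G → G → ℤ} (H : GCo p L) {x c : G} (hx : Commute x c) :
    L x c c = L c x c := by
  by_cases hc : IsOfFinOrder c
  · have h1 := (H.isCoc2 c).comm_of_finOrder
      (x := ⟨x, Subgroup.mem_centralizer_singleton_iff.2 hx.eq⟩)
      (y := ⟨c, Subgroup.mem_centralizer_singleton_iff.2 rfl⟩)
      (by
        change _ * _ = _ * _
        apply Subtype.ext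
        exact hx.eq)
      (by
        rw [← orderOf_pos_iff, ← Subgroup.orderOf_coe]
        exact orderOf_pos_iff.2 hc)
      (fun n a hn h => by
        rw [nsmul_eq_mul, mul_eq_zero] at h
        rcases h with h | h
        · omega
        · exact h)
    exact h1
  · have h1 : L x c c = 0 := by
      by_contra h
      exact hc (H.sing _ _ _ h).1
    have h2 : L c x c = 0 := by
      by_contra h
      exact hc (H.sing _ _ _ h).1
    rw [h1, h2]

/-- The natural central lifts. -/
theorem GCo.exists_chi {p : ℕ} {L : G → G → G → ℤ} (H : GCo p L) : ∃ χ : G → ℤ,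
    (∀ g c, L g (g⁻¹ * c * g) c + χ (g⁻¹ * c * g) = L c g c + χ c) ∧
    ∀ c, χ c ≠ 0 → IsOfFinOrder c ∧ p ∣ orderOf c := by
  -- the defect
  let D : G → G → ℤ := fun g c => L g (g⁻¹ * c * g) c - L c g c
  have hD : ∀ g g' c, D (g * g') c = D g c + D g' (g⁻¹ * c * g) := by
    intro g g' c
    have e0 : (g * g')⁻¹ * c * (g * g') = g'⁻¹ * (g⁻¹ * c * g) * g' := by group
    simp only [D]
    rw [e0]
    set c' := g⁻¹ * c * g with hc'
    set c'' := g'⁻¹ * c' * g' with hc''
    have h1 := H.coc g g' c'' c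
    have h2 := H.coc c g g' c
    have h3 := H.coc g c' g' c
    rw [← hc'] at h1 h3
    have e1 : c⁻¹ * c * c = c := by group
    rw [e1] at h2
    have e2 : g * c' = c * g := by rw [hc']; group
    have e3 : g' * c'' = c' * g' := by rw [hc'']; group
    rw [e2] at h3
    rw [e3] at h1
    linarith
  have hD0 : ∀ g c, Commute g c → D g c = 0 := by
    intro g c hg
    simp only [D]
    have h1 : g⁻¹ * c * g = c := by rw [mul_assoc, ← hg.eq]; group
    rw [h1, H.comm hg, sub_self]
  classical
  -- representatives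
  let rep : G → G := fun c => (ConjClasses.mk c).out
  have hrep : ∀ c, ∃ t, t⁻¹ * rep c * t = c := by
    intro c
    have h1 : IsConj (rep c) c := ConjClasses.mk_eq_mk_iff_isConj.1 (Quotient.out_eq _)
    obtain ⟨x, hx⟩ := isConj_iff.1 h1
    exact ⟨x⁻¹, by rw [inv_inv]; exact hx⟩
  choose t ht using hrep
  let Sing : G → Prop := fun c => IsOfFinOrder c ∧ p ∣ orderOf c
  have hSing : ∀ g c, Sing (g⁻¹ * c * g) ↔ Sing c := by
    intro g c
    have h1 : orderOf (g⁻¹ * c * g) = orderOf c := by
      have : IsConj c (g⁻¹ * c * g) := isConj_iff.2 ⟨g⁻¹, by group⟩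
      obtain ⟨u, hu⟩ := this
      exact (hu.orderOf_eq (u : G)).symm
    simp only [Sing, ← orderOf_pos_iff, h1]
  refine ⟨fun c => if Sing c then - D (t c) (rep c) else 0, fun g c => ?_, fun c hc => ?_⟩
  · by_cases hc : Sing c
    · have hc' : Sing (g⁻¹ * c * g) := (hSing g c).2 hc
      change L g (g⁻¹ * c * g) c + (if Sing (g⁻¹ * c * g) then _ else 0) =
        L c g c + (if Sing c then _ else 0)
      rw [if_pos hc, if_pos hc']
      have hr : rep (g⁻¹ * c * g) = rep c := by
        have h : ConjClasses.mk (g⁻¹ * c * g) = ConjClasses.mk c :=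
          ConjClasses.mk_eq_mk_iff_isConj.2 (isConj_iff.2 ⟨g, by group⟩)
        change Quotient.out _ = Quotient.out _
        rw [h]
      have h1 := hD (t c) g (rep c)
      rw [ht c] at h1
      have h2 : t c * g = (t c * g * (t (g⁻¹ * c * g))⁻¹) * t (g⁻¹ * c * g) := by group
      have h3 : Commute (t c * g * (t (g⁻¹ * c * g))⁻¹) (rep c) := by
        have e1 := ht (g⁻¹ * c * g)
        rw [hr] at e1
        have e2 := ht c
        set s := t (g⁻¹ * c * g)
        set r := rep c
        set u := t c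
        have e3 : s⁻¹ * r * s = g⁻¹ * (u⁻¹ * r * u) * g := by rw [e1, e2]
        change u * g * s⁻¹ * r = r * (u * g * s⁻¹)
        have e4 : s⁻¹ * r = g⁻¹ * (u⁻¹ * r * u) * g * s⁻¹ := by rw [← e3]; group
        rw [mul_assoc _ s⁻¹ r, e4]
        group
      have h4 := hD (t c * g * (t (g⁻¹ * c * g))⁻¹) (t (g⁻¹ * c * g)) (rep c)
      rw [← h2, hD0 _ _ h3, zero_add] at h4
      have h5 : (t c * g * (t (g⁻¹ * c * g))⁻¹)⁻¹ * rep c * (t c * g * (t (g⁻¹ * c * g))⁻¹) =
          rep c := by
        rw [mul_assoc, ← h3.eq]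
        group
      rw [h5] at h4
      rw [hr]
      have h6 : D g c = L g (g⁻¹ * c * g) c - L c g c := rfl
      linarith
    · have hc' : ¬ Sing (g⁻¹ * c * g) := fun h => hc ((hSing g c).1 h)
      change L g (g⁻¹ * c * g) c + (if Sing (g⁻¹ * c * g) then _ else 0) =
        L c g c + (if Sing c then _ else 0)
      rw [if_neg hc, if_neg hc']
      have h1 : L g (g⁻¹ * c * g) c = 0 := by
        by_contra h
        exact hc (H.sing _ _ _ h)
      have h2 : L c g c = 0 := by
        by_contra h
        exact hc (H.sing _ _ _ h)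
      rw [h1, h2]
  · by_contra h
    exact hc (if_neg h)

end GCo

section RotDef

variable {N : ℕ} {X Y : Type*}

/-- The rotation of a cyclic word. -/
def rot (d : ℕ) (s : ZMod N → X) : ZMod N → X := fun t => s (t + (d : ZMod N))

theorem rot_zero (s : ZMod N → X) : rot 0 s = s := by
  funext t
  change s (t + ((0 : ℕ) : ZMod N)) = s t
  rw [Nat.cast_zero, add_zero]

theorem rot_rot (d e : ℕ) (s : ZMod N → X) : rot d (rot e s) = rot (d + e) s := by
  funext t
  change s (t + (d : ZMod N) + (e : ZMod N)) = s (t + ((d + e : ℕ) : ZMod N))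
  congr 1
  push_cast
  ring

theorem rot_N (s : ZMod N → X) : rot N s = s := by
  funext t
  change s (t + ((N : ℕ) : ZMod N)) = s t
  rw [ZMod.natCast_self, add_zero]

end RotDef

section Words

variable {G : Type*} [Group G] {N : ℕ}

theorem cyc_rot (s : ZMod N → G) (d : ℕ) : cyc (rot d s) = (pre s d)⁻¹ * cyc s * pre s d :=
  cyc_shift s d

/-- The defect of a product of lifts. -/
def Kd (L : G → G → G → ℤ) (s : ZMod N → G) (d : ℕ) : ℤ :=
  ∑ i ∈ Finset.range d, L (pre s i) (s (i : ZMod N)) (cyc s)

/-- The total defect relative to the natural central lift. -/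
def kap (L : G → G → G → ℤ) (χ : G → ℤ) (s : ZMod N → G) : ℤ := Kd L s N - χ (cyc s)

variable {p : ℕ} {L : G → G → G → ℤ} (H : GCo p L) {χ : G → ℤ}
  (hχ : ∀ g c, L g (g⁻¹ * c * g) c + χ (g⁻¹ * c * g) = L c g c + χ c)

include H

theorem Kd_rot (s : ZMod N → G) (d : ℕ) :
    Kd L s (1 + d) = Kd L (rot 1 s) d + L (s 0) (pre (rot 1 s) d) (cyc s) := by
  have hc1 : cyc (rot 1 s) = (s 0)⁻¹ * cyc s * s 0 := by
    rw [cyc_rot, ← zero_add 1, pre_succ, pre_zero]
    simp
  induction d with
  | zero =>
    unfold Kd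
    simp only [Nat.add_zero, Finset.sum_range_one, Finset.sum_range_zero, pre_zero,
      H.one_left, H.one_right]
    simp
  | succ d ih =>
    have h1 : Kd L s (1 + (d + 1)) = Kd L s (1 + d) +
        L (pre s (1 + d)) (s ((1 + d : ℕ) : ZMod N)) (cyc s) := by
      unfold Kd
      rw [← add_assoc, Finset.sum_range_succ]
    have h2 : Kd L (rot 1 s) (d + 1) = Kd L (rot 1 s) d +
        L (pre (rot 1 s) d) (rot 1 s (d : ZMod N)) (cyc (rot 1 s)) := by
      unfold Kd
      rw [Finset.sum_range_succ]
    have h3 : pre s (1 + d) = s 0 * pre (rot 1 s) d := by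
      rw [pre_add, ← zero_add 1, pre_succ, pre_zero]
      simp only [Nat.cast_zero, one_mul, zero_add]
      rfl
    have h4 : rot 1 s (d : ZMod N) = s ((1 + d : ℕ) : ZMod N) := by
      change s _ = s _
      congr 1
      push_cast
      ring
    have h5 := H.coc (s 0) (pre (rot 1 s) d) (s ((1 + d : ℕ) : ZMod N)) (cyc s)
    have h6 : pre (rot 1 s) (d + 1) = pre (rot 1 s) d * s ((1 + d : ℕ) : ZMod N) := by
      rw [pre_succ, h4]
    rw [h1, h2, ih, h3, h4, hc1, h6]
    linarith

include hχ

theorem kap_rot (s : ZMod N → G) : kap L χ (rot 1 s) = kap L χ s := by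
  have h1 := Kd_rot H s N
  have h2 : Kd L s (1 + N) = Kd L s N + L (cyc s) (s 0) (cyc s) := by
    unfold Kd
    rw [add_comm, Finset.sum_range_succ]
    congr 2
    rw [ZMod.natCast_self]
  have hc1 : cyc (rot 1 s) = (s 0)⁻¹ * cyc s * s 0 := by
    rw [cyc_rot, ← zero_add 1, pre_succ, pre_zero]
    simp
  have h3 := hχ (s 0) (cyc s)
  have h4 : pre (rot 1 s) N = (s 0)⁻¹ * cyc s * s 0 := hc1
  rw [h2, h4] at h1
  unfold kap
  rw [hc1]
  linarith

theorem kap_rot' (s : ZMod N → G) (d : ℕ) : kap L χ (rot d s) = kap L χ s := by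
  induction d with
  | zero => rw [rot_zero]
  | succ d ih =>
    rw [add_comm, ← rot_rot, kap_rot H hχ, ih]

/-- The comparison of the two ways of grouping the letters of an alternating word. -/
theorem kap_alt (u v : ZMod N → G) :
    (∑ t ∈ Finset.range N, L (u (t : ZMod N)) (v (t : ZMod N))
      (cyc (rot t (fun t => u t * v t)))) -
    (∑ t ∈ Finset.range N, L (v (t : ZMod N)) (u ((t : ZMod N) + 1))
      (cyc (rot t (fun t => v t * u (t + 1))))) =
    kap L χ (fun t => v t * u (t + 1)) - kap L χ (fun t => u t * v t) := by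
  set a : ZMod N → G := fun t => u t * v t with ha
  set b : ZMod N → G := fun t => v t * u (t + 1) with hb
  have hcb : cyc b = (u 0)⁻¹ * cyc a * u 0 := by
    have := cyc_alt (N := N) u v
    exact this
  have hpre : ∀ d : ℕ, u 0 * pre b d = pre a d * u (d : ZMod N) := by
    intro d
    induction d with
    | zero => simp [pre_zero]
    | succ d ih =>
      rw [pre_succ, pre_succ, ← mul_assoc, ih]
      simp only [ha, hb]
      push_cast
      group
  have key : ∀ d : ℕ, L (u 0) (pre b d) (cyc a) +
      ((∑ t ∈ Finset.range d, L (v (t : ZMod N)) (u ((t : ZMod N) + 1)) (cyc (rot t b))) +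
        Kd L b d) =
      (∑ t ∈ Finset.range d, L (u (t : ZMod N)) (v (t : ZMod N)) (cyc (rot t a))) + Kd L a d +
        L (pre a d) (u (d : ZMod N)) (cyc a) := by
    intro d
    induction d with
    | zero =>
      unfold Kd
      simp only [Finset.sum_range_zero, pre_zero, H.one_left, H.one_right]
      simp
    | succ d ih =>
      rw [Finset.sum_range_succ, Finset.sum_range_succ]
      have e1 : Kd L b (d + 1) = Kd L b d + L (pre b d) (b (d : ZMod N)) (cyc b) := by
        unfold Kd
        rw [Finset.sum_range_succ]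
      have e2 : Kd L a (d + 1) = Kd L a d + L (pre a d) (a (d : ZMod N)) (cyc a) := by
        unfold Kd
        rw [Finset.sum_range_succ]
      have e3 : pre b (d + 1) = pre b d * b (d : ZMod N) := pre_succ _ _
      have e4 : pre a (d + 1) = pre a d * u (d : ZMod N) * v (d : ZMod N) := by
        rw [pre_succ, mul_assoc]
      have e5 : b (d : ZMod N) = v (d : ZMod N) * u ((d : ZMod N) + 1) := rfl
      have e6 : a (d : ZMod N) = u (d : ZMod N) * v (d : ZMod N) := rfl
      have e7 : (((d + 1 : ℕ)) : ZMod N) = (d : ZMod N) + 1 := by push_cast; ring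
      -- the three cocycle identities
      have c1 := H.coc (u 0) (pre b d) (b (d : ZMod N)) (cyc a)
      rw [← hcb, hpre d] at c1
      have c2 := H.coc (pre a d * u (d : ZMod N)) (v (d : ZMod N)) (u ((d : ZMod N) + 1)) (cyc a)
      have c3 := H.coc (pre a d) (u (d : ZMod N)) (v (d : ZMod N)) (cyc a)
      have b1 : cyc (rot d b) = (pre a d * u (d : ZMod N))⁻¹ * cyc a *
          (pre a d * u (d : ZMod N)) := by
        rw [cyc_rot, hcb, ← hpre d]
        group
      have b2 : cyc (rot d a) = (pre a d)⁻¹ * cyc a * pre a d := cyc_rot a d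
      rw [← b1] at c2
      rw [← b2] at c3
      rw [e1, e2, e3, e4, e6, e7]
      rw [e5] at c1 ⊢
      linarith
  have h1 := key N
  have h2 : pre b N = cyc b := rfl
  have h3 : pre a N = cyc a := rfl
  rw [h2, h3, ZMod.natCast_self] at h1
  have h4 := hχ (u 0) (cyc a)
  unfold kap
  rw [hcb] at h1 ⊢
  linarith

end Words

end Pool.Agent.Lib25.H2
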