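import Pool.Agent.Lib_helper25.Vanish
import Pool.Agent.Lib_helper25.H2.Rot

/-!
# Cyclic traces of words of matrices and Gauss congruences
-/

set_option autoImplicit false
set_option linter.unusedSectionVars false

open Matrix

namespace Pool.Agent.Lib25.H2

section Ctr

variable {k : Type*} [CommRing k] {m : Type*} [Fintype m] {N : ℕ} [NeZero N]

/-- The rotation as a bijection. -/
def rotE (N : ℕ) (X : Type*) : (ZMod N → X) ≃ (ZMod N → X) where
  toFun w t := w (t + 1)
  invFun w t := w (t - 1)
  left_inv w := by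
    funext t
    change w (t - 1 + 1) = w t
    rw [sub_add_cancel]
  right_inv w := by
    funext t
    change w (t + 1 - 1) = w t
    rw [add_sub_cancel_right]

/-- The trace of the product of a cyclic word of matrices. -/
def ctr (A : ZMod N → Matrix m m k) : k :=
  ∑ i : ZMod N → m, ∏ t, A t (i t) (i (t + 1))

theorem ctr_sum {J : Type*} [Fintype J] (f : ZMod N → J → Matrix m m k) :
    ctr (fun t => ∑ x, f t x) = ∑ w : ZMod N → J, ctr (fun t => f t (w t)) := by
  classical
  unfold ctr
  rw [Finset.sum_comm]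
  refine Finset.sum_congr rfl fun i _ => ?_
  have h := Finset.prod_univ_sum (fun _ : ZMod N => (Finset.univ : Finset J))
    (fun t x => f t x (i t) (i (t + 1)))
  rw [Fintype.piFinset_univ] at h
  rw [← h]
  refine Finset.prod_congr rfl fun t _ => ?_
  exact Matrix.sum_apply (i t) (i (t + 1)) _ _

theorem ctr_rot (A : ZMod N → Matrix m m k) : ctr (fun t => A (t + 1)) = ctr A := by
  unfold ctr
  rw [← (rotE N m).sum_comp (fun i => ∏ t, A (t + 1) (i t) (i (t + 1)))]
  refine Finset.sum_congr rfl fun i _ => ?_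
  exact Equiv.prod_comp (Equiv.addRight (1 : ZMod N)) (fun t => A t (i t) (i (t + 1)))

/-- Separating pairs of words. -/
theorem ctr_mul {l : Type*} [Fintype l] (B : ZMod N → Matrix m l k) (C : ZMod N → Matrix l m k) :
    ctr (fun t => B t * C t) =
      ∑ i : ZMod N → m, ∑ j : ZMod N → l, ∏ t, (B t (i t) (j t) * C t (j t) (i (t + 1))) := by
  classical
  unfold ctr
  refine Finset.sum_congr rfl fun i _ => ?_
  have h := Finset.prod_univ_sum (fun _ : ZMod N => (Finset.univ : Finset l))
    (fun t x => B t (i t) x * C t x (i (t + 1)))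
  rw [Fintype.piFinset_univ] at h
  rw [← h]
  refine Finset.prod_congr rfl fun t _ => ?_
  exact Matrix.mul_apply

theorem ctr_mul_comm {l : Type*} [Fintype l] (B : ZMod N → Matrix m l k)
    (C : ZMod N → Matrix l m k) :
    ctr (fun t => B t * C t) = ctr (fun t => C t * B (t + 1)) := by
  rw [ctr_mul, ctr_mul, Finset.sum_comm]
  refine Finset.sum_congr rfl fun j _ => ?_
  rw [← (rotE N m).sum_comp
    (fun i => ∏ t, (C t (j t) (i t) * B (t + 1) (i t) (j (t + 1))))]
  refine Finset.sum_congr rfl fun i _ => ?_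
  rw [Finset.prod_mul_distrib, Finset.prod_mul_distrib]
  have h1 : ∏ t, B t (i t) (j t) = ∏ t, B (t + 1) (i (t + 1)) (j (t + 1)) :=
    (Equiv.prod_comp (Equiv.addRight (1 : ZMod N)) (fun t => B t (i t) (j t))).symm
  rw [h1, mul_comm]
  rfl

theorem ctr_zero [DecidableEq m] (A : ZMod N → Matrix m m k) (t : ZMod N) (ht : A t = 0) :
    ctr A = 0 := by
  unfold ctr
  refine Finset.sum_eq_zero fun i _ => Finset.prod_eq_zero (Finset.mem_univ t) ?_
  rw [ht]
  rfl

theorem ctr_single [DecidableEq m] (A : ZMod N → Matrix m m k) (hA : ∀ t, t ≠ 0 → A t = 1) :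
    ctr A = (A 0).trace := by
  classical
  unfold ctr
  let cst : m ↪ (ZMod N → m) := ⟨fun c _ => c, fun a b h => congrFun h 0⟩
  have hsub : ∑ i : ZMod N → m, ∏ t, A t (i t) (i (t + 1)) =
      ∑ i ∈ Finset.univ.map cst, ∏ t, A t (i t) (i (t + 1)) := by
    symm
    refine Finset.sum_subset (Finset.subset_univ _) fun i _ hi => ?_
    have h1 : ∃ t : ZMod N, t ≠ 0 ∧ i t ≠ i (t + 1) := by
      by_contra hcon
      push Not at hcon
      apply hi
      rw [Finset.mem_map]
      refine ⟨i 0, Finset.mem_univ _, ?_⟩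
      funext t
      exact (const_of_step i hcon t).symm
    obtain ⟨t, ht, hti⟩ := h1
    refine Finset.prod_eq_zero (Finset.mem_univ t) ?_
    rw [hA t ht, Matrix.one_apply_ne hti]
  rw [hsub, Finset.sum_map, Matrix.trace]
  refine Finset.sum_congr rfl fun c _ => ?_
  rw [Finset.prod_eq_single (0 : ZMod N)]
  · rfl
  · intro t _ ht
    rw [hA t ht]
    exact Matrix.one_apply_eq c
  · intro h
    exact absurd (Finset.mem_univ _) h

theorem ctr_fiber {J S : Type*} [Fintype J] [DecidableEq S] [DecidableEq m]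
    (f : ZMod N → J → Matrix m m k) (π : ZMod N → J → S) (Ψ : (ZMod N → S) → k)
    (T : Finset (ZMod N → S)) (hT : ∀ w : ZMod N → J, (fun t => π t (w t)) ∈ T) :
    ∑ w : ZMod N → J, ctr (fun t => f t (w t)) * Ψ (fun t => π t (w t)) =
    ∑ s ∈ T, ctr (fun t => ∑ x ∈ Finset.univ.filter (fun x => π t x = s t), f t x) * Ψ s := by
  classical
  rw [← Finset.sum_fiberwise_of_maps_to (s := Finset.univ) (t := T)
    (g := fun (w : ZMod N → J) t => π t (w t)) (fun w _ => hT w)]
  refine Finset.sum_congr rfl fun s _ => ?_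
  have h1 : ∀ t, ∑ x ∈ Finset.univ.filter (fun x => π t x = s t), f t x =
      ∑ x, if π t x = s t then f t x else 0 := fun t => Finset.sum_filter _ _
  simp only [h1]
  rw [ctr_sum, Finset.sum_mul, Finset.sum_filter]
  refine Finset.sum_congr rfl fun w _ => ?_
  split_ifs with hw
  · rw [hw]
    congr 2
    funext t
    rw [if_pos (congrFun hw t)]
  · obtain ⟨t, ht⟩ := Function.ne_iff.1 hw
    rw [ctr_zero _ t (if_neg ht), zero_mul]

/-- Change of variables in the letters of a word. -/
theorem ctr_contract {J J' S : Type*} [Fintype J] [Fintype J'] [DecidableEq S] [DecidableEq m]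
    (f : ZMod N → J → Matrix m m k) (π : ZMod N → J → S) (f' : ZMod N → J' → Matrix m m k)
    (π' : ZMod N → J' → S)
    (h : ∀ t s, ∑ x ∈ Finset.univ.filter (fun x => π t x = s), f t x =
      ∑ x ∈ Finset.univ.filter (fun x => π' t x = s), f' t x) (Ψ : (ZMod N → S) → k) :
    ∑ w : ZMod N → J, ctr (fun t => f t (w t)) * Ψ (fun t => π t (w t)) =
      ∑ w : ZMod N → J', ctr (fun t => f' t (w t)) * Ψ (fun t => π' t (w t)) := by
  classical
  have h1 := ctr_fiber f π Ψ (Finset.univ.image (fun (w : ZMod N → J) t => π t (w t)) ∪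
    Finset.univ.image (fun (w : ZMod N → J') t => π' t (w t)))
    (fun w => Finset.mem_union_left _ (Finset.mem_image_of_mem _ (Finset.mem_univ w)))
  have h2 := ctr_fiber f' π' Ψ (Finset.univ.image (fun (w : ZMod N → J) t => π t (w t)) ∪
    Finset.univ.image (fun (w : ZMod N → J') t => π' t (w t)))
    (fun w => Finset.mem_union_right _ (Finset.mem_image_of_mem _ (Finset.mem_univ w)))
  rw [h1, h2]
  refine Finset.sum_congr rfl fun s _ => ?_
  congr 2
  funext t
  exact h t (s t)

theorem ctr_split {J : Type*} [Fintype J] (f : J → Matrix m m k) (T : (ZMod N → J) → k) :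
    ∑ w : ZMod N → J, ctr (fun t => f (w t)) * T w =
      ∑ v : ZMod N → m × J, (∏ t, f (v t).2 (v t).1 (v (t + 1)).1) * T (fun t => (v t).2) := by
  classical
  rw [← (splitEquiv (ZMod N) m J).symm.sum_comp, Fintype.sum_prod_type, Finset.sum_comm]
  refine Finset.sum_congr rfl fun w _ => ?_
  unfold ctr
  rw [Finset.sum_mul]
  rfl

end Ctr

section GaussC

theorem prod_zmod {k : Type*} [CommMonoid k] {N : ℕ} [NeZero N] (F : ZMod N → k) :
    ∏ t, F t = ∏ t ∈ Finset.range N, F (t : ZMod N) := by
  symm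
  refine Finset.prod_nbij (fun t => (t : ZMod N)) (fun t _ => Finset.mem_univ _) ?_ ?_
    (fun t _ => rfl)
  · intro a ha b hb hab
    have ha' : a < N := by simpa using ha
    have hb' : b < N := by simpa using hb
    have h1 := (ZMod.natCast_eq_natCast_iff' a b N).1 hab
    rwa [Nat.mod_eq_of_lt ha', Nat.mod_eq_of_lt hb'] at h1
  · intro t _
    exact ⟨t.val, by simpa using ZMod.val_lt t, ZMod.natCast_zmod_val t⟩

theorem prod_range_periodic {k : Type*} [CommMonoid k] (F : ℕ → k) (M : ℕ)
    (hF : ∀ t, F (t + M) = F t) (r : ℕ) :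
    ∏ t ∈ Finset.range (M * r), F t = (∏ t ∈ Finset.range M, F t) ^ r := by
  induction r with
  | zero => simp
  | succ r ih =>
    rw [Nat.mul_succ, Finset.prod_range_add, ih, pow_succ]
    congr 1
    refine Finset.prod_congr rfl fun t _ => ?_
    have : ∀ r : ℕ, F (M * r + t) = F t := by
      intro r
      induction r with
      | zero => simp
      | succ r ih =>
        rw [← ih, ← hF (M * r + t)]
        congr 1
        ring
    exact this r

theorem prod_range_shift {k : Type*} [CommMonoid k] (F : ℕ → k) (M : ℕ)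
    (hF : ∀ t, F (t + M) = F t) :
    ∏ t ∈ Finset.range M, F (t + 1) = ∏ t ∈ Finset.range M, F t := by
  cases M with
  | zero => simp
  | succ M =>
    rw [Finset.prod_range_succ, Finset.prod_range_succ' F]
    congr 1
    have := hF 0
    rwa [zero_add] at this

theorem sum_orbit_dvd {k : Type*} [CommRing k] {α : Type*} [CommGroup α] [Finite α] {X : Type*}
    [Fintype X] [MulAction α X] (f : X → k) (hf : ∀ (g : α) x, f (g • x) = f x) (q : k)
    (h : ∀ x, q ∣ (Nat.card (MulAction.orbit α x) : k) * f x) : q ∣ ∑ x, f x := by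
  classical
  rw [← Finset.sum_fiberwise_of_maps_to (g := fun x => (Quotient.mk (MulAction.orbitRel α X) x))
    (t := Finset.univ) (fun _ _ => Finset.mem_univ _)]
  refine Finset.dvd_sum fun ω _ => ?_
  induction ω using Quotient.inductionOn with
  | h x0 =>
    have h1 : ∀ x ∈ Finset.univ.filter
        (fun x => (Quotient.mk (MulAction.orbitRel α X) x) =
          (Quotient.mk (MulAction.orbitRel α X) x0)), f x = f x0 := by
      intro x hx
      have h2 := (Finset.mem_filter.1 hx).2
      have h3 : (MulAction.orbitRel α X).r x x0 := Quotient.exact h2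
      obtain ⟨g, hg⟩ := h3
      rw [← hg]
      exact hf g x0
    rw [Finset.sum_congr rfl h1, Finset.sum_const, nsmul_eq_mul]
    have h6 : (Finset.univ.filter
        (fun x => (Quotient.mk (MulAction.orbitRel α X) x) =
          (Quotient.mk (MulAction.orbitRel α X) x0))).card =
          Nat.card (MulAction.orbit α x0) := by
      rw [Nat.card_eq_fintype_card, Fintype.card_subtype]
      congr 1
      ext x
      simp only [Finset.mem_filter, Finset.mem_univ, true_and]
      constructor
      · intro h2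
        exact (Quotient.exact h2 : (MulAction.orbitRel α X).r x x0)
      · intro h3
        exact Quotient.sound h3
    rw [h6]
    exact h x0

variable {p : ℕ} [hpf : Fact p.Prime]

theorem padic_pow_congr (x : ℤ_[p]) (r : ℕ) :
    (p : ℤ_[p]) ^ (r + 1) ∣ x ^ (p ^ (r + 1)) - x ^ (p ^ r) := by
  have h1 : (p : ℤ_[p]) ∣ x ^ p - x := by
    rw [← Ideal.mem_span_singleton, ← PadicInt.maximalIdeal_eq_span_p, ← PadicInt.ker_toZMod,
      RingHom.mem_ker, map_sub, map_pow, ZMod.pow_card, sub_self]
  have h2 := dvd_sub_pow_of_dvd_sub h1 r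
  rw [← pow_mul, ← pow_succ'] at h2
  exact h2

theorem rot_of_orbit {n : ℕ} {J : Type*} (w : ZMod (p ^ n) → J) :
    letI := rotAction (p ^ n) J
    ∃ i, i ≤ n ∧ Nat.card (MulAction.orbit (Multiplicative (ZMod (p ^ n))) w) = p ^ i ∧
      ∀ t, w (t + ((p ^ i : ℕ) : ZMod (p ^ n))) = w t := by
  classical
  let _ := rotAction (p ^ n) J
  have hprime : p.Prime := hpf.out
  have : NeZero (p ^ n) := ⟨pow_ne_zero _ hprime.ne_zero⟩
  have h1 : (MulAction.stabilizer (Multiplicative (ZMod (p ^ n))) w).index =
      Nat.card (MulAction.orbit (Multiplicative (ZMod (p ^ n))) w) :=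
    MulAction.index_stabilizer _ w
  have h2 : (MulAction.stabilizer (Multiplicative (ZMod (p ^ n))) w).index ∣ p ^ n := by
    have h3 : Nat.card (Multiplicative (ZMod (p ^ n))) = p ^ n := by simp
    conv_rhs => rw [← h3]
    exact Subgroup.index_dvd_card _
  obtain ⟨i, hi1, hi⟩ := (Nat.dvd_prime_pow hprime).1 h2
  refine ⟨i, hi1, h1.symm.trans hi, fun t => ?_⟩
  have h4 : (Multiplicative.ofAdd (1 : ZMod (p ^ n))) ^ (p ^ i) ∈
      MulAction.stabilizer (Multiplicative (ZMod (p ^ n))) w := by
    rw [← hi]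
    exact Subgroup.pow_index_mem _ _
  have h5 := congrFun (MulAction.mem_stabilizer_iff.1 h4) t
  have h6 : Multiplicative.toAdd ((Multiplicative.ofAdd (1 : ZMod (p ^ n))) ^ (p ^ i)) =
      ((p ^ i : ℕ) : ZMod (p ^ n)) := by
    rw [toAdd_pow, toAdd_ofAdd, nsmul_eq_mul, mul_one]
  have h7 : ((Multiplicative.ofAdd (1 : ZMod (p ^ n))) ^ (p ^ i) • w) t =
      w (t + Multiplicative.toAdd ((Multiplicative.ofAdd (1 : ZMod (p ^ n))) ^ (p ^ i))) := rfl
  rw [h7, h6] at h5
  exact h5

/-- The reduction of the index set. -/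
def cas (p n : ℕ) : ZMod (p ^ (n + 1)) →+* ZMod (p ^ n) :=
  ZMod.castHom (pow_dvd_pow p n.le_succ) (ZMod (p ^ n))

theorem cas_natCast (p n : ℕ) (t : ℕ) : cas p n (t : ZMod (p ^ (n + 1))) = (t : ZMod (p ^ n)) :=
  map_natCast _ _

theorem gauss (n : ℕ) {J : Type*} [Fintype J] (cf : J → J → ℤ_[p])
    (T : (ZMod (p ^ (n + 1)) → J) → ℤ_[p]) (hT : ∀ w, T (fun t => w (t + 1)) = T w)
    [NeZero (p ^ n)] [NeZero (p ^ (n + 1))] :
    (p : ℤ_[p]) ^ (n + 1) ∣ ∑ w : ZMod (p ^ (n + 1)) → J, (∏ t, cf (w t) (w (t + 1))) * T w -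
      ∑ v : ZMod (p ^ n) → J, (∏ t, cf (v t) (v (t + 1))) * T (fun t => v (cas p n t)) := by
  classical
  have hprime : p.Prime := hpf.out
  -- the finite product
  let F : (ZMod (p ^ (n + 1)) → J) → ℕ → ℤ_[p] := fun w t =>
    cf (w (t : ZMod (p ^ (n + 1)))) (w ((t : ZMod (p ^ (n + 1))) + 1))
  let V : (ZMod (p ^ (n + 1)) → J) → ℤ_[p] := fun w => ∏ t ∈ Finset.range (p ^ n), F w t
  let Per : (ZMod (p ^ (n + 1)) → J) → Prop := fun w =>
    (fun t => w (t + ((p ^ n : ℕ) : ZMod (p ^ (n + 1))))) = w
  have hW : ∀ w : ZMod (p ^ (n + 1)) → J, ∏ t, cf (w t) (w (t + 1)) =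
      ∏ t ∈ Finset.range (p ^ (n + 1)), F w t := fun w => prod_zmod _
  have hperF : ∀ (w : ZMod (p ^ (n + 1)) → J) (i : ℕ),
      (∀ t, w (t + ((p ^ i : ℕ) : ZMod (p ^ (n + 1)))) = w t) →
      ∀ t : ℕ, F w (t + p ^ i) = F w t := by
    intro w i h t
    simp only [F]
    rw [Nat.cast_add, h, add_right_comm, h]
  have hsum : ∑ v : ZMod (p ^ n) → J, (∏ t, cf (v t) (v (t + 1))) * T (fun t => v (cas p n t)) =
      ∑ w : ZMod (p ^ (n + 1)) → J, if Per w then V w * T w else 0 := by
    rw [← Finset.sum_filter]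
    refine Finset.sum_nbij' (fun v t => v (cas p n t))
      (fun w t => w ((t.val : ℕ) : ZMod (p ^ (n + 1)))) ?_ ?_ ?_ ?_ ?_
    · intro v _
      rw [Finset.mem_filter]
      refine ⟨Finset.mem_univ _, ?_⟩
      funext t
      change v (cas p n (t + _)) = _
      rw [map_add, cas_natCast, ZMod.natCast_self, add_zero]
    · intro w _
      exact Finset.mem_univ _
    · intro v _
      funext t
      change v (cas p n ((t.val : ℕ) : ZMod (p ^ (n + 1)))) = v t
      rw [cas_natCast, ZMod.natCast_zmod_val]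
    · intro w hw
      have hw' : Per w := (Finset.mem_filter.1 hw).2
      funext t
      change w (((cas p n t).val : ℕ) : ZMod (p ^ (n + 1))) = w t
      obtain ⟨d, rfl⟩ : ∃ d : ℕ, (d : ZMod (p ^ (n + 1))) = t := ⟨t.val, ZMod.natCast_zmod_val t⟩
      rw [cas_natCast, ZMod.val_natCast]
      have h1 : ∀ r s : ℕ, w ((s + p ^ n * r : ℕ) : ZMod (p ^ (n + 1))) =
          w (s : ZMod (p ^ (n + 1))) := by
        intro r s
        induction r with
        | zero => simp
        | succ r ih =>
          rw [← ih]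
          have h2 := congrFun hw' ((s + p ^ n * r : ℕ) : ZMod (p ^ (n + 1)))
          rw [← h2]
          change w _ = w _
          congr 1
          rw [← Nat.cast_add]
          congr 1
          ring
      have h3 := h1 (d / p ^ n) (d % p ^ n)
      rw [Nat.mod_add_div] at h3
      exact h3.symm
    · intro v _
      congr 1
      rw [prod_zmod]
      refine Finset.prod_congr rfl fun t _ => ?_
      simp only [F]
      rw [map_add, map_one, cas_natCast]
  rw [hsum, ← Finset.sum_sub_distrib]
  let _ := rotAction (p ^ (n + 1)) J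
  have hinv1 : ∀ w : ZMod (p ^ (n + 1)) → J,
      ((∏ t, cf (w (t + 1)) (w (t + 1 + 1))) * T (fun t => w (t + 1)) -
        if Per (fun t => w (t + 1)) then V (fun t => w (t + 1)) * T (fun t => w (t + 1)) else 0) =
      ((∏ t, cf (w t) (w (t + 1))) * T w - if Per w then V w * T w else 0) := by
    intro w
    have e1 : ∏ t, cf (w (t + 1)) (w (t + 1 + 1)) = ∏ t, cf (w t) (w (t + 1)) :=
      Equiv.prod_comp (Equiv.addRight (1 : ZMod (p ^ (n + 1)))) (fun t => cf (w t) (w (t + 1)))
    have e2 : Per (fun t => w (t + 1)) ↔ Per w := by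
      constructor
      · intro h
        funext t
        have := congrFun h (t - 1)
        change w (t - 1 + _ + 1) = w (t - 1 + 1) at this
        rw [sub_add_cancel] at this
        rw [← this]
        congr 1
        ring
      · intro h
        funext t
        have := congrFun h (t + 1)
        change w (t + 1 + _) = w (t + 1) at this
        change w (t + _ + 1) = _
        rw [← this]
        congr 1
        ring
    rw [e1, hT]
    congr 1
    by_cases hp : Per w
    · rw [if_pos hp, if_pos (e2.2 hp)]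
      congr 1
      have h3 := prod_range_shift (F w) (p ^ n) (hperF w n (fun t => congrFun hp t))
      refine Eq.trans (Finset.prod_congr rfl fun t _ => ?_) h3
      simp only [F]
      push_cast
      rfl
    · rw [if_neg hp, if_neg (fun h => hp (e2.1 h))]
  apply sum_orbit_dvd (α := Multiplicative (ZMod (p ^ (n + 1))))
  · intro g w
    obtain ⟨d, hd⟩ : ∃ d : ℕ, (d : ZMod (p ^ (n + 1))) = Multiplicative.toAdd g :=
      ⟨(Multiplicative.toAdd g).val, by simp⟩
    have h0 : g • w = fun t => w (t + (d : ZMod (p ^ (n + 1)))) := by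
      rw [hd]
      rfl
    rw [h0]
    clear h0 hd
    induction d with
    | zero => simp
    | succ d ih =>
      rw [← ih]
      have h1 := hinv1 (fun t => w (t + (d : ZMod (p ^ (n + 1)))))
      rw [← h1]
      have h2 : (fun t => w (t + ((d + 1 : ℕ) : ZMod (p ^ (n + 1))))) =
          fun t => w (t + 1 + (d : ZMod (p ^ (n + 1)))) := by
        funext t
        congr 1
        push_cast
        ring
      rw [h2]
  · intro w
    obtain ⟨i, hi, hcard, hper⟩ := rot_of_orbit (p := p) w
    rw [hcard]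
    by_cases hin : i = n + 1
    · subst hin
      push_cast
      exact Dvd.intro _ rfl
    · have hle : i ≤ n := by omega
      have hp : Per w := by
        funext t
        have h1 : ∀ r : ℕ, w (t + ((p ^ i * r : ℕ) : ZMod (p ^ (n + 1)))) = w t := by
          intro r
          induction r with
          | zero => simp
          | succ r ih =>
            rw [← ih, ← hper (t + ((p ^ i * r : ℕ) : ZMod (p ^ (n + 1))))]
            congr 1
            push_cast
            ring
        have h2 := h1 (p ^ (n - i))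
        rw [← pow_add, Nat.add_sub_cancel' hle] at h2
        exact h2
      rw [if_pos hp, ← sub_mul, hW]
      have h3 := prod_range_periodic (F w) (p ^ i) (hperF w i hper) (p ^ (n + 1 - i))
      have h4 := prod_range_periodic (F w) (p ^ i) (hperF w i hper) (p ^ (n - i))
      rw [← pow_add, Nat.add_sub_cancel' (by omega)] at h3
      rw [← pow_add, Nat.add_sub_cancel' hle] at h4
      have h5 : V w = (∏ t ∈ Finset.range (p ^ i), F w t) ^ p ^ (n - i) := h4
      rw [h3, h5]
      obtain ⟨c, hc⟩ := padic_pow_congr (∏ t ∈ Finset.range (p ^ i), F w t) (n - i)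
      have h6 : n + 1 - i = n - i + 1 := by omega
      rw [h6, hc]
      push_cast
      refine ⟨c * T w, ?_⟩
      have h7 : (p : ℤ_[p]) ^ (n + 1) = (p : ℤ_[p]) ^ i * (p : ℤ_[p]) ^ (n - i + 1) := by
        rw [← pow_add]
        congr 1
        omega
      rw [h7]
      ring

theorem gauss_ctr (n : ℕ) {J m : Type*} [Fintype J] [Fintype m] (f : J → Matrix m m ℤ_[p])
    (T : (ZMod (p ^ (n + 1)) → J) → ℤ_[p]) (hT : ∀ w, T (fun t => w (t + 1)) = T w)
    [NeZero (p ^ n)] [NeZero (p ^ (n + 1))] :
    (p : ℤ_[p]) ^ (n + 1) ∣ ∑ w : ZMod (p ^ (n + 1)) → J, ctr (fun t => f (w t)) * T w -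
      ∑ v : ZMod (p ^ n) → J, ctr (fun t => f (v t)) * T (fun t => v (cas p n t)) := by
  rw [ctr_split, ctr_split f (fun v => T (fun t => v (cas p n t)))]
  exact gauss n (fun x y : m × J => f x.2 x.1 y.1) (fun v => T (fun t => (v t).2))
    (fun w => hT (fun t => (w t).2))

end GaussC

end Pool.Agent.Lib25.H2
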