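import Pool.Agent.Lib_helper44.Wh.KDefs

/-!
# Definitions for the theorem on the assembly map in degree one

* `surf w`: the product of the commutators of the pairs of a list `w` of pairs of elements;
  `Clw h w`: it is trivial, and the letters of `w` commute with `h`.
* `SG g`: the fundamental group of the closed oriented surface of genus `g`;
  `CS n g = C_n × SG g`.
* `evw lam w`: the value of a cocycle `lam` of degree two on the class of the surface group given by
  the word `w`.
* `IsZ2 h lam`: `lam` is a normalised cocycle of degree two on the centraliser of `h`.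
* `Src2 G`: the part of the source of the assembly map in degree one which involves `K_{-1}`.
* `K1Z G = K₁(ℤ[G])` and `QK1Z G = ℚ ⊗ K₁(ℤ[G])`.
* `IsAssembly2 κ A`: the linear map `A : Src2 G → ℚ ⊗ K₁(ℤ[G])` sends the symbol given by a
  homomorphism `φ : C_n × SG g → G` to the image of `κ n p g` under `φ`.
* `IntDet h`: integral cocycles detect the closed words; `undetected2 G`: the span of the symbols
  for which this is not the case.
* `H2Z Γ`: the second homology of `Γ` with integral coefficients.
-/

set_option autoImplicit false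
set_option linter.unusedSectionVars false

open Matrix TensorProduct Pool.Agent.WhK

namespace Pool.Agent.Lib25.H2

universe u v w

section Words

variable {Γ : Type*} [Group Γ] {k : Type*} [AddCommGroup k]

/-- The product of the commutators of the pairs of a word. -/
def surf : List (Γ × Γ) → Γ
  | [] => 1
  | q :: w => q.1 * q.2 * q.1⁻¹ * q.2⁻¹ * surf w

/-- The evaluation of a cochain of degree two on a word. -/
def evw (lam : Γ → Γ → k) : List (Γ × Γ) → k
  | [] => 0
  | q :: w => lam q.1 q.2 - lam q.2 q.1 - lam (q.1 * q.2 * q.1⁻¹ * q.2⁻¹) (q.2 * q.1) + evw lam w +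
      lam (q.1 * q.2 * q.1⁻¹ * q.2⁻¹) (surf w)

/-- The map on words induced by a function. -/
def mapW {Δ : Type*} (f : Γ → Δ) (w : List (Γ × Γ)) : List (Δ × Δ) :=
  w.map (fun q => (f q.1, f q.2))

end Words

section Surface

/-- The word in the free group defining the surface group. -/
def sgf (g : ℕ) : List (FreeGroup (Fin g × Bool) × FreeGroup (Fin g × Bool)) :=
  List.ofFn fun i : Fin g => (FreeGroup.of (i, false), FreeGroup.of (i, true))

/-- The fundamental group of the closed oriented surface of genus `g`: the group with generators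
`a i` and `b i`, for `i : Fin g`, and the relation that the product of the commutators of `a i` and
`b i` is trivial. -/
abbrev SG (g : ℕ) : Type := PresentedGroup ({surf (sgf g)} : Set (FreeGroup (Fin g × Bool)))

/-- The generators `a i` (for `b = false`) and `b i` (for `b = true`). -/
def SG.of {g : ℕ} (x : Fin g × Bool) : SG g := PresentedGroup.of x

/-- The list of the pairs of generators. -/
def sgw (g : ℕ) : List (SG g × SG g) :=
  List.ofFn fun i : Fin g => (SG.of (i, false), SG.of (i, true))

/-- The group `C_n × Σ_g`. -/
abbrev CS (n g : ℕ) : Type := Multiplicative (ZMod n) × SG g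

/-- The generator of `C_n` in `C_n × Σ_g`. -/
abbrev gH (n g : ℕ) : CS n g := (Multiplicative.ofAdd 1, 1)

/-- The word of the generators of `Σ_g` in `C_n × Σ_g`. -/
def gW (n g : ℕ) : List (CS n g × CS n g) := mapW (fun s => (1, s)) (sgw g)

end Surface

section Closed

variable {G : Type*} [Group G] {k : Type*} [AddCommGroup k]

/-- The letters of the word commute with `c`. -/
def CW (c : G) (w : List (G × G)) : Prop := ∀ q ∈ w, Commute q.1 c ∧ Commute q.2 c

/-- A closed word with letters commuting with `h`. -/
structure Clw {G : Type*} [Group G] (h : G) (w : List (G × G)) : Prop where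
  comm : CW h w
  closed : surf w = 1

/-- The restriction of `lam` to the centraliser of `h` is a normalised cocycle of degree two. -/
structure IsZ2 (h : G) (lam : G → G → k) : Prop where
  coc : ∀ x y z, Commute x h → Commute y h → Commute z h →
    lam x y + lam (x * y) z = lam y z + lam x (y * z)
  one_left : ∀ x, Commute x h → lam 1 x = 0
  one_right : ∀ x, Commute x h → lam x 1 = 0

/-- All rational cocycles on the centraliser of `h` vanish on the word. -/
def Null (h : G) (w : List (G × G)) : Prop := ∀ lam : G → G → ℚ, IsZ2 h lam → evw lam w = 0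

end Closed

/-- Every closed word with letters in the centraliser of `h` which is killed by all integral
cocycles is killed by all rational cocycles. -/
def IntDet {G : Type v} [Group G] (h : G) : Prop :=
  ∀ w, Clw h w → (∀ f : G → G → ℤ, IsZ2 h f → evw f w = 0) → Null h w

section Source

/-- A triple `(p, h, w)`: a prime `p`, an element `h` of finite order divisible by `p` and a closed
word `w` with letters commuting with `h`. -/
structure Valid2 {G : Type v} [Group G] (p : ℕ) (h : G) (w : List (G × G)) : Prop where
  prime : p.Prime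
  fin : IsOfFinOrder h
  dvd : p ∣ orderOf h
  clw : Clw h w

/-- The relations between the symbols `(p, h, w)`: a symbol is zero unless `p` is a prime, `h` an
element of finite order divisible by `p` and `w` a closed word in the centraliser of `h`;
additivity in `w`, vanishing if all rational cocycles on the centraliser of `h` vanish on `w`,
invariance under conjugation, invariance under changing the generator `h` of a finite cyclic group
`C` if the generators satisfy `h ^ p ^ j = h' ^ p ^ k` for some `j` and `k` (so that `h` and `h'`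
are conjugate under the decomposition group of `p`), and the vanishing of the sum over all primes
dividing the order of `C` and all generators of `C`. -/
inductive Rel2 (G : Type v) [Group G] : (ℕ × G × List (G × G) →₀ ℚ) → Prop
  | invalid (p : ℕ) (h : G) (w : List (G × G)) : ¬ Valid2 p h w →
      Rel2 G (Finsupp.single (p, h, w) 1)
  | add (p : ℕ) (h : G) (w w' : List (G × G)) : Valid2 p h w → Valid2 p h w' →
      Rel2 G (Finsupp.single (p, h, w ++ w') 1 - Finsupp.single (p, h, w) 1 -
        Finsupp.single (p, h, w') 1)
  | null (p : ℕ) (h : G) (w : List (G × G)) : Valid2 p h w → Null h w →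
      Rel2 G (Finsupp.single (p, h, w) 1)
  | conj (p : ℕ) (h x : G) (w : List (G × G)) : Valid2 p h w →
      Rel2 G (Finsupp.single (p, x * h * x⁻¹, mapW (fun y => x * y * x⁻¹) w) 1 -
        Finsupp.single (p, h, w) 1)
  | frob (p : ℕ) (h h' : G) (w : List (G × G)) (j k : ℕ) : Valid2 p h w →
      Subgroup.zpowers h = Subgroup.zpowers h' → h ^ p ^ j = h' ^ p ^ k →
      Rel2 G (Finsupp.single (p, h', w) 1 - Finsupp.single (p, h, w) 1)
  | sum (h : G) (w : List (G × G)) : IsOfFinOrder h → Clw h w →
      Rel2 G (∑ p ∈ (orderOf h).primeFactors,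
        ∑ a ∈ (Finset.range (orderOf h)).filter (fun a => a.Coprime (orderOf h)),
          Finsupp.single (p, h ^ a, w) 1)

/-- The rational vector space generated by the symbols `(p, h, w)` modulo the relations `Rel2`. -/
def Src2 (G : Type v) [Group G] : Type v :=
  (ℕ × G × List (G × G) →₀ ℚ) ⧸ Submodule.span ℚ {x | Rel2 G x}

noncomputable instance Src2.instAddCommGroup (G : Type v) [Group G] : AddCommGroup (Src2 G) :=
  Submodule.Quotient.addCommGroup (Submodule.span ℚ {x | Rel2 G x})

noncomputable instance Src2.instModule (G : Type v) [Group G] : Module ℚ (Src2 G) :=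
  Submodule.Quotient.module (Submodule.span ℚ {x | Rel2 G x})

/-- The quotient map. -/
noncomputable def srcMk2 (G : Type v) [Group G] : (ℕ × G × List (G × G) →₀ ℚ) →ₗ[ℚ] Src2 G :=
  (Submodule.span ℚ {x | Rel2 G x}).mkQ

/-- The class of the symbol `(p, h, w)`. -/
noncomputable def sym2 {G : Type v} [Group G] (p : ℕ) (h : G) (w : List (G × G)) : Src2 G :=
  srcMk2 G (Finsupp.single (p, h, w) 1)

end Source

section KU

variable {R : Type u} {S : Type v} [Ring R] [Ring S]

/-- The homomorphism `GL_n(R) → GL_n(S)` induced by a ring homomorphism. -/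
def glMap (f : R →+* S) (n : ℕ) : GLn R n →* GLn S n := Units.map f.mapMatrix.toMonoidHom

theorem stabMat_glMap (f : R →+* S) (m n : ℕ) (X : Matrix (Fin m) (Fin m) R) :
    stabMat S m n (X.map f) = (stabMat R m n X).map f := by
  ext i j
  simp only [stabMat, Matrix.of_apply, Matrix.map_apply]
  split_ifs <;> simp

/-- The class in `K₁(S)` of the image of a pair. -/
def pairMap' (f : R →+* S) (x : MatPair R) : K1 S := K1.mk x.n (glMap f x.n x.X)

theorem k1m_rel (f : R →+* S) : AddSubgroup.closure (K1.relMul R ∪ K1.relStab R) ≤
    (FreeAbelianGroup.lift (pairMap' f)).ker := by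
  rw [AddSubgroup.closure_le]
  rintro x (⟨n, X, Y, rfl⟩ | ⟨m, n, hmn, X, rfl⟩)
  · rw [SetLike.mem_coe, AddMonoidHom.mem_ker, K1.relMulElt, map_sub, map_sub, K1.gen, K1.gen,
      K1.gen, FreeAbelianGroup.lift_apply_of, FreeAbelianGroup.lift_apply_of,
      FreeAbelianGroup.lift_apply_of, sub_sub, sub_eq_zero]
    show K1.mk n (glMap f n (X * Y)) = K1.mk n (glMap f n X) + K1.mk n (glMap f n Y)
    rw [map_mul, K1.mk_mul]
  · rw [SetLike.mem_coe, AddMonoidHom.mem_ker, K1.relStabElt, map_sub, K1.gen, K1.gen,
      FreeAbelianGroup.lift_apply_of, FreeAbelianGroup.lift_apply_of, sub_eq_zero]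
    show K1.mk n (glMap f n (stabGL R m n hmn X)) = K1.mk m (glMap f m X)
    rw [← K1.mk_stab m n hmn (glMap f m X)]
    congr 1
    refine Units.ext ?_
    exact (stabMat_glMap f m n X.val).symm

/-- The homomorphism `K₁(R) → K₁(S)` induced by a ring homomorphism `f : R → S`. -/
noncomputable def k1m (f : R →+* S) : K1 R →+ K1 S :=
  QuotientAddGroup.lift _ (FreeAbelianGroup.lift (pairMap' f)) (k1m_rel f)

end KU

section Target

/-- `K₁(ℤ[G])`. -/
def K1Z (G : Type u) [Group G] : Type u := K1 (MonoidAlgebra ℤ G)

noncomputable instance K1Z.instAddCommGroup (G : Type u) [Group G] : AddCommGroup (K1Z G) :=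
  (inferInstance : AddCommGroup (K1 (MonoidAlgebra ℤ G)))

/-- The map `K₁(ℤ[G]) → K₁(ℤ[H])` induced by a group homomorphism `G → H`. -/
noncomputable def K1Z.map {G : Type u} {H : Type v} [Group G] [Group H] (φ : G →* H) :
    K1Z G →+ K1Z H := k1m (MonoidAlgebra.mapDomainRingHom ℤ φ)

/-- `ℚ ⊗ K₁(ℤ[G])`. -/
def QK1Z (G : Type u) [Group G] : Type u := ℚ ⊗[ℤ] K1Z G

noncomputable instance QK1Z.instAddCommGroup (G : Type u) [Group G] : AddCommGroup (QK1Z G) :=
  TensorProduct.addCommGroup

noncomputable instance QK1Z.instModule (G : Type u) [Group G] : Module ℚ (QK1Z G) :=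
  TensorProduct.leftModule

/-- The element `1 ⊗ x` of `ℚ ⊗ K₁(ℤ[G])`. -/
noncomputable def QK1Z.mk {G : Type u} [Group G] (x : K1Z G) : QK1Z G := (1 : ℚ) ⊗ₜ[ℤ] x

end Target

/-- The linear map `A : Src2 G → ℚ ⊗ K₁(ℤ[G])` sends the symbol `(p, h, w)`, where `h` and the
letters of `w` are the images of the generators of `C_n × Σ_g` under a homomorphism
`φ : C_n × Σ_g → G` injective on `C_n`, to the image of `κ n p g` under `φ`. -/
def IsAssembly2 (κ : ∀ n : ℕ, ℕ → ∀ g : ℕ, K1Z (CS n g)) {G : Type u} [Group G]
    (A : Src2 G →ₗ[ℚ] QK1Z G) : Prop :=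
  ∀ (n p g : ℕ) (φ : CS n g →* G), 0 < n → p.Prime → p ∣ n →
    Function.Injective (fun c => φ (c, 1)) →
    A (sym2 p (φ (gH n g)) (mapW φ (gW n g))) = QK1Z.mk (K1Z.map φ (κ n p g))

/-- The subspace of `Src2 G` spanned by the symbols `(p, h, w)` such that the integral cocycles on
the centraliser of `h` do not detect the closed words. -/
noncomputable def undetected2 (G : Type u) [Group G] : Submodule ℚ (Src2 G) :=
  Submodule.span ℚ {s | ∃ (p : ℕ) (h : G) (w : List (G × G)), Valid2 p h w ∧
    ¬ IntDet h ∧ s = sym2 p h w}

/-- The second homology with integral coefficients, in the universe of the group. -/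
noncomputable abbrev H2Z (Γ : Type v) [Group Γ] : ModuleCat (ULift.{v} ℤ) :=
  groupHomology.H2 (Rep.trivial (ULift.{v} ℤ) Γ (ULift.{v} ℤ))

end Pool.Agent.Lib25.H2
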