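import Pool.Agent.Lib_helper25.H2.Exc2

/-!
# Diagonal type elements
-/

set_option autoImplicit false
set_option linter.unusedSectionVars false

open Matrix Pool.Agent.WhK

namespace Pool.Agent.Lib25.H2

section Dd

variable {R : Type*} [Ring R] {ι κ : Type*} [Fintype ι] [DecidableEq ι] [Fintype κ] [DecidableEq κ]

/-- The product of elementary matrices which is `diag (u, u')` if `u u' = u' u = 1`. -/
def Dd (p q : ι) (u u' : R) : (Matrix ι ι R)ˣ :=
  el p q u * el q p (-u') * el p q u * (el p q (-1) * el q p 1 * el p q (-1))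

theorem mapU_Dd {T : Type*} [Ring T] (f : R →+* T) (p q : ι) (u u' : R) :
    mapU f (Dd p q u u') = Dd p q (f u) (f u') := by
  unfold Dd
  simp only [map_mul, mapU_el, map_neg, map_one]

theorem reU_Dd (σ : ι ≃ ι) {p q : ι} (h : p ≠ q) (u u' : R) :
    reU σ (Dd p q u u') = Dd (σ p) (σ q) u u' := by
  unfold Dd
  simp only [map_mul, reU_el σ h, reU_el σ h.symm]

theorem Dd_comm {p q r s : ι} (hpr : p ≠ r) (hps : p ≠ s) (hqr : q ≠ r) (hqs : q ≠ s)
    (u u' v v' : R) : Commute (Dd p q u u') (Dd r s v v') := by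
  have h1 : ∀ x y : R, Commute (el p q x) (el r s y) := fun x y => el_comm hqr hps x y
  have h2 : ∀ x y : R, Commute (el p q x) (el s r y) := fun x y => el_comm hqs hpr x y
  have h3 : ∀ x y : R, Commute (el q p x) (el r s y) := fun x y => el_comm hpr hqs x y
  have h4 : ∀ x y : R, Commute (el q p x) (el s r y) := fun x y => el_comm hps hqr x y
  have k1 : ∀ x, Commute (el p q x) (Dd r s v v') := fun x =>
    (((h1 _ _).mul_right (h2 _ _)).mul_right (h1 _ _)).mul_right
      (((h1 _ _).mul_right (h2 _ _)).mul_right (h1 _ _))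
  have k2 : ∀ x, Commute (el q p x) (Dd r s v v') := fun x =>
    (((h3 _ _).mul_right (h4 _ _)).mul_right (h3 _ _)).mul_right
      (((h3 _ _).mul_right (h4 _ _)).mul_right (h3 _ _))
  exact (((k1 _).mul_left (k2 _)).mul_left (k1 _)).mul_left
      (((k1 _).mul_left (k2 _)).mul_left (k1 _))

theorem diagU_one_mul (X Y : (Matrix ι ι R)ˣ) :
    diagU (X * Y) (1 : (Matrix κ κ R)ˣ) = diagU X 1 * diagU Y 1 := by
  rw [← diagU_mul, mul_one]

theorem diagU_one_one : diagU (1 : (Matrix ι ι R)ˣ) (1 : (Matrix κ κ R)ˣ) = 1 := by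
  ext1
  change fromBlocks (1 : Matrix ι ι R) 0 0 1 = 1
  exact fromBlocks_one

/-- The stabilisation homomorphism. -/
def stU (κ : Type*) [Fintype κ] [DecidableEq κ] : (Matrix ι ι R)ˣ →* (Matrix (ι ⊕ κ) (ι ⊕ κ) R)ˣ where
  toFun X := diagU X 1
  map_one' := diagU_one_one
  map_mul' X Y := diagU_one_mul X Y

theorem stU_el {p q : ι} (h : p ≠ q) (t : R) :
    stU κ (el p q t) = el (Sum.inl p) (Sum.inl q) t := by
  change diagU (el p q t) 1 = _
  have h' : (Sum.inl p : ι ⊕ κ) ≠ Sum.inl q := fun h' => h (Sum.inl_injective h')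
  ext1
  change fromBlocks (el p q t).val 0 0 1 = _
  rw [el_val h, el_val h']
  ext x y
  rcases x with x | x <;> rcases y with y | y <;>
  simp [Matrix.one_apply, Matrix.single_apply]

theorem stU_Dd {p q : ι} (h : p ≠ q) (u u' : R) :
    stU κ (Dd p q u u') = Dd (Sum.inl p) (Sum.inl q) u u' := by
  unfold Dd
  simp only [map_mul, stU_el h, stU_el h.symm]

/-- Invertible diagonal matrices. -/
def dgF : (ι → Rˣ) →* (Matrix ι ι R)ˣ where
  toFun d :=
    { val := Matrix.diagonal (fun i => (d i : R))
      inv := Matrix.diagonal (fun i => ((d i)⁻¹ : Rˣ))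
      val_inv := by
        rw [Matrix.diagonal_mul_diagonal, ← Matrix.diagonal_one]
        congr 1
        funext i
        exact (d i).mul_inv
      inv_val := by
        rw [Matrix.diagonal_mul_diagonal, ← Matrix.diagonal_one]
        congr 1
        funext i
        exact (d i).inv_mul }
  map_one' := by
    ext1
    exact Matrix.diagonal_one
  map_mul' d d' := by
    ext1
    change Matrix.diagonal _ = Matrix.diagonal _ * Matrix.diagonal _
    rw [Matrix.diagonal_mul_diagonal]
    rfl

theorem dgF_val (d : ι → Rˣ) : (dgF d).val = Matrix.diagonal (fun i => (d i : R)) := rfl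

theorem dgF_mul (d d' : ι → Rˣ) : dgF (d * d') = dgF d * dgF d' := map_mul _ _ _

theorem el_triple {p q : ι} (h : p ≠ q) {u u' : R} (h1 : u * u' = 1) (h2 : u' * u = 1) :
    (el p q u * el q p (-u') * el p q u).val =
      1 - Matrix.single p p 1 - Matrix.single q q 1 + Matrix.single p q u -
        Matrix.single q p u' := by
  have hn : Matrix.single q p (-u') = - Matrix.single q p u' := by
    ext i j
    rw [Matrix.neg_apply, Matrix.single_apply, Matrix.single_apply]
    split_ifs <;> simp
  simp only [Units.val_mul, el_val h, el_val h.symm, hn, mul_add, add_mul, one_mul, mul_one,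
    mul_neg, neg_mul]
  rw [Matrix.single_mul_single_same, Matrix.single_mul_single_of_ne _ _ _ _ h.symm,
    Matrix.single_mul_single_same, Matrix.single_mul_single_same, h1, h2, one_mul]
  abel

theorem Dd_unit {p q : ι} (h : p ≠ q) (u : Rˣ) :
    Dd p q (u : R) ((u⁻¹ : Rˣ) : R) = dgF (Pi.mulSingle p u * Pi.mulSingle q u⁻¹) := by
  ext1
  unfold Dd
  have e1 := el_triple h (u := (u : R)) (u' := ((u⁻¹ : Rˣ) : R)) u.mul_inv u.inv_mul
  have e2 := el_triple h (u := (-1 : R)) (u' := (-1 : R)) (by simp) (by simp)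
  rw [neg_neg] at e2
  rw [Units.val_mul, e1, e2]
  have hn : ∀ a b : ι, Matrix.single a b (-1 : R) = - Matrix.single a b 1 := by
    intro a b
    ext i j
    rw [Matrix.neg_apply, Matrix.single_apply, Matrix.single_apply]
    split_ifs <;> simp
  simp only [hn, mul_add, add_mul, one_mul, mul_one, mul_neg, neg_mul, mul_sub, sub_mul,
    Matrix.single_mul_single_same, Matrix.single_mul_single_of_ne _ _ _ _ h,
    Matrix.single_mul_single_of_ne _ _ _ _ h.symm]
  rw [dgF_val]
  ext i j
  simp only [Matrix.sub_apply, Matrix.add_apply, Matrix.neg_apply, Matrix.single_apply,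
    Matrix.one_apply, Matrix.diagonal_apply, Matrix.zero_apply, Pi.mul_apply]
  by_cases hij : i = j
  · subst hij
    by_cases hp : p = i
    · subst hp
      simp [h, h.symm]
    · by_cases hq : q = i
      · subst hq
        simp [h, h.symm]
      · simp [hp, hq, Ne.symm hp, Ne.symm hq]
  · by_cases hp : p = i
    · subst hp
      simp [hij, h.symm]
    · have h3 : ¬ (q = i ∧ q = j) := fun h => hij (h.1.symm.trans h.2)
      simp [hij, hp, h3]

end Dd

end Pool.Agent.Lib25.H2
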