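import Pool.Agent.Lib_helper25.H2.Pts

/-!
# Detecting elements of `K₁(ℤ[G])`
-/

set_option autoImplicit false
set_option linter.unusedSectionVars false

open Matrix Pool.Agent.WhK

namespace Pool.Agent.Lib25.H2

universe u

section CL

variable {k : Type*} [CommRing k] {G : Type*} [Group G] {m n : Type*} [Fintype m]
  [DecidableEq m] [Fintype n] [DecidableEq n]

theorem cL_reU (L : G → G → G → ℤ) (e : m ≃ n) (X Y : (Matrix m m (MonoidAlgebra k G))ˣ) :
    cL L (reU e X) (reU e Y) = cL L X Y := by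
  unfold cL
  rw [← map_mul, ← map_inv, reU_val, reU_val, reU_val, Phi3_submatrix]

theorem cL_diagU (L : G → G → G → ℤ) (X Y : (Matrix m m (MonoidAlgebra k G))ˣ)
    (X' Y' : (Matrix n n (MonoidAlgebra k G))ˣ) :
    cL L (diagU X X') (diagU Y Y') = cL L X Y + cL L X' Y' := by
  unfold cL
  rw [← diagU_mul]
  exact Phi3_blocks L _ _ _ _ _ _

theorem cL_map {k' : Type*} [CommRing k'] (f : k →+* k') (L : G → G → G → ℤ)
    (X Y : (Matrix m m (MonoidAlgebra k G))ˣ) :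
    cL L (mapU (MonoidAlgebra.mapRingHom G f) X) (mapU (MonoidAlgebra.mapRingHom G f) Y) =
      f (cL L X Y) := by
  unfold cL
  rw [← map_mul, mapU_inv, mapU_val, mapU_val, Phi3_map]

theorem evw_cL_map {k' : Type*} [CommRing k'] (f : k →+* k') (L : G → G → G → ℤ)
    (w : List ((Matrix m m (MonoidAlgebra k G))ˣ × (Matrix m m (MonoidAlgebra k G))ˣ)) :
    evw (cL L) (mapW (mapU (MonoidAlgebra.mapRingHom G f)) w) = f (evw (cL L) w) := by
  rw [evw_map]
  simp only [cL_map]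
  exact evw_hom f.toAddMonoidHom (cL L) w

theorem evw_cL_reU (L : G → G → G → ℤ) (e : m ≃ n)
    (w : List ((Matrix m m (MonoidAlgebra k G))ˣ × (Matrix m m (MonoidAlgebra k G))ˣ)) :
    evw (cL L) (mapW (reU e) w) = evw (cL L) w := by
  rw [evw_map]
  simp only [cL_reU]

/-- The other stabilisation homomorphism. -/
def stU' (κ : Type*) [Fintype κ] [DecidableEq κ] {R : Type*} [Ring R] :
    (Matrix n n R)ˣ →* (Matrix (κ ⊕ n) (κ ⊕ n) R)ˣ where
  toFun X := diagU 1 X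
  map_one' := diagU_one_one
  map_mul' X Y := by rw [← diagU_mul, mul_one]

variable {p : ℕ} {L : G → G → G → ℤ} (H : GCo p L)

include H

theorem cL_one_left (X : (Matrix m m (MonoidAlgebra k G))ˣ) : cL L 1 X = 0 :=
  (cL_isCoc2 (k := k) (m := m) H).one_left X

theorem cL_one_right (X : (Matrix m m (MonoidAlgebra k G))ˣ) : cL L X 1 = 0 :=
  (cL_isCoc2 (k := k) (m := m) H).one_right X

theorem evw_cL_stU (κ : Type*) [Fintype κ] [DecidableEq κ]
    (w : List ((Matrix m m (MonoidAlgebra k G))ˣ × (Matrix m m (MonoidAlgebra k G))ˣ)) :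
    evw (cL L) (mapW (stU κ) w) = evw (cL L) w := by
  rw [evw_map]
  congr 1
  funext X Y
  change cL L (diagU X 1) (diagU Y 1) = _
  rw [cL_diagU, cL_one_left H, add_zero]

theorem evw_cL_stU' (κ : Type*) [Fintype κ] [DecidableEq κ]
    (w : List ((Matrix m m (MonoidAlgebra k G))ˣ × (Matrix m m (MonoidAlgebra k G))ˣ)) :
    evw (cL L) (mapW (stU' κ) w) = evw (cL L) w := by
  rw [evw_map]
  congr 1
  funext X Y
  change cL L (diagU 1 X) (diagU 1 Y) = _
  rw [cL_diagU, cL_one_left H, zero_add]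

end CL

section Comm

variable {R : Type u} [Ring R]

/-- A product of commutators in the direct limit comes from a finite stage. -/
theorem exists_word_of_mem_commutator {g : GLinf R} (hg : g ∈ commutator (GLinf R)) :
    ∃ (m : ℕ) (v : List (GLn R m × GLn R m)), g = GLinf.mk m (surf v) := by
  have hst : ∀ {m k : ℕ} (h : m ≤ k) (v : List (GLn R m × GLn R m)),
      GLinf.mk m (surf v) = GLinf.mk k (surf (mapW (stabGL R m k h) v)) := by
    intro m k h v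
    rw [surf_map]
    exact GLinf_eq_of_le h _
  have hex : ∀ x : GLinf R, ∃ (m : ℕ) (X : GLn R m), x = GLinf.mk m X := by
    intro x
    induction x using Quotient.inductionOn with
    | h x => exact ⟨x.1, x.2, rfl⟩
  rw [commutator_def, Subgroup.commutator_def] at hg
  induction hg using Subgroup.closure_induction with
  | mem x hx =>
    obtain ⟨a, -, b, -, rfl⟩ := hx
    obtain ⟨i, A, rfl⟩ := hex a
    obtain ⟨j, B, rfl⟩ := hex b
    refine ⟨max i j, [(stabGL R i _ (le_max_left i j) A, stabGL R j _ (le_max_right i j) B)], ?_⟩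
    rw [surf_cons, surf_nil, mul_one, commutatorElement_def,
      GLinf_eq_of_le (le_max_left i j) A, GLinf_eq_of_le (le_max_right i j) B]
    have hinv : ∀ {k : ℕ} (X : GLn R k), (GLinf.mk k X)⁻¹ = GLinf.mk k X⁻¹ := by
      intro k X
      rw [inv_eq_iff_mul_eq_one, ← GLinf.mk_mul, mul_inv_cancel, GLinf.mk_one]
    rw [hinv, hinv, ← GLinf.mk_mul, ← GLinf.mk_mul, ← GLinf.mk_mul]
  | one => exact ⟨0, [], (GLinf.mk_one 0).symm⟩
  | mul x y _ _ hx hy =>
    obtain ⟨i, v, rfl⟩ := hx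
    obtain ⟨j, w, rfl⟩ := hy
    refine ⟨max i j, mapW (stabGL R i _ (le_max_left i j)) v ++
      mapW (stabGL R j _ (le_max_right i j)) w, ?_⟩
    rw [surf_append, GLinf.mk_mul, ← hst, ← hst]
  | inv x _ hx =>
    obtain ⟨i, v, rfl⟩ := hx
    refine ⟨i, invW v, ?_⟩
    rw [surf_invW, inv_eq_iff_mul_eq_one, ← GLinf.mk_mul, mul_inv_cancel, GLinf.mk_one]

/-- A matrix with trivial class becomes a product of commutators. -/
theorem exists_word_of_mk_zero {n : ℕ} (X : GLn R n) (h : K1.mk n X = 0) :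
    ∃ (r : ℕ) (v : List (GLn R (n + r) × GLn R (n + r))),
      surf v = stabGL R n (n + r) (Nat.le_add_right n r) X := by
  have h1 := K1.ab_eq_one h
  have h2 : GLinf.mk n X ∈ commutator (GLinf R) := by
    rw [← Abelianization.ker_of]
    exact h1
  obtain ⟨m, v, hv⟩ := exists_word_of_mem_commutator h2
  obtain ⟨k, hk1, hk2, hk⟩ := Quotient.exact hv
  obtain ⟨r, rfl⟩ := Nat.exists_eq_add_of_le hk1
  refine ⟨r, mapW (stabGL R m (n + r) hk2) v, ?_⟩
  rw [surf_map]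
  exact hk.symm

/-- A matrix with trivial class becomes a product of commutators. -/
theorem exists_word_of_cls_zero {n : ℕ} (X : (Matrix (Fin n) (Fin n) R)ˣ) (h : cls X = 0) :
    ∃ (r : ℕ) (v : List ((Matrix (Fin (n + r)) (Fin (n + r)) R)ˣ ×
      (Matrix (Fin (n + r)) (Fin (n + r)) R)ˣ)),
      surf v = reU finSumFinEquiv (stU (Fin r) X) := by
  rw [cls_eq (Equiv.refl _) X] at h
  have h0 : reU (Equiv.refl (Fin n)) X = X := Units.ext rfl
  rw [h0] at h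
  obtain ⟨r, v, hv⟩ := exists_word_of_mk_zero X h
  refine ⟨r, v, ?_⟩
  change surf v = reU finSumFinEquiv (diagU X 1)
  rw [stab_eq]
  exact hv

end Comm

section Triv

variable {G : Type u} [Group G]

/-- The invertible matrix `X` over `ℤ[G]` becomes the product of the commutators of a word over
`k[G]`; `ρ` are the evaluations of the cocycles on this word. -/
def TrivW (k : Type*) [CommRing k] {n : ℕ} (X : (Matrix (Fin n) (Fin n) (MonoidAlgebra ℤ G))ˣ)
    (ρ : Pt2 G → k) : Prop :=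
  ∃ w : List ((Matrix (Fin n) (Fin n) (MonoidAlgebra k G))ˣ ×
    (Matrix (Fin n) (Fin n) (MonoidAlgebra k G))ˣ),
    surf w = mapU (cg k G) X ∧ ∀ x : Pt2 G, ρ x = evw (cL x.L) w

/-- The block sum of two matrices. -/
def dsum {R : Type*} [Ring R] {n n' : ℕ} (X : (Matrix (Fin n) (Fin n) R)ˣ)
    (X' : (Matrix (Fin n') (Fin n') R)ˣ) : (Matrix (Fin (n + n')) (Fin (n + n')) R)ˣ :=
  reU finSumFinEquiv (diagU X X')

theorem TrivW.dsum {k : Type*} [CommRing k] {n n' : ℕ}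
    {X : (Matrix (Fin n) (Fin n) (MonoidAlgebra ℤ G))ˣ}
    {X' : (Matrix (Fin n') (Fin n') (MonoidAlgebra ℤ G))ˣ} {ρ ρ' : Pt2 G → k}
    (h : TrivW k X ρ) (h' : TrivW k X' ρ') : TrivW k (dsum X X') (fun x => ρ x + ρ' x) := by
  obtain ⟨w, h1, h2⟩ := h
  obtain ⟨w', h1', h2'⟩ := h'
  refine ⟨mapW (reU finSumFinEquiv) (mapW (stU (Fin n')) w ++ mapW (stU' (Fin n)) w'), ?_, ?_⟩
  · rw [surf_map, surf_append, surf_map, surf_map, h1, h1']
    unfold H2.dsum
    rw [mapU_reU, mapU_diagU]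
    congr 1
    change diagU _ 1 * diagU 1 _ = _
    rw [← diagU_mul, mul_one, one_mul]
  · intro x
    change ρ x + ρ' x = _
    rw [evw_cL_reU, evw_append (cL_isCoc2 x.gco), evw_cL_stU x.gco, evw_cL_stU' x.gco, h2, h2',
      surf_map, surf_map]
    change _ = _ + _ + cL x.L (diagU _ 1) (diagU 1 _)
    rw [cL_diagU, cL_one_left x.gco, cL_one_right x.gco, add_zero, add_zero]

theorem TrivW.inv {k : Type*} [CommRing k] {n : ℕ}
    {X : (Matrix (Fin n) (Fin n) (MonoidAlgebra ℤ G))ˣ} {ρ : Pt2 G → k}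
    (h : TrivW k X ρ) : TrivW k X⁻¹ (fun x => - ρ x - ((cL x.L X X⁻¹ : ℤ) : k)) := by
  obtain ⟨w, h1, h2⟩ := h
  refine ⟨invW w, by rw [surf_invW, h1, map_inv], fun x => ?_⟩
  change - ρ x - ((cL x.L X X⁻¹ : ℤ) : k) = _
  rw [evw_invW (cL_isCoc2 x.gco), h2, h1, ← map_inv, cL_map]
  rfl

/-- `x` is the class of a matrix which becomes a product of commutators over `ℚ[G]` and over
all `ℤ_p[G]`, and `w p` is the difference of the evaluations. -/
def Triv1 (x : K1 (MonoidAlgebra ℤ G)) (w : ∀ (p : ℕ) [Fact p.Prime], Pt2 G → ℚ_[p]) : Prop :=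
  ∃ (n : ℕ) (X : (Matrix (Fin n) (Fin n) (MonoidAlgebra ℤ G))ˣ) (y : Pt2 G → ℚ),
    x = cls X ∧ TrivW ℚ X y ∧
    ∀ (p : ℕ) [Fact p.Prime], ∃ z : Pt2 G → ℤ_[p], TrivW ℤ_[p] X z ∧
      ∀ h, w p h = (z h : ℚ_[p]) - (y h : ℚ_[p])

theorem Triv1.add {x x' : K1 (MonoidAlgebra ℤ G)}
    {w w' : ∀ (p : ℕ) [Fact p.Prime], Pt2 G → ℚ_[p]} (hx : Triv1 x w) (hx' : Triv1 x' w') :
    Triv1 (x + x') (fun p _ h => w p h + w' p h) := by
  obtain ⟨n, X, y, h1, h2, h3⟩ := hx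
  obtain ⟨n', X', y', h1', h2', h3'⟩ := hx'
  refine ⟨n + n', dsum X X', fun h => y h + y' h, ?_, h2.dsum h2', ?_⟩
  · unfold dsum
    rw [cls_reU, cls_diagU, h1, h1']
  · intro p _
    obtain ⟨z, hz1, hz2⟩ := h3 p
    obtain ⟨z', hz1', hz2'⟩ := h3' p
    refine ⟨fun h => z h + z' h, hz1.dsum hz1', fun h => ?_⟩
    change w p h + w' p h = ((z h + z' h : ℤ_[p]) : ℚ_[p]) - ((y h + y' h : ℚ) : ℚ_[p])
    rw [hz2, hz2']
    push_cast
    ring

theorem Triv1.zero : Triv1 (G := G) 0 (fun _ _ _ => 0) := by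
  have hT : ∀ (k : Type) [CommRing k], TrivW (G := G) k
      (1 : (Matrix (Fin 0) (Fin 0) (MonoidAlgebra ℤ G))ˣ) (fun _ => (0 : k)) := by
    intro k _
    exact ⟨[], by rw [surf_nil, map_one], fun x => rfl⟩
  exact ⟨0, 1, fun _ => 0, cls_one.symm, hT ℚ, fun p _ => ⟨fun _ => 0, hT ℤ_[p], fun h => by simp⟩⟩

theorem Triv1.neg {x : K1 (MonoidAlgebra ℤ G)}
    {w : ∀ (p : ℕ) [Fact p.Prime], Pt2 G → ℚ_[p]} (hx : Triv1 x w) :
    Triv1 (-x) (fun p _ h => - w p h) := by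
  obtain ⟨n, X, y, h1, h2, h3⟩ := hx
  refine ⟨n, X⁻¹, _, by rw [cls_inv, h1], h2.inv, fun p _ => ?_⟩
  obtain ⟨z, hz1, hz2⟩ := h3 p
  refine ⟨_, hz1.inv, fun h => ?_⟩
  change - w p h = ((- z h - ((cL h.L X X⁻¹ : ℤ) : ℤ_[p]) : ℤ_[p]) : ℚ_[p]) -
    ((- y h - ((cL h.L X X⁻¹ : ℤ) : ℚ) : ℚ) : ℚ_[p])
  rw [hz2]
  push_cast
  ring

theorem Triv1.nsmul {x : K1 (MonoidAlgebra ℤ G)}
    {w : ∀ (p : ℕ) [Fact p.Prime], Pt2 G → ℚ_[p]} (hx : Triv1 x w) (n : ℕ) :
    Triv1 (n • x) (fun p _ h => n * w p h) := by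
  induction n with
  | zero => simpa using Triv1.zero
  | succ n ih =>
    have := ih.add hx
    rw [succ_nsmul]
    convert this using 4
    push_cast
    ring

theorem Triv1.zsmul {x : K1 (MonoidAlgebra ℤ G)}
    {w : ∀ (p : ℕ) [Fact p.Prime], Pt2 G → ℚ_[p]} (hx : Triv1 x w) (n : ℤ) :
    Triv1 (n • x) (fun p _ h => n * w p h) := by
  rcases Int.eq_nat_or_neg n with ⟨m, rfl | rfl⟩
  · simpa using hx.nsmul m
  · have := hx.neg.nsmul m
    simpa using this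

theorem Triv1.sum {ι : Type*} (s : Finset ι)
    {x : ι → K1 (MonoidAlgebra ℤ G)}
    {w : ι → ∀ (p : ℕ) [Fact p.Prime], Pt2 G → ℚ_[p]} (hx : ∀ i ∈ s, Triv1 (x i) (w i)) :
    Triv1 (∑ i ∈ s, x i) (fun p _ h => ∑ i ∈ s, w i p h) := by
  classical
  induction s using Finset.induction_on with
  | empty => simpa using Triv1.zero
  | insert a s ha ih =>
    have := (hx a (Finset.mem_insert_self a s)).add
      (ih fun i hi => hx i (Finset.mem_insert_of_mem hi))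
    simpa only [Finset.sum_insert ha] using this

/-- **Detection theorem** in degree one. -/
theorem detection1 {x : K1 (MonoidAlgebra ℤ G)}
    {w : ∀ (p : ℕ) [Fact p.Prime], Pt2 G → ℚ_[p]} (hx : Triv1 x w) (h0 : x = 0) :
    ∃ y : Pt2 G → ℚ, ∀ (p : ℕ) [Fact p.Prime] (h : Pt2 G), p ∣ orderOf h.1.1 →
      w p h = (y h : ℚ_[p]) := by
  obtain ⟨n, X, y, rfl, _, hz⟩ := hx
  obtain ⟨r, v, hv⟩ := exists_word_of_cls_zero X h0
  refine ⟨fun h => ((evw (cL h.L) v : ℤ) : ℚ) - y h, fun p _ h hp => ?_⟩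
  obtain ⟨z, ⟨ρ, h1, h2⟩, hw⟩ := hz p
  have hcoc := h.gco' hp
  let σ := mapW (reU finSumFinEquiv) (mapW (stU (Fin r)) ρ)
  let τ := mapW (mapU (MonoidAlgebra.mapRingHom G (Int.castRingHom ℤ_[p]))) v
  have hσ : surf σ = reU finSumFinEquiv (stU (Fin r) (mapU (cg ℤ_[p] G) X)) := by
    rw [surf_map, surf_map, h1]
  have hτ : surf τ = reU finSumFinEquiv (stU (Fin r) (mapU (cg ℤ_[p] G) X)) := by
    rw [surf_map, hv]
    change mapU _ (reU _ (diagU X 1)) = reU _ (diagU _ 1)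
    rw [mapU_reU, mapU_diagU, map_one]
  have h3 : evw (cL (k := ℤ_[p]) h.L) (σ ++ invW τ) = 0 := by
    apply evw_cL_vanish hcoc
    rw [surf_append, surf_invW, hσ, hτ, mul_inv_cancel]
  rw [evw_append (cL_isCoc2 hcoc), evw_invW (cL_isCoc2 hcoc), surf_invW, hσ, hτ] at h3
  have h4 : evw (cL (k := ℤ_[p]) h.L) σ = z h := by
    change evw _ (mapW _ (mapW _ ρ)) = _
    rw [evw_cL_reU, evw_cL_stU hcoc, h2]
  have h5 : evw (cL (k := ℤ_[p]) h.L) τ = ((evw (cL h.L) v : ℤ) : ℤ_[p]) := by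
    change evw _ (mapW _ v) = _
    rw [evw_cL_map]
    rfl
  rw [h4, h5] at h3
  have h6 : z h = ((evw (cL h.L) v : ℤ) : ℤ_[p]) := by linear_combination h3
  rw [hw, h6]
  push_cast
  rfl

/-- Detection modulo torsion. -/
theorem detection1' {x : K1 (MonoidAlgebra ℤ G)}
    {w : ∀ (p : ℕ) [Fact p.Prime], Pt2 G → ℚ_[p]} (hx : Triv1 x w) (h0 : mt x = 0) :
    ∃ y : Pt2 G → ℚ, ∀ (p : ℕ) [Fact p.Prime] (h : Pt2 G), p ∣ orderOf h.1.1 →
      w p h = (y h : ℚ_[p]) := by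
  obtain ⟨n, hn, h1⟩ := mt_eq_zero.1 h0
  obtain ⟨y, hy⟩ := detection1 (hx.nsmul n) h1
  refine ⟨fun h => y h / n, fun p _ h hp => ?_⟩
  have h2 := hy p h hp
  have h3 : (n : ℚ_[p]) ≠ 0 := Nat.cast_ne_zero.2 hn.ne'
  push_cast
  rw [eq_div_iff h3, ← h2, mul_comm]

end Triv

end Pool.Agent.Lib25.H2
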