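import Mathlib
import Pool.Agent.Lib_helper44.Wh.Cls

/-!
# Elementary matrices
-/

set_option autoImplicit false
set_option linter.unusedSectionVars false

open Matrix Pool.Agent.WhK

namespace Pool.Agent.Lib25.H2

section El

variable {R : Type*} [Ring R] {ι : Type*} [Fintype ι] [DecidableEq ι]

theorem single_mul_single_of_ne {p q r s : ι} (x y : R) (h : q ≠ r) :
    Matrix.single p q x * Matrix.single r s y = 0 := by
  rw [Matrix.single_mul_single_of_ne]
  exact h

/-- The elementary matrix `1 + x E_{pq}`, for `p ≠ q`. -/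
def el (p q : ι) (x : R) : (Matrix ι ι R)ˣ :=
  if h : p ≠ q then
    { val := 1 + Matrix.single p q x
      inv := 1 + Matrix.single p q (-x)
      val_inv := by
        rw [mul_add, add_mul, add_mul, one_mul, mul_one, one_mul,
          Matrix.single_mul_single_of_ne _ _ _ _ h.symm, add_zero, add_assoc,
          ← Matrix.single_add, add_neg_cancel, Matrix.single_zero, add_zero]
      inv_val := by
        rw [mul_add, add_mul, add_mul, one_mul, mul_one, one_mul,
          Matrix.single_mul_single_of_ne _ _ _ _ h.symm, add_zero, add_assoc,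
          ← Matrix.single_add, neg_add_cancel, Matrix.single_zero, add_zero] }
  else 1

theorem el_val {p q : ι} (h : p ≠ q) (x : R) : (el p q x).val = 1 + Matrix.single p q x := by
  unfold el
  rw [dif_pos h]

theorem el_add (p q : ι) (x y : R) : el p q x * el p q y = el p q (x + y) := by
  by_cases h : p ≠ q
  · ext1
    rw [Units.val_mul, el_val h, el_val h, el_val h, mul_add, add_mul, add_mul, one_mul, mul_one,
      one_mul, Matrix.single_mul_single_of_ne _ _ _ _ h.symm, add_zero, add_assoc,
      ← Matrix.single_add]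
  · unfold el
    rw [dif_neg h, dif_neg h, dif_neg h, mul_one]

theorem el_zero (p q : ι) : el p q (0 : R) = 1 := by
  by_cases h : p ≠ q
  · ext1
    rw [el_val h, Matrix.single_zero, add_zero, Units.val_one]
  · unfold el
    rw [dif_neg h]

theorem el_inv (p q : ι) (x : R) : (el p q x)⁻¹ = el p q (-x) := by
  apply inv_eq_of_mul_eq_one_right
  rw [el_add, add_neg_cancel, el_zero]

/-- `x_{pq} y_{qr} = (xy)_{pr} y_{qr} x_{pq}` -/
theorem el_mul_el {p q r : ι} (hpq : p ≠ q) (hqr : q ≠ r) (hpr : p ≠ r) (x y : R) :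
    el p q x * el q r y = el p r (x * y) * (el q r y * el p q x) := by
  ext1
  simp only [Units.val_mul, el_val hpq, el_val hqr, el_val hpr, mul_add, add_mul, one_mul, mul_one]
  rw [Matrix.single_mul_single_same, Matrix.single_mul_single_of_ne _ _ _ _ hpr.symm,
    Matrix.single_mul_single_of_ne _ _ _ _ hqr.symm, Matrix.single_mul_single_of_ne _ _ _ _ hpr.symm]
  simp only [mul_zero, add_zero]
  abel

theorem el_comm {p q r s : ι} (hqr : q ≠ r) (hps : p ≠ s) (x y : R) :
    el p q x * el r s y = el r s y * el p q x := by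
  by_cases h : p ≠ q
  · by_cases h' : r ≠ s
    · ext1
      simp only [Units.val_mul, el_val h, el_val h', mul_add, add_mul, one_mul, mul_one]
      rw [Matrix.single_mul_single_of_ne _ _ _ _ hqr, Matrix.single_mul_single_of_ne _ _ _ _ hps.symm]
      abel
    · have : el r s y = 1 := by unfold el; rw [dif_neg h']
      rw [this, mul_one, one_mul]
  · have : el p q x = 1 := by unfold el; rw [dif_neg h]
    rw [this, mul_one, one_mul]

/-- `[x_{pr}, y_{rq}] = (xy)_{pq}` -/
theorem el_commutator {p q r : ι} (hpq : p ≠ q) (hpr : p ≠ r) (hrq : r ≠ q) (x y : R) :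
    el p r x * el r q y * (el p r x)⁻¹ * (el r q y)⁻¹ = el p q (x * y) := by
  rw [el_mul_el hpr hrq hpq]
  group

end El

section Col

variable {R : Type*} [Ring R] {ι : Type*} [Fintype ι] [DecidableEq ι]

theorem vv_mul (a b c d : ι → R) : vecMulVec a b * vecMulVec c d =
    vecMulVec (fun i => a i * (b ⬝ᵥ c)) d := by
  ext i j
  rw [Matrix.mul_apply]
  simp only [vecMulVec_apply, dotProduct]
  rw [Finset.mul_sum, Finset.sum_mul]
  apply Finset.sum_congr rfl
  intro k _
  simp only [mul_assoc]

/-- A square zero rank one perturbation of the identity. -/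
def rk1 (a b : ι → R) (h : b ⬝ᵥ a = 0) : (Matrix ι ι R)ˣ where
  val := 1 + vecMulVec a b
  inv := 1 - vecMulVec a b
  val_inv := by
    have h1 : vecMulVec a b * vecMulVec a b = 0 := by
      rw [vv_mul, h]
      ext i j
      simp [vecMulVec_apply]
    rw [mul_sub, add_mul, add_mul, h1]
    simp
  inv_val := by
    have h1 : vecMulVec a b * vecMulVec a b = 0 := by
      rw [vv_mul, h]
      ext i j
      simp [vecMulVec_apply]
    rw [mul_add, sub_mul, sub_mul, h1]
    simp

theorem single_eq_vv (p q : ι) (x : R) : Matrix.single p q x =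
    vecMulVec (Pi.single p x) (Pi.single q 1) := by
  ext i j
  rw [vecMulVec_apply, Matrix.single_apply, Pi.single_apply, Pi.single_apply]
  by_cases h1 : p = i
  · by_cases h2 : q = j
    · rw [if_pos ⟨h1, h2⟩, if_pos h1.symm, if_pos h2.symm, mul_one]
    · rw [if_neg (fun h => h2 h.2), if_pos h1.symm, if_neg (fun h => h2 h.symm), mul_zero]
  · rw [if_neg (fun h => h1 h.1), if_neg (fun h => h1 h.symm), zero_mul]

/-- The diagonal matrix with `-1` at `k`. -/
def dU (R : Type*) [Ring R] (k : ι) : (Matrix ι ι R)ˣ where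
  val := Matrix.diagonal (fun i => if i = k then (-1 : R) else 1)
  inv := Matrix.diagonal (fun i => if i = k then (-1 : R) else 1)
  val_inv := by
    rw [Matrix.diagonal_mul_diagonal, ← Matrix.diagonal_one]
    congr 1
    funext i
    split_ifs <;> simp
  inv_val := by
    rw [Matrix.diagonal_mul_diagonal, ← Matrix.diagonal_one]
    congr 1
    funext i
    split_ifs <;> simp

theorem dU_conj_el {p q : ι} (h : p ≠ q) (x : R) :
    dU R q * el p q x * (dU R q)⁻¹ = el p q (-x) := by
  ext1
  change Matrix.diagonal _ * (el p q x).val * Matrix.diagonal _ = _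
  rw [el_val h, el_val h]
  ext i j
  rw [Matrix.mul_diagonal, Matrix.diagonal_mul, Matrix.add_apply, Matrix.add_apply,
    Matrix.single_apply, Matrix.single_apply, Matrix.one_apply]
  by_cases h1 : i = j
  · subst h1
    by_cases h2 : i = q
    · subst h2
      simp [h]
    · simp [h2, Ne.symm h2]
  · by_cases h2 : j = q
    · subst h2
      by_cases h3 : p = i
      · subst h3
        simp [h]
      · simp [h1, h3]
    · simp [h1, h2, Ne.symm h2]

theorem dU_conj_el' {p q : ι} (h : p ≠ q) (x : R) :
    dU R p * el p q x * (dU R p)⁻¹ = el p q (-x) := by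
  ext1
  change Matrix.diagonal _ * (el p q x).val * Matrix.diagonal _ = _
  rw [el_val h, el_val h]
  ext i j
  rw [Matrix.mul_diagonal, Matrix.diagonal_mul, Matrix.add_apply, Matrix.add_apply,
    Matrix.single_apply, Matrix.single_apply, Matrix.one_apply]
  by_cases h1 : i = j
  · subst h1
    by_cases h2 : i = p
    · subst h2
      simp [Ne.symm h]
    · simp [h2, Ne.symm h2]
  · by_cases h2 : i = p
    · subst h2
      by_cases h3 : q = j
      · subst h3
        simp [h, Ne.symm h]
      · simp [h1, h3]
    · simp [h1, h2, Ne.symm h2]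

theorem dU_conj_rk1_col (k : ι) (a : ι → R) (ha : a k = 0)
    (h : (Pi.single k 1 : ι → R) ⬝ᵥ a = 0) :
    dU R k * rk1 a (Pi.single k 1) h * (dU R k)⁻¹ = (rk1 a (Pi.single k 1) h)⁻¹ := by
  ext1
  change Matrix.diagonal _ * (1 + vecMulVec a (Pi.single k 1)) * Matrix.diagonal _ =
    1 - vecMulVec a (Pi.single k 1)
  ext i j
  rw [Matrix.mul_diagonal, Matrix.diagonal_mul, Matrix.add_apply, Matrix.sub_apply,
    vecMulVec_apply, Pi.single_apply, Matrix.one_apply]
  by_cases h1 : i = j
  · subst h1
    by_cases h2 : i = k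
    · subst h2
      simp [ha]
    · simp [h2]
  · by_cases h2 : j = k
    · subst h2
      simp [h1]
    · by_cases h3 : i = k
      · subst h3
        simp [h1, h2]
      · simp [h1, h2, h3]

theorem dU_conj_rk1_row (k : ι) (b : ι → R) (hb : b k = 0)
    (h : b ⬝ᵥ (Pi.single k 1 : ι → R) = 0) :
    dU R k * rk1 (Pi.single k 1) b h * (dU R k)⁻¹ = (rk1 (Pi.single k 1) b h)⁻¹ := by
  ext1
  change Matrix.diagonal _ * (1 + vecMulVec (Pi.single k 1) b) * Matrix.diagonal _ =
    1 - vecMulVec (Pi.single k 1) b
  ext i j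
  rw [Matrix.mul_diagonal, Matrix.diagonal_mul, Matrix.add_apply, Matrix.sub_apply,
    vecMulVec_apply, Pi.single_apply, Matrix.one_apply]
  by_cases h1 : i = j
  · subst h1
    by_cases h2 : i = k
    · subst h2
      simp [hb]
    · simp [h2]
  · by_cases h2 : i = k
    · subst h2
      by_cases h3 : j = i
      · exact absurd h3.symm h1
      · simp [h1, h3]
    · simp [h1, h2]

theorem reU_el (σ : ι ≃ ι) {p q : ι} (h : p ≠ q) (x : R) :
    reU σ (el p q x) = el (σ p) (σ q) x := by
  ext1
  rw [reU_val, el_val h, el_val (fun h' => h (σ.injective h'))]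
  ext i j
  simp only [Matrix.submatrix_apply, Matrix.add_apply, Matrix.one_apply, Matrix.single_apply,
    Equiv.eq_symm_apply, Equiv.apply_symm_apply]

/-- The row `k` of `X` is trivial. -/
def RowT (k : ι) (X : (Matrix ι ι R)ˣ) : Prop := ∀ j, X.val k j = (1 : Matrix ι ι R) k j

theorem RowT.mul {k : ι} {X Y : (Matrix ι ι R)ˣ} (hX : RowT k X) (hY : RowT k Y) :
    RowT k (X * Y) := by
  intro j
  rw [Units.val_mul, Matrix.mul_apply, ← hY j]
  have h1 : ∀ l, X.val k l * Y.val l j = if k = l then Y.val l j else 0 := by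
    intro l
    rw [hX l, Matrix.one_apply]
    split_ifs <;> simp
  rw [Finset.sum_congr rfl (fun l _ => h1 l), Finset.sum_ite_eq, if_pos (Finset.mem_univ _)]

theorem RowT.inv {k : ι} {X : (Matrix ι ι R)ˣ} (hX : RowT k X) : RowT k X⁻¹ := by
  intro j
  have h1 : (X * X⁻¹).val k j = (1 : Matrix ι ι R) k j := by
    rw [mul_inv_cancel, Units.val_one]
  rw [← h1, Units.val_mul, Matrix.mul_apply]
  have h2 : ∀ l, X.val k l * (X⁻¹).val l j = if k = l then (X⁻¹).val l j else 0 := by
    intro l
    rw [hX l, Matrix.one_apply]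
    split_ifs <;> simp
  rw [Finset.sum_congr rfl (fun l _ => h2 l), Finset.sum_ite_eq, if_pos (Finset.mem_univ _)]

theorem RowT.el {k p q : ι} (h : p ≠ k) (x : R) : RowT k (el p q x) := by
  intro j
  by_cases hpq : p ≠ q
  · rw [el_val hpq, Matrix.add_apply, Matrix.single_apply, if_neg (fun h' => h h'.1), add_zero]
  · unfold H2.el
    rw [dif_neg hpq, Units.val_one]

/-- Conjugation by an elementary matrix in a trivial column. -/
theorem conj_el {k p : ι} (hpk : p ≠ k) {X : (Matrix ι ι R)ˣ} (hX : RowT k X) (t : R)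
    (h : (Pi.single k 1 : ι → R) ⬝ᵥ (fun i => ((1 : Matrix ι ι R) - X.val) i p * t) = 0) :
    el p k t * X * (el p k t)⁻¹ =
      rk1 (fun i => ((1 : Matrix ι ι R) - X.val) i p * t) (Pi.single k 1) h * X := by
  have h0 : (el p k t)⁻¹.val = 1 - Matrix.single p k t := by
    rw [el_inv, el_val hpk, sub_eq_add_neg]
    congr 1
    ext i j
    rw [Matrix.neg_apply, Matrix.single_apply, Matrix.single_apply]
    split_ifs <;> simp
  ext1
  rw [Units.val_mul, Units.val_mul, Units.val_mul, h0, el_val hpk]
  change (1 + Matrix.single p k t) * X.val * (1 - Matrix.single p k t) =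
    (1 + vecMulVec _ (Pi.single k 1)) * X.val
  have h1 : Matrix.single p k t * X.val = Matrix.single p k t := by
    ext i j
    rw [Matrix.mul_apply, Finset.sum_eq_single k]
    · rw [hX j, Matrix.single_apply, Matrix.single_apply, Matrix.one_apply]
      by_cases h2 : p = i <;> by_cases h3 : k = j <;> simp [h2, h3]
    · intro l _ hl
      rw [Matrix.single_apply, if_neg (fun h => hl h.2.symm), zero_mul]
    · intro h; exact absurd (Finset.mem_univ _) h
  have h2 : ∀ c : ι → R, vecMulVec c (Pi.single k 1) * X.val = vecMulVec c (Pi.single k 1) := by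
    intro c
    ext i j
    rw [Matrix.mul_apply, Finset.sum_eq_single k]
    · rw [hX j, vecMulVec_apply, vecMulVec_apply, Matrix.one_apply, Pi.single_apply, if_pos rfl,
        mul_one, Pi.single_apply]
      by_cases h3 : k = j
      · rw [if_pos h3, if_pos h3.symm]
      · rw [if_neg h3, if_neg (Ne.symm h3)]
    · intro l _ hl
      rw [vecMulVec_apply, Pi.single_apply, if_neg hl, mul_zero, zero_mul]
    · intro h; exact absurd (Finset.mem_univ _) h
  rw [add_mul, one_mul, h1, mul_sub, mul_one, add_mul, add_mul,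
    Matrix.single_mul_single_of_ne _ _ _ _ hpk.symm, add_zero, one_mul, h2]
  ext i j
  rw [Matrix.sub_apply, Matrix.add_apply, Matrix.add_apply, Matrix.mul_apply,
    Finset.sum_eq_single p]
  · rw [vecMulVec_apply, Matrix.single_apply, Matrix.single_apply, Pi.single_apply,
      Matrix.sub_apply, Matrix.one_apply]
    by_cases h3 : k = j
    · by_cases h4 : p = i
      · rw [if_pos ⟨h4, h3⟩, if_pos ⟨rfl, h3⟩, if_pos h3.symm, if_pos h4.symm]
        noncomm_ring
      · rw [if_neg (fun h => h4 h.1), if_pos ⟨rfl, h3⟩, if_pos h3.symm, if_neg (Ne.symm h4)]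
        noncomm_ring
    · rw [if_neg (fun h => h3 h.2), if_neg (fun h => h3 h.2), if_neg (Ne.symm h3)]
      noncomm_ring
  · intro l _ hl
    rw [Matrix.single_apply, if_neg (fun h => hl h.1.symm), mul_zero]
  · intro h; exact absurd (Finset.mem_univ _) h

end Col

end Pool.Agent.Lib25.H2
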