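import Pool.Agent.Lib_helper25.H2.El

/-!
# Excision for `K₁` modulo torsion
-/

set_option autoImplicit false
set_option linter.unusedSectionVars false

open Matrix Pool.Agent.WhK

namespace Pool.Agent.Lib25.H2

universe u

section MapU

variable {S T U : Type*} [Ring S] [Ring T] [Ring U] {ι κ : Type*} [Fintype ι] [DecidableEq ι]
  [Fintype κ] [DecidableEq κ]

/-- The homomorphism between general linear groups induced by a ring homomorphism. -/
def mapU (f : S →+* T) : (Matrix ι ι S)ˣ →* (Matrix ι ι T)ˣ :=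
  Units.map (f.mapMatrix : Matrix ι ι S →+* Matrix ι ι T).toMonoidHom

theorem mapU_val (f : S →+* T) (X : (Matrix ι ι S)ˣ) : (mapU f X).val = X.val.map f := rfl

theorem mapU_inv (f : S →+* T) (X : (Matrix ι ι S)ˣ) : (mapU f X)⁻¹.val = X⁻¹.val.map f := rfl

theorem mapU_comp (f : S →+* T) (g : T →+* U) (X : (Matrix ι ι S)ˣ) :
    mapU g (mapU f X) = mapU (g.comp f) X := by
  ext1
  rfl

theorem mapU_injective {f : S →+* T} (hf : Function.Injective f) :
    Function.Injective (mapU f : (Matrix ι ι S)ˣ →* (Matrix ι ι T)ˣ) := by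
  intro X Y h
  ext1
  exact Matrix.map_injective hf (congrArg Units.val h)

theorem mapU_el (f : S →+* T) (p q : ι) (x : S) : mapU f (el p q x) = el p q (f x) := by
  by_cases h : p ≠ q
  · ext1
    rw [mapU_val, el_val h, el_val h, Matrix.map_add _ (map_add f),
      Matrix.map_one _ (map_zero f) (map_one f)]
    congr 1
    ext i j
    rw [Matrix.map_apply, Matrix.single_apply, Matrix.single_apply]
    split_ifs
    · rfl
    · exact map_zero f
  · unfold el
    rw [dif_neg h, dif_neg h, map_one]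

theorem mapU_dU (f : S →+* T) (k : ι) : mapU f (dU S k) = dU T k := by
  ext1
  rw [mapU_val]
  change (Matrix.diagonal _).map f = Matrix.diagonal _
  rw [Matrix.diagonal_map (map_zero f)]
  congr 1
  funext l
  change f (if l = k then (-1 : S) else 1) = if l = k then (-1 : T) else 1
  split_ifs
  · rw [map_neg, map_one]
  · exact map_one f

theorem mapU_reU (f : S →+* T) (e : ι ≃ κ) (X : (Matrix ι ι S)ˣ) :
    mapU f (reU e X) = reU e (mapU f X) := by
  ext1
  rfl

theorem mapU_diagU (f : S →+* T) (X : (Matrix ι ι S)ˣ) (Y : (Matrix κ κ S)ˣ) :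
    mapU f (diagU X Y) = diagU (mapU f X) (mapU f Y) := by
  ext1
  change (fromBlocks X.val 0 0 Y.val).map f = fromBlocks (X.val.map f) 0 0 (Y.val.map f)
  rw [fromBlocks_map, Matrix.map_zero _ (map_zero f), Matrix.map_zero _ (map_zero f)]

end MapU

section Int

variable {S : Type u} {T : Type*} [Ring S] [Ring T] {ι κ : Type*} [Fintype ι] [DecidableEq ι]
  [Fintype κ] [DecidableEq κ]

/-- The matrix comes from `S`. -/
def Int (i : S →+* T) (X : (Matrix ι ι T)ˣ) : Prop := ∃ Y : (Matrix ι ι S)ˣ, mapU i Y = X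

open scoped Classical in
/-- The class in `K₁(S)` of a matrix which comes from `S`. -/
noncomputable def tc (i : S →+* T) (X : (Matrix ι ι T)ˣ) : K1 S :=
  if h : ∃ Y : (Matrix ι ι S)ˣ, mapU i Y = X then cls h.choose else 0

/-- The class modulo torsion. -/
noncomputable def tt (i : S →+* T) (X : (Matrix ι ι T)ˣ) : ModTors (K1 S) := mt (tc i X)

variable {i : S →+* T} (hi : Function.Injective i)

include hi

theorem tc_mapU (Y : (Matrix ι ι S)ˣ) : tc i (mapU i Y) = cls Y := by
  have h : ∃ Y' : (Matrix ι ι S)ˣ, mapU i Y' = mapU i Y := ⟨Y, rfl⟩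
  unfold tc
  rw [dif_pos h]
  congr 1
  exact mapU_injective hi h.choose_spec

theorem tt_mapU (Y : (Matrix ι ι S)ˣ) : tt i (mapU i Y) = tau Y := by
  unfold tt
  rw [tc_mapU hi]
  rfl

omit hi in
theorem Int.mul {X Y : (Matrix ι ι T)ˣ} (hX : Int i X) (hY : Int i Y) : Int i (X * Y) := by
  obtain ⟨X, rfl⟩ := hX
  obtain ⟨Y, rfl⟩ := hY
  exact ⟨X * Y, map_mul _ _ _⟩

omit hi in
theorem Int.inv {X : (Matrix ι ι T)ˣ} (hX : Int i X) : Int i X⁻¹ := by
  obtain ⟨X, rfl⟩ := hX
  exact ⟨X⁻¹, map_inv _ _⟩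

omit hi in
theorem Int.one : Int i (1 : (Matrix ι ι T)ˣ) := ⟨1, map_one _⟩

omit hi in
theorem Int.el (p q : ι) (x : S) : Int i (el p q (i x)) := ⟨_, mapU_el i p q x⟩

omit hi in
theorem Int.dU (k : ι) : Int i (dU T k) := ⟨_, mapU_dU i k⟩

theorem tc_mul {X Y : (Matrix ι ι T)ˣ} (hX : Int i X) (hY : Int i Y) :
    tc i (X * Y) = tc i X + tc i Y := by
  obtain ⟨X, rfl⟩ := hX
  obtain ⟨Y, rfl⟩ := hY
  rw [← map_mul, tc_mapU hi, tc_mapU hi, tc_mapU hi, cls_mul]

theorem tt_mul {X Y : (Matrix ι ι T)ˣ} (hX : Int i X) (hY : Int i Y) :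
    tt i (X * Y) = tt i X + tt i Y := by
  unfold tt
  rw [tc_mul hi hX hY, map_add]

theorem tt_one : tt i (1 : (Matrix ι ι T)ˣ) = 0 := by
  rw [← map_one (mapU i), tt_mapU hi, tau_one]

theorem tt_inv {X : (Matrix ι ι T)ˣ} (hX : Int i X) : tt i X⁻¹ = - tt i X := by
  have h := tt_mul hi hX.inv hX
  rw [inv_mul_cancel, tt_one hi] at h
  exact eq_neg_of_add_eq_zero_left h.symm

theorem tt_conj {P X : (Matrix ι ι T)ˣ} (hP : Int i P) (hX : Int i X) :
    tt i (P * X * P⁻¹) = tt i X := by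
  rw [tt_mul hi (hP.mul hX) hP.inv, tt_mul hi hP hX, tt_inv hi hP]
  abel

omit hi in
theorem Int.conj {P X : (Matrix ι ι T)ˣ} (hP : Int i P) (hX : Int i X) : Int i (P * X * P⁻¹) :=
  (hP.mul hX).mul hP.inv

theorem tt_eq_zero_of_conj_inv {P X : (Matrix ι ι T)ˣ} (hP : Int i P) (hX : Int i X)
    (h : P * X * P⁻¹ = X⁻¹) : tt i X = 0 := by
  have h1 := tt_conj hi hP hX
  rw [h, tt_inv hi hX] at h1
  have h2 : tt i X + tt i X = -tt i X + tt i X := by rw [h1]
  exact ModTors.eq_zero (n := 2) two_pos (by rw [two_nsmul, h2, neg_add_cancel])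

theorem tt_el {p q : ι} (x : S) : tt i (el p q (i x)) = 0 := by
  by_cases h : p ≠ q
  · apply tt_eq_zero_of_conj_inv hi (Int.dU (i := i) q) (Int.el p q x)
    rw [dU_conj_el h, el_inv]
  · have : el p q (i x) = 1 := by unfold H2.el; rw [dif_neg h]
    rw [this, tt_one hi]

theorem tt_reU (e : ι ≃ κ) (X : (Matrix ι ι T)ˣ) (hX : Int i X) : tt i (reU e X) = tt i X := by
  obtain ⟨X, rfl⟩ := hX
  rw [← mapU_reU, tt_mapU hi, tt_mapU hi, tau_reU]

theorem tt_diagU {X : (Matrix ι ι T)ˣ} {Y : (Matrix κ κ T)ˣ} (hX : Int i X) (hY : Int i Y) :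
    tt i (diagU X Y) = tt i X + tt i Y := by
  obtain ⟨X, rfl⟩ := hX
  obtain ⟨Y, rfl⟩ := hY
  rw [← mapU_diagU, tt_mapU hi, tt_mapU hi, tt_mapU hi, tau_diagU]

end Int

section Exc

variable {S : Type u} {T T' : Type*} [Ring S] [Ring T] [Ring T'] {ι κ : Type*} [Fintype ι]
  [DecidableEq ι] [Fintype κ] [DecidableEq κ]

/-- The situation of excision: `S` is a subring of `T`, generated as a ring by `S` and a central
element `a`, and the kernel of `π` is an ideal of `T` contained in `S` and containing `a ^ 2 - a`.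
-/
structure ExcD (i : S →+* T) (π : T →+* T') (a : T) : Prop where
  inj : Function.Injective i
  ker : ∀ x, π x = 0 → ∃ y, i y = x
  cent : ∀ x, a * x = x * a
  gen : ∀ x, ∃ s s', x = i s + a * i s'
  idem : π a * π a = π a

variable {i : S →+* T} {π : T →+* T'} {a : T}

theorem ExcD.int_of_one (H : ExcD i π a) {X : (Matrix ι ι T)ˣ} (hX : mapU π X = 1) : Int i X := by
  have key : ∀ Y : (Matrix ι ι T)ˣ, mapU π Y = 1 → ∃ Z : Matrix ι ι S, Z.map i = Y.val := by
    intro Y hY
    have h1 : ∀ p q, ∃ z : S, i z = Y.val p q - (1 : Matrix ι ι T) p q := by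
      intro p q
      apply H.ker
      have h2 : Y.val.map π = 1 := congrArg Units.val hY
      have h3 : π (Y.val p q) = (1 : Matrix ι ι T') p q := by
        rw [← h2, Matrix.map_apply]
      rw [map_sub, h3, Matrix.one_apply, Matrix.one_apply]
      split_ifs
      · rw [map_one, sub_self]
      · rw [map_zero, sub_self]
    choose z hz using h1
    refine ⟨1 + Matrix.of z, ?_⟩
    ext p q
    rw [Matrix.map_apply, Matrix.add_apply, map_add, Matrix.of_apply, hz, Matrix.one_apply,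
      Matrix.one_apply]
    split_ifs
    · rw [map_one]; abel
    · rw [map_zero]; abel
  obtain ⟨Z, hZ⟩ := key X hX
  obtain ⟨W, hW⟩ := key X⁻¹ (by rw [map_inv, hX, inv_one])
  refine ⟨⟨Z, W, ?_, ?_⟩, ?_⟩
  · apply Matrix.map_injective H.inj
    change (Z * W).map i = (1 : Matrix ι ι S).map i
    rw [Matrix.map_mul, hZ, hW, Matrix.map_one _ (map_zero i) (map_one i), ← Units.val_mul,
      mul_inv_cancel, Units.val_one]
  · apply Matrix.map_injective H.inj
    change (W * Z).map i = (1 : Matrix ι ι S).map i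
    rw [Matrix.map_mul, hZ, hW, Matrix.map_one _ (map_zero i) (map_one i), ← Units.val_mul,
      inv_mul_cancel, Units.val_one]
  · ext1
    exact hZ

theorem ExcD.int_el (H : ExcD i π a) (p q : ι) {x : T} (hx : π x = 0) : Int i (el p q x) := by
  obtain ⟨y, rfl⟩ := H.ker x hx
  exact Int.el p q y

theorem ExcD.tt_el0 (H : ExcD i π a) (p q : ι) {x : T} (hx : π x = 0) : tt i (el p q x) = 0 := by
  obtain ⟨y, rfl⟩ := H.ker x hx
  exact tt_el H.inj y

theorem mapU_el0 (p q : ι) {x : T} (hx : π x = 0) : mapU π (el p q x) = 1 := by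
  rw [mapU_el, hx, el_zero]

theorem mapU_conj {X : (Matrix ι ι T)ˣ} (hX : mapU π X = 1) (P : (Matrix ι ι T)ˣ) :
    mapU π (P * X * P⁻¹) = 1 := by
  rw [map_mul, map_mul, hX, mul_one, map_inv, mul_inv_cancel]

theorem mapU_conj' {X : (Matrix ι ι T)ˣ} (hX : mapU π X = 1) (P : (Matrix ι ι T)ˣ) :
    mapU π (P⁻¹ * X * P) = 1 := by
  rw [map_mul, map_mul, hX, mul_one, map_inv, inv_mul_cancel]

/-- Conjugation by an elementary matrix in a trivial slot. -/
theorem ExcD.os (H : ExcD i π a) {k p : ι} (hpk : p ≠ k) {X : (Matrix ι ι T)ˣ}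
    (hX : mapU π X = 1) (hr : RowT k X) (t : T) :
    tt i (el p k t * X * (el p k t)⁻¹) = tt i X := by
  have hc : (fun i => ((1 : Matrix ι ι T) - X.val) i p * t) k = 0 := by
    change ((1 : Matrix ι ι T) - X.val) k p * t = 0
    rw [Matrix.sub_apply, hr p, sub_self, zero_mul]
  have h : (Pi.single k 1 : ι → T) ⬝ᵥ (fun i => ((1 : Matrix ι ι T) - X.val) i p * t) = 0 := by
    rw [single_dotProduct]
    exact (congrArg (fun z => (1 : T) * z) hc).trans (mul_zero _)
  rw [conj_el hpk hr t h]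
  set c : ι → T := fun i => ((1 : Matrix ι ι T) - X.val) i p * t with hcdef
  have hπ : ∀ l, π (c l) = 0 := by
    intro l
    have h2 : X.val.map π = 1 := congrArg Units.val hX
    have h3 : π (X.val l p) = (1 : Matrix ι ι T') l p := by
      rw [← h2, Matrix.map_apply]
    simp only [hcdef]
    rw [map_mul, Matrix.sub_apply, map_sub, h3, Matrix.one_apply, Matrix.one_apply]
    split_ifs
    · rw [map_one, sub_self, zero_mul]
    · rw [map_zero, sub_self, zero_mul]
  have h1 : mapU π (rk1 c (Pi.single k 1) h) = 1 := by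
    ext1
    rw [mapU_val]
    change (1 + vecMulVec c (Pi.single k 1)).map π = 1
    ext l m
    rw [Matrix.map_apply, Matrix.add_apply, map_add, vecMulVec_apply, map_mul, hπ, zero_mul,
      add_zero, Matrix.one_apply, Matrix.one_apply]
    split_ifs
    · exact map_one π
    · exact map_zero π
  have h2 : tt i (rk1 c (Pi.single k 1) h) = 0 :=
    tt_eq_zero_of_conj_inv H.inj (Int.dU (i := i) k) (H.int_of_one h1)
      (dU_conj_rk1_col k c hc h)
  rw [tt_mul H.inj (H.int_of_one h1) (H.int_of_one hX), h2, zero_add]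

end Exc

section Chi

variable {S : Type u} {T T' : Type*} [Ring S] [Ring T] [Ring T'] {ι : Type*} [Fintype ι]
  [DecidableEq ι] {i : S →+* T} {π : T →+* T'} {a : T}

theorem conjA {R : Type*} [Ring R] {p q r : ι} (hpq : p ≠ q) (hqr : q ≠ r) (hpr : p ≠ r)
    (x y : R) : el p q x * el q r y * (el p q x)⁻¹ = el p r (x * y) * el q r y := by
  rw [el_mul_el hpq hqr hpr]
  group

theorem conjB {R : Type*} [Ring R] {p q r : ι} (hpq : p ≠ q) (hqr : q ≠ r) (hpr : p ≠ r)
    (x y : R) : el p q x * el r p y * (el p q x)⁻¹ = el r q (-(y * x)) * el r p y := by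
  have h := el_mul_el hpr.symm hpq hqr.symm y x
  have h2 : el p q x * el r p y = (el r q (y * x))⁻¹ * (el r p y * el p q x) := by
    rw [h]
    group
  rw [h2, el_inv r q]
  group

variable (H : ExcD i π a)

include H

/-- The class of `a_{pq} j_{qp} (-a)_{pq}`. -/
theorem ExcD.chi_add (p q : ι) (t : T) {j j' : T} (hj : π j = 0) (hj' : π j' = 0) :
    tt i (el p q t * el q p (j + j') * (el p q t)⁻¹) =
      tt i (el p q t * el q p j * (el p q t)⁻¹) + tt i (el p q t * el q p j' * (el p q t)⁻¹) := by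
  rw [← tt_mul H.inj (H.int_of_one (mapU_conj (mapU_el0 q p hj) _))
    (H.int_of_one (mapU_conj (mapU_el0 q p hj') _)), ← el_add]
  congr 1
  group

theorem ExcD.chi_mul {p q r : ι} (hpq : p ≠ q) (hqr : q ≠ r) (hpr : p ≠ r) (t : T) {j j' : T}
    (hj : π j = 0) (hj' : π j' = 0) :
    tt i (el p q t * el q p (j * j') * (el p q t)⁻¹) = 0 := by
  have h1 := conjA hpq hqr hpr t j
  have h2 := conjB hpq hqr hpr t j'
  have e1 : el p q t * el q p (j * j') * (el p q t)⁻¹ =
      (el p q t * el q r j * (el p q t)⁻¹) * (el p q t * el r p j' * (el p q t)⁻¹) *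
      (el p q t * el q r j * (el p q t)⁻¹)⁻¹ * (el p q t * el r p j' * (el p q t)⁻¹)⁻¹ := by
    rw [← el_commutator hpq.symm hqr hpr.symm j j']
    group
  have i1 : Int i (el p q t * el q r j * (el p q t)⁻¹) :=
    H.int_of_one (mapU_conj (mapU_el0 q r hj) _)
  have i2 : Int i (el p q t * el r p j' * (el p q t)⁻¹) :=
    H.int_of_one (mapU_conj (mapU_el0 r p hj') _)
  rw [e1, tt_mul H.inj (i1.conj i2) i2.inv, tt_conj H.inj i1 i2, tt_inv H.inj i2, add_neg_cancel]

theorem ExcD.chi_perm (σ : ι ≃ ι) {p q : ι} (hpq : p ≠ q) (t : T) {j : T} (hj : π j = 0) :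
    tt i (el (σ p) (σ q) t * el (σ q) (σ p) j * (el (σ p) (σ q) t)⁻¹) =
      tt i (el p q t * el q p j * (el p q t)⁻¹) := by
  rw [← reU_el σ hpq, ← reU_el σ hpq.symm, ← map_inv, ← map_mul, ← map_mul]
  exact tt_reU H.inj σ _ (H.int_of_one (mapU_conj (mapU_el0 q p hj) _))

theorem ExcD.chi_neg {p q : ι} (hpq : p ≠ q) (t : T) {j : T} (hj : π j = 0) :
    tt i (el p q (-t) * el q p (-j) * (el p q (-t))⁻¹) =
      tt i (el p q t * el q p j * (el p q t)⁻¹) := by
  rw [← tt_conj H.inj (Int.dU (i := i) q) (H.int_of_one (mapU_conj (mapU_el0 q p hj) (el p q t))),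
    ← dU_conj_el hpq, ← dU_conj_el' hpq.symm]
  congr 1
  group

/-- The key recursion. -/
theorem ExcD.chi_rec {p q r : ι} (hpq : p ≠ q) (hqr : q ≠ r) (hpr : p ≠ r) {j : T}
    (hj : π j = 0) :
    tt i (el p q a * el q p j * (el p q a)⁻¹) =
      tt i (el p r a * el r p (a * j) * (el p r a)⁻¹) +
      tt i (el r q a * el q r (j * a) * (el r q a)⁻¹) := by
  have haj : π (a * j) = 0 := by rw [map_mul, hj, mul_zero]
  have hja : π (j * a) = 0 := by rw [map_mul, hj, zero_mul]
  -- the four steps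
  set x := el q p j with hx
  set X : (Matrix ι ι T)ˣ := el p r (-a) * el r p (-(a * j)) * (el p r (-a))⁻¹ with hX
  have cX : mapU π X = 1 := mapU_conj (mapU_el0 r p (by rw [map_neg, haj, neg_zero])) _
  have ttX : tt i X = tt i (el p r a * el r p (a * j) * (el p r a)⁻¹) := H.chi_neg hpr a haj
  have e1 : (el r q a)⁻¹ * x * el r q a = el r p (-(a * j)) * x := by
    have h := conjA hqr.symm hpq.symm hpr.symm (-a) j
    rw [← el_inv, inv_inv] at h
    rw [hx, h, neg_mul]
  have e2 : (el p r a)⁻¹ * (el r p (-(a * j)) * x) * el p r a = X * (el q r (j * a) * x) := by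
    have h := conjB hpr hqr.symm hpq (-a) j
    rw [mul_neg, neg_neg] at h
    rw [hX, ← h, ← el_inv p r a, hx]
    group
  set x3 : (Matrix ι ι T)ˣ := el r q a * (X * (el q r (j * a) * x)) * (el r q a)⁻¹ with hx3
  have e3 : x3 = (el r q a * X * (el r q a)⁻¹) * ((el r q a * el q r (j * a) * (el r q a)⁻¹) *
      (el r q a * x * (el r q a)⁻¹)) := by
    rw [hx3]
    group
  have e3' : el r q a * x * (el r q a)⁻¹ = el r p (a * j) * x :=
    conjA hqr.symm hpq.symm hpr.symm a j
  have ix : Int i x := H.int_el q p hj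
  have i1 : Int i (el r q a * X * (el r q a)⁻¹) := H.int_of_one (mapU_conj cX _)
  have i2 : Int i (el r q a * el q r (j * a) * (el r q a)⁻¹) :=
    H.int_of_one (mapU_conj (mapU_el0 q r hja) _)
  have i3 : Int i (el r p (a * j)) := H.int_el r p haj
  have rX : RowT q X := ((RowT.el hpq _).mul (RowT.el hqr.symm _)).mul (RowT.el hpq _).inv
  have t3 : tt i x3 = tt i (el p r a * el r p (a * j) * (el p r a)⁻¹) +
      tt i (el r q a * el q r (j * a) * (el r q a)⁻¹) := by
    rw [e3, e3', tt_mul H.inj i1 (i2.mul (i3.mul ix)), tt_mul H.inj i2 (i3.mul ix),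
      tt_mul H.inj i3 ix, H.os hqr.symm cX rX, ttX, H.tt_el0 r p haj, hx, H.tt_el0 q p hj,
      add_zero, add_zero]
  -- the last step
  set x4 : (Matrix ι ι T)ˣ := el p q (a * a) * x * (el p q (a * a))⁻¹ with hx4
  have c4 : mapU π x4 = 1 := mapU_conj (mapU_el0 q p hj) _
  have r4 : RowT r x4 := ((RowT.el hpr _).mul (RowT.el hqr _)).mul (RowT.el hpr _).inv
  have e4 : el p r (-a) * x4 * (el p r (-a))⁻¹ = x3 := by
    rw [hx4, hx3, ← e2, ← e1, ← el_commutator hpq hpr hqr.symm a a, ← el_inv p r a]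
    group
  have t4 : tt i x4 = tt i x3 := by rw [← e4, H.os hpr c4 r4]
  have hid : π (a * a - a) = 0 := by rw [map_sub, map_mul, H.idem, sub_self]
  have t5 : tt i x4 = tt i (el p q a * x * (el p q a)⁻¹) := by
    have e5 : x4 = el p q (a * a - a) * (el p q a * x * (el p q a)⁻¹) *
        (el p q (a * a - a))⁻¹ := by
      have h : el p q (a * a) = el p q (a * a - a) * el p q a := by
        rw [el_add, sub_add_cancel]
      rw [hx4, h]
      group
    rw [e5, tt_conj H.inj (H.int_el p q hid) (H.int_of_one (mapU_conj (mapU_el0 q p hj) _))]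
  rw [← t5, t4, t3]

theorem ExcD.chi_zero_a {p q r : ι} (hpq : p ≠ q) (hqr : q ≠ r) (hpr : p ≠ r) {j : T}
    (hj : π j = 0) : tt i (el p q a * el q p j * (el p q a)⁻¹) = 0 := by
  have key : ∀ {j : T}, π j = 0 → tt i (el p q a * el q p j * (el p q a)⁻¹) =
      2 • tt i (el p q a * el q p (a * j) * (el p q a)⁻¹) := by
    intro j hj
    have haj : π (a * j) = 0 := by rw [map_mul, hj, mul_zero]
    have h1 := H.chi_perm (Equiv.swap q r) hpq a haj
    rw [Equiv.swap_apply_left, Equiv.swap_apply_of_ne_of_ne hpq hpr] at h1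
    have h2 := H.chi_perm (Equiv.swap p r) hpq a haj
    rw [Equiv.swap_apply_left, Equiv.swap_apply_of_ne_of_ne hpq.symm hqr] at h2
    rw [H.chi_rec hpq hqr hpr hj, h1, ← H.cent j, h2, two_nsmul]
  have haj : π (a * j) = 0 := by rw [map_mul, hj, mul_zero]
  have hid : π (a * a - a) = 0 := by rw [map_sub, map_mul, H.idem, sub_self]
  have h1 := key haj
  have h2 : a * (a * j) = (a * a - a) * j + a * j := by noncomm_ring
  rw [h2, H.chi_add p q a (by rw [map_mul, hid, zero_mul]) haj,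
    H.chi_mul hpq hqr hpr a hid hj, zero_add, two_nsmul] at h1
  have h3 : tt i (el p q a * el q p (a * j) * (el p q a)⁻¹) = 0 := left_eq_add.1 h1
  rw [key hj, h3, smul_zero]

theorem ExcD.chi_zero {p q r : ι} (hpq : p ≠ q) (hqr : q ≠ r) (hpr : p ≠ r) (t : T) {j : T}
    (hj : π j = 0) : tt i (el p q t * el q p j * (el p q t)⁻¹) = 0 := by
  obtain ⟨s0, s, rfl⟩ := H.gen t
  have haj : π (a * j) = 0 := by rw [map_mul, hj, mul_zero]
  have hjs : π (j * i s) = 0 := by rw [map_mul, hj, zero_mul]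
  have cj : ∀ P : (Matrix ι ι T)ˣ, Int i (P * el q p j * P⁻¹) := fun P =>
    H.int_of_one (mapU_conj (mapU_el0 q p hj) _)
  have e0 : el p q (i s0 + a * i s) * el q p j * (el p q (i s0 + a * i s))⁻¹ =
      el p q (i s0) * (el p q (a * i s) * el q p j * (el p q (a * i s))⁻¹) *
        (el p q (i s0))⁻¹ := by
    rw [← el_add]
    group
  rw [e0, tt_conj H.inj (Int.el p q s0) (cj _), H.cent]
  set x := el q p j with hx
  set X : (Matrix ι ι T)ˣ := (el p r (i s))⁻¹ * el r p (-(a * j)) * el p r (i s) with hX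
  have naj : π (-(a * j)) = 0 := by rw [map_neg, haj, neg_zero]
  have cX : mapU π X = 1 := mapU_conj' (mapU_el0 r p naj) _
  have ttX : tt i X = 0 := by
    have h := tt_conj H.inj (Int.el (i := i) p r s).inv (H.int_el r p naj)
    rw [inv_inv, H.tt_el0 r p naj] at h
    exact h
  have e1 : (el r q a)⁻¹ * x * el r q a = el r p (-(a * j)) * x := by
    have h := conjA hqr.symm hpq.symm hpr.symm (-a) j
    rw [← el_inv, inv_inv] at h
    rw [hx, h, neg_mul]
  have e2 : (el p r (i s))⁻¹ * (el r p (-(a * j)) * x) * el p r (i s) =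
      X * (el q r (j * i s) * x) := by
    have h := conjB hpr hqr.symm hpq (-(i s)) j
    rw [mul_neg, neg_neg] at h
    rw [hX, ← h, ← el_inv p r (i s), hx]
    group
  set x3 : (Matrix ι ι T)ˣ := el r q a * (X * (el q r (j * i s) * x)) * (el r q a)⁻¹ with hx3
  have e3 : x3 = (el r q a * X * (el r q a)⁻¹) * ((el r q a * el q r (j * i s) * (el r q a)⁻¹) *
      (el r q a * x * (el r q a)⁻¹)) := by
    rw [hx3]
    group
  have e3' : el r q a * x * (el r q a)⁻¹ = el r p (a * j) * x :=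
    conjA hqr.symm hpq.symm hpr.symm a j
  have ix : Int i x := H.int_el q p hj
  have i1 : Int i (el r q a * X * (el r q a)⁻¹) := H.int_of_one (mapU_conj cX _)
  have i2 : Int i (el r q a * el q r (j * i s) * (el r q a)⁻¹) :=
    H.int_of_one (mapU_conj (mapU_el0 q r hjs) _)
  have i3 : Int i (el r p (a * j)) := H.int_el r p haj
  have rX : RowT q X := ((RowT.el hpq _).inv.mul (RowT.el hqr.symm _)).mul (RowT.el hpq _)
  have t3 : tt i x3 = 0 := by
    rw [e3, e3', tt_mul H.inj i1 (i2.mul (i3.mul ix)), tt_mul H.inj i2 (i3.mul ix),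
      tt_mul H.inj i3 ix, H.os hqr.symm cX rX, ttX, H.tt_el0 r p haj, hx, H.tt_el0 q p hj,
      H.chi_zero_a hqr.symm hpq.symm hpr.symm hjs]
    simp
  have e4 : el p q (i s * a) * x * (el p q (i s * a))⁻¹ = el p r (i s) * x3 *
      (el p r (i s))⁻¹ := by
    rw [hx3, ← e2, ← e1, ← el_commutator hpq hpr hqr.symm (i s) a]
    group
  have i3' : Int i x3 := by
    rw [e3, e3']
    exact i1.mul (i2.mul (i3.mul ix))
  rw [e4, tt_conj H.inj (Int.el p r s) i3', t3]

end Chi

end Pool.Agent.Lib25.H2
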