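import Pool.Agent.Lib_helper25.H2.Exc

/-!
# Invariance of the class under conjugation by elementary matrices over the larger ring
-/

set_option autoImplicit false
set_option linter.unusedSectionVars false

open Matrix Pool.Agent.WhK

namespace Pool.Agent.Lib25.H2

universe u

section Row

variable {R : Type*} [Ring R] {ι : Type*} [Fintype ι] [DecidableEq ι]

/-- The column `k` of `X` is trivial. -/
def ColT (k : ι) (X : (Matrix ι ι R)ˣ) : Prop := ∀ l, X.val l k = (1 : Matrix ι ι R) l k

theorem single_mul_rk1_row {p k : ι} (t : R) (b : ι → R) :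
    Matrix.single p k t * vecMulVec (Pi.single k 1) b =
      vecMulVec (Pi.single p 1) (fun l => t * b l) := by
  ext l m
  rw [Matrix.mul_apply, Finset.sum_eq_single k]
  · rw [Matrix.single_apply, vecMulVec_apply, vecMulVec_apply, Pi.single_apply, Pi.single_apply,
      if_pos rfl, one_mul]
    by_cases h : p = l
    · rw [if_pos ⟨h, rfl⟩, if_pos h.symm, one_mul]
    · rw [if_neg (fun h' => h h'.1), if_neg (Ne.symm h), zero_mul, zero_mul]
  · intro c _ hc
    rw [Matrix.single_apply, if_neg (fun h => hc h.2.symm), zero_mul]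
  · intro h; exact absurd (Finset.mem_univ _) h

theorem rk1_row_mul_single {p k : ι} (t : R) (b : ι → R) (hb : b p = 0) :
    vecMulVec (Pi.single k 1) b * Matrix.single p k t = 0 := by
  ext l m
  rw [Matrix.mul_apply, Finset.sum_eq_single p]
  · rw [vecMulVec_apply, hb, mul_zero, zero_mul, Matrix.zero_apply]
  · intro c _ hc
    rw [Matrix.single_apply, if_neg (fun h => hc h.1.symm), mul_zero]
  · intro h; exact absurd (Finset.mem_univ _) h

theorem rowconj {p k : ι} (hpk : p ≠ k) (t : R) (b : ι → R) (hbp : b p = 0)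
    (h : b ⬝ᵥ (Pi.single k 1 : ι → R) = 0)
    (h' : (fun l => -(t * b l)) ⬝ᵥ (Pi.single p 1 : ι → R) = 0) :
    (el p k t)⁻¹ * rk1 (Pi.single k 1) b h * el p k t =
      rk1 (Pi.single k 1) b h * rk1 (Pi.single p 1) (fun l => -(t * b l)) h' := by
  have h0 : (el p k t)⁻¹.val = 1 - Matrix.single p k t := by
    rw [el_inv, el_val hpk, sub_eq_add_neg]
    congr 1
    ext i j
    rw [Matrix.neg_apply, Matrix.single_apply, Matrix.single_apply]
    split_ifs <;> simp
  ext1
  rw [Units.val_mul, Units.val_mul, Units.val_mul, h0, el_val hpk]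
  change (1 - Matrix.single p k t) * (1 + vecMulVec (Pi.single k 1) b) *
    (1 + Matrix.single p k t) = (1 + vecMulVec (Pi.single k 1) b) *
      (1 + vecMulVec (Pi.single p 1) (fun l => -(t * b l)))
  have h1 := single_mul_rk1_row (p := p) (k := k) t b
  have h2 := rk1_row_mul_single (p := p) (k := k) t b hbp
  have h3 : Matrix.single p k t * Matrix.single p k t = 0 :=
    Matrix.single_mul_single_of_ne _ _ _ _ hpk.symm _
  have h4 : vecMulVec (Pi.single k 1) b * vecMulVec (Pi.single p 1 : ι → R)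
      (fun l => -(t * b l)) = 0 := by
    rw [vv_mul]
    ext l m
    rw [vecMulVec_apply, dotProduct_single, hbp, zero_mul, mul_zero, zero_mul, Matrix.zero_apply]
  have h5 : vecMulVec (Pi.single p 1 : ι → R) (fun l => -(t * b l)) =
      - vecMulVec (Pi.single p 1 : ι → R) (fun l => t * b l) := by
    ext l m
    rw [Matrix.neg_apply, vecMulVec_apply, vecMulVec_apply, mul_neg]
  have e1 : (1 - Matrix.single p k t) * (1 + vecMulVec (Pi.single k 1) b) *
      (1 + Matrix.single p k t) = 1 + vecMulVec (Pi.single k 1) b -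
      Matrix.single p k t * vecMulVec (Pi.single k 1) b +
      vecMulVec (Pi.single k 1) b * Matrix.single p k t -
      Matrix.single p k t * Matrix.single p k t -
      Matrix.single p k t * (vecMulVec (Pi.single k 1) b * Matrix.single p k t) := by
    noncomm_ring
  rw [e1, h2, h3, h1, mul_add, mul_one, add_mul, one_mul, h4, h5]
  simp only [mul_zero, add_zero, sub_zero]
  abel

theorem row_split {p k : ι} (hpk : p ≠ k) (b : ι → R) (hb : b k = 0)
    (h : b ⬝ᵥ (Pi.single k 1 : ι → R) = 0)
    (h' : (Function.update b p 0) ⬝ᵥ (Pi.single k 1 : ι → R) = 0) :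
    rk1 (Pi.single k 1) b h = rk1 (Pi.single k 1) (Function.update b p 0) h' * el k p (b p) := by
  ext1
  rw [Units.val_mul, el_val hpk.symm]
  change 1 + vecMulVec (Pi.single k 1) b =
    (1 + vecMulVec (Pi.single k 1) (Function.update b p 0)) * (1 + Matrix.single k p (b p))
  have h1 : vecMulVec (Pi.single k 1 : ι → R) (Function.update b p 0) *
      Matrix.single k p (b p) = 0 := by
    ext l m
    rw [Matrix.mul_apply, Finset.sum_eq_single k]
    · rw [vecMulVec_apply, Function.update_of_ne hpk.symm, hb, mul_zero, zero_mul,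
        Matrix.zero_apply]
    · intro c _ hc
      rw [Matrix.single_apply, if_neg (fun h => hc h.1.symm), mul_zero]
    · intro h; exact absurd (Finset.mem_univ _) h
  rw [mul_add, mul_one, add_mul, one_mul, h1, add_zero, add_assoc]
  congr 1
  ext l m
  rw [Matrix.add_apply, vecMulVec_apply, vecMulVec_apply, Matrix.single_apply, Pi.single_apply]
  by_cases h2 : l = k
  · subst h2
    by_cases h3 : m = p
    · subst h3
      simp
    · simp [Function.update_of_ne h3, Ne.symm h3]
  · rw [if_neg h2, if_neg (fun h => h2 h.1.symm), zero_mul, zero_mul, add_zero]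

/-- The first step. -/
theorem conj_row {q k : ι} (hqk : q ≠ k) {X : (Matrix ι ι R)ˣ} (hc : ColT k X)
    (h : (fun m => ((1 : Matrix ι ι R) - X.val) q m) ⬝ᵥ (Pi.single k 1 : ι → R) = 0) :
    (el k q 1)⁻¹ * X * el k q 1 =
      X * rk1 (Pi.single k 1) (fun m => ((1 : Matrix ι ι R) - X.val) q m) h := by
  have h0 : (el k q (1 : R))⁻¹.val = 1 - Matrix.single k q 1 := by
    rw [el_inv, el_val hqk.symm, sub_eq_add_neg]
    congr 1
    ext i j
    rw [Matrix.neg_apply, Matrix.single_apply, Matrix.single_apply]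
    split_ifs <;> simp
  ext1
  rw [Units.val_mul, Units.val_mul, Units.val_mul, h0, el_val hqk.symm]
  change (1 - Matrix.single k q 1) * X.val * (1 + Matrix.single k q 1) =
    X.val * (1 + vecMulVec (Pi.single k 1) (fun m => ((1 : Matrix ι ι R) - X.val) q m))
  have hXc : ∀ b : ι → R, X.val * vecMulVec (Pi.single k 1) b = vecMulVec (Pi.single k 1) b := by
    intro b
    ext l m
    rw [Matrix.mul_apply, Finset.sum_eq_single k]
    · rw [hc l, vecMulVec_apply, vecMulVec_apply, Pi.single_apply, if_pos rfl, one_mul,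
        Matrix.one_apply, Pi.single_apply]
    · intro c _ hcc
      rw [vecMulVec_apply, Pi.single_apply, if_neg hcc, zero_mul, mul_zero]
    · intro h; exact absurd (Finset.mem_univ _) h
  have h1 : X.val * Matrix.single k q 1 = Matrix.single k q 1 := by
    rw [single_eq_vv, hXc]
  have h2 : Matrix.single k q (1 : R) * Matrix.single k q 1 = 0 :=
    Matrix.single_mul_single_of_ne _ _ _ _ hqk _
  have e1 : (1 - Matrix.single k q 1) * X.val * (1 + Matrix.single k q 1) =
      X.val + X.val * Matrix.single k q 1 - Matrix.single k q 1 * X.val -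
      Matrix.single k q 1 * (X.val * Matrix.single k q 1) := by
    noncomm_ring
  rw [e1, h1, h2, sub_zero, mul_add, mul_one, hXc, add_sub_assoc]
  congr 1
  ext l m
  rw [Matrix.sub_apply, vecMulVec_apply, Matrix.mul_apply, Finset.sum_eq_single q]
  · rw [Matrix.single_apply, Matrix.single_apply, Pi.single_apply, Matrix.sub_apply,
      Matrix.one_apply]
    by_cases h3 : k = l
    · subst h3
      rw [if_pos rfl]
      by_cases h4 : q = m
      · simp [h4]
      · simp [h4]
    · rw [if_neg (fun h => h3 h.1), if_neg (fun h => h3 h.1), if_neg (Ne.symm h3)]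
      simp
  · intro c _ hcc
    rw [Matrix.single_apply, if_neg (fun h => hcc h.2.symm), zero_mul]
  · intro h; exact absurd (Finset.mem_univ _) h

end Row

section Ex

variable {S : Type u} {T T' : Type*} [Ring S] [Ring T] [Ring T'] {ι : Type*} [Fintype ι]
  [DecidableEq ι] {i : S →+* T} {π : T →+* T'} {a : T} (H : ExcD i π a)

include H

theorem map_rk1_one {c b : ι → T} (h : b ⬝ᵥ c = 0) (hπ : ∀ l m, π (c l * b m) = 0) :
    mapU π (rk1 c b h) = 1 := by
  ext1
  rw [mapU_val]
  change (1 + vecMulVec c b).map π = 1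
  ext l m
  rw [Matrix.map_apply, Matrix.add_apply, map_add, vecMulVec_apply, hπ, add_zero,
    Matrix.one_apply, Matrix.one_apply]
  split_ifs
  · exact map_one π
  · exact map_zero π

theorem ExcD.tt_row {k : ι} (b : ι → T) (hb : b k = 0)
    (h : b ⬝ᵥ (Pi.single k 1 : ι → T) = 0) (hπ : ∀ l, π (b l) = 0) :
    mapU π (rk1 (Pi.single k 1) b h) = 1 ∧ tt i (rk1 (Pi.single k 1) b h) = 0 := by
  have h1 : mapU π (rk1 (Pi.single k 1) b h) = 1 :=
    map_rk1_one H h (fun l m => by rw [map_mul, hπ, mul_zero])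
  exact ⟨h1, tt_eq_zero_of_conj_inv H.inj (Int.dU (i := i) k) (H.int_of_one h1)
    (dU_conj_rk1_row k b hb h)⟩

theorem ExcD.row_conj_zero {p k r : ι} (hpk : p ≠ k) (hkr : k ≠ r) (hpr : p ≠ r) (t : T)
    (b : ι → T) (hb : b k = 0) (h : b ⬝ᵥ (Pi.single k 1 : ι → T) = 0)
    (hπ : ∀ l, π (b l) = 0) :
    tt i ((el p k t)⁻¹ * rk1 (Pi.single k 1) b h * el p k t) = 0 := by
  set b' := Function.update b p 0 with hb'
  have hb'p : b' p = 0 := Function.update_self _ _ _
  have hb'k : b' k = 0 := by rw [hb', Function.update_of_ne hpk.symm, hb]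
  have hπ' : ∀ l, π (b' l) = 0 := by
    intro l
    by_cases hl : l = p
    · rw [hl, hb'p, map_zero]
    · rw [hb', Function.update_of_ne hl, hπ]
  have h' : b' ⬝ᵥ (Pi.single k 1 : ι → T) = 0 := by rw [dotProduct_single, hb'k, zero_mul]
  have h'' : (fun l => -(t * b' l)) ⬝ᵥ (Pi.single p 1 : ι → T) = 0 := by
    rw [dotProduct_single, mul_one, hb'p, mul_zero, neg_zero]
  obtain ⟨c1, t1⟩ := H.tt_row b' hb'k h' hπ'
  obtain ⟨c2, t2⟩ := H.tt_row (k := p) (fun l => -(t * b' l))
    (by rw [hb'p, mul_zero, neg_zero]) h'' (fun l => by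
      rw [map_neg, map_mul, hπ', mul_zero, neg_zero])
  have e1 : (el p k t)⁻¹ * rk1 (Pi.single k 1) b h * el p k t =
      (rk1 (Pi.single k 1) b' h' * rk1 (Pi.single p 1) (fun l => -(t * b' l)) h'') *
      (el p k (-t) * el k p (b p) * (el p k (-t))⁻¹) := by
    have e0 : rk1 (Pi.single k 1) b h = rk1 (Pi.single k 1) b' h' * el k p (b p) :=
      row_split hpk b hb h h'
    rw [← rowconj hpk t b' hb'p h' h'', e0, ← el_inv p k t]
    group
  rw [e1, tt_mul H.inj ((H.int_of_one c1).mul (H.int_of_one c2))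
    (H.int_of_one (mapU_conj (mapU_el0 k p (hπ p)) _)),
    tt_mul H.inj (H.int_of_one c1) (H.int_of_one c2), t1, t2,
    H.chi_zero hpk hkr hpr (-t) (hπ p)]
  simp

/-- Invariance under conjugation, for matrices with a trivial slot. -/
theorem ExcD.ex_aux {p q k : ι} (hpq : p ≠ q) (hqk : q ≠ k) (hpk : p ≠ k)
    {X : (Matrix ι ι T)ˣ} (hX : mapU π X = 1) (hr : RowT k X) (hc : ColT k X) (t : T) :
    tt i (el p q t * X * (el p q t)⁻¹) = tt i X := by
  set b : ι → T := fun m => ((1 : Matrix ι ι T) - X.val) q m with hb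
  have hbk : b k = 0 := by
    change ((1 : Matrix ι ι T) - X.val) q k = 0
    rw [Matrix.sub_apply, hc q, sub_self]
  have h : b ⬝ᵥ (Pi.single k 1 : ι → T) = 0 := by rw [dotProduct_single, hbk, zero_mul]
  have hπ : ∀ l, π (b l) = 0 := by
    intro l
    have h2 : X.val.map π = 1 := congrArg Units.val hX
    have h3 : π (X.val q l) = (1 : Matrix ι ι T') q l := by
      rw [← h2, Matrix.map_apply]
    change π (((1 : Matrix ι ι T) - X.val) q l) = 0
    rw [Matrix.sub_apply, map_sub, h3, Matrix.one_apply, Matrix.one_apply]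
    split_ifs
    · rw [map_one, sub_self]
    · rw [map_zero, sub_self]
  -- first step
  have e1 : (el k q 1)⁻¹ * X * el k q 1 = X * rk1 (Pi.single k 1) b h := conj_row hqk hc h
  have i1 : Int i (el k q (1 : T)) := by
    have := Int.el (i := i) k q 1
    rwa [map_one] at this
  have iX := H.int_of_one hX
  obtain ⟨cb, tb⟩ := H.tt_row b hbk h hπ
  -- second step
  set x2 : (Matrix ι ι T)ˣ := (el p k t)⁻¹ * ((el k q 1)⁻¹ * X * el k q 1) * el p k t with hx2
  have e2 : x2 = (el p k (-t) * X * (el p k (-t))⁻¹) *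
      ((el p k t)⁻¹ * rk1 (Pi.single k 1) b h * el p k t) := by
    rw [hx2, e1, ← el_inv p k t]
    group
  have c2 : mapU π x2 = 1 := mapU_conj' (mapU_conj' hX _) _
  have t2 : tt i x2 = tt i X := by
    rw [e2, tt_mul H.inj (H.int_of_one (mapU_conj hX _)) (H.int_of_one (mapU_conj' cb _)),
      H.os hpk hX hr, H.row_conj_zero hpk hqk.symm hpq t b hbk h hπ, add_zero]
  -- third step
  set x3 : (Matrix ι ι T)ˣ := el k q 1 * x2 * (el k q 1)⁻¹ with hx3
  have t3 : tt i x3 = tt i X := by rw [hx3, tt_conj H.inj i1 (H.int_of_one c2), t2]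
  -- fourth step
  set x4 : (Matrix ι ι T)ˣ := el p q t * X * (el p q t)⁻¹ with hx4
  have c4 : mapU π x4 = 1 := mapU_conj hX _
  have r4 : RowT k x4 := ((RowT.el hpk _).mul hr).mul (RowT.el hpk _).inv
  have e4 : el p k (-t) * x4 * (el p k (-t))⁻¹ = x3 := by
    have h5 := el_commutator hpq hpk hqk.symm t (1 : T)
    rw [mul_one] at h5
    rw [hx4, hx3, hx2, ← h5, ← el_inv p k t]
    group
  rw [← t3, ← e4, H.os hpk c4 r4]

theorem diagU_el {κ : Type*} [Fintype κ] [DecidableEq κ] {p q : ι} (hpq : p ≠ q) (t : T) :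
    diagU (el p q t) (1 : (Matrix κ κ T)ˣ) = el (Sum.inl p) (Sum.inl q) t := by
  ext1
  change fromBlocks (el p q t).val 0 0 1 = _
  rw [el_val hpq, el_val (fun h => hpq (Sum.inl_injective h))]
  ext l m
  rcases l with l | l <;> rcases m with m | m <;>
    simp [Matrix.one_apply, Matrix.single_apply]

/-- **Excision**: the class modulo torsion is invariant under conjugation by elementary matrices
over the larger ring. -/
theorem ExcD.ex {p q : ι} (hpq : p ≠ q) {X : (Matrix ι ι T)ˣ} (hX : mapU π X = 1) (t : T) :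
    tt i (el p q t * X * (el p q t)⁻¹) = tt i X := by
  have h1 : ∀ Y : (Matrix ι ι T)ˣ, mapU π Y = 1 →
      tt i (diagU Y (1 : (Matrix Unit Unit T)ˣ)) = tt i Y := by
    intro Y hY
    rw [tt_diagU H.inj (H.int_of_one hY) Int.one, tt_one H.inj, add_zero]
  have h2 : mapU π (diagU X (1 : (Matrix Unit Unit T)ˣ)) = 1 := by
    rw [mapU_diagU, hX, map_one]
    ext1
    change fromBlocks (1 : Matrix ι ι T') 0 0 1 = 1
    exact fromBlocks_one
  have hr : RowT (Sum.inr ()) (diagU X (1 : (Matrix Unit Unit T)ˣ)) := by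
    intro j
    change fromBlocks X.val 0 0 1 (Sum.inr ()) j = _
    rcases j with j | j <;> simp
  have hc : ColT (Sum.inr ()) (diagU X (1 : (Matrix Unit Unit T)ˣ)) := by
    intro j
    change fromBlocks X.val 0 0 1 j (Sum.inr ()) = _
    rcases j with j | j <;> simp
  have h3 := H.ex_aux (p := Sum.inl p) (q := Sum.inl q) (k := Sum.inr ())
    (fun h => hpq (Sum.inl_injective h)) (by simp) (by simp) h2 hr hc t
  rw [h1 X hX, ← diagU_el H hpq] at h3
  rw [← h3, ← h1 _ (mapU_conj hX _)]
  congr 1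
  have h4 : (diagU (el p q t) (1 : (Matrix Unit Unit T)ˣ))⁻¹ =
      diagU (el p q t)⁻¹ (1 : (Matrix Unit Unit T)ˣ) := by
    apply inv_eq_of_mul_eq_one_right
    rw [← diagU_mul, mul_inv_cancel, mul_one]
    ext1
    change fromBlocks (1 : Matrix ι ι T) 0 0 1 = 1
    exact fromBlocks_one
  rw [h4, ← diagU_mul, ← diagU_mul, mul_one, mul_one]

/-- The matrices which preserve the class under conjugation. -/
def ExcD.pres (_ : ExcD i π a) (ι : Type*) [Fintype ι] [DecidableEq ι] :
    Subgroup (Matrix ι ι T)ˣ where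
  carrier := {g | ∀ X : (Matrix ι ι T)ˣ, mapU π X = 1 → tt i (g * X * g⁻¹) = tt i X}
  mul_mem' := by
    intro g g' hg hg' X hX
    have h1 : g * g' * X * (g * g')⁻¹ = g * (g' * X * g'⁻¹) * g⁻¹ := by group
    rw [h1, hg _ (mapU_conj hX _), hg' X hX]
  one_mem' := by
    intro X _
    rw [one_mul, inv_one, mul_one]
  inv_mem' := by
    intro g hg X hX
    have h1 := hg (g⁻¹ * X * g⁻¹⁻¹) (mapU_conj hX _)
    rw [← h1]
    congr 1
    group

theorem ExcD.el_mem_pres (p q : ι) (t : T) : el p q t ∈ H.pres ι := by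
  by_cases h : p ≠ q
  · intro X hX
    exact H.ex h hX t
  · have : el p q t = 1 := by unfold H2.el; rw [dif_neg h]
    rw [this]
    exact Subgroup.one_mem _

theorem ExcD.int_mem_pres {g : (Matrix ι ι T)ˣ} (hg : Int i g) : g ∈ H.pres ι := by
  intro X hX
  exact tt_conj H.inj hg (H.int_of_one hX)

end Ex

end Pool.Agent.Lib25.H2
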