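import Pool.Agent.Lib_helper25.H2.Lin2

/-!
# Integral cocycles detect closed words if the second homology is finitely generated
-/

set_option autoImplicit false
set_option linter.unusedSectionVars false

open Matrix Pool.Agent.WhK

namespace Pool.Agent.Lib25.H2

universe v

section Bar

variable {Γ : Type v} [Group Γ]

/-- The boundary of a chain of degree two. -/
noncomputable def bd2 : (Γ × Γ →₀ ℤ) →+ (Γ →₀ ℤ) := Finsupp.liftAddHom fun x =>
  Finsupp.singleAddHom x.2 - Finsupp.singleAddHom (x.1 * x.2) + Finsupp.singleAddHom x.1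

theorem bd2_single (x : Γ × Γ) (n : ℤ) : bd2 (Finsupp.single x n) =
    Finsupp.single x.2 n - Finsupp.single (x.1 * x.2) n + Finsupp.single x.1 n := by
  unfold bd2
  rw [Finsupp.liftAddHom_apply_single]
  rfl

/-- The evaluation of a cochain on a chain. -/
noncomputable def ev2 (mu : Γ → Γ → ℚ) : (Γ × Γ →₀ ℤ) →+ ℚ := Finsupp.liftAddHom fun x =>
  (AddMonoidHom.mulRight (mu x.1 x.2)).comp (Int.castAddHom ℚ)

theorem ev2_single (mu : Γ → Γ → ℚ) (x : Γ × Γ) (n : ℤ) :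
    ev2 mu (Finsupp.single x n) = n * mu x.1 x.2 := by
  unfold ev2
  rw [Finsupp.liftAddHom_apply_single]
  rfl

theorem exists_int_coc (mu : Γ → Γ → ℚ) (hmu : IsCoc2 mu)
    (hint : ∀ z, bd2 z = 0 → ∃ m : ℤ, ev2 mu z = m) :
    ∃ f : Γ → Γ → ℤ, IsCoc2 f ∧ ∃ θ : Γ → ℚ, θ 1 = 0 ∧
      ∀ x y, (f x y : ℚ) = mu x y - (θ x + θ y - θ (x * y)) := by
  let q : ℚ →+ AddCircle (1 : ℚ) := QuotientAddGroup.mk' _
  have hq : ∀ x, q x = 0 ↔ ∃ m : ℤ, x = m := by
    intro x
    change ((x : AddCircle (1 : ℚ)) = 0) ↔ _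
    rw [AddCircle.coe_eq_zero_iff]
    constructor
    · rintro ⟨m, hm⟩
      exact ⟨m, by rw [← hm]; simp⟩
    · rintro ⟨m, hm⟩
      exact ⟨m, by rw [hm]; simp⟩
  have hqs : Function.Surjective q := QuotientAddGroup.mk'_surjective _
  let ψ : (Γ × Γ →₀ ℤ) →+ AddCircle (1 : ℚ) := q.comp (ev2 mu)
  have hψ : (bd2 (Γ := Γ)).ker ≤ ψ.ker := by
    intro z hz
    rw [AddMonoidHom.mem_ker] at hz ⊢
    exact (hq _).2 (hint z hz)
  obtain ⟨χ, hχ⟩ := (Module.Baer.of_divisible (AddCircle (1 : ℚ))).extension_property_addMonoidHom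
    (QuotientAddGroup.kerLift (bd2 (Γ := Γ))) (QuotientAddGroup.kerLift_injective _)
    (QuotientAddGroup.lift (bd2 (Γ := Γ)).ker ψ hψ)
  have hχ' : ∀ z, χ (bd2 z) = q (ev2 mu z) := fun z =>
    DFunLike.congr_fun hχ (QuotientAddGroup.mk z)
  choose θ0 hθ0 using fun x : Γ => hqs (χ (Finsupp.single x 1))
  have h1 : ∀ x y, ∃ m : ℤ, mu x y - (θ0 x + θ0 y - θ0 (x * y)) = m := by
    intro x y
    rw [← hq, map_sub, sub_eq_zero]
    have h2 := hχ' (Finsupp.single (x, y) 1)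
    rw [ev2_single, Int.cast_one, one_mul, bd2_single, map_add, map_sub] at h2
    rw [← h2, map_sub, map_add, hθ0, hθ0, hθ0]
    abel
  choose m hm using h1
  have hm1 : -θ0 1 = m 1 1 := by
    rw [← hm, hmu.one_left, mul_one]
    ring
  have key : ∀ x y, ((m x y - m 1 1 : ℤ) : ℚ) = mu x y - ((θ0 x - θ0 1) + (θ0 y - θ0 1) -
      (θ0 (x * y) - θ0 1)) := by
    intro x y
    push_cast
    rw [← hm, ← hm1]
    ring
  refine ⟨fun x y => m x y - m 1 1, ⟨fun x y z => ?_, fun x => ?_, fun x => ?_⟩,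
    fun x => θ0 x - θ0 1, sub_self _, key⟩
  · have h2 : (((m x y - m 1 1) + (m (x * y) z - m 1 1) : ℤ) : ℚ) =
        (((m y z - m 1 1) + (m x (y * z) - m 1 1) : ℤ) : ℚ) := by
      rw [Int.cast_add, Int.cast_add, key, key, key, key, mul_assoc]
      linear_combination hmu.coc x y z
    exact_mod_cast h2
  · have h2 : ((m 1 x - m 1 1 : ℤ) : ℚ) = 0 := by
      rw [key, hmu.one_left, one_mul]
      ring
    exact_mod_cast h2
  · have h2 : ((m x 1 - m 1 1 : ℤ) : ℚ) = 0 := by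
      rw [key, hmu.one_right, mul_one]
      ring
    exact_mod_cast h2

/-- The evaluation on the chains of Mathlib. -/
noncomputable def evM (mu : Γ → Γ → ℚ) : (Γ × Γ →₀ ULift.{v} ℤ) →+ ℚ :=
  Finsupp.liftAddHom fun x => (AddMonoidHom.mulRight (mu x.1 x.2)).comp
    ((Int.castAddHom ℚ).comp AddEquiv.ulift.toAddMonoidHom)

theorem evM_single (mu : Γ → Γ → ℚ) (x : Γ × Γ) (n : ULift.{v} ℤ) :
    evM mu (Finsupp.single x n) = n.down * mu x.1 x.2 := by
  unfold evM
  rw [Finsupp.liftAddHom_apply_single]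
  rfl

theorem evM_boundary (mu : Γ → Γ → ℚ) (hmu : IsCoc2 mu)
    (x : Γ × Γ × Γ →₀ ULift.{v} ℤ) :
    evM mu ((groupHomology.d₃₂ (Rep.trivial (ULift.{v} ℤ) Γ (ULift.{v} ℤ))).hom x) = 0 := by
  induction x using Finsupp.induction_linear with
  | zero => rw [map_zero]; exact map_zero _
  | add x y hx hy =>
    rw [map_add]
    exact (map_add (evM mu) _ _).trans (by rw [hx, hy, add_zero])
  | single x n =>
    have h1 := groupHomology.d₃₂_single (A := Rep.trivial (ULift.{v} ℤ) Γ (ULift.{v} ℤ)) x n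
    refine (congrArg (evM mu) h1).trans ?_
    have h2 : evM mu (Finsupp.single (x.2.1, x.2.2) n - Finsupp.single (x.1 * x.2.1, x.2.2) n +
      Finsupp.single (x.1, x.2.1 * x.2.2) n - Finsupp.single (x.1, x.2.1) n) = 0 := by
      rw [map_sub, map_add, map_sub, evM_single, evM_single, evM_single, evM_single]
      linear_combination -(n.down : ℚ) * hmu.coc x.1 x.2.1 x.2.2
    exact h2

/-- Finite generation bounds the denominators. -/
theorem exists_denominator (hfg : AddGroup.FG (H2Z Γ)) (mu : Γ → Γ → ℚ)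
    (hmu : IsCoc2 mu) : ∃ D : ℕ, 0 < D ∧ ∀ z : Γ × Γ →₀ ULift.{v} ℤ,
      z ∈ groupHomology.cycles₂ (Rep.trivial (ULift.{v} ℤ) Γ (ULift.{v} ℤ)) →
      ∃ m : ℤ, (D : ℚ) * evM mu z = m := by
  obtain ⟨S, hS⟩ := hfg.out
  have hsurj : ∀ y : H2Z Γ, ∃ c, groupHomology.H2π
      (Rep.trivial (ULift.{v} ℤ) Γ (ULift.{v} ℤ)) c = y := by
    intro y
    induction y using groupHomology.H2_induction_on with
    | h x => exact ⟨x, rfl⟩
  choose s hs using hsurj
  let E : groupHomology.cycles₂ (Rep.trivial (ULift.{v} ℤ) Γ (ULift.{v} ℤ)) → ℚ :=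
    fun c => evM mu c.1
  have hden : ∃ D : ℕ, 0 < D ∧ ∀ y ∈ S, ∃ m : ℤ, (D : ℚ) * E (s y) = m := by
    refine ⟨∏ y ∈ S, (E (s y)).den, Finset.prod_pos fun t _ => Rat.den_pos _, ?_⟩
    intro t ht
    obtain ⟨d, hd⟩ := Finset.dvd_prod_of_mem (fun t => (E (s t)).den) ht
    refine ⟨d * (E (s t)).num, ?_⟩
    rw [hd]
    push_cast
    have h1 := Rat.mul_den_eq_num (E (s t))
    linear_combination (d : ℚ) * h1
  obtain ⟨D, hD, hden⟩ := hden
  refine ⟨D, hD, ?_⟩
  have key : ∀ y : H2Z Γ, ∃ c, groupHomology.H2π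
      (Rep.trivial (ULift.{v} ℤ) Γ (ULift.{v} ℤ)) c = y ∧ ∃ m : ℤ, (D : ℚ) * E c = m := by
    intro y
    have hy : y ∈ AddSubgroup.closure (S : Set (H2Z Γ)) := by
      rw [hS]
      exact AddSubgroup.mem_top y
    induction hy using AddSubgroup.closure_induction with
    | mem x hx => exact ⟨s x, hs x, hden x hx⟩
    | zero =>
      refine ⟨0, map_zero _, 0, ?_⟩
      have h1 : E 0 = 0 := map_zero (evM mu)
      rw [h1, mul_zero, Int.cast_zero]
    | add x y _ _ hx hy =>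
      obtain ⟨c, hc, m, hm⟩ := hx
      obtain ⟨c', hc', m', hm'⟩ := hy
      refine ⟨c + c', by rw [map_add, hc, hc'], m + m', ?_⟩
      have h1 : E (c + c') = E c + E c' := map_add (evM mu) _ _
      rw [h1, mul_add, hm, hm', Int.cast_add]
    | neg x _ hx =>
      obtain ⟨c, hc, m, hm⟩ := hx
      refine ⟨-c, by rw [map_neg, hc], -m, ?_⟩
      have h1 : E (-c) = - E c := map_neg (evM mu) _
      rw [h1, Int.cast_neg, ← hm]
      ring
  intro z hz
  obtain ⟨c, hc, m, hm⟩ := key (groupHomology.H2π _ ⟨z, hz⟩)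
  refine ⟨m, ?_⟩
  rw [groupHomology.H2π_eq_iff] at hc
  obtain ⟨x, hx⟩ := hc
  have h1 := evM_boundary mu hmu x
  have h2 : evM mu (c.1 - z) = 0 := by
    rw [← h1]
    exact congrArg (evM mu) hx.symm
  have h3 : evM mu c.1 - evM mu z = 0 := (map_sub (evM mu) c.1 z).symm.trans h2
  have h4 : evM mu z = E c := (sub_eq_zero.1 h3).symm
  rw [h4, hm]

/-- The chain of Mathlib defined by an integral chain. -/
noncomputable def upC (z : Γ × Γ →₀ ℤ) : Γ × Γ →₀ ULift.{v} ℤ :=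
  Finsupp.mapRange (ULift.up : ℤ → ULift.{v} ℤ) rfl z

theorem upC_add (z z' : Γ × Γ →₀ ℤ) : upC (z + z') = upC z + upC z' :=
  Finsupp.mapRange_add (fun _ _ => rfl) z z'

theorem upC_single (x : Γ × Γ) (n : ℤ) : upC (Finsupp.single x n) = Finsupp.single x ⟨n⟩ :=
  Finsupp.mapRange_single

theorem evM_upC (mu : Γ → Γ → ℚ) (z : Γ × Γ →₀ ℤ) : evM mu (upC z) = ev2 mu z := by
  induction z using Finsupp.induction_linear with
  | zero => rw [map_zero]; exact map_zero _
  | add x y hx hy => rw [upC_add, map_add, hx, hy, map_add]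
  | single x n => rw [upC_single, evM_single, ev2_single]

theorem d_upC (z : Γ × Γ →₀ ℤ) :
    (groupHomology.d₂₁ (Rep.trivial (ULift.{v} ℤ) Γ (ULift.{v} ℤ))).hom (upC z) =
      Finsupp.mapRange (ULift.up : ℤ → ULift.{v} ℤ) rfl (bd2 z) := by
  have hadd : ∀ a b : Γ →₀ ℤ, Finsupp.mapRange (ULift.up : ℤ → ULift.{v} ℤ) rfl (a + b) =
      Finsupp.mapRange (ULift.up : ℤ → ULift.{v} ℤ) rfl a +
        Finsupp.mapRange (ULift.up : ℤ → ULift.{v} ℤ) rfl b :=
    fun a b => Finsupp.mapRange_add (fun _ _ => rfl) a b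
  have hsub : ∀ a b : Γ →₀ ℤ, Finsupp.mapRange (ULift.up : ℤ → ULift.{v} ℤ) rfl (a - b) =
      Finsupp.mapRange (ULift.up : ℤ → ULift.{v} ℤ) rfl a -
        Finsupp.mapRange (ULift.up : ℤ → ULift.{v} ℤ) rfl b := by
    intro a b
    rw [eq_sub_iff_add_eq, ← hadd, sub_add_cancel]
  induction z using Finsupp.induction_linear with
  | zero =>
    rw [map_zero]
    exact map_zero _
  | add x y hx hy =>
    rw [upC_add, map_add, hx, hy, map_add, hadd]
  | single x n =>
    rw [upC_single, bd2_single, hadd, hsub, Finsupp.mapRange_single, Finsupp.mapRange_single,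
      Finsupp.mapRange_single]
    exact groupHomology.d₂₁_single (A := Rep.trivial (ULift.{v} ℤ) Γ (ULift.{v} ℤ)) x ⟨n⟩

end Bar

section Ext

variable {G : Type*} [Group G] {k : Type*} [AddCommGroup k]

theorem exists_ext {h : G} (lam : Subgroup.centralizer {h} → Subgroup.centralizer {h} → k)
    (hl : IsCoc2 lam) : ∃ lam' : G → G → k, IsZ2 h lam' ∧
      ∀ x y : Subgroup.centralizer {h}, lam' x y = lam x y := by
  classical
  let lam' : G → G → k := fun x y =>
    if hx : x ∈ Subgroup.centralizer {h} ∧ y ∈ Subgroup.centralizer {h} then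
      lam ⟨x, hx.1⟩ ⟨y, hx.2⟩ else 0
  have h0 : ∀ (x y : G) (hx : x ∈ Subgroup.centralizer {h}) (hy : y ∈ Subgroup.centralizer {h}),
      lam' x y = lam ⟨x, hx⟩ ⟨y, hy⟩ := fun x y hx hy => dif_pos ⟨hx, hy⟩
  refine ⟨lam', ⟨fun x y z hx hy hz => ?_, fun x hx => ?_, fun x hx => ?_⟩,
    fun x y => h0 _ _ x.2 y.2⟩
  · rw [← mem_cen] at hx hy hz
    rw [h0 _ _ hx hy, h0 _ _ (Subgroup.mul_mem _ hx hy) hz, h0 _ _ hy hz,
      h0 _ _ hx (Subgroup.mul_mem _ hy hz)]
    exact hl.coc ⟨x, hx⟩ ⟨y, hy⟩ ⟨z, hz⟩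
  · rw [← mem_cen] at hx
    rw [h0 _ _ (Subgroup.one_mem _) hx]
    exact hl.one_left _
  · rw [← mem_cen] at hx
    rw [h0 _ _ hx (Subgroup.one_mem _)]
    exact hl.one_right _

end Ext

/-- **Finite generation of the second homology.** -/
theorem intDet_of_fg {G : Type v} [Group G] (h : G)
    (hfg : AddGroup.FG (H2Z (Subgroup.centralizer {h}))) : IntDet h := by
  intro w hw hf lam hl
  obtain ⟨v, rfl⟩ := exists_lift_CW hw.comm
  have hv := surf_lift_CW hw.closed
  have hmu := hl.isCoc2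
  rw [evw_lift]
  set mu : Subgroup.centralizer {h} → Subgroup.centralizer {h} → ℚ := fun x y => lam x y with hmu'
  obtain ⟨D, hD, hden⟩ := exists_denominator hfg mu hmu
  have hDQ : (D : ℚ) ≠ 0 := Nat.cast_ne_zero.2 hD.ne'
  have hmuD : IsCoc2 (fun x y => (D : ℚ) * mu x y) :=
    ⟨fun x y z => by rw [← mul_add, hmu.coc, mul_add], fun x => by rw [hmu.one_left, mul_zero],
      fun x => by rw [hmu.one_right, mul_zero]⟩
  have hevD : ∀ z, ev2 (fun x y => (D : ℚ) * mu x y) z = D * ev2 mu z := by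
    intro z
    induction z using Finsupp.induction_linear with
    | zero => rw [map_zero, map_zero, mul_zero]
    | add x y hx hy => rw [map_add, hx, hy, map_add, mul_add]
    | single x n => rw [ev2_single, ev2_single]; ring
  obtain ⟨f, hfc, θ, hθ1, hfθ⟩ := exists_int_coc _ hmuD (by
    intro z hz
    rw [hevD, ← evM_upC]
    apply hden
    change (groupHomology.d₂₁ (Rep.trivial (ULift.{v} ℤ) _ (ULift.{v} ℤ))).hom (upC z) = 0
    rw [d_upC, hz]
    exact Finsupp.mapRange_zero)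
  obtain ⟨f', hf', hff'⟩ := exists_ext f hfc
  have h1 := hf f' hf'
  rw [evw_lift] at h1
  have h2 : evw f v = 0 := by
    rw [← h1]
    congr 1
    funext x y
    exact (hff' x y).symm
  have h3 : ((evw f v : ℤ) : ℚ) = (D : ℚ) * evw mu v := by
    have e1 : ((evw f v : ℤ) : ℚ) = evw (fun x y => (f x y : ℚ)) v :=
      (evw_hom (Int.castAddHom ℚ) f v).symm
    have e2 : (fun x y => (f x y : ℚ)) = fun x y => (D : ℚ) * mu x y -
        (θ x + θ y - θ (x * y)) := by
      funext x y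
      exact hfθ x y
    have e3 : evw (fun x y => (D : ℚ) * mu x y) v = (D : ℚ) * evw mu v :=
      evw_hom (AddMonoidHom.mulLeft (D : ℚ)) mu v
    rw [e1, e2, evw_sub, evw_coboundary, hv, sub_self, sub_zero, e3]
  rw [h2, Int.cast_zero] at h3
  exact (mul_eq_zero.1 h3.symm).resolve_left hDQ

end Pool.Agent.Lib25.H2
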