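import Pool.Agent.Lib_helper25.H2.Span2

/-!
# The `K_{-1}`-part of the assembly map in degree one
-/

set_option autoImplicit false
set_option linter.unusedSectionVars false

open Matrix Pool.Agent.WhK TensorProduct

namespace Pool.Agent.Lib25.H2

universe v w

section Pair

variable {n : ℕ} [NeZero n]

theorem cs_eq {n : ℕ} [NeZero n] {g : ℕ} (x : CS n g) :
    x = (gH n g) ^ (Multiplicative.toAdd x.1).val * (1, x.2) := by
  have h1 := ofAdd_eq_pow n (Multiplicative.toAdd x.1)
  rw [ofAdd_toAdd] at h1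
  apply Prod.ext
  · rw [Prod.fst_mul, Prod.pow_fst, mul_one]
    exact h1
  · rw [Prod.snd_mul, Prod.pow_snd, one_pow, one_mul]

theorem cs_ext {n : ℕ} [NeZero n] {g : ℕ} {G : Type*} [Group G] {φ φ' : CS n g →* G}
    (h1 : φ (gH n g) = φ' (gH n g)) (h2 : mapW φ (gW n g) = mapW φ' (gW n g)) : φ = φ' := by
  have h3 : φ.comp (MonoidHom.inr _ _) = φ'.comp (MonoidHom.inr _ _) := by
    apply SG.hom_ext
    unfold gW at h2
    rw [mapW_mapW, mapW_mapW] at h2
    exact h2
  refine MonoidHom.ext fun x => ?_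
  rw [cs_eq x, map_mul, map_mul, map_pow, map_pow, h1]
  congr 1
  exact DFunLike.congr_fun h3 x.2

theorem exists_csHom {G : Type*} [Group G] (h : G) (w : List (G × G)) (hn : h ^ n = 1)
    (hc : Clw h w) :
    ∃ φ : CS n w.length →* G, φ (gH n w.length) = h ∧ mapW φ (gW n w.length) = w := by
  obtain ⟨σ, hσ⟩ := exists_SG_hom w hc.closed
  obtain ⟨φ0, h1, -⟩ := exists_pairHom (n := n) h 1 hn (Commute.one_left h)
  let ψ : Multiplicative (ZMod n) →* G := φ0.comp (MonoidHom.inl _ _)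
  have hψ : ψ (Multiplicative.ofAdd 1) = h := h1
  have hσc : ∀ k, Commute (σ k) h := by
    have h2 : (Subgroup.centralizer {h}).comap σ = ⊤ := by
      rw [eq_top_iff, ← PresentedGroup.closure_range_of, Subgroup.closure_le]
      rintro _ ⟨⟨i, b⟩, rfl⟩
      change σ (SG.of (i, b)) ∈ Subgroup.centralizer {h}
      rw [mem_cen]
      have h3 : (σ (SG.of (i, false)), σ (SG.of (i, true))) ∈ mapW σ (sgw w.length) := by
        unfold sgw
        rw [mapW_ofFn, List.mem_ofFn]
        exact ⟨i, rfl⟩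
      rw [hσ] at h3
      obtain ⟨h4, h5⟩ := hc.comm _ h3
      cases b
      · exact h4
      · exact h5
    intro k
    rw [← mem_cen]
    have h3 : k ∈ (Subgroup.centralizer {h}).comap σ := by rw [h2]; exact Subgroup.mem_top k
    exact h3
  let φ : CS n w.length →* G := MonoidHom.noncommCoprod ψ σ (by
    intro m k
    rw [psi_val ψ m, hψ]
    exact (hσc k).symm.pow_left _)
  refine ⟨φ, ?_, ?_⟩
  · change ψ (Multiplicative.ofAdd 1) * σ 1 = h
    rw [map_one σ, mul_one, hψ]
  · refine Eq.trans ?_ hσ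
    unfold gW
    rw [mapW_mapW]
    congr 1
    funext s
    change ψ 1 * σ s = σ s
    rw [map_one ψ, one_mul]

theorem length_map_gW {g : ℕ} {G : Type*} [Group G] (φ : CS n g →* G) :
    (mapW φ (gW n g)).length = g := by
  unfold gW mapW
  rw [List.length_map, List.length_map, length_sgw]

theorem orderOf_gH {G : Type*} [Group G] {n : ℕ} (hn : 0 < n) {g : ℕ} (φ : CS n g →* G)
    (hφ : Function.Injective (fun c => φ (c, 1))) : orderOf (φ (gH n g)) = n := by
  have : NeZero n := ⟨hn.ne'⟩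
  have h5 : orderOf ((φ.comp (MonoidHom.inl _ _)) (Multiplicative.ofAdd 1)) =
    orderOf (Multiplicative.ofAdd (1 : ZMod n)) := orderOf_injective _ hφ _
  change orderOf ((φ.comp (MonoidHom.inl _ _)) (Multiplicative.ofAdd 1)) = n
  rw [h5, orderOf_gen (zpowers_one_eq_top n), card_Cn]

theorem injective_of_orderOf' {G : Type*} [Group G] {g : ℕ} (φ : CS n g →* G)
    (h : orderOf (φ (gH n g)) = n) : Function.Injective (fun c => φ (c, 1)) := by
  have key : ∀ c : Multiplicative (ZMod n), φ (c, 1) = 1 → c = 1 := by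
    intro c hc
    have h3 := cs_eq (g := g) (c, (1 : SG g))
    rw [h3, map_mul, map_pow] at hc
    change φ (gH n g) ^ (Multiplicative.toAdd c).val * φ 1 = 1 at hc
    rw [map_one, mul_one] at hc
    have h4 := orderOf_dvd_of_pow_eq_one hc
    rw [h] at h4
    have h5 := Nat.eq_zero_of_dvd_of_lt h4 (ZMod.val_lt _)
    rw [ZMod.val_eq_zero] at h5
    rw [← ofAdd_toAdd c, h5]
    rfl
  intro c c' hcc
  have h1 : φ (c * c'⁻¹, 1) = 1 := by
    have h2 : ((c * c'⁻¹, 1) : CS n g) = (c, 1) * (c', 1)⁻¹ := by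
      apply Prod.ext
      · rfl
      · change (1 : SG g) = 1 * (1 : SG g)⁻¹
        simp
    rw [h2, map_mul, map_inv]
    have h3 : φ (c, 1) = φ (c', 1) := hcc
    rw [h3, mul_inv_cancel]
  exact mul_inv_eq_one.1 (key _ h1)

end Pair

section KapT

variable {n : ℕ} [NeZero n] {G : Type v} [Group G]
  (κ : ℕ → ∀ g : ℕ, K1 (MonoidAlgebra ℤ (CS n g)))

theorem kapT_null
    (h : ∀ (q g : ℕ) (φ : CS n g →* G), q.Prime → q ∣ n →
      Null (φ (gH n g)) (mapW φ (gW n g)) → mt (k1g φ (κ q g)) = 0)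
    {p g : ℕ} (hp : p ∈ n.primeFactors) (φ : CS n g →* G)
    (hn : Null (φ (gH n g)) (mapW φ (gW n g))) : mt (k1g φ (kapT κ p g)) = 0 := by
  have hpow : φ (gH n g) ^ n = 1 := by
    rw [← map_pow]
    have h1 : (gH n g) ^ n = 1 := by
      apply Prod.ext
      · rw [Prod.pow_fst]
        exact mn_pow _
      · rw [Prod.pow_snd]
        exact one_pow _
    rw [h1, map_one]
  refine ak3_induct (T := twS g) (κ := fun q => κ q g) (fun u w x => twS_twS g u w x)
    ((mt : K1 (MonoidAlgebra ℤ G) →+ _).comp (k1g φ)) (fun q hq w => ?_) p hp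
  change mt (k1g φ (twS g w (κ q g))) = 0
  rw [k1g_twS]
  apply h q g _ (Nat.prime_of_mem_primeFactors hq) (Nat.dvd_of_mem_primeFactors hq)
  rw [comp_alS_gH, mapW_comp_alS]
  intro lam hl
  exact hn lam (hl.of_commute fun y hy => (commute_pow_val hpow w).2 hy)

theorem kapT_add
    (h : ∀ (q g g' g'' : ℕ) (φ : CS n g →* G) (φ' : CS n g' →* G) (φ'' : CS n g'' →* G),
      q.Prime → q ∣ n → φ' (gH n g') = φ (gH n g) → φ'' (gH n g'') = φ (gH n g) →
      mapW φ'' (gW n g'') = mapW φ (gW n g) ++ mapW φ' (gW n g') →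
      mt (k1g φ'' (κ q g'')) = mt (k1g φ (κ q g)) + mt (k1g φ' (κ q g')))
    {p g g' g'' : ℕ} (hp : p ∈ n.primeFactors)
    (φ : CS n g →* G) (φ' : CS n g' →* G) (φ'' : CS n g'' →* G)
    (h1 : φ' (gH n g') = φ (gH n g)) (h2 : φ'' (gH n g'') = φ (gH n g))
    (h3 : mapW φ'' (gW n g'') = mapW φ (gW n g) ++ mapW φ' (gW n g')) :
    mt (k1g φ'' (kapT κ p g'')) = mt (k1g φ (kapT κ p g)) + mt (k1g φ' (kapT κ p g')) := by
  let B : Type := K1 (MonoidAlgebra ℤ (CS n g)) × K1 (MonoidAlgebra ℤ (CS n g')) ×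
    K1 (MonoidAlgebra ℤ (CS n g''))
  let T : (ZMod n)ˣ → B →+ B := fun w =>
    AddMonoidHom.prodMap (twS g w) (AddMonoidHom.prodMap (twS g' w) (twS g'' w))
  let κB : ℕ → B := fun q => (κ q g, κ q g', κ q g'')
  have hT : ∀ u w x, T u (T w x) = T (u * w) x := by
    rintro u w ⟨x, y, z⟩
    change (twS g u (twS g w x), twS g' u (twS g' w y), twS g'' u (twS g'' w z)) =
      (twS g (u * w) x, twS g' (u * w) y, twS g'' (u * w) z)
    rw [twS_twS, twS_twS, twS_twS]
  let f1 : B →+ K1 (MonoidAlgebra ℤ (CS n g)) := AddMonoidHom.fst _ _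
  let f2 : B →+ K1 (MonoidAlgebra ℤ (CS n g')) :=
    (AddMonoidHom.fst _ _).comp (AddMonoidHom.snd _ _)
  let f3 : B →+ K1 (MonoidAlgebra ℤ (CS n g'')) :=
    (AddMonoidHom.snd _ _).comp (AddMonoidHom.snd _ _)
  have e1 : f1 (ak3 T κB p) = kapT κ p g := ak3_nat f1 (fun _ _ => rfl) (fun _ => rfl) p
  have e2 : f2 (ak3 T κB p) = kapT κ p g' := ak3_nat f2 (fun _ _ => rfl) (fun _ => rfl) p
  have e3 : f3 (ak3 T κB p) = kapT κ p g'' := ak3_nat f3 (fun _ _ => rfl) (fun _ => rfl) p
  have key := ak3_induct (T := T) (κ := κB) hT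
    ((mt : K1 (MonoidAlgebra ℤ G) →+ _).comp ((k1g φ'').comp f3) -
      (mt : K1 (MonoidAlgebra ℤ G) →+ _).comp ((k1g φ).comp f1) -
      (mt : K1 (MonoidAlgebra ℤ G) →+ _).comp ((k1g φ').comp f2)) (fun q hq w => ?_) p hp
  · change mt (k1g φ'' (f3 (ak3 T κB p))) - mt (k1g φ (f1 (ak3 T κB p))) -
      mt (k1g φ' (f2 (ak3 T κB p))) = 0 at key
    rw [e1, e2, e3, sub_sub, sub_eq_zero] at key
    exact key
  · change mt (k1g φ'' (twS g'' w (κ q g''))) - mt (k1g φ (twS g w (κ q g))) -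
      mt (k1g φ' (twS g' w (κ q g'))) = 0
    rw [k1g_twS, k1g_twS, k1g_twS, h q g g' g'' (φ.comp (alS g w)) (φ'.comp (alS g' w))
      (φ''.comp (alS g'' w)) (Nat.prime_of_mem_primeFactors hq) (Nat.dvd_of_mem_primeFactors hq)
      (by rw [comp_alS_gH, comp_alS_gH, h1]) (by rw [comp_alS_gH, comp_alS_gH, h2])
      (by rw [mapW_comp_alS, mapW_comp_alS, mapW_comp_alS, h3])]
    abel

end KapT

theorem tmul_eq_of_mt {A : Type*} [AddCommGroup A] {x y : A} (h : mt x = mt y) :
    (1 : ℚ) ⊗ₜ[ℤ] x = (1 : ℚ) ⊗ₜ[ℤ] y := by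
  rw [← sub_eq_zero, ← map_sub] at h
  obtain ⟨n, hn, h1⟩ := mt_eq_zero.1 h
  rw [← sub_eq_zero, ← TensorProduct.tmul_sub]
  have h2 : (1 : ℚ) = (n : ℤ) • (1 / n : ℚ) := by
    have : (n : ℚ) ≠ 0 := Nat.cast_ne_zero.2 hn.ne'
    rw [natCast_zsmul, nsmul_eq_mul, mul_one_div_cancel this]
  rw [h2, TensorProduct.smul_tmul, natCast_zsmul, h1, TensorProduct.tmul_zero]

theorem srcMk2_eq_zero {G : Type v} [Group G] {x : ℕ × G × List (G × G) →₀ ℚ}
    (hx : x ∈ Submodule.span ℚ {x | Rel2 G x}) : srcMk2 G x = 0 :=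
  (Submodule.Quotient.mk_eq_zero _).2 hx

theorem main1 : ∃ κ : ∀ n : ℕ, ℕ → ∀ g : ℕ, K1 (MonoidAlgebra ℤ (CS n g)),
    ∀ (G : Type v) [Group G], ∃ A : Src2 G →ₗ[ℚ] ℚ ⊗[ℤ] K1 (MonoidAlgebra ℤ G),
      (∀ (n p g : ℕ) (φ : CS n g →* G), 0 < n → p.Prime → p ∣ n →
        Function.Injective (fun c => φ (c, 1)) →
        A (sym2 p (φ (gH n g)) (mapW φ (gW n g))) = 1 ⊗ₜ[ℤ] k1g φ (κ n p g)) ∧
      ∀ y, A y = 0 → y ∈ Submodule.span ℚ {s | ∃ (p : ℕ) (h : G) (w : List (G × G)),
        Valid2 p h w ∧ ¬ IntDet h ∧ s = sym2 p h w} := by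
  classical
  obtain ⟨κ1, hκ1⟩ := exists_kappa3.{v}
  let κ : ∀ n : ℕ, ℕ → ∀ g : ℕ, K1 (MonoidAlgebra ℤ (CS n g)) := fun n p g =>
    if hn : 0 < n then (haveI : NeZero n := ⟨hn.ne'⟩; kapT (κ1 n) p g) else 0
  have hκ : ∀ (n : ℕ) [NeZero n] (p g : ℕ), κ n p g = kapT (κ1 n) p g := by
    intro n _ p g
    exact dif_pos (Nat.pos_of_ne_zero (NeZero.ne n))
  refine ⟨κ, fun G _ => ?_⟩
  obtain ⟨hadd, hnull, hfun⟩ := hκ1 G
  -- the value function
  have hV : ∀ t : ℕ × G × List (G × G), ∃ v : K1 (MonoidAlgebra ℤ G),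
      (¬ Valid2 t.1 t.2.1 t.2.2 → v = 0) ∧
      ∀ (n g : ℕ) (φ : CS n g →* G), 0 < n → t.1.Prime → t.1 ∣ n →
        Function.Injective (fun c => φ (c, 1)) → φ (gH n g) = t.2.1 →
        mapW φ (gW n g) = t.2.2 → v = k1g φ (κ n t.1 g) := by
    rintro ⟨p, h, w⟩
    by_cases hv : Valid2 p h w
    swap
    · refine ⟨0, fun _ => rfl, ?_⟩
      intro n g φ hn hp hpn hφ h1 h2
      exfalso
      apply hv
      have : NeZero n := ⟨hn.ne'⟩
      have h3 := orderOf_gH hn φ hφ
      change φ (gH n g) = h at h1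
      change mapW φ (gW n g) = w at h2
      rw [← h1, ← h2]
      exact ⟨hp, orderOf_pos_iff.1 (by rw [h3]; exact hn), by rw [h3]; exact hpn,
        ⟨CW_gW φ, surf_map_gW φ⟩⟩
    · have hpos : 0 < orderOf h := orderOf_pos_iff.2 hv.fin
      have : NeZero (orderOf h) := ⟨hpos.ne'⟩
      obtain ⟨φ0, h1, h2⟩ := exists_csHom (n := orderOf h) h w (pow_orderOf_eq_one h) hv.clw
      refine ⟨k1g φ0 (κ (orderOf h) p w.length), fun h => absurd hv h, ?_⟩
      intro n g φ hn hp hpn hφ h3 h4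
      change φ (gH n g) = h at h3
      change mapW φ (gW n g) = w at h4
      have h5 : orderOf h = n := by
        rw [← orderOf_gH hn φ hφ]
        exact congrArg orderOf h3.symm
      have h6 : w.length = g := by
        have : NeZero n := ⟨hn.ne'⟩
        rw [← h4, length_map_gW]
      have key : ∀ (m n : ℕ) (_ : m = n) [NeZero m] (g g' : ℕ) (_ : g = g')
          (φ0 : CS m g →* G) (φ : CS n g' →* G)
          (_ : φ0 (gH m g) = φ (gH n g')) (_ : mapW φ0 (gW m g) = mapW φ (gW n g')),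
          k1g φ0 (κ m p g) = k1g φ (κ n p g') := by
        intro m n hmn _ g g' hgg φ0 φ e1 e2
        subst hmn
        subst hgg
        rw [cs_ext e1 e2]
      exact key _ _ h5 _ _ h6 φ0 φ (h1.trans h3.symm) (h2.trans h4.symm)
  choose V hV0 hV1 using hV
  let A0 : (ℕ × G × List (G × G) →₀ ℚ) →ₗ[ℚ] ℚ ⊗[ℤ] K1 (MonoidAlgebra ℤ G) :=
    Finsupp.linearCombination ℚ (fun t => (1 : ℚ) ⊗ₜ[ℤ] V t)
  have hA0 : ∀ t (r : ℚ), A0 (Finsupp.single t r) = r • ((1 : ℚ) ⊗ₜ[ℤ] V t) := by
    intro t r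
    exact Finsupp.linearCombination_single ℚ r t
  have hrel : ∀ x, Rel2 G x → A0 x = 0 := by
    intro x hx
    cases hx with
    | invalid p h g hv => rw [hA0, hV0 _ hv, TensorProduct.tmul_zero, smul_zero]
    | null p h w hv hn =>
      have hpos : 0 < orderOf h := orderOf_pos_iff.2 hv.fin
      have : NeZero (orderOf h) := ⟨hpos.ne'⟩
      obtain ⟨φ, h1, h2⟩ := exists_csHom (n := orderOf h) h w (pow_orderOf_eq_one h) hv.clw
      have h3 : mt (V (p, h, w)) = 0 := by
        rw [hV1 (p, h, w) _ _ φ hpos hv.prime hv.dvd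
          (injective_of_orderOf' φ (by rw [h1])) h1 h2, hκ]
        refine kapT_null (κ1 _) (fun q g φ hq hqn hnn => hnull _ q g φ hpos hq hqn hnn)
          (Nat.mem_primeFactors.2 ⟨hv.prime, hv.dvd, hpos.ne'⟩) φ ?_
        rw [h1, h2]
        exact hn
      have h4 : (1 : ℚ) ⊗ₜ[ℤ] V (p, h, w) = (1 : ℚ) ⊗ₜ[ℤ] (0 : K1 (MonoidAlgebra ℤ G)) :=
        tmul_eq_of_mt (by rw [h3, map_zero])
      rw [hA0, h4, TensorProduct.tmul_zero, smul_zero]
    | add p h w w' hv hv' =>
      have hpos : 0 < orderOf h := orderOf_pos_iff.2 hv.fin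
      have : NeZero (orderOf h) := ⟨hpos.ne'⟩
      have hv'' : Valid2 p h (w ++ w') := ⟨hv.prime, hv.fin, hv.dvd, hv.clw.append hv'.clw⟩
      obtain ⟨φ, h1, h2⟩ := exists_csHom (n := orderOf h) h w (pow_orderOf_eq_one h) hv.clw
      obtain ⟨φ', h1', h2'⟩ := exists_csHom (n := orderOf h) h w' (pow_orderOf_eq_one h)
        hv'.clw
      obtain ⟨φ'', h1'', h2''⟩ := exists_csHom (n := orderOf h) h (w ++ w')
        (pow_orderOf_eq_one h) hv''.clw
      have h4 : mt (V (p, h, w ++ w')) = mt (V (p, h, w) + V (p, h, w')) := by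
        rw [hV1 (p, h, w ++ w') _ _ φ'' hpos hv.prime hv.dvd
          (injective_of_orderOf' φ'' (by rw [h1''])) h1'' h2'',
          hV1 (p, h, w) _ _ φ hpos hv.prime hv.dvd
          (injective_of_orderOf' φ (by rw [h1])) h1 h2,
          hV1 (p, h, w') _ _ φ' hpos hv.prime hv.dvd
          (injective_of_orderOf' φ' (by rw [h1'])) h1' h2', hκ, hκ, hκ, map_add]
        exact kapT_add (κ1 _) (fun q g g' g'' φ φ' φ'' hq hqn => hadd _ q g g' g'' φ φ' φ''
          hpos hq hqn) (Nat.mem_primeFactors.2 ⟨hv.prime, hv.dvd, hpos.ne'⟩) φ φ' φ''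
          (by rw [h1, h1']) (by rw [h1, h1'']) (by rw [h2, h2', h2''])
      rw [map_sub, map_sub, hA0, hA0, hA0, tmul_eq_of_mt h4, TensorProduct.tmul_add]
      simp only [one_smul]
      abel
    | conj p h x w hv =>
      have hpos : 0 < orderOf h := orderOf_pos_iff.2 hv.fin
      have : NeZero (orderOf h) := ⟨hpos.ne'⟩
      obtain ⟨φ, h1, h2⟩ := exists_csHom (n := orderOf h) h w (pow_orderOf_eq_one h) hv.clw
      let φ' : CS (orderOf h) w.length →* G := (MulAut.conj x).toMonoidHom.comp φ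
      have h1' : φ' (gH _ _) = x * h * x⁻¹ := by
        change MulAut.conj x (φ (gH _ _)) = _
        rw [h1]
        rfl
      have h2' : mapW φ' (gW _ _) = mapW (fun y => x * y * x⁻¹) w := by
        conv_rhs => rw [← h2, mapW_mapW]
        rfl
      have hinj : Function.Injective (fun c => φ (c, 1)) :=
        injective_of_orderOf' φ (by rw [h1])
      have hinj' : Function.Injective (fun c => φ' (c, 1)) := by
        intro c c' hcc
        exact hinj ((MulAut.conj x).injective hcc)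
      have h4 : V (p, x * h * x⁻¹, mapW (fun y => x * y * x⁻¹) w) = V (p, h, w) := by
        rw [hV1 (p, x * h * x⁻¹, mapW (fun y => x * y * x⁻¹) w) _ _ φ' hpos hv.prime hv.dvd
          hinj' h1' h2', hV1 (p, h, w) _ _ φ hpos hv.prime hv.dvd hinj h1 h2]
        rw [← k1g_comp, k1g_conj]
      rw [map_sub, hA0, hA0, h4, sub_self]
    | frob p h h' w j k hv hz hpw =>
      have hpos : 0 < orderOf h := orderOf_pos_iff.2 hv.fin
      have : NeZero (orderOf h) := ⟨hpos.ne'⟩
      obtain ⟨φ, h1, h2⟩ := exists_csHom (n := orderOf h) h w (pow_orderOf_eq_one h) hv.clw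
      obtain ⟨u, hu⟩ := exists_unit_of_zpowers (n := orderOf h) rfl hz
      have hrel : uRel (orderOf h) p u 1 := by
        refine ⟨k, j, ?_⟩
        rw [hu, ← pow_mul, pow_eq_pow_iff_modEq, ← ZMod.natCast_eq_natCast_iff] at hpw
        push_cast at hpw
        rw [ZMod.natCast_zmod_val] at hpw
        rw [Units.val_one, one_mul]
        exact hpw.symm
      have h1' : (φ.comp (alS _ u)) (gH _ _) = h' := by
        rw [comp_alS_gH, h1, hu]
      have h2' : mapW (φ.comp (alS _ u)) (gW _ _) = w := by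
        rw [mapW_comp_alS, h2]
      have hord' : orderOf h' = orderOf h := by
        rw [← Nat.card_zpowers, ← hz, Nat.card_zpowers]
      have h4 : V (p, h', w) = V (p, h, w) := by
        rw [hV1 (p, h', w) _ _ (φ.comp (alS _ u)) hpos hv.prime hv.dvd
          (injective_of_orderOf' _ (by rw [h1', hord'])) h1' h2',
          hV1 (p, h, w) _ _ φ hpos hv.prime hv.dvd (injective_of_orderOf' φ (by rw [h1])) h1 h2]
        change k1g _ (κ (orderOf h) p _) = k1g _ (κ (orderOf h) p _)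
        rw [← k1g_twS, hκ]
        congr 1
        exact T_ak3 (T := twS w.length) (fun u w x => twS_twS _ u w x) p u hrel
      rw [map_sub, hA0, hA0, h4, sub_self]
    | sum h w hfin hc =>
      have hpos : 0 < orderOf h := orderOf_pos_iff.2 hfin
      have : NeZero (orderOf h) := ⟨hpos.ne'⟩
      obtain ⟨φ, h1, h2⟩ := exists_csHom (n := orderOf h) h w (pow_orderOf_eq_one h) hc
      have h3 : ∀ p ∈ (orderOf h).primeFactors, ∀ u : (ZMod (orderOf h))ˣ,
          V (p, h ^ (u : ZMod (orderOf h)).val, w) =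
            k1g φ (twS w.length u (κ (orderOf h) p w.length)) := by
        intro p hp u
        have h1' : (φ.comp (alS _ u)) (gH _ _) = h ^ (u : ZMod (orderOf h)).val := by
          rw [comp_alS_gH, h1]
        have h2' : mapW (φ.comp (alS _ u)) (gW _ _) = w := by
          rw [mapW_comp_alS, h2]
        rw [hV1 (p, h ^ (u : ZMod (orderOf h)).val, w) _ _ (φ.comp (alS _ u)) hpos
          (Nat.prime_of_mem_primeFactors hp) (Nat.dvd_of_mem_primeFactors hp)
          (injective_of_orderOf' _ (by rw [h1', orderOf_pow_val rfl])) h1' h2', k1g_twS]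
      have h4 : A0 (∑ p ∈ (orderOf h).primeFactors,
          ∑ a ∈ (Finset.range (orderOf h)).filter (fun a => a.Coprime (orderOf h)),
          Finsupp.single (p, h ^ a, w) 1) =
          (1 : ℚ) ⊗ₜ[ℤ] k1g φ
            (∑ q ∈ (orderOf h).primeFactors, ∑ u : (ZMod (orderOf h))ˣ,
              twS w.length u (kapT (κ1 (orderOf h)) q w.length)) := by
        rw [map_sum, map_sum, TensorProduct.tmul_sum]
        apply Finset.sum_congr rfl
        intro p hp
        rw [map_sum, map_sum, TensorProduct.tmul_sum]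
        refine Eq.symm (Finset.sum_bij (fun (u : (ZMod (orderOf h))ˣ) _ =>
          (u : ZMod (orderOf h)).val) ?_ ?_ ?_ ?_)
        · intro u _
          rw [Finset.mem_filter, Finset.mem_range]
          exact ⟨ZMod.val_lt _, ZMod.val_coe_unit_coprime u⟩
        · intro u _ v _ huv
          exact Units.ext (ZMod.val_injective _ huv)
        · intro a ha
          rw [Finset.mem_filter, Finset.mem_range] at ha
          refine ⟨ZMod.unitOfCoprime a ha.2, Finset.mem_univ _, ?_⟩
          rw [ZMod.coe_unitOfCoprime, ZMod.val_natCast, Nat.mod_eq_of_lt ha.1]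
        · intro u _
          rw [hA0, h3 p hp u, hκ, one_smul]
      have h5 : ∑ q ∈ (orderOf h).primeFactors, ∑ u : (ZMod (orderOf h))ˣ,
          twS w.length u (kapT (κ1 (orderOf h)) q w.length) = 0 :=
        sum_ak3 (T := twS w.length) (κ := fun q => κ1 (orderOf h) q w.length)
          (fun u w x => twS_twS _ u w x)
      rw [h4, h5, map_zero, TensorProduct.tmul_zero]
  have hle : Submodule.span ℚ {x | Rel2 G x} ≤ LinearMap.ker A0 := by
    rw [Submodule.span_le]
    intro x hx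
    exact hrel x hx
  let A : Src2 G →ₗ[ℚ] ℚ ⊗[ℤ] K1 (MonoidAlgebra ℤ G) :=
    (Submodule.span ℚ {x | Rel2 G x}).liftQ A0 hle
  have hA : ∀ x : ℕ × G × List (G × G) →₀ ℚ, A (srcMk2 G x) = A0 x := fun x => rfl
  refine ⟨A, ?_, ?_⟩
  · intro n p g φ hn hp hpn hφ
    unfold sym2
    rw [hA, hA0, one_smul,
      hV1 (p, φ (gH n g), mapW φ (gW n g)) n g φ hn hp hpn hφ rfl rfl]
  · intro s hy
    obtain ⟨x, rfl⟩ := Submodule.Quotient.mk_surjective (Submodule.span ℚ {x | Rel2 G x}) s
    change A (srcMk2 G x) = 0 at hy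
    change srcMk2 G x ∈ _
    rw [hA] at hy
    -- applying additive functions
    have happ : ∀ F : K1 (MonoidAlgebra ℤ G) →+ ℚ,
        ∑ t ∈ x.support, x t * F (V t) = 0 := by
      intro F
      have h1 := congrArg (LinearMap.liftBaseChange ℚ F.toIntLinearMap) hy
      rw [map_zero] at h1
      rw [← h1]
      change _ = LinearMap.liftBaseChange ℚ F.toIntLinearMap
        (Finsupp.linearCombination ℚ (fun t => (1 : ℚ) ⊗ₜ[ℤ] V t) x)
      rw [Finsupp.linearCombination_apply, Finsupp.sum, map_sum]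
      apply Finset.sum_congr rfl
      intro t _
      rw [map_smul, LinearMap.liftBaseChange_tmul, one_smul]
      rfl
    -- the functionals
    obtain ⟨S, hS⟩ : ∃ S : Finset (ℕ × G × List (G × G)),
        S = x.support.filter (fun t => Valid2 t.1 t.2.1 t.2.2) := ⟨_, rfl⟩
    have hSmem : ∀ t, t ∈ S ↔ t ∈ x.support ∧ Valid2 t.1 t.2.1 t.2.2 := by
      intro t
      rw [hS, Finset.mem_filter]
    have hSsub : S ⊆ x.support := fun t ht => ((hSmem t).1 ht).1
    have hSv : ∀ t ∈ S, Valid2 t.1 t.2.1 t.2.2 := fun t ht => ((hSmem t).1 ht).2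
    clear hS
    let ω : ℕ → ℕ := fun n => if hn : 0 < n then
      (haveI : NeZero n := ⟨hn.ne'⟩; n.primeFactors.card * Fintype.card (ZMod n)ˣ *
        ∏ q ∈ n.primeFactors, (ucl q (1 : (ZMod n)ˣ)).card) else 1
    have hω : ∀ (n : ℕ) [NeZero n], ω n = n.primeFactors.card * Fintype.card (ZMod n)ˣ *
        ∏ q ∈ n.primeFactors, (ucl q (1 : (ZMod n)ˣ)).card := by
      intro n _
      exact dif_pos (Nat.pos_of_ne_zero (NeZero.ne n))
    have hωpos : ∀ t ∈ S, (ω (orderOf t.2.1) : ℚ) ≠ 0 := by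
      intro t ht
      have hv := hSv t ht
      have hpos : 0 < orderOf t.2.1 := orderOf_pos_iff.2 hv.fin
      have : NeZero (orderOf t.2.1) := ⟨hpos.ne'⟩
      rw [hω]
      refine Nat.cast_ne_zero.2 (Nat.mul_ne_zero (Nat.mul_ne_zero ?_ ?_) ?_)
      · exact (Finset.card_pos.2 ⟨t.1, Nat.mem_primeFactors.2
          ⟨hv.prime, hv.dvd, hpos.ne'⟩⟩).ne'
      · exact Fintype.card_ne_zero
      · exact (Finset.prod_pos fun q _ => card_ucl_pos q _).ne'
    have hfun2 : ∀ L : ℕ → G → G → G → ℤ, IsAdm2 L → ∑ t ∈ S, x t *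
        ((ω (orderOf t.2.1) : ℚ) * ((evw (L t.1 t.2.1) t.2.2 : ℤ) : ℚ)) = 0 := by
      intro L hL
      obtain ⟨F, hF⟩ := hfun L hL
      have h1 := happ F
      have h2 : ∀ t ∈ x.support, t ∉ S → x t * F (V t) = 0 := by
        intro t ht htS
        have hv : ¬ Valid2 t.1 t.2.1 t.2.2 := fun hv => htS ((hSmem t).2 ⟨ht, hv⟩)
        rw [hV0 t hv, map_zero, mul_zero]
      rw [← Finset.sum_subset hSsub h2] at h1
      rw [← h1]
      apply Finset.sum_congr rfl
      intro t ht
      have hv := hSv t ht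
      have hpos : 0 < orderOf t.2.1 := orderOf_pos_iff.2 hv.fin
      have : NeZero (orderOf t.2.1) := ⟨hpos.ne'⟩
      obtain ⟨φ, h1, h2⟩ := exists_csHom (n := orderOf t.2.1) t.2.1 t.2.2
        (pow_orderOf_eq_one _) hv.clw
      have hinj := injective_of_orderOf' φ (by rw [h1])
      rw [hV1 t _ _ φ hpos hv.prime hv.dvd hinj h1 h2, hκ,
        functional_kapT (κ1 _) L hL F (fun p g φ hp hpn hφ => hF _ p g φ hpos hp hpn hφ) t.1 _
          (Nat.mem_primeFactors.2 ⟨hv.prime, hv.dvd, hpos.ne'⟩) φ hinj, h1, h2, hω]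
    have hfun3 : ∀ L : ℕ → G → G → G → ℤ, IsAdm2 L →
        ∑ t ∈ S, x t * ((evw (L t.1 t.2.1) t.2.2 : ℤ) : ℚ) = 0 := by
      intro L hL
      rw [← Finset.sum_fiberwise_of_maps_to (t := S.image (fun t => orderOf t.2.1))
        (g := fun t => orderOf t.2.1) (fun t ht => Finset.mem_image_of_mem _ ht)]
      apply Finset.sum_eq_zero
      intro n hn
      obtain ⟨t0, ht0, rfl⟩ := Finset.mem_image.1 hn
      let L' : ℕ → G → G → G → ℤ := fun p h => if orderOf h = orderOf t0.2.1 then L p h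
        else fun _ _ => 0
      have hL0 : ∀ p h, orderOf h = orderOf t0.2.1 → L' p h = L p h := fun p h hh => if_pos hh
      have hL1 : ∀ p h, orderOf h ≠ orderOf t0.2.1 → L' p h = fun _ _ => 0 :=
        fun p h hh => if_neg hh
      have hL' : IsAdm2 L' := by
        refine ⟨?_, ?_, ?_, ?_⟩
        · intro p h
          by_cases hh : orderOf h = orderOf t0.2.1
          · rw [hL0 p h hh]
            exact hL.coc p h
          · rw [hL1 p h hh]
            exact ⟨fun _ _ _ _ _ _ => rfl, fun _ _ => rfl, fun _ _ => rfl⟩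
        · intro p h y w hw
          have h1 : orderOf (y * h * y⁻¹) = orderOf h := by
            have : IsConj h (y * h * y⁻¹) := isConj_iff.2 ⟨y, rfl⟩
            obtain ⟨u, hu⟩ := this
            exact (hu.orderOf_eq (u : G)).symm
          by_cases hh : orderOf h = orderOf t0.2.1
          · rw [hL0 p h hh, hL0 p _ (by rw [h1]; exact hh)]
            exact hL.conj p h y w hw
          · rw [hL1 p h hh, hL1 p _ (by rw [h1]; exact hh), evw_zero, evw_zero]
        · intro p h h' w j k hw hz hpw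
          have hord' : orderOf h' = orderOf h := by
            rw [← Nat.card_zpowers, ← hz, Nat.card_zpowers]
          by_cases hh : orderOf h = orderOf t0.2.1
          · rw [hL0 p h hh, hL0 p _ (by rw [hord']; exact hh)]
            exact hL.frob p h h' w j k hw hz hpw
          · rw [hL1 p h hh, hL1 p _ (by rw [hord']; exact hh)]
        · intro h w hfin hw
          by_cases ho : orderOf h = orderOf t0.2.1
          · rw [← hL.sum h w hfin hw]
            apply Finset.sum_congr rfl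
            intro p _
            apply Finset.sum_congr rfl
            intro a ha
            rw [Finset.mem_filter] at ha
            rw [hL0]
            rw [Nat.Coprime.orderOf_pow (Nat.coprime_comm.1 ha.2), ho]
          · apply Finset.sum_eq_zero
            intro p _
            apply Finset.sum_eq_zero
            intro a ha
            rw [Finset.mem_filter] at ha
            rw [hL1, evw_zero]
            rw [Nat.Coprime.orderOf_pow (Nat.coprime_comm.1 ha.2)]
            exact ho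
      have h1 := hfun2 L' hL'
      have h2 : ∑ t ∈ S, x t * ((ω (orderOf t.2.1) : ℚ) *
          ((evw (L' t.1 t.2.1) t.2.2 : ℤ) : ℚ)) =
          (ω (orderOf t0.2.1) : ℚ) * ∑ t ∈ S.filter (fun t => orderOf t.2.1 = orderOf t0.2.1),
            x t * ((evw (L t.1 t.2.1) t.2.2 : ℤ) : ℚ) := by
        rw [Finset.mul_sum, Finset.sum_filter]
        apply Finset.sum_congr rfl
        intro t _
        split_ifs with h3
        · rw [hL0 _ _ h3, h3]
          ring
        · rw [hL1 _ _ h3, evw_zero]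
          simp
      rw [h2] at h1
      exact (mul_eq_zero.1 h1).resolve_left (hωpos t0 ht0)
    -- integral coefficients
    have hden : ∃ D : ℕ, 0 < D ∧ ∀ t ∈ S, ∃ m : ℤ, (D : ℚ) * x t = m := by
      refine ⟨∏ t ∈ S, (x t).den, Finset.prod_pos fun t _ => Rat.den_pos _, ?_⟩
      intro t ht
      obtain ⟨d, hd⟩ := Finset.dvd_prod_of_mem (fun t => (x t).den) ht
      refine ⟨d * (x t).num, ?_⟩
      rw [hd]
      push_cast
      have h1 := Rat.mul_den_eq_num (x t)
      linear_combination (d : ℚ) * h1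
    obtain ⟨D, hD, hden⟩ := hden
    have hDQ : (D : ℚ) ≠ 0 := Nat.cast_ne_zero.2 hD.ne'
    let c : ℕ × G × List (G × G) → ℤ := fun t => if ht : t ∈ S then (hden t ht).choose else 0
    have hc : ∀ t ∈ S, (D : ℚ) * x t = c t := by
      intro t ht
      simp only [c]
      rw [dif_pos ht]
      exact (hden t ht).choose_spec
    have hspan := span_of_adm2 S (fun t => t.1) (fun t => t.2.1) (fun t => t.2.2) c hSv (by
      intro L hL
      have h1 := hfun3 L hL
      have h2 : ∑ t ∈ S, (c t : ℚ) * ((evw (L t.1 t.2.1) t.2.2 : ℤ) : ℚ) =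
          (D : ℚ) * ∑ t ∈ S, x t * ((evw (L t.1 t.2.1) t.2.2 : ℤ) : ℚ) := by
        rw [Finset.mul_sum]
        apply Finset.sum_congr rfl
        intro t ht
        rw [← hc t ht]
        ring
      rw [h2, h1, mul_zero])
    have hgood := srcMk2_eq_zero hspan
    rw [map_sum] at hgood
    have hsym : ∀ (t : ℕ × G × List (G × G)) (a : ℚ), srcMk2 G (Finsupp.single t a) =
        a • sym2 t.1 t.2.1 t.2.2 := by
      intro t a
      unfold sym2
      rw [← map_smul, Finsupp.smul_single, smul_eq_mul, mul_one]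
    have hDx : (D : ℚ) • srcMk2 G x = ∑ t ∈ S, (c t : ℚ) • sym2 t.1 t.2.1 t.2.2 := by
      have h1 : x = ∑ t ∈ x.support, Finsupp.single t (x t) := (Finsupp.sum_single x).symm
      conv_lhs => rw [h1]
      rw [map_sum, Finset.smul_sum]
      have h2 : ∀ t ∈ x.support, t ∉ S → (D : ℚ) • srcMk2 G (Finsupp.single t (x t)) = 0 := by
        intro t ht htS
        have hv : ¬ Valid2 t.1 t.2.1 t.2.2 := fun hv => htS ((hSmem t).2 ⟨ht, hv⟩)
        have h3 : sym2 t.1 t.2.1 t.2.2 = 0 :=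
          srcMk2_eq_zero (Submodule.subset_span (Rel2.invalid _ _ _ hv))
        rw [hsym, h3, smul_zero, smul_zero]
      rw [← Finset.sum_subset hSsub h2]
      apply Finset.sum_congr rfl
      intro t ht
      rw [hsym, smul_smul, hc t ht]
    have hfinal : (D : ℚ) • srcMk2 G x ∈ Submodule.span ℚ {s | ∃ (p : ℕ) (h : G)
        (w : List (G × G)), Valid2 p h w ∧ ¬ IntDet h ∧ s = sym2 p h w} := by
      rw [hDx, ← Finset.sum_filter_add_sum_filter_not S (fun t => IntDet t.2.1)]
      have h1 : ∑ t ∈ S.filter (fun t => IntDet t.2.1),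
          (c t : ℚ) • sym2 t.1 t.2.1 t.2.2 = 0 := by
        rw [← hgood]
        apply Finset.sum_congr rfl
        intro t _
        rw [hsym]
      rw [h1, zero_add]
      apply Submodule.sum_mem
      intro t ht
      exact Submodule.smul_mem _ _ (Submodule.subset_span
        ⟨t.1, t.2.1, t.2.2, hSv t (Finset.mem_filter.1 ht).1, (Finset.mem_filter.1 ht).2, rfl⟩)
    have h1 := Submodule.smul_mem _ ((D : ℚ)⁻¹) hfinal
    rwa [smul_smul, inv_mul_cancel₀ hDQ, one_smul] at h1

end Pool.Agent.Lib25.H2
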