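import Pool.Agent.Lib_helper25.Final0
import Pool.Agent.Lib_helper25.H2.Ev

/-!
# Hopf's formula for words
-/

set_option autoImplicit false
set_option linter.unusedSectionVars false

namespace Pool.Agent.Lib25.H2

universe u

section Central

variable {E Γ : Type*} [Group E] [Group Γ] (f : E →* Γ)
  (hc : ∀ x, f x = 1 → ∀ y, x * y = y * x)

include hc

theorem comm_congr {x x' y y' : E} (hx : f x = f x') (hy : f y = f y') :
    x * y * x⁻¹ * y⁻¹ = x' * y' * x'⁻¹ * y'⁻¹ := by
  have h1 : ∀ z z' : E, f z = f z' → ∃ c, z = c * z' ∧ ∀ t, c * t = t * c := by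
    intro z z' h
    refine ⟨z * z'⁻¹, by group, hc _ ?_⟩
    rw [map_mul, map_inv, h, mul_inv_cancel]
  obtain ⟨c, rfl, hcc⟩ := h1 x x' hx
  obtain ⟨d, rfl, hdc⟩ := h1 y y' hy
  calc c * x' * (d * y') * (c * x')⁻¹ * (d * y')⁻¹
      = c * (x' * d) * y' * x'⁻¹ * (c⁻¹ * y'⁻¹) * d⁻¹ := by group
    _ = c * (d * x') * y' * x'⁻¹ * (y'⁻¹ * c⁻¹) * d⁻¹ := by
      have h2 : c⁻¹ * y'⁻¹ = y'⁻¹ * c⁻¹ := by
        rw [← mul_inv_rev, ← mul_inv_rev, hcc]
      rw [hdc x', h2]
    _ = c * d * (x' * y' * x'⁻¹ * y'⁻¹) * c⁻¹ * d⁻¹ := by group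
    _ = (x' * y' * x'⁻¹ * y'⁻¹) * (c * d) * c⁻¹ * d⁻¹ := by
      have h2 : c * d * (x' * y' * x'⁻¹ * y'⁻¹) = (x' * y' * x'⁻¹ * y'⁻¹) * (c * d) := by
        rw [mul_assoc, hdc, ← mul_assoc, hcc]
        group
      rw [h2]
    _ = x' * y' * x'⁻¹ * y'⁻¹ := by
      have h3 : c * d = d * c := hcc d
      rw [h3]
      group

/-- The product of the commutators only depends on the images of the letters. -/
theorem surf_congr {w w' : List (E × E)}
    (h : List.Forall₂ (fun q q' => f q.1 = f q'.1 ∧ f q.2 = f q'.2) w w') :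
    surf w = surf w' := by
  induction h with
  | nil => rfl
  | cons h _ ih => rw [surf_cons, surf_cons, ih, comm_congr f hc h.1 h.2]

end Central

section Section

variable {E Γ : Type*} [Group E] [Group Γ] (f : E →* Γ)
  (hc : ∀ x, f x = 1 → ∀ y, x * y = y * x) (σ : Γ → E) (hσ : ∀ g, f (σ g) = g) (hσ1 : σ 1 = 1)
  {k : Type*} [AddCommGroup k] (φ : E → k) (hφ : ∀ x y, f x = 1 → f y = 1 → φ (x * y) = φ x + φ y)

/-- The cocycle defined by a section. -/
def secCoc (x y : Γ) : k := φ (σ x * σ y * (σ (x * y))⁻¹)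

include hc hσ hσ1 hφ

omit hc hσ hσ1 in
theorem phi_one : φ 1 = 0 := by
  have h := hφ 1 1 (map_one f) (map_one f)
  rw [mul_one] at h
  exact left_eq_add.1 h

omit hc hσ1 hφ in
theorem f_sec (x y : Γ) : f (σ x * σ y * (σ (x * y))⁻¹) = 1 := by
  rw [map_mul, map_mul, map_inv, hσ, hσ, hσ, mul_inv_cancel]

theorem secCoc_isCoc2 : IsCoc2 (secCoc σ φ) where
  coc x y z := by
    unfold secCoc
    rw [← hφ _ _ (f_sec f σ hσ x y) (f_sec f σ hσ (x * y) z),
      ← hφ _ _ (f_sec f σ hσ y z) (f_sec f σ hσ x (y * z))]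
    congr 1
    have h1 := hc _ (f_sec f σ hσ y z) (σ x)
    calc σ x * σ y * (σ (x * y))⁻¹ * (σ (x * y) * σ z * (σ (x * y * z))⁻¹)
        = σ x * (σ y * σ z * (σ (y * z))⁻¹) * (σ (y * z) * (σ (x * y * z))⁻¹) := by group
      _ = σ y * σ z * (σ (y * z))⁻¹ * (σ x * σ (y * z) * (σ (x * (y * z)))⁻¹) := by
        rw [← h1, mul_assoc x y z]
        group
  one_left x := by
    unfold secCoc
    rw [hσ1, one_mul, one_mul, mul_inv_cancel]
    exact phi_one f φ hφ
  one_right x := by
    unfold secCoc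
    rw [hσ1, mul_one, mul_one, mul_inv_cancel]
    exact phi_one f φ hφ

/-- The evaluation of the cocycle of a section on closed words. -/
theorem evw_section (w : List (Γ × Γ)) (hw : surf w = 1) :
    evw (secCoc σ φ) w = φ (surf (mapW σ w)) := by
  have H := secCoc_isCoc2 f hc σ hσ hσ1 φ hφ
  let Ψ : E →* CE H :=
    { toFun := fun x => ⟨φ (x * (σ (f x))⁻¹), f x⟩
      map_one' := by
        apply CE.ext'
        · change φ (1 * (σ (f 1))⁻¹) = 0
          rw [map_one, hσ1, inv_one, mul_one]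
          exact phi_one f φ hφ
        · exact map_one f
      map_mul' := fun x y => by
        apply CE.ext'
        · change φ (x * y * (σ (f (x * y)))⁻¹) = φ (x * (σ (f x))⁻¹) + φ (y * (σ (f y))⁻¹) +
            φ (σ (f x) * σ (f y) * (σ (f x * f y))⁻¹)
          have k1 : f (x * (σ (f x))⁻¹) = 1 := by rw [map_mul, map_inv, hσ, mul_inv_cancel]
          have k2 : f (y * (σ (f y))⁻¹) = 1 := by rw [map_mul, map_inv, hσ, mul_inv_cancel]
          have k3 := f_sec f σ hσ (f x) (f y)
          rw [← hφ _ _ k1 k2, ← hφ _ _ (by rw [map_mul, k1, k2, one_mul]) k3]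
          congr 1
          have h1 := hc _ k2 (σ (f x))
          rw [map_mul]
          calc x * y * (σ (f x * f y))⁻¹
              = x * (σ (f x))⁻¹ * (σ (f x) * (y * (σ (f y))⁻¹)) * σ (f y) *
                (σ (f x * f y))⁻¹ := by group
            _ = _ := by
              rw [← h1]
              group
        · exact map_mul f x y }
  have h1 : ∀ g, Ψ (σ g) = CE.s g := by
    intro g
    apply CE.ext'
    · change φ (σ g * (σ (f (σ g)))⁻¹) = 0
      rw [hσ, mul_inv_cancel]
      exact phi_one f φ hφ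
    · exact hσ g
  rw [evw_eq_fst H]
  have h2 : mapW (CE.s (H := H)) w = mapW Ψ (mapW σ w) := by
    rw [mapW_mapW]
    congr 1
    funext g
    exact (h1 g).symm
  rw [h2, surf_map]
  change φ (surf (mapW σ w) * (σ (f (surf (mapW σ w))))⁻¹) = _
  have h3 : f (surf (mapW σ w)) = 1 := by
    rw [← surf_map, mapW_mapW]
    simp only [hσ]
    rw [mapW_id, hw]
  rw [h3, hσ1, inv_one, mul_one]

end Section

section Hopf

variable {Γ : Type u} [Group Γ]

/-- The projection of the free group on tagged letters. -/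
noncomputable def fpr (Γ : Type u) [Group Γ] : FreeGroup (Γ × Bool) →* Γ :=
  FreeGroup.lift (fun y => y.1)

theorem fpr_of (y : Γ × Bool) : fpr Γ (FreeGroup.of y) = y.1 := FreeGroup.lift_apply_of

/-- The subgroup `[F, R]`. -/
noncomputable def comFR (Γ : Type u) [Group Γ] : Subgroup (FreeGroup (Γ × Bool)) :=
  ⁅(⊤ : Subgroup (FreeGroup (Γ × Bool))), (fpr Γ).ker⁆

noncomputable instance : (comFR Γ).Normal := Subgroup.commutator_normal _ _

/-- The tagged word. -/
def tagW (w : List (Γ × Γ)) : List ((FreeGroup (Γ × Bool)) × FreeGroup (Γ × Bool)) :=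
  w.map (fun q => (FreeGroup.of (q.1, false), FreeGroup.of (q.2, true)))

theorem fpr_tagW (w : List (Γ × Γ)) : mapW (fpr Γ) (tagW w) = w := by
  unfold mapW tagW
  rw [List.map_map]
  conv_rhs => rw [← List.map_id w]
  apply List.map_congr_left
  intro q _
  change (fpr Γ (FreeGroup.of (q.1, false)), fpr Γ (FreeGroup.of (q.2, true))) = q
  rw [fpr_of, fpr_of]

theorem fpr_surf_tagW (w : List (Γ × Γ)) : fpr Γ (surf (tagW w)) = surf w := by
  rw [← surf_map, fpr_tagW]

/-- **Hopf's formula**: a closed word on which all rational cocycles vanish is, up to a power, in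
`[F, R]`. -/
theorem hopf (w : List (Γ × Γ)) (hw : surf w = 1)
    (hnull : ∀ lam : Γ → Γ → ℚ, IsCoc2 lam → evw lam w = 0) :
    ∃ N : ℕ, 0 < N ∧ (surf (tagW w)) ^ N ∈ comFR Γ := by
  by_contra hcon
  push Not at hcon
  let E := FreeGroup (Γ × Bool) ⧸ comFR Γ
  let mk : FreeGroup (Γ × Bool) →* E := QuotientGroup.mk' (comFR Γ)
  have hle : comFR Γ ≤ (fpr Γ).ker := Subgroup.commutator_le_right _ _
  let f : E →* Γ := QuotientGroup.lift (comFR Γ) (fpr Γ) (fun x hx => hle hx)
  have hfmk : ∀ x, f (mk x) = fpr Γ x := fun x => rfl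
  have hmks : Function.Surjective mk := QuotientGroup.mk'_surjective _
  have hc : ∀ x, f x = 1 → ∀ y, x * y = y * x := by
    intro x hx y
    obtain ⟨x, rfl⟩ := hmks x
    obtain ⟨y, rfl⟩ := hmks y
    have h1 : y * x * y⁻¹ * x⁻¹ ∈ comFR Γ :=
      Subgroup.commutator_mem_commutator (Subgroup.mem_top y) (hfmk x ▸ hx : fpr Γ x = 1)
    have h2 : mk (y * x * y⁻¹ * x⁻¹) = 1 := (QuotientGroup.eq_one_iff _).2 h1
    rw [map_mul, map_mul, map_mul, map_inv, map_inv] at h2
    have h3 : mk y * mk x = mk x * mk y := by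
      have h4 := congrArg (fun z => z * mk x * mk y) h2
      simp only [one_mul] at h4
      rw [← h4]
      group
    exact h3.symm
  -- the element of infinite order
  set wb : E := mk (surf (tagW w)) with hwb
  have hfw : f wb = 1 := by
    rw [hwb, hfmk, fpr_surf_tagW, hw]
  have hcen : wb ∈ Subgroup.center E := Subgroup.mem_center_iff.2 fun g => (hc wb hfw g).symm
  have hord : ∀ n : ℕ, 0 < n → wb ^ n ≠ 1 := by
    intro n hn h
    apply hcon n hn
    rw [hwb, ← map_pow] at h
    exact (QuotientGroup.eq_one_iff _).1 h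
  let _ : CommGroup (Subgroup.center E) :=
    { (inferInstance : Group (Subgroup.center E)) with
      mul_comm := fun x y => Subtype.ext (Subgroup.mem_center_iff.1 y.2 x.1) }
  let a : Additive (Subgroup.center E) := Additive.ofMul ⟨wb, hcen⟩
  have hzero : ∀ m : ℤ, m • a = 0 → m = 0 := by
    intro m hm
    have h1 : wb ^ m = 1 := by
      have h2 : (⟨wb, hcen⟩ : Subgroup.center E) ^ m = 1 := hm
      have h3 := congrArg Subtype.val h2
      exact h3
    by_contra hne
    rcases Int.natAbs_eq m with h | h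
    · rw [h, zpow_natCast] at h1
      exact hord _ (Int.natAbs_pos.2 hne) h1
    · rw [h, zpow_neg, zpow_natCast, inv_eq_one] at h1
      exact hord _ (Int.natAbs_pos.2 hne) h1
  obtain ⟨F, hF⟩ := exists_functional (A := Additive (Subgroup.center E)) (J := Unit)
    (fun _ => a) (fun _ => 1) (by
      intro c hcc
      have h1 : c () • a = 0 := by
        rw [Finsupp.sum_fintype _ _ (by simp)] at hcc
        simpa using hcc
      rw [Finsupp.sum_fintype _ _ (by simp)]
      simp [hzero _ h1])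
  classical
  let φ : E → ℚ := fun x => if h : x ∈ Subgroup.center E then F (Additive.ofMul ⟨x, h⟩) else 0
  have hcen' : ∀ x, f x = 1 → x ∈ Subgroup.center E := fun x hx =>
    Subgroup.mem_center_iff.2 fun g => (hc x hx g).symm
  have hφ : ∀ x y, f x = 1 → f y = 1 → φ (x * y) = φ x + φ y := by
    intro x y hx hy
    simp only [φ]
    rw [dif_pos (hcen' x hx), dif_pos (hcen' y hy),
      dif_pos (Subgroup.mul_mem _ (hcen' x hx) (hcen' y hy)), ← map_add]
    rfl
  let σ : Γ → E := fun g => if g = 1 then 1 else mk (FreeGroup.of (g, false))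
  have hσ : ∀ g, f (σ g) = g := by
    intro g
    simp only [σ]
    split_ifs with h
    · rw [h, map_one]
    · rw [hfmk, fpr_of]
  have hσ1 : σ 1 = 1 := if_pos rfl
  have h1 := evw_section f hc σ hσ hσ1 φ hφ w hw
  rw [hnull _ (secCoc_isCoc2 f hc σ hσ hσ1 φ hφ)] at h1
  have h2 : surf (mapW σ w) = wb := by
    rw [hwb, ← surf_map]
    apply surf_congr f hc
    clear_value σ
    clear hw hnull hcon hwb hfw hcen hord a hzero hF F hφ φ h1 wb
    induction w with
    | nil => exact List.Forall₂.nil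
    | cons q w ih =>
      refine List.Forall₂.cons ⟨?_, ?_⟩ ih
      · change f (σ q.1) = f (mk (FreeGroup.of (q.1, false)))
        rw [hσ, hfmk, fpr_of]
      · change f (σ q.2) = f (mk (FreeGroup.of (q.2, true)))
        rw [hσ, hfmk, fpr_of]
  rw [h2] at h1
  have h3 : φ wb = 1 := by
    simp only [φ]
    rw [dif_pos hcen]
    exact hF ()
  rw [h3] at h1
  exact absurd h1 (by norm_num)

end Hopf

end Pool.Agent.Lib25.H2
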