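import Pool.Agent.Lib_helper25.H2.Det2

/-!
# Splitting the cocycle with a central idempotent
-/

set_option autoImplicit false
set_option linter.unusedSectionVars false

open Matrix Pool.Agent.WhK

namespace Pool.Agent.Lib25.H2

section Ring

variable {R : Type*} [Ring R]

/-- A central idempotent. -/
structure CI (s : R) : Prop where
  idem : s * s = s
  cent : ∀ x, s * x = x * s

theorem CI.compl {s : R} (h : CI s) : CI (1 - s) where
  idem := by
    have := h.idem
    rw [mul_sub, mul_one, sub_mul, one_mul, this, sub_self, sub_zero]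
  cent x := by rw [sub_mul, mul_sub, h.cent, one_mul, mul_one]

variable {ι : Type*} [Fintype ι] [DecidableEq ι]

/-- The scalar matrix. -/
def dg (s : R) : Matrix ι ι R := Matrix.diagonal fun _ => s

theorem dg_mul_apply (s : R) (X : Matrix ι ι R) (i j : ι) :
    ((dg s : Matrix ι ι R) * X) i j = s * X i j := by
  unfold dg
  rw [Matrix.diagonal_mul]

theorem dg_one_sub (s : R) : (dg (1 - s) : Matrix ι ι R) = 1 - dg s := by
  ext i j
  unfold dg
  rw [Matrix.sub_apply, Matrix.diagonal_apply, Matrix.diagonal_apply, Matrix.one_apply]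
  split_ifs <;> simp

theorem CI.dg {s : R} (h : CI s) : CI (H2.dg s : Matrix ι ι R) where
  idem := by
    ext i j
    rw [dg_mul_apply]
    unfold H2.dg
    rw [Matrix.diagonal_apply]
    split_ifs
    · exact h.idem
    · exact mul_zero _
  cent X := by
    ext i j
    rw [dg_mul_apply, h.cent]
    unfold H2.dg
    rw [Matrix.mul_diagonal]

/-- The matrix equal to `X` on the part of `s` and to `1` on the other part. -/
def fsU {s : R} (h : CI s) : (Matrix ι ι R)ˣ →* (Matrix ι ι R)ˣ where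
  toFun X :=
    { val := dg s * X.val + (1 - dg s)
      inv := dg s * X⁻¹.val + (1 - dg s)
      val_inv := by
        have h1 := (h.dg (ι := ι)).idem
        have h2 := (h.dg (ι := ι)).cent
        have h3 : X.val * X⁻¹.val = 1 := X.mul_inv
        calc ((dg s : Matrix ι ι R) * X.val + (1 - dg s)) * (dg s * X⁻¹.val + (1 - dg s))
            = (dg s * X.val) * (dg s * X⁻¹.val) + dg s * X.val * (1 - dg s) +
              (1 - dg s) * (dg s * X⁻¹.val) + (1 - dg s) * (1 - dg s) := by noncomm_ring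
          _ = (dg s * dg s) * (X.val * X⁻¹.val) + X.val * (dg s - dg s * dg s) +
              (dg s - dg s * dg s) * X⁻¹.val + (1 - dg s - dg s + dg s * dg s) := by
            rw [h2 X.val]
            have e1 : X.val * dg s * (dg s * X⁻¹.val) = dg s * dg s * (X.val * X⁻¹.val) := by
              rw [← h2 X.val, Matrix.mul_assoc, Matrix.mul_assoc, ← Matrix.mul_assoc X.val,
                ← h2 X.val, Matrix.mul_assoc]
            rw [e1]
            noncomm_ring
          _ = 1 := by
            rw [h1, h3, sub_self, mul_zero, zero_mul, mul_one]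
            abel
      inv_val := by
        have h1 := (h.dg (ι := ι)).idem
        have h2 := (h.dg (ι := ι)).cent
        have h3 : X⁻¹.val * X.val = 1 := X.inv_mul
        calc ((dg s : Matrix ι ι R) * X⁻¹.val + (1 - dg s)) * (dg s * X.val + (1 - dg s))
            = (dg s * X⁻¹.val) * (dg s * X.val) + dg s * X⁻¹.val * (1 - dg s) +
              (1 - dg s) * (dg s * X.val) + (1 - dg s) * (1 - dg s) := by noncomm_ring
          _ = (dg s * dg s) * (X⁻¹.val * X.val) + X⁻¹.val * (dg s - dg s * dg s) +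
              (dg s - dg s * dg s) * X.val + (1 - dg s - dg s + dg s * dg s) := by
            rw [h2 X⁻¹.val]
            have e1 : X⁻¹.val * dg s * (dg s * X.val) = dg s * dg s * (X⁻¹.val * X.val) := by
              rw [← h2 X⁻¹.val, Matrix.mul_assoc, Matrix.mul_assoc, ← Matrix.mul_assoc X⁻¹.val,
                ← h2 X⁻¹.val, Matrix.mul_assoc]
            rw [e1]
            noncomm_ring
          _ = 1 := by
            rw [h1, h3, sub_self, mul_zero, zero_mul, mul_one]
            abel }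
  map_one' := by
    ext1
    change dg s * 1 + (1 - dg s) = 1
    rw [mul_one]
    abel
  map_mul' X Y := by
    ext1
    have h1 := (h.dg (ι := ι)).idem
    have h2 := (h.dg (ι := ι)).cent
    change dg s * (X.val * Y.val) + (1 - dg s) =
      (dg s * X.val + (1 - dg s)) * (dg s * Y.val + (1 - dg s))
    have e1 : dg s * X.val * (dg s * Y.val) = dg s * (X.val * Y.val) := by
      rw [Matrix.mul_assoc, ← Matrix.mul_assoc X.val, ← h2 X.val, Matrix.mul_assoc,
        ← Matrix.mul_assoc (dg s) (dg s), h1]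
    have e2 : dg s * X.val * dg s = dg s * X.val := by
      rw [Matrix.mul_assoc, ← h2 X.val, ← Matrix.mul_assoc, h1]
    have e3 : dg s * (dg s * Y.val) = dg s * Y.val := by
      rw [← Matrix.mul_assoc, h1]
    simp only [mul_add, add_mul, e1, mul_sub, sub_mul, mul_one, one_mul, e2, e3, h1]
    abel

theorem fsU_val {s : R} (h : CI s) (X : (Matrix ι ι R)ˣ) :
    (fsU h X).val = dg s * X.val + (1 - dg s) := rfl

theorem dg_mul_fsU {s : R} (h : CI s) (X : (Matrix ι ι R)ˣ) :
    (dg s : Matrix ι ι R) * (fsU h X).val = dg s * X.val := by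
  rw [fsU_val, mul_add, ← Matrix.mul_assoc, (h.dg (ι := ι)).idem, mul_sub, mul_one,
    (h.dg (ι := ι)).idem, sub_self, add_zero]

theorem fsU_el {s : R} (h : CI s) {p q : ι} (hpq : p ≠ q) (t : R) :
    fsU h (el p q t) = el p q (s * t) := by
  ext1
  rw [fsU_val, el_val hpq, el_val hpq, mul_add, mul_one]
  have h1 : (dg s : Matrix ι ι R) * Matrix.single p q t = Matrix.single p q (s * t) := by
    ext i j
    rw [dg_mul_apply, Matrix.single_apply, Matrix.single_apply]
    split_ifs
    · rfl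
    · exact mul_zero s
  rw [h1]
  abel

theorem fsU_Dd_congr {s : R} (h : CI s) {p q : ι} (hpq : p ≠ q) {u v u' v' : R}
    (h1 : s * u = s * v) (h2 : s * u' = s * v') :
    fsU h (Dd p q u u') = fsU h (Dd p q v v') := by
  unfold Dd
  simp only [map_mul, fsU_el h hpq, fsU_el h hpq.symm, mul_neg, h1, h2]

/-- A matrix is determined by its two parts. -/
theorem eq_of_fsU {s : R} (h : CI s) {X Y : (Matrix ι ι R)ˣ} (h1 : fsU h X = fsU h Y)
    (h2 : fsU h.compl X = fsU h.compl Y) : X = Y := by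
  ext1
  have e1 := dg_mul_fsU h X
  have e2 := dg_mul_fsU h Y
  rw [h1, e2] at e1
  have e3 := dg_mul_fsU h.compl X
  have e4 := dg_mul_fsU h.compl Y
  rw [h2, e4, dg_one_sub] at e3
  have e5 : ∀ W : Matrix ι ι R, W = dg s * W + (1 - dg s) * W := by
    intro W
    rw [sub_mul, one_mul]
    abel
  rw [e5 X.val, e5 Y.val, e1, e3]

end Ring

section Split

variable {k : Type*} [CommRing k] {G : Type*} [Group G] {m : Type*} [Fintype m]
  [DecidableEq m] {p : ℕ} {L : G → G → G → ℤ} (H : GCo p L)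

include H

theorem Phi3_idem {D : Matrix m m (MonoidAlgebra k G)} (hD : CI D)
    (a0 a1 a2 : Matrix m m (MonoidAlgebra k G)) :
    Phi3 L (D * a0) a1 a2 = Phi3 L (D * a0) (D * a1) (D * a2) +
      (Phi3 L (D * (a0 * a1)) D a2 - Phi3 L (D * a0) D (a1 * a2) +
        Phi3 L (D * (a2 * a0)) D a1 - Phi3 L (D * (a2 * a0 * a1)) D D) := by
  have hi := hD.idem
  have hc := hD.cent
  have h1 := Phi3_cocycle H (D * a0) D a1 a2
  have h2 := Phi3_cocycle H (D * a0) (D * a1) D a2
  have h3 := Phi3_cocycle H (D * (a2 * a0)) a1 D D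
  have e1 : D * a0 * D = D * a0 := by rw [Matrix.mul_assoc, ← hc a0, ← Matrix.mul_assoc, hi]
  have e2 : a2 * (D * a0) = D * (a2 * a0) := by
    rw [← Matrix.mul_assoc, ← hc a2, Matrix.mul_assoc]
  have e3 : D * a0 * (D * a1) = D * (a0 * a1) := by
    rw [← Matrix.mul_assoc, e1, Matrix.mul_assoc]
  have e4 : D * a1 * D = D * a1 := by rw [Matrix.mul_assoc, ← hc a1, ← Matrix.mul_assoc, hi]
  have e5 : a1 * D = D * a1 := (hc a1).symm
  have e6 : D * (D * (a2 * a0)) = D * (a2 * a0) := by rw [← Matrix.mul_assoc, hi]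
  have e7 : D * (a2 * a0) * a1 = D * (a2 * a0 * a1) := Matrix.mul_assoc _ _ _
  rw [e1, e2] at h1
  rw [e3, e4, e2] at h2
  rw [e7, e5, hi, e6] at h3
  linear_combination h1 - h2 + h3

omit H in
/-- The part of the cocycle defined by a central idempotent. -/
noncomputable def Gs (L : G → G → G → ℤ) (s : MonoidAlgebra k G)
    (X Y : (Matrix m m (MonoidAlgebra k G))ˣ) : k :=
  Phi3 L ((dg s : Matrix m m (MonoidAlgebra k G)) *
    (((X * Y)⁻¹ : (Matrix m m (MonoidAlgebra k G))ˣ) :
    Matrix m m (MonoidAlgebra k G))) X.val Y.val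

omit H in
/-- The part of the cocycle defined by a central idempotent, second form. -/
noncomputable def Fs (L : G → G → G → ℤ) (s : MonoidAlgebra k G)
    (X Y : (Matrix m m (MonoidAlgebra k G))ˣ) : k :=
  Phi3 L ((dg s : Matrix m m (MonoidAlgebra k G)) *
    (((X * Y)⁻¹ : (Matrix m m (MonoidAlgebra k G))ˣ) :
    Matrix m m (MonoidAlgebra k G))) ((dg s : Matrix m m (MonoidAlgebra k G)) * X.val)
    ((dg s : Matrix m m (MonoidAlgebra k G)) * Y.val)

omit H in
/-- The correction term. -/
noncomputable def vt (L : G → G → G → ℤ) (s : MonoidAlgebra k G)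
    (X : (Matrix m m (MonoidAlgebra k G))ˣ) : k :=
  Phi3 L ((dg s : Matrix m m (MonoidAlgebra k G)) *
      ((X⁻¹ : (Matrix m m (MonoidAlgebra k G))ˣ) : Matrix m m (MonoidAlgebra k G)))
    (dg s : Matrix m m (MonoidAlgebra k G)) X.val -
    Phi3 L (dg s : Matrix m m (MonoidAlgebra k G)) (dg s : Matrix m m (MonoidAlgebra k G))
      (dg s : Matrix m m (MonoidAlgebra k G))

theorem Gs_eq {s : MonoidAlgebra k G} (hs : CI s) (X Y : (Matrix m m (MonoidAlgebra k G))ˣ) :
    Gs L s X Y = Fs L s X Y + (vt L s X + vt L s Y - vt L s (X * Y)) := by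
  have h := Phi3_idem H (hs.dg (ι := m)) (((X * Y)⁻¹ : (Matrix m m (MonoidAlgebra k G))ˣ) :
    Matrix m m (MonoidAlgebra k G)) X.val Y.val
  have e1 : (((X * Y)⁻¹ : (Matrix m m (MonoidAlgebra k G))ˣ) : Matrix m m (MonoidAlgebra k G)) *
      X.val = ((Y⁻¹ : (Matrix m m (MonoidAlgebra k G))ˣ) : Matrix m m (MonoidAlgebra k G)) := by
    rw [← Units.val_mul]
    congr 1
    group
  have e2 : Y.val * (((X * Y)⁻¹ : (Matrix m m (MonoidAlgebra k G))ˣ) :
      Matrix m m (MonoidAlgebra k G)) =
      ((X⁻¹ : (Matrix m m (MonoidAlgebra k G))ˣ) : Matrix m m (MonoidAlgebra k G)) := by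
    rw [← Units.val_mul]
    congr 1
    group
  have e3 : ((X⁻¹ : (Matrix m m (MonoidAlgebra k G))ˣ) : Matrix m m (MonoidAlgebra k G)) *
      X.val = 1 := X.inv_mul
  rw [e1, e2, e3, mul_one, ← Units.val_mul] at h
  unfold Gs Fs vt
  rw [h]
  ring

theorem evw_Gs {s : MonoidAlgebra k G} (hs : CI s)
    (v : List ((Matrix m m (MonoidAlgebra k G))ˣ × (Matrix m m (MonoidAlgebra k G))ˣ)) :
    evw (Gs L s) v = evw (Fs L s) v +
      (vt L s (1 : (Matrix m m (MonoidAlgebra k G))ˣ) - vt L s (surf v)) := by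
  have e : (Gs L s : (Matrix m m (MonoidAlgebra k G))ˣ → _ → k) =
      fun X Y => Fs L s X Y + (vt L s X + vt L s Y - vt L s (X * Y)) := by
    funext X Y
    exact Gs_eq H hs X Y
  rw [e, evw_add, evw_coboundary]

theorem cL_split (s : MonoidAlgebra k G) (X Y : (Matrix m m (MonoidAlgebra k G))ˣ) :
    cL L X Y = Gs L s X Y + Gs L (1 - s) X Y := by
  unfold cL Gs
  rw [← Phi3_add_left, ← add_mul, dg_one_sub]
  congr 1
  rw [add_sub_cancel, one_mul]

theorem evw_cL_split {s : MonoidAlgebra k G} (hs : CI s)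
    (v : List ((Matrix m m (MonoidAlgebra k G))ˣ × (Matrix m m (MonoidAlgebra k G))ˣ)) :
    evw (cL L) v = evw (Fs L s) v + evw (Fs L (1 - s)) v +
      (vt L s (1 : (Matrix m m (MonoidAlgebra k G))ˣ) - vt L s (surf v)) +
      (vt L (1 - s) (1 : (Matrix m m (MonoidAlgebra k G))ˣ) - vt L (1 - s) (surf v)) := by
  have e : (cL L : (Matrix m m (MonoidAlgebra k G))ˣ → _ → k) =
      fun X Y => Gs L s X Y + Gs L (1 - s) X Y := by
    funext X Y
    exact cL_split H s X Y
  rw [e, evw_add, evw_Gs H hs, evw_Gs H hs.compl]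
  ring

omit H in
theorem Fs_fsU {s : MonoidAlgebra k G} (hs : CI s) (X Y : (Matrix m m (MonoidAlgebra k G))ˣ) :
    Fs L s (fsU hs X) (fsU hs Y) = Fs L s X Y := by
  unfold Fs
  rw [dg_mul_fsU, dg_mul_fsU, ← map_mul, ← map_inv, dg_mul_fsU]

omit H in
theorem evw_Fs_fsU {s : MonoidAlgebra k G} (hs : CI s)
    (v : List ((Matrix m m (MonoidAlgebra k G))ˣ × (Matrix m m (MonoidAlgebra k G))ˣ)) :
    evw (Fs L s) (mapW (fsU hs) v) = evw (Fs L s) v := by
  rw [evw_map]
  simp only [Fs_fsU]

end Split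

end Pool.Agent.Lib25.H2
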