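import Pool.Agent.Lib_helper25.H2.Loc

/-!
# The classes attached to closed words
-/

set_option autoImplicit false
set_option linter.unusedSectionVars false

open Matrix Pool.Agent.WhK

namespace Pool.Agent.Lib25.H2

universe u

section TcComp

variable {S : Type u} {T T1 : Type*} [Ring S] [Ring T] [Ring T1] {ι : Type*} [Fintype ι]
  [DecidableEq ι]

theorem tc_comp {i : S →+* T} (j : T →+* T1) (hi : Function.Injective i)
    (hji : Function.Injective (j.comp i)) {X : (Matrix ι ι T)ˣ} (hX : Int i X) :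
    Int (j.comp i) (mapU j X) ∧ tc (j.comp i) (mapU j X) = tc i X := by
  obtain ⟨Y, rfl⟩ := hX
  rw [mapU_comp, tc_mapU hji, tc_mapU hi]
  exact ⟨⟨Y, rfl⟩, rfl⟩

end TcComp

section NodeZ

variable {Z : Type u} [Group Z]

/-- The coefficient homomorphism `ℤ[Z] → ℚ[Z]`. -/
noncomputable abbrev cq (Z : Type*) [Group Z] : MonoidAlgebra ℤ Z →+* MonoidAlgebra ℚ Z := cg ℚ Z

theorem cq_inj : Function.Injective (cq Z) := mapRingHom_injective'' (Z := Z)

/-- The conditions on an element `a` of `ℚ[Z]`. -/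
structure NodeZ (a : MonoidAlgebra ℚ Z) : Prop where
  cent : ∀ x, a * x = x * a
  int1 : ∃ b, cq Z b = a - a * a
  int2 : ∃ c, cq Z c = a * (a - a * a)

variable {a : MonoidAlgebra ℚ Z} (H : NodeZ a)

/-- The ring generated by `ℤ[Z]` and `a`. -/
noncomputable def TT (H : NodeZ a) : Subring (MonoidAlgebra ℚ Z) where
  carrier := {x | ∃ s s', x = cq Z s + a * cq Z s'}
  one_mem' := ⟨1, 0, by rw [map_one, map_zero, mul_zero, add_zero]⟩
  zero_mem' := ⟨0, 0, by rw [map_zero, mul_zero, add_zero]⟩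
  add_mem' := by
    rintro x y ⟨s, s', rfl⟩ ⟨t, t', rfl⟩
    exact ⟨s + t, s' + t', by rw [map_add, map_add, mul_add]; abel⟩
  neg_mem' := by
    rintro x ⟨s, s', rfl⟩
    exact ⟨-s, -s', by rw [map_neg, map_neg, mul_neg]; abel⟩
  mul_mem' := by
    rintro x y ⟨s, s', rfl⟩ ⟨t, t', rfl⟩
    obtain ⟨b, hb⟩ := H.int1
    refine ⟨s * t - b * (s' * t'), s * t' + s' * t + s' * t', ?_⟩
    rw [map_sub, map_add, map_add, map_mul, map_mul, map_mul, map_mul, map_mul, hb]
    have h1 := H.cent (cq Z s)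
    have h2 := H.cent (cq Z s')
    have e1 : cq Z s * (a * cq Z t') = a * (cq Z s * cq Z t') := by
      rw [← mul_assoc, ← h1, mul_assoc]
    have e2 : a * cq Z s' * (a * cq Z t') = a * a * (cq Z s' * cq Z t') := by
      rw [mul_assoc, ← mul_assoc (cq Z s'), ← h2, mul_assoc, mul_assoc]
    rw [add_mul, mul_add, mul_add, e1, e2]
    noncomm_ring

/-- The inclusion of `ℤ[Z]`. -/
noncomputable def iT (H : NodeZ a) : MonoidAlgebra ℤ Z →+* TT H :=
  (cq Z).codRestrict (TT H) fun s => ⟨s, 0, by rw [map_zero, mul_zero, add_zero]⟩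

/-- The element `a`. -/
noncomputable def aT (H : NodeZ a) : TT H := ⟨a, 0, 1, by
  rw [map_zero, map_one, zero_add, mul_one]⟩

/-- The element `a - a ^ 2`. -/
noncomputable def bT (H : NodeZ a) : TT H := aT H - aT H * aT H

theorem aT_cent (x : TT H) : aT H * x = x * aT H := Subtype.ext (H.cent x.1)

theorem bT_cent (x : TT H) : bT H * x = x * bT H := by
  unfold bT
  have h1 : aT H * aT H * x = x * (aT H * aT H) := by
    rw [mul_assoc, aT_cent H x, ← mul_assoc, aT_cent H x, mul_assoc]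
  rw [sub_mul, mul_sub, aT_cent, h1]

instance (H : NodeZ a) : (Ideal.span {bT H} : Ideal (TT H)).IsTwoSided where
  mul_mem_of_left {x} y hx := by
    rw [Ideal.mem_span_singleton'] at hx ⊢
    obtain ⟨c, rfl⟩ := hx
    exact ⟨c * y, by rw [mul_assoc, mul_assoc, bT_cent]⟩

/-- The projection. -/
noncomputable def piT (H : NodeZ a) : TT H →+* TT H ⧸ (Ideal.span {bT H} : Ideal (TT H)) :=
  Ideal.Quotient.mk _

theorem iT_val (s : MonoidAlgebra ℤ Z) : ((iT H s : TT H) : MonoidAlgebra ℚ Z) = cq Z s := rfl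

theorem subtype_comp_iT : (TT H).subtype.comp (iT H) = cq Z := RingHom.ext fun _ => rfl

theorem iT_inj : Function.Injective (iT H) := by
  intro x y hxy
  exact cq_inj (congrArg Subtype.val hxy)

theorem excT : ExcD (iT H) (piT H) (aT H) where
  inj := iT_inj H
  ker x hx := by
    unfold piT at hx
    rw [Ideal.Quotient.eq_zero_iff_mem, Ideal.mem_span_singleton'] at hx
    obtain ⟨⟨_, s, s', rfl⟩, rfl⟩ := hx
    obtain ⟨b, hb⟩ := H.int1
    obtain ⟨c, hc⟩ := H.int2
    refine ⟨s * b + s' * c, Subtype.ext ?_⟩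
    change cq Z (s * b + s' * c) = (cq Z s + a * cq Z s') * (a - a * a)
    rw [map_add, map_mul, map_mul, hb, hc, add_mul, H.cent (cq Z s'), mul_assoc]
  cent := aT_cent H
  gen x := by
    obtain ⟨_, s, s', rfl⟩ := x
    exact ⟨s, s', Subtype.ext rfl⟩
  idem := by
    rw [← map_mul, ← sub_eq_zero, ← map_sub, piT, Ideal.Quotient.eq_zero_iff_mem,
      Ideal.mem_span_singleton']
    refine ⟨-1, ?_⟩
    unfold bT
    rw [neg_mul, one_mul, neg_sub]

/-- The homomorphism from the group. -/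
noncomputable def nuT (H : NodeZ a) : Z →* TT H :=
  ((iT H : MonoidAlgebra ℤ Z →* TT H)).comp (MonoidAlgebra.of ℤ Z)

theorem mapU_XW_T (w : List (Z × Z)) :
    mapU (TT H).subtype (XW (nuT H) (aT H) w) = XW (MonoidAlgebra.of ℚ Z) a w := by
  rw [mapU_XW']
  congr 1
  apply MonoidHom.ext
  intro g
  change cq Z (MonoidAlgebra.single g 1) = MonoidAlgebra.single g 1
  rw [MonoidAlgebra.mapRingHom_single, map_one]

/-- The class attached to a word. -/
noncomputable def xi (a : MonoidAlgebra ℚ Z) (w : List (Z × Z)) : K1 (MonoidAlgebra ℤ Z) :=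
  tc (cq Z) (XW (MonoidAlgebra.of ℚ Z) a w)

include H

theorem int_T {w : List (Z × Z)} (hw : surf w = 1) : Int (iT H) (XW (nuT H) (aT H) w) :=
  (excT H).int_of_one (mapU_XW_one (excT H) (nuT H) hw)

theorem int_xi {w : List (Z × Z)} (hw : surf w = 1) :
    Int (cq Z) (XW (MonoidAlgebra.of ℚ Z) a w) := by
  obtain ⟨Y, hY⟩ := int_T H hw
  refine ⟨Y, ?_⟩
  rw [← mapU_XW_T H, ← hY, mapU_comp, subtype_comp_iT]

theorem xi_eq {w : List (Z × Z)} (hw : surf w = 1) :
    xi a w = tc (iT H) (XW (nuT H) (aT H) w) := by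
  obtain ⟨Y, hY⟩ := int_T H hw
  unfold xi
  rw [← mapU_XW_T H, ← hY, mapU_comp, subtype_comp_iT, tc_mapU cq_inj, tc_mapU (iT_inj H)]

theorem xi_append {w w' : List (Z × Z)} (hw : surf w = 1) (hw' : surf w' = 1) :
    mt (xi a (w ++ w')) = mt (xi a w) + mt (xi a w') := by
  rw [xi_eq H hw, xi_eq H hw', xi_eq H (by rw [surf_append, hw, hw', mul_one])]
  exact tt_XW_append (excT H) (nuT H) hw hw'

theorem xi_null {w : List (Z × Z)} (hw : surf w = 1)
    (hnull : ∀ lam : Z → Z → ℚ, IsCoc2 lam → evw lam w = 0) : mt (xi a w) = 0 := by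
  rw [xi_eq H hw]
  exact tt_XW_null (excT H) (nuT H) w hw hnull

end NodeZ

end Pool.Agent.Lib25.H2
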