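import Pool.Agent.Lib_helper25.H2.Base
import Pool.Agent.Lib_helper44.Wh.KMap
import Pool.Agent.Lib_helper25.H2.NodeZ

/-!
# Functoriality of `K₁` for rings in different universes
-/

set_option autoImplicit false
set_option linter.unusedSectionVars false

open Matrix Pool.Agent.WhK

namespace Pool.Agent.Lib25.H2

universe u v w

section KU

variable {R : Type u} {S : Type v} {T : Type w} [Ring R] [Ring S] [Ring T]

theorem k1m_mk (f : R →+* S) (n : ℕ) (X : GLn R n) :
    k1m f (K1.mk n X) = K1.mk n (glMap f n X) := by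
  show QuotientAddGroup.lift _ _ _ (QuotientAddGroup.mk _) = _
  rw [QuotientAddGroup.lift_mk]
  exact FreeAbelianGroup.lift_apply_of _ _

theorem k1m_cls {ι : Type*} [Fintype ι] [DecidableEq ι] (f : R →+* S)
    (X : (Matrix ι ι R)ˣ) : k1m f (cls X) = cls (mapU f X) := by
  unfold cls
  exact k1m_mk f _ _

theorem k1m_comp (g : S →+* T) (f : R →+* S) (x : K1 R) :
    k1m g (k1m f x) = k1m (g.comp f) x := by
  obtain ⟨n, X, rfl⟩ := K1.exists_mk x
  rw [k1m_mk, k1m_mk, k1m_mk]
  rfl

end KU

section Gp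

variable {A : Type u} {B : Type v} {C : Type w} [Group A] [Group B] [Group C]

/-- The ring homomorphism `k[A] → k[B]` induced by a group homomorphism. -/
noncomputable abbrev rm (k : Type*) [CommRing k] {A : Type*} {B : Type*} [Group A] [Group B]
    (f : A →* B) : MonoidAlgebra k A →+* MonoidAlgebra k B := MonoidAlgebra.mapDomainRingHom k f

theorem rm_single (k : Type*) [CommRing k] (f : A →* B) (a : A) (r : k) :
    rm k f (MonoidAlgebra.single a r) = MonoidAlgebra.single (f a) r := by
  unfold rm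
  rw [MonoidAlgebra.mapDomainRingHom_apply, MonoidAlgebra.mapDomain_single]

theorem rm_ext {k : Type*} [CommRing k] {R : Type*} [Ring R] {φ ψ : MonoidAlgebra k A →+* R}
    (h : ∀ a r, φ (MonoidAlgebra.single a r) = ψ (MonoidAlgebra.single a r)) : φ = ψ := by
  refine RingHom.ext fun x => ?_
  induction x using MonoidAlgebra.induction_linear with
  | zero => rw [map_zero, map_zero]
  | add x y hx hy => rw [map_add, map_add, hx, hy]
  | single g r => exact h g r

theorem rm_comp (k : Type*) [CommRing k] (g : B →* C) (f : A →* B) :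
    (rm k g).comp (rm k f) = rm k (g.comp f) :=
  rm_ext fun a r => by
    rw [RingHom.comp_apply, rm_single, rm_single, rm_single]
    rfl

theorem rm_mapRingHom {k k' : Type*} [CommRing k] [CommRing k'] (i : k →+* k') (f : A →* B) :
    (rm k' f).comp (MonoidAlgebra.mapRingHom A i) =
      (MonoidAlgebra.mapRingHom B i).comp (rm k f) :=
  rm_ext fun a r => by
    rw [RingHom.comp_apply, RingHom.comp_apply, rm_single, MonoidAlgebra.mapRingHom_single,
      MonoidAlgebra.mapRingHom_single, rm_single]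

theorem rm_mapRingHom_apply {k k' : Type*} [CommRing k] [CommRing k'] (i : k →+* k') (f : A →* B)
    (x : MonoidAlgebra k A) :
    rm k' f (MonoidAlgebra.mapRingHom A i x) = MonoidAlgebra.mapRingHom B i (rm k f x) :=
  DFunLike.congr_fun (rm_mapRingHom i f) x

theorem mapRingHom_comp' {k k' k'' : Type*} [CommRing k] [CommRing k'] [CommRing k'']
    (i : k →+* k') (j : k' →+* k'') :
    (MonoidAlgebra.mapRingHom A j).comp (MonoidAlgebra.mapRingHom A i) =
      MonoidAlgebra.mapRingHom A (j.comp i) :=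
  rm_ext fun a r => by
    rw [RingHom.comp_apply, MonoidAlgebra.mapRingHom_single, MonoidAlgebra.mapRingHom_single,
      MonoidAlgebra.mapRingHom_single]
    rfl

/-- The map `K₁(ℤ[A]) → K₁(ℤ[B])` induced by a group homomorphism. -/
noncomputable def k1g (f : A →* B) : K1 (MonoidAlgebra ℤ A) →+ K1 (MonoidAlgebra ℤ B) :=
  k1m (rm ℤ f)

theorem k1g_comp (g : B →* C) (f : A →* B) (x : K1 (MonoidAlgebra ℤ A)) :
    k1g g (k1g f x) = k1g (g.comp f) x := by
  unfold k1g
  rw [k1m_comp, rm_comp]

/-- Inner automorphisms act trivially. -/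
theorem k1g_conj (g : A) (x : K1 (MonoidAlgebra ℤ A)) :
    k1g (MulAut.conj g).toMonoidHom x = x := by
  obtain ⟨n, X, rfl⟩ := K1.exists_mk x
  unfold k1g
  rw [k1m_mk]
  let D : (Matrix (Fin n) (Fin n) (MonoidAlgebra ℤ A))ˣ :=
    Units.map (Matrix.scalar (Fin n)).toMonoidHom (gUnit g)
  let X' : (Matrix (Fin n) (Fin n) (MonoidAlgebra ℤ A))ˣ := X
  have h1 : glMap (rm ℤ (MulAut.conj g).toMonoidHom) n X = D * X' * D⁻¹ := by
    refine Units.ext ?_
    have h2 : ∀ x : MonoidAlgebra ℤ A, rm ℤ (MulAut.conj g).toMonoidHom x =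
        MonoidAlgebra.single g 1 * x * MonoidAlgebra.single g⁻¹ 1 := by
      intro x
      induction x using MonoidAlgebra.induction_linear with
      | zero => simp
      | add x y hx hy => rw [map_add, hx, hy, mul_add, add_mul]
      | single c r =>
        rw [rm_single]
        simp only [MonoidAlgebra.single_mul_single, one_mul, mul_one]
        rfl
    show X.val.map (rm ℤ (MulAut.conj g).toMonoidHom) =
      Matrix.scalar (Fin n) (MonoidAlgebra.single g 1) * X.val *
        Matrix.scalar (Fin n) (MonoidAlgebra.single g⁻¹ 1)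
    refine Matrix.ext fun i j => ?_
    rw [Matrix.map_apply, h2, Matrix.scalar_apply, Matrix.scalar_apply, Matrix.mul_diagonal,
      Matrix.diagonal_mul]
  exact (congrArg (K1.mk n) h1).trans (K1.mk_conj n D X)

/-- Naturality of the classes. -/
theorem xi_map (f : A →* B) (a : MonoidAlgebra ℚ A) {w : List (A × A)}
    (hw : Int (cq A) (XW (MonoidAlgebra.of ℚ A) a w)) :
    Int (cq B) (XW (MonoidAlgebra.of ℚ B) (rm ℚ f a) (mapW f w)) ∧
    xi (rm ℚ f a) (mapW f w) = k1g f (xi a w) := by
  obtain ⟨X, hX⟩ := hw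
  have h1 : mapU (cq B) (mapU (rm ℤ f) X) =
      XW (MonoidAlgebra.of ℚ B) (rm ℚ f a) (mapW f w) := by
    rw [mapU_comp, ← rm_mapRingHom, ← mapU_comp, hX, mapU_XW', XW_mapW]
    congr 1
    apply MonoidHom.ext
    intro g
    change rm ℚ f (MonoidAlgebra.single g 1) = MonoidAlgebra.single (f g) 1
    rw [rm_single]
  refine ⟨⟨_, h1⟩, ?_⟩
  unfold xi k1g
  rw [← h1, ← hX, tc_mapU cq_inj, tc_mapU cq_inj, k1m_cls]

end Gp

end Pool.Agent.Lib25.H2
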