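import Pool.Agent.Lib_helper25.H2.Ev

/-!
# Surface groups and closed words
-/

set_option autoImplicit false
set_option linter.unusedSectionVars false

namespace Pool.Agent.Lib25.H2

/-- The quotient map. -/
def SG.mk (g : ℕ) : FreeGroup (Fin g × Bool) →* SG g := PresentedGroup.mk _

theorem SG.mk_of {g : ℕ} (x : Fin g × Bool) : SG.mk g (FreeGroup.of x) = SG.of x := rfl

theorem mapW_ofFn {Γ Δ : Type*} (f : Γ → Δ) {g : ℕ} (u : Fin g → Γ × Γ) :
    mapW f (List.ofFn u) = List.ofFn fun i => (f (u i).1, f (u i).2) := by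
  unfold mapW
  rw [List.map_ofFn]
  rfl

theorem mapW_sgf (g : ℕ) : mapW (SG.mk g) (sgf g) = sgw g := mapW_ofFn _ _

theorem surf_sgw (g : ℕ) : surf (sgw g) = 1 := by
  rw [← mapW_sgf, surf_map]
  exact PresentedGroup.one_of_mem (Set.mem_singleton _)

theorem length_sgw (g : ℕ) : (sgw g).length = g := List.length_ofFn

theorem SG.hom_ext {G : Type*} [Group G] {g : ℕ} {σ τ : SG g →* G}
    (h : mapW σ (sgw g) = mapW τ (sgw g)) : σ = τ := by
  apply PresentedGroup.ext
  rintro ⟨i, b⟩
  unfold sgw at h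
  rw [mapW_ofFn, mapW_ofFn] at h
  have h1 := congrFun (List.ofFn_injective h) i
  cases b
  · exact congrArg Prod.fst h1
  · exact congrArg Prod.snd h1

theorem exists_SG_hom {G : Type*} [Group G] (w : List (G × G)) (hw : surf w = 1) :
    ∃ σ : SG w.length →* G, mapW σ (sgw w.length) = w := by
  let f : Fin w.length × Bool → G := fun x => if x.2 then (w.get x.1).2 else (w.get x.1).1
  have h1 : mapW (FreeGroup.lift f) (sgf w.length) = w := by
    unfold sgf
    rw [mapW_ofFn]
    conv_rhs => rw [← List.ofFn_get w]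
    congr 1
    funext i
    rw [FreeGroup.lift_apply_of, FreeGroup.lift_apply_of]
    rfl
  have h2 : ∀ r ∈ ({surf (sgf w.length)} : Set (FreeGroup (Fin w.length × Bool))),
      FreeGroup.lift f r = 1 := by
    intro r hr
    rw [Set.mem_singleton_iff.1 hr, ← surf_map, h1, hw]
  refine ⟨PresentedGroup.toGroup h2, ?_⟩
  conv_rhs => rw [← h1]
  unfold sgw sgf
  rw [mapW_ofFn, mapW_ofFn]
  congr 1

end Pool.Agent.Lib25.H2
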