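import Pool.Agent.Lib_helper25.H2.Theta2
import Pool.Agent.Lib_helper25.H2.SGrp

/-!
# Universal classes in `K₁(ℤ[C_n × Σ_g])`
-/

set_option autoImplicit false
set_option linter.unusedSectionVars false

open Matrix Pool.Agent.WhK

namespace Pool.Agent.Lib25.H2

universe u v

section Z2

variable {G : Type*} [Group G] {k : Type*} [AddCommGroup k]

theorem isZ2_iff {h : G} {lam : G → G → ℤ} : IsZ2 h lam ↔ IsCC h lam :=
  ⟨fun H => ⟨H.coc, H.one_left, H.one_right⟩, fun H => ⟨H.coc, H.one_left, H.one_right⟩⟩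

theorem null_lift {h : G} {w : List (Subgroup.centralizer {h} × Subgroup.centralizer {h})}
    (hw : Null h (mapW (Subgroup.centralizer {h}).subtype w))
    (lam : Subgroup.centralizer {h} → Subgroup.centralizer {h} → ℚ) (hl : IsCoc2 lam) :
    evw lam w = 0 := by
  classical
  let lam' : G → G → ℚ := fun x y =>
    if hx : x ∈ Subgroup.centralizer {h} ∧ y ∈ Subgroup.centralizer {h} then
      lam ⟨x, hx.1⟩ ⟨y, hx.2⟩ else 0
  have h0 : ∀ (x y : G) (hx : x ∈ Subgroup.centralizer {h}) (hy : y ∈ Subgroup.centralizer {h}),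
      lam' x y = lam ⟨x, hx⟩ ⟨y, hy⟩ := fun x y hx hy => dif_pos ⟨hx, hy⟩
  have h1 : IsZ2 h lam' := by
    refine ⟨fun x y z hx hy hz => ?_, fun x hx => ?_, fun x hx => ?_⟩
    · rw [← mem_cen] at hx hy hz
      rw [h0 _ _ hx hy, h0 _ _ (Subgroup.mul_mem _ hx hy) hz, h0 _ _ hy hz,
        h0 _ _ hx (Subgroup.mul_mem _ hy hz)]
      exact hl.coc ⟨x, hx⟩ ⟨y, hy⟩ ⟨z, hz⟩
    · rw [← mem_cen] at hx
      rw [h0 _ _ (Subgroup.one_mem _) hx]
      exact hl.one_left _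
    · rw [← mem_cen] at hx
      rw [h0 _ _ hx (Subgroup.one_mem _)]
      exact hl.one_right _
  have h2 := hw lam' h1
  rw [evw_lift] at h2
  rw [← h2]
  congr 1
  funext x y
  exact (h0 _ _ x.2 y.2).symm

end Z2

theorem mt_map_zero {A B : Type*} [AddCommGroup A] [AddCommGroup B] (f : A →+ B) {x : A}
    (hx : mt x = 0) : mt (f x) = 0 := by
  obtain ⟨n, hn, h⟩ := mt_eq_zero.1 hx
  exact mt_eq_zero.2 ⟨n, hn, by rw [← map_nsmul, h, map_zero]⟩

theorem mt_map_eq {A B : Type*} [AddCommGroup A] [AddCommGroup B] (f : A →+ B) {x y : A}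
    (hx : mt x = mt y) : mt (f x) = mt (f y) := by
  rw [← sub_eq_zero, ← map_sub, ← map_sub]
  apply mt_map_zero
  rw [map_sub, hx, sub_self]

section Kw

variable {C : Type} [CommGroup C] [Fintype C] {J : Type} [Fintype J]
  (a : J → MonoidAlgebra ℚ C) (M : J → ℤ)

/-- The class attached to a word. -/
noncomputable def kw {A : Type u} [Group A] (ψ : C →* A) (w : List (A × A)) :
    K1 (MonoidAlgebra ℤ A) := ∑ i, M i • xi (rm ℚ ψ (a i)) w

variable {a M} {p : ℕ} [hp : Fact p.Prime] {e : J → MonoidAlgebra ℚ_[p] C}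
  (H : ∀ i, Node p (a i) (e i))

include H

theorem kw_map {A : Type u} {B : Type v} [Group A] [Group B] (f : A →* B) (ψ : C →* A)
    (hψ : ∀ c z, Commute (ψ c) z) {w : List (A × A)} (hw : surf w = 1) :
    k1g f (kw a M ψ w) = kw a M (f.comp ψ) (mapW f w) := by
  unfold kw
  rw [map_sum]
  refine Finset.sum_congr rfl fun i _ => ?_
  rw [map_zsmul, ← (xi_map f (rm ℚ ψ (a i)) (int_xi ((H i).nodeZ ψ hψ) hw)).2]
  congr 2
  exact DFunLike.congr_fun (rm_comp ℚ f ψ) (a i)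

theorem kw_append {A : Type u} [Group A] (ψ : C →* A)
    (hψ : ∀ c z, Commute (ψ c) z) {w w' : List (A × A)} (hw : surf w = 1) (hw' : surf w' = 1) :
    mt (kw a M ψ (w ++ w')) = mt (kw a M ψ w) + mt (kw a M ψ w') := by
  unfold kw
  rw [map_sum, map_sum, map_sum, ← Finset.sum_add_distrib]
  refine Finset.sum_congr rfl fun i _ => ?_
  rw [map_zsmul, map_zsmul, map_zsmul, xi_append ((H i).nodeZ ψ hψ) hw hw', smul_add]

theorem kw_null {A : Type u} [Group A] (ψ : C →* A)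
    (hψ : ∀ c z, Commute (ψ c) z) {w : List (A × A)} (hw : surf w = 1)
    (hnull : ∀ lam : A → A → ℚ, IsCoc2 lam → evw lam w = 0) : mt (kw a M ψ w) = 0 := by
  unfold kw
  rw [map_sum]
  refine Finset.sum_eq_zero fun i _ => ?_
  rw [map_zsmul, xi_null ((H i).nodeZ ψ hψ) hw hnull, smul_zero]

theorem kw_triv {Z G : Type u} [Group Z] [Group G] (ι : Z →* G) (hι : Function.Injective ι)
    (ψ : C →* Z) (hψ : ∀ c z, Commute (ψ c) z) (w : List (Z × Z)) (hw : surf w = 1) :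
    ∃ W : ∀ (q : ℕ) [Fact q.Prime], Pt2 G → ℚ_[q],
      Triv1 (kw a M (ι.comp ψ) (mapW ι w)) W ∧
      (∀ x, W p x = ∑ c : C, (∑ i, (M i : ℚ_[p]) • e i).coeff c *
        ((mu2 x.1.1 x.1.2 (mapW ι w) (ι (ψ c)) : ℤ) : ℚ_[p])) ∧
      ∀ (q : ℕ) [Fact q.Prime], q ≠ p → ∀ x, W q x = 0 := by
  choose W hW1 hW2 hW3 using fun i => (H i).triv ι hι ψ hψ w hw
  refine ⟨fun q _ x => ∑ i, (M i : ℚ_[q]) * W i q x, ?_, fun x => ?_, fun q _ hq x => ?_⟩
  · exact Triv1.sum Finset.univ fun i _ => (hW1 i).zsmul (M i)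
  · change ∑ i, (M i : ℚ_[p]) * W i p x = _
    rw [Finset.sum_congr rfl fun i _ => by rw [hW2 i x, Finset.mul_sum], Finset.sum_comm]
    refine Finset.sum_congr rfl fun c _ => ?_
    rw [MonoidAlgebra.coeff_sum, Finset.sum_apply', Finset.sum_mul]
    refine Finset.sum_congr rfl fun i _ => ?_
    rw [MonoidAlgebra.coeff_smul_apply, smul_eq_mul]
    ring
  · refine Finset.sum_eq_zero fun i _ => ?_
    rw [hW3 i q hq x, mul_zero]

end Kw

section Cn

variable {n : ℕ} [NeZero n]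

theorem gW_eq (n g : ℕ) : gW n g = mapW (MonoidHom.inr (Multiplicative (ZMod n)) (SG g)) (sgw g) :=
  rfl

theorem surf_gW (n g : ℕ) : surf (gW n g) = 1 := by
  rw [gW_eq, surf_map, surf_sgw, map_one]

theorem surf_map_gW {n g : ℕ} {G : Type*} [Group G] (φ : CS n g →* G) :
    surf (mapW φ (gW n g)) = 1 := by
  rw [surf_map, surf_gW, map_one]

theorem psi_val {G : Type*} [Group G] (ψ : Multiplicative (ZMod n) →* G)
    (c : Multiplicative (ZMod n)) :
    ψ c = ψ (Multiplicative.ofAdd 1) ^ (Multiplicative.toAdd c).val := by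
  have h1 := ofAdd_eq_pow n (Multiplicative.toAdd c)
  rw [ofAdd_toAdd] at h1
  conv_lhs => rw [h1, map_pow]

theorem exists_lift_psi {G : Type*} [Group G] (ψ : Multiplicative (ZMod n) →* G) :
    ∃ ψ' : Multiplicative (ZMod n) →* Subgroup.centralizer {ψ (Multiplicative.ofAdd 1)},
      (Subgroup.centralizer {ψ (Multiplicative.ofAdd 1)}).subtype.comp ψ' = ψ ∧
      ∀ c z, Commute (ψ' c) z := by
  have h1 : ∀ c, ψ c ∈ Subgroup.centralizer {ψ (Multiplicative.ofAdd 1)} := by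
    intro c
    rw [mem_cen, psi_val ψ c]
    exact (Commute.refl _).pow_left _
  refine ⟨ψ.codRestrict _ h1, ?_, ?_⟩
  · ext c
    rfl
  · intro c z
    apply Subtype.ext
    change ψ c * z = z * ψ c
    rw [psi_val ψ c]
    exact (mem_cen.1 z.2).symm.pow_left _

theorem CW_gW {g : ℕ} {G : Type*} [Group G] (φ : CS n g →* G) :
    CW (φ (gH n g)) (mapW φ (gW n g)) := by
  intro q hq
  unfold gW at hq
  rw [mapW_mapW] at hq
  unfold mapW at hq
  rw [List.mem_map] at hq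
  obtain ⟨r, -, rfl⟩ := hq
  constructor
  · change φ (1, r.1) * φ (gH n g) = φ (gH n g) * φ (1, r.1)
    rw [← map_mul, ← map_mul, Prod.mk_mul_mk, Prod.mk_mul_mk]
    simp
  · change φ (1, r.2) * φ (gH n g) = φ (gH n g) * φ (1, r.2)
    rw [← map_mul, ← map_mul, Prod.mk_mul_mk, Prod.mk_mul_mk]
    simp

variable {J : Type} [Fintype J] {a : J → MonoidAlgebra ℚ (Multiplicative (ZMod n))} {M : J → ℤ}
  {p : ℕ} [hp : Fact p.Prime] {e : J → MonoidAlgebra ℚ_[p] (Multiplicative (ZMod n))}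
  (H : ∀ i, Node p (a i) (e i))

include H

/-- The class of the universal word. -/
theorem k1g_kw {G : Type v} [Group G] {g : ℕ} (φ : CS n g →* G) :
    k1g φ (kw a M (MonoidHom.inl _ _) (gW n g)) =
      kw a M (φ.comp (MonoidHom.inl _ _)) (mapW φ (gW n g)) := by
  apply kw_map H φ (MonoidHom.inl _ _) _ (surf_gW n g)
  intro c z
  change (c, (1 : SG g)) * z = z * (c, 1)
  apply Prod.ext
  · exact mul_comm _ _
  · change 1 * z.2 = z.2 * 1
    rw [one_mul, mul_one]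

theorem kw_append' {G : Type v} [Group G] (ψ : Multiplicative (ZMod n) →* G)
    {w w' : List (G × G)} (hc : CW (ψ (Multiplicative.ofAdd 1)) w)
    (hc' : CW (ψ (Multiplicative.ofAdd 1)) w') (hw : surf w = 1) (hw' : surf w' = 1) :
    mt (kw a M ψ (w ++ w')) = mt (kw a M ψ w) + mt (kw a M ψ w') := by
  obtain ⟨ψ', h1, h2⟩ := exists_lift_psi ψ
  obtain ⟨v, rfl⟩ := exists_lift_CW hc
  obtain ⟨v', rfl⟩ := exists_lift_CW hc'
  have hv := surf_lift_CW hw
  have hv' := surf_lift_CW hw'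
  have e1 : ∀ (v : List (Subgroup.centralizer {ψ (Multiplicative.ofAdd 1)} ×
      Subgroup.centralizer {ψ (Multiplicative.ofAdd 1)})), surf v = 1 →
      kw a M ψ (mapW (Subgroup.centralizer {ψ (Multiplicative.ofAdd 1)}).subtype v) =
        k1g (Subgroup.centralizer {ψ (Multiplicative.ofAdd 1)}).subtype (kw a M ψ' v) := by
    intro v hv
    rw [kw_map H _ ψ' h2 hv, h1]
  rw [← mapW_append, e1 _ (by rw [surf_append, hv, hv', mul_one]), e1 _ hv, e1 _ hv', ← map_add,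
    ← map_add]
  apply mt_map_eq
  rw [kw_append H ψ' h2 hv hv', map_add]

theorem kw_null' {G : Type v} [Group G] (ψ : Multiplicative (ZMod n) →* G)
    {w : List (G × G)} (hc : CW (ψ (Multiplicative.ofAdd 1)) w) (hw : surf w = 1)
    (hn : Null (ψ (Multiplicative.ofAdd 1)) w) : mt (kw a M ψ w) = 0 := by
  obtain ⟨ψ', h1, h2⟩ := exists_lift_psi ψ
  obtain ⟨v, rfl⟩ := exists_lift_CW hc
  have hv := surf_lift_CW hw
  have e1 : kw a M ψ (mapW (Subgroup.centralizer {ψ (Multiplicative.ofAdd 1)}).subtype v) =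
        k1g (Subgroup.centralizer {ψ (Multiplicative.ofAdd 1)}).subtype (kw a M ψ' v) := by
    rw [kw_map H _ ψ' h2 hv, h1]
  rw [e1]
  exact mt_map_zero _ (kw_null H ψ' h2 hv fun lam hl => null_lift hn lam hl)

theorem kw_triv' (hsupp : ∀ c, Subgroup.zpowers c ≠ ⊤ → (∑ i, (M i : ℚ_[p]) • e i).coeff c = 0)
    {G : Type v} [Group G] (ψ : Multiplicative (ZMod n) →* G)
    {w : List (G × G)} (hc : CW (ψ (Multiplicative.ofAdd 1)) w) (hw : surf w = 1) :
    ∃ W : ∀ (q : ℕ) [Fact q.Prime], Pt2 G → ℚ_[q],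
      Triv1 (kw a M ψ w) W ∧
      (∀ x, W p x = ∑ u : (ZMod n)ˣ, (∑ i, (M i : ℚ_[p]) • e i).coeff
        (Multiplicative.ofAdd (u : ZMod n)) * ((mu2 x.1.1 x.1.2 w
          (ψ (Multiplicative.ofAdd 1) ^ (u : ZMod n).val) : ℤ) : ℚ_[p])) ∧
      ∀ (q : ℕ) [Fact q.Prime], q ≠ p → ∀ x, W q x = 0 := by
  classical
  obtain ⟨ψ', h1, h2⟩ := exists_lift_psi ψ
  obtain ⟨v, rfl⟩ := exists_lift_CW hc
  have hv := surf_lift_CW hw
  obtain ⟨W, hW1, hW2, hW3⟩ := kw_triv (M := M) H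
    (Subgroup.centralizer {ψ (Multiplicative.ofAdd 1)}).subtype Subtype.coe_injective ψ' h2 v hv
  rw [h1] at hW1
  refine ⟨W, hW1, fun x => ?_, hW3⟩
  rw [hW2]
  have h3 : ∀ c, (Subgroup.centralizer {ψ (Multiplicative.ofAdd 1)}).subtype (ψ' c) = ψ c :=
    fun c => DFunLike.congr_fun h1 c
  refine Eq.trans ?_ ((sum_gens (fun c => (∑ i, (M i : ℚ_[p]) • e i).coeff c)
    (fun c : Gens (Multiplicative (ZMod n)) =>
      ((mu2 x.1.1 x.1.2 (mapW (Subgroup.centralizer {ψ (Multiplicative.ofAdd 1)}).subtype v)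
        (ψ c.1) : ℤ) : ℚ_[p]))).trans ?_)
  · refine Finset.sum_congr rfl fun c _ => ?_
    split_ifs with h
    · rw [h3]
    · rw [hsupp c h, zero_mul, zero_mul]
  · rw [← (unitsGens n).sum_comp]
    refine Finset.sum_congr rfl fun u _ => ?_
    change _ * ((mu2 x.1.1 x.1.2 (mapW (Subgroup.centralizer {ψ (Multiplicative.ofAdd 1)}).subtype v)
        (ψ (Multiplicative.ofAdd (u : ZMod n))) : ℤ) : ℚ_[p]) = _
    rw [psi_val ψ (Multiplicative.ofAdd (u : ZMod n))]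
    rfl

end Cn

section Kappa

variable (n : ℕ) [NeZero n]

open scoped Classical in
/-- The universal classes. -/
theorem exists_kappa2 : ∃ (N : ℕ)
    (κ : ℕ → ∀ g : ℕ, K1 (MonoidAlgebra ℤ (CS n g))), 0 < N ∧
    ∀ (p : ℕ) [Fact p.Prime], p ∣ n → ∃ t : (ZMod n)ˣ → ℚ_[p],
      (∀ (Y : (ZMod n)ˣ → ℚ) (y : ℚ), ∑ u, t u * (Y u : ℚ_[p]) = (y : ℚ_[p]) →
        ∀ z, (N : ℚ) * ∑ u ∈ Finset.univ.filter (fun u => uRel n p u z), Y u =
          y * (Finset.univ.filter (fun u => uRel n p u z)).card) ∧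
      ∀ {G : Type v} [Group G],
        (∀ (g : ℕ) (φ : CS n g →* G), ∃ W : ∀ (q : ℕ) [Fact q.Prime], Pt2 G → ℚ_[q],
          Triv1 (k1g φ (κ p g)) W ∧
          (∀ x, W p x = ∑ u : (ZMod n)ˣ, t u * ((mu2 x.1.1 x.1.2 (mapW φ (gW n g))
            (φ (gH n g) ^ (u : ZMod n).val) : ℤ) : ℚ_[p])) ∧
          ∀ (q : ℕ) [Fact q.Prime], q ≠ p → ∀ x, W q x = 0) ∧
        (∀ (g g' g'' : ℕ) (φ : CS n g →* G) (φ' : CS n g' →* G) (φ'' : CS n g'' →* G),
          φ' (gH n g') = φ (gH n g) → φ'' (gH n g'') = φ (gH n g) →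
          mapW φ'' (gW n g'') = mapW φ (gW n g) ++ mapW φ' (gW n g') →
          mt (k1g φ'' (κ p g'')) = mt (k1g φ (κ p g)) + mt (k1g φ' (κ p g'))) ∧
        ∀ (g : ℕ) (φ : CS n g →* G), Null (φ (gH n g)) (mapW φ (gW n g)) →
          mt (k1g φ (κ p g)) = 0 := by
  -- the local data
  have hloc : ∀ p : ℕ, ∃ (Np : ℕ) (J : Type) (_ : Fintype J)
      (a : J → MonoidAlgebra ℚ (Multiplicative (ZMod n))) (M : J → ℤ), 0 < Np ∧
      ∀ [Fact p.Prime], p ∣ n → ∃ e : J → MonoidAlgebra ℚ_[p] (Multiplicative (ZMod n)),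
      (∀ i, Node p (a i) (e i)) ∧
      (∀ c, Subgroup.zpowers c ≠ ⊤ → (∑ i, (M i : ℚ_[p]) • e i).coeff c = 0) ∧
      ∀ (Y : (ZMod n)ˣ → ℚ) (y : ℚ),
        ∑ u : (ZMod n)ˣ, (∑ i, (M i : ℚ_[p]) • e i).coeff
          (Multiplicative.ofAdd (u : ZMod n)) * (Y u : ℚ_[p]) = (y : ℚ_[p]) →
        ∀ z, (Np : ℚ) * ∑ u ∈ Finset.univ.filter (fun u => uRel n p u z), Y u =
          y * (Finset.univ.filter (fun u => uRel n p u z)).card := by
    intro p
    by_cases hp : p.Prime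
    swap
    · exact ⟨1, Empty, inferInstance, fun x => x.elim, fun x => x.elim, one_pos,
        fun {h} => absurd h.out hp⟩
    have : Fact p.Prime := ⟨hp⟩
    by_cases hpn : p ∣ n
    swap
    · exact ⟨1, Empty, inferInstance, fun x => x.elim, fun x => x.elim, one_pos,
        fun {_} h => absurd h hpn⟩
    obtain ⟨J, iJ, a, e, M, Np, h1, h2, h3, h4⟩ := exists_theta2 p n hpn
    exact ⟨Np, J, iJ, a, M, h2, fun {_} _ => ⟨e, h1, h3, fun Y y hy z => h4 Y y hy z⟩⟩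
  choose Np J iJ a M hNp hx using hloc
  -- common denominators
  let N : ℕ := ∏ p ∈ n.primeFactors, Np p
  have hN : 0 < N := Finset.prod_pos fun p _ => hNp p
  refine ⟨N, fun p g => (N / Np p) • kw (a p) (M p) (MonoidHom.inl _ _) (gW n g), hN,
    fun p _ hpn => ?_⟩
  obtain ⟨e, he1, he2, he3⟩ := hx p hpn
  have hdvd : Np p ∣ N := Finset.dvd_prod_of_mem _
    (Nat.mem_primeFactors.2 ⟨Fact.out, hpn, NeZero.ne n⟩)
  obtain ⟨K, hK⟩ := hdvd
  have hK' : N / Np p = K := by rw [hK]; exact Nat.mul_div_cancel_left _ (hNp p)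
  have hKpos : 0 < K := by
    rcases Nat.eq_zero_or_pos K with h | h
    · rw [h, mul_zero] at hK
      omega
    · exact h
  have hKQ : (K : ℚ) ≠ 0 := Nat.cast_ne_zero.2 hKpos.ne'
  have hKp : (K : ℚ_[p]) ≠ 0 := Nat.cast_ne_zero.2 hKpos.ne'
  refine ⟨fun u => (K : ℚ_[p]) * (∑ i, (M p i : ℚ_[p]) • e i).coeff
          (Multiplicative.ofAdd (u : ZMod n)), ?_, ?_⟩
  · intro Y y hy z
    have h1 := he3 Y (y / K) (by
      push_cast
      rw [eq_div_iff hKp, ← hy, Finset.sum_mul]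
      apply Finset.sum_congr rfl
      intro u _
      ring) z
    rw [hK]
    push_cast
    rw [mul_comm (Np p : ℚ), mul_assoc, h1, ← mul_assoc, mul_div_cancel₀ _ hKQ]
  · intro G _
    have hmap : ∀ (g : ℕ) (φ : CS n g →* G),
        k1g φ ((N / Np p) • kw (a p) (M p) (MonoidHom.inl _ _) (gW n g)) =
        K • kw (a p) (M p) (φ.comp (MonoidHom.inl _ _)) (mapW φ (gW n g)) := by
      intro g φ
      rw [map_nsmul, k1g_kw he1 φ, hK']
    refine ⟨fun g φ => ?_, fun g g' g'' φ φ' φ'' h1 h2 h3 => ?_, fun g φ h1 => ?_⟩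
    · obtain ⟨W, hW1, hW2, hW3⟩ := kw_triv' he1 he2 (φ.comp (MonoidHom.inl _ _))
        (CW_gW φ) (surf_map_gW φ)
      refine ⟨fun q _ x => K * W q x, ?_, fun x => ?_, fun q _ hq x => ?_⟩
      · rw [hmap]
        exact hW1.nsmul K
      · change (K : ℚ_[p]) * W p x = _
        rw [hW2, Finset.mul_sum]
        refine Finset.sum_congr rfl fun u _ => ?_
        rw [mul_assoc]
        rfl
      · change (K : ℚ_[q]) * W q x = 0
        rw [hW3 q hq, mul_zero]
    · have e1 : φ'.comp (MonoidHom.inl (Multiplicative (ZMod n)) (SG g')) =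
          φ.comp (MonoidHom.inl _ _) := by
        refine MonoidHom.ext fun c => ?_
        rw [psi_val (φ'.comp (MonoidHom.inl _ _)) c, psi_val (φ.comp (MonoidHom.inl _ _)) c]
        congr 1
      have e2 : φ''.comp (MonoidHom.inl (Multiplicative (ZMod n)) (SG g'')) =
          φ.comp (MonoidHom.inl _ _) := by
        refine MonoidHom.ext fun c => ?_
        rw [psi_val (φ''.comp (MonoidHom.inl _ _)) c, psi_val (φ.comp (MonoidHom.inl _ _)) c]
        congr 1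
      rw [hmap, hmap, hmap, e1, e2, h3, map_nsmul, map_nsmul, map_nsmul, ← smul_add,
        kw_append' he1 (φ.comp (MonoidHom.inl _ _)) (CW_gW φ) (h1 ▸ CW_gW φ') (surf_map_gW φ)
          (surf_map_gW φ')]
    · rw [hmap, map_nsmul, kw_null' he1 (φ.comp (MonoidHom.inl _ _)) (CW_gW φ) (surf_map_gW φ) h1,
        smul_zero]

end Kappa

end Pool.Agent.Lib25.H2
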