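import Pool.Agent.Lib_helper25.H2.Aver2
import Pool.Agent.Lib_helper25.Span0

/-!
# From functionals to relations
-/

set_option autoImplicit false
set_option linter.unusedSectionVars false

open Matrix Pool.Agent.WhK

namespace Pool.Agent.Lib25.H2

universe v w

section Z2more

variable {G : Type*} [Group G] {k : Type*} [AddCommGroup k] {h : G} {lam : G → G → k}

theorem IsZ2.isCoc2 (H : IsZ2 h lam) :
    IsCoc2 (fun x y : Subgroup.centralizer {h} => lam x y) where
  coc x y z := H.coc _ _ _ (mem_cen.1 x.2) (mem_cen.1 y.2) (mem_cen.1 z.2)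
  one_left x := H.one_left _ (mem_cen.1 x.2)
  one_right x := H.one_right _ (mem_cen.1 x.2)

theorem IsZ2.evw_append (H : IsZ2 h lam) {w w' : List (G × G)} (hw : Clw h w) (hw' : Clw h w') :
    evw lam (w ++ w') = evw lam w + evw lam w' := by
  obtain ⟨v, rfl⟩ := exists_lift_CW hw.comm
  obtain ⟨v', rfl⟩ := exists_lift_CW hw'.comm
  rw [← mapW_append, evw_lift, evw_lift, evw_lift, H2.evw_append H.isCoc2,
    surf_lift_CW hw.closed, H.isCoc2.one_left, add_zero]

theorem Clw.invW {w : List (G × G)} (hw : Clw h w) : Clw h (invW w) := by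
  refine ⟨?_, by rw [surf_invW, hw.closed, inv_one]⟩
  have h1 := hw.comm
  clear hw
  induction w with
  | nil => exact h1
  | cons q w ih =>
    intro r hr
    rcases List.mem_append.1 hr with h2 | h2
    · exact ih (fun q hq => h1 q (List.mem_cons_of_mem _ hq)) r h2
    · rw [List.mem_singleton] at h2
      rw [h2]
      exact ⟨(h1 q List.mem_cons_self).2, (h1 q List.mem_cons_self).1⟩

theorem IsZ2.evw_invW (H : IsZ2 h lam) {w : List (G × G)} (hw : Clw h w) :
    evw lam (H2.invW w) = - evw lam w := by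
  obtain ⟨v, rfl⟩ := exists_lift_CW hw.comm
  rw [← mapW_invW, evw_lift, evw_lift, H2.evw_invW H.isCoc2, surf_lift_CW hw.closed,
    H.isCoc2.one_left, sub_zero]

theorem IsZ2.evw_conj (H : IsZ2 h lam) {x : G} (hx : Commute x h) {w : List (G × G)}
    (hw : Clw h w) : evw lam (mapW (fun y => x * y * x⁻¹) w) = evw lam w := by
  obtain ⟨v, rfl⟩ := exists_lift_CW hw.comm
  have h2 := H2.evw_conj H.isCoc2 ⟨x, mem_cen.2 hx⟩ v (surf_lift_CW hw.closed)
  rw [evw_lift, ← h2, ← evw_lift, mapW_mapW, mapW_mapW]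
  rfl

theorem IsZ2.of_commute {h' : G} (H : IsZ2 h lam) (hh : ∀ x, Commute x h' → Commute x h) :
    IsZ2 h' lam :=
  ⟨fun x y z hx hy hz => H.coc x y z (hh x hx) (hh y hy) (hh z hz),
    fun x hx => H.one_left x (hh x hx), fun x hx => H.one_right x (hh x hx)⟩

theorem IsZ2.conj (x : G) (H : IsZ2 (x * h * x⁻¹) lam) :
    IsZ2 h (fun a b => lam (x * a * x⁻¹) (x * b * x⁻¹)) := by
  have hc : ∀ y : G, Commute y h → Commute (x * y * x⁻¹) (x * h * x⁻¹) := by
    intro y hy
    change x * y * x⁻¹ * (x * h * x⁻¹) = x * h * x⁻¹ * (x * y * x⁻¹)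
    calc x * y * x⁻¹ * (x * h * x⁻¹) = x * (y * h) * x⁻¹ := by group
      _ = x * (h * y) * x⁻¹ := by rw [hy.eq]
      _ = _ := by group
  have e1 : ∀ a b : G, x * (a * b) * x⁻¹ = (x * a * x⁻¹) * (x * b * x⁻¹) := by
    intro a b
    group
  have e2 : x * 1 * x⁻¹ = 1 := by group
  refine ⟨fun a b c ha hb hcc => ?_, fun a ha => ?_, fun a ha => ?_⟩
  · rw [e1, e1]
    exact H.coc _ _ _ (hc a ha) (hc b hb) (hc c hcc)
  · rw [e2]
    exact H.one_left _ (hc a ha)
  · rw [e2]
    exact H.one_right _ (hc a ha)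

theorem evw_conj_fun (x : G) (lam : G → G → k) (w : List (G × G)) :
    evw lam (mapW (fun y => x * y * x⁻¹) w) =
      evw (fun a b => lam (x * a * x⁻¹) (x * b * x⁻¹)) w :=
  evw_map (MulAut.conj x).toMonoidHom lam w

end Z2more

section MuMore

variable {G : Type v} [Group G] {n : ℕ} [NeZero n]

theorem clw_pow_val {h : G} {w : List (G × G)} (hn : h ^ n = 1) (a : (ZMod n)ˣ) :
    Clw (h ^ (a : ZMod n).val) w ↔ Clw h w := by
  constructor
  · intro H
    exact ⟨fun q hq => ⟨(commute_pow_val hn a).1 (H.comm q hq).1,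
      (commute_pow_val hn a).1 (H.comm q hq).2⟩, H.closed⟩
  · intro H
    exact H.pow _

theorem isCC_pow_val {h : G} (hn : h ^ n = 1) (a : (ZMod n)ˣ) {f : G → G → ℤ}
    (hf : IsZ2 h f) : IsZ2 (h ^ (a : ZMod n).val) f :=
  hf.of_commute fun _ hx => (commute_pow_val hn a).1 hx

theorem mu2_eq_of_conj {h c x : G} {w : List (G × G)} {f : G → G → ℤ} (hf : IsZ2 h f)
    (hx : x * h * x⁻¹ = c) (hw : Clw c w) :
    mu2 h f w c = evw f (mapW (fun y => x⁻¹ * y * x) w) := by
  have hc : IsConj h c := isConj_iff.2 ⟨x, hx⟩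
  rw [mu2_of _ _ hc]
  have h1 := cx_spec hc
  have hw' := hw.conj' hc
  set y := cx h c
  have hz : Commute (x⁻¹ * y) h := by
    change x⁻¹ * y * h = h * (x⁻¹ * y)
    calc x⁻¹ * y * h = x⁻¹ * (y * h * y⁻¹) * y := by group
      _ = x⁻¹ * (x * h * x⁻¹) * y := by rw [hx, h1]
      _ = h * (x⁻¹ * y) := by group
  have h2 := hf.evw_conj hz hw'
  rw [← h2, mapW_mapW]
  congr 2
  funext z
  group

theorem mu2_conj_conj {h c : G} {w : List (G × G)} {f : G → G → ℤ} (hf : IsZ2 h f)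
    (hw : Clw c w) (x : G) :
    mu2 h f (mapW (fun y => x * y * x⁻¹) w) (x * c * x⁻¹) = mu2 h f w c := by
  by_cases hc : IsConj h c
  · obtain ⟨y, hy⟩ := isConj_iff.1 hc
    rw [mu2_eq_of_conj hf hy hw, mu2_eq_of_conj (x := x * y) hf (by rw [← hy]; group)
      (hw.conj x), mapW_mapW]
    congr 2
    funext z
    group
  · rw [mu2_of_not _ _ hc, mu2_of_not _ _ (fun H => hc ((isConj_conj h x c).1 H))]

theorem mu2_pow_pow {h c : G} {w : List (G × G)} {f : G → G → ℤ} (hn : h ^ n = 1)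
    (hcn : c ^ n = 1) (hf : IsZ2 h f) (hw : Clw c w) (u : (ZMod n)ˣ) :
    mu2 (h ^ (u : ZMod n).val) f w (c ^ (u : ZMod n).val) = mu2 h f w c := by
  by_cases hc : IsConj h c
  · obtain ⟨y, hy⟩ := isConj_iff.1 hc
    rw [mu2_eq_of_conj hf hy hw, mu2_eq_of_conj (x := y) (isCC_pow_val hn u hf)
      (by rw [← conj_pow, hy]) (hw.pow _)]
  · rw [mu2_of_not _ _ hc, mu2_of_not _ _ (fun H => hc ((isConj_pow_val hn hcn u).1 H))]

/-- The family of cocycles attached to a cocycle on a centraliser and a coefficient function. -/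
noncomputable def Lf2 (h0 : G) (m : ℕ → (ZMod n)ˣ → ℤ) (f : G → G → ℤ) : ℕ → G → G → G → ℤ :=
  fun p h x y => ∑ a : (ZMod n)ˣ, m p a * Lp (h0 ^ (a : ZMod n).val) f x y h

theorem evw_smul {w : List (G × G)} (c : ℤ) (lam : G → G → ℤ) :
    evw (fun x y => c * lam x y) w = c * evw lam w :=
  evw_hom (AddMonoidHom.mulLeft c) lam w

theorem evw_Lf2 {h0 h : G} (m : ℕ → (ZMod n)ˣ → ℤ) (f : G → G → ℤ) (p : ℕ)
    {w : List (G × G)} (hw : Clw h w) :
    evw (Lf2 h0 m f p h) w = ∑ a : (ZMod n)ˣ, m p a * mu2 (h0 ^ (a : ZMod n).val) f w h := by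
  unfold Lf2
  rw [evw_sum]
  refine Finset.sum_congr rfl fun a _ => ?_
  rw [evw_smul, evw_Lp hw.comm]

theorem mu2_eq_zero_of_orderOf {h0 h : G} {w : List (G × G)} {f : G → G → ℤ}
    (hord : orderOf h0 = n) (a : (ZMod n)ˣ)
    (hh : orderOf h ≠ n) : mu2 (h0 ^ (a : ZMod n).val) f w h = 0 := by
  apply mu2_of_not
  intro hc
  apply hh
  obtain ⟨u, hu⟩ := hc
  rw [← hu.orderOf_eq (u : G), orderOf_pow_val hord]

theorem isAdm2_Lf2 {h0 : G} (hord : orderOf h0 = n) (m : ℕ → (ZMod n)ˣ → ℤ) (f : G → G → ℤ)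
    (hf : IsZ2 h0 f) (hm1 : ∀ p a b, uRel n p a b → m p a = m p b)
    (hm2 : ∑ p ∈ n.primeFactors, ∑ a, m p a = 0) : IsAdm2 (Lf2 h0 m f) := by
  have hpow : h0 ^ n = 1 := by rw [← hord]; exact pow_orderOf_eq_one _
  have hfin0 : IsOfFinOrder h0 := by
    rw [← orderOf_pos_iff, hord]
    exact Nat.pos_of_ne_zero (NeZero.ne n)
  have hfa : ∀ a : (ZMod n)ˣ, IsZ2 (h0 ^ (a : ZMod n).val) f :=
    fun a => isCC_pow_val hpow a hf
  refine ⟨?_, ?_, ?_, ?_⟩
  · intro p h
    have hg : ∀ a : (ZMod n)ˣ, GCo 1 (Lp (h0 ^ (a : ZMod n).val) f) := fun a =>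
      Lp_gco (isZ2_iff.1 (hfa a)) hfin0.pow (one_dvd _)
    refine ⟨fun x y z hx _ _ => ?_, fun x _ => ?_, fun x _ => ?_⟩
    · unfold Lf2
      rw [← Finset.sum_add_distrib, ← Finset.sum_add_distrib]
      refine Finset.sum_congr rfl fun a _ => ?_
      have h1 := (hg a).coc x y z h
      have h2 : x⁻¹ * h * x = h := by rw [mul_assoc, ← hx.eq]; group
      rw [h2] at h1
      rw [← mul_add, ← mul_add, h1]
    · unfold Lf2
      refine Finset.sum_eq_zero fun a _ => ?_
      rw [(hg a).one_left, mul_zero]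
    · unfold Lf2
      refine Finset.sum_eq_zero fun a _ => ?_
      rw [(hg a).one_right, mul_zero]
  · intro p h x w hw
    rw [evw_Lf2 m f p hw, evw_Lf2 m f p (hw.conj x)]
    refine Finset.sum_congr rfl fun a _ => ?_
    rw [mu2_conj_conj (hfa a) hw x]
  · intro p h h' w j k hw hz hpw
    have hord' : orderOf h' = orderOf h := by
      rw [← Nat.card_zpowers, ← hz, Nat.card_zpowers]
    have hw' : Clw h' w :=
      ⟨fun q hq => ⟨commute_of_zpowers hz (hw.comm q hq).1,
        commute_of_zpowers hz (hw.comm q hq).2⟩, hw.closed⟩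
    rw [evw_Lf2 m f p hw, evw_Lf2 m f p hw']
    by_cases hh : orderOf h = n
    swap
    · rw [Finset.sum_eq_zero, Finset.sum_eq_zero]
      · intro a _
        rw [mu2_eq_zero_of_orderOf hord a (by rw [hord']; exact hh), mul_zero]
      · intro a _
        rw [mu2_eq_zero_of_orderOf hord a hh, mul_zero]
    obtain ⟨u, rfl⟩ := exists_unit_of_zpowers hh hz
    have hhn : h ^ n = 1 := by rw [← hh]; exact pow_orderOf_eq_one _
    have hrel : uRel n p 1 u := by
      refine ⟨j, k, ?_⟩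
      rw [← pow_mul, pow_eq_pow_iff_modEq, hh, ← ZMod.natCast_eq_natCast_iff] at hpw
      push_cast at hpw
      rw [ZMod.natCast_zmod_val] at hpw
      rw [Units.val_one, one_mul]
      exact hpw
    rw [← Equiv.sum_comp (Equiv.mulRight u) (fun a : (ZMod n)ˣ => m p a *
      mu2 (h0 ^ (a : ZMod n).val) f w (h ^ (u : ZMod n).val))]
    apply Finset.sum_congr rfl
    intro a _
    rw [Equiv.coe_mulRight, pow_val_mul hpow, mu2_pow_pow (by rw [← pow_mul, mul_comm, pow_mul,
      hpow, one_pow]) hhn (hfa a) hw u]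
    congr 1
    apply hm1
    have h1 := uRel_mul hrel a
    rwa [one_mul, mul_comm u a] at h1
  · intro h w hfin hw
    by_cases hh : orderOf h = n
    swap
    · apply Finset.sum_eq_zero
      intro p _
      apply Finset.sum_eq_zero
      intro b hb
      rw [evw_Lf2 m f p (hw.pow b)]
      apply Finset.sum_eq_zero
      intro a _
      rw [mu2_eq_zero_of_orderOf hord a, mul_zero]
      rw [Finset.mem_filter] at hb
      rw [Nat.Coprime.orderOf_pow (Nat.coprime_comm.1 hb.2)]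
      exact hh
    have hhn : h ^ n = 1 := by rw [← hh]; exact pow_orderOf_eq_one _
    rw [hh]
    have h1 : ∀ p ∈ n.primeFactors, ∑ a ∈ (Finset.range n).filter (fun a => a.Coprime n),
        evw (Lf2 h0 m f p (h ^ a)) w = ∑ c : (ZMod n)ˣ, (∑ b : (ZMod n)ˣ, m p b) *
          mu2 (h0 ^ (c : ZMod n).val) f w h := by
      intro p _
      rw [← sum_units_eq (fun z => evw (Lf2 h0 m f p z) w)]
      have h2 : ∀ u : (ZMod n)ˣ, evw (Lf2 h0 m f p (h ^ (u : ZMod n).val)) w =
          ∑ c : (ZMod n)ˣ, m p (c * u) * mu2 (h0 ^ (c : ZMod n).val) f w h := by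
        intro u
        rw [evw_Lf2 m f p (hw.pow _), ← Equiv.sum_comp (Equiv.mulRight u)
          (fun a : (ZMod n)ˣ => m p a *
            mu2 (h0 ^ (a : ZMod n).val) f w (h ^ (u : ZMod n).val))]
        apply Finset.sum_congr rfl
        intro c _
        rw [Equiv.coe_mulRight, pow_val_mul hpow, mu2_pow_pow (by rw [← pow_mul, mul_comm,
          pow_mul, hpow, one_pow]) hhn (hfa c) hw u]
      rw [Finset.sum_congr rfl (fun u _ => h2 u), Finset.sum_comm]
      apply Finset.sum_congr rfl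
      intro c _
      rw [← Finset.sum_mul]
      congr 1
      exact Equiv.sum_comp (Equiv.mulLeft c) (fun b : (ZMod n)ˣ => m p b)
    rw [Finset.sum_congr rfl h1, Finset.sum_comm]
    apply Finset.sum_eq_zero
    intro c _
    rw [← Finset.sum_mul, hm2, zero_mul]

end MuMore

section Abel

variable {G : Type v} [Group G]

/-- The rational cocycles on the centraliser of `h0`. -/
abbrev Z2Q (h0 : G) : Type v := {lam : G → G → ℚ // IsZ2 h0 lam}

/-- The group of the evaluations of the rational cocycles on the closed words. -/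
def A2 (h0 : G) : AddSubgroup (Z2Q h0 → ℚ) where
  carrier := {F | ∃ w, Clw h0 w ∧ ∀ lam, F lam = evw lam.1 w}
  zero_mem' := ⟨[], Clw.nil, fun _ => rfl⟩
  add_mem' := by
    rintro F F' ⟨w, hw, h⟩ ⟨w', hw', h'⟩
    exact ⟨w ++ w', hw.append hw', fun lam => by
      rw [Pi.add_apply, h, h', lam.2.evw_append hw hw']⟩
  neg_mem' := by
    rintro F ⟨w, hw, h⟩
    exact ⟨invW w, hw.invW, fun lam => by rw [Pi.neg_apply, h, lam.2.evw_invW hw]⟩

open scoped Classical in
/-- The class of a word. -/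
noncomputable def toA2 (h0 : G) (w : List (G × G)) : A2 h0 :=
  if hw : Clw h0 w then ⟨fun lam => evw lam.1 w, w, hw, fun _ => rfl⟩ else 0

theorem toA2_val {h0 : G} {w : List (G × G)} (hw : Clw h0 w) (lam : Z2Q h0) :
    (toA2 h0 w : Z2Q h0 → ℚ) lam = evw lam.1 w := by
  unfold toA2
  rw [dif_pos hw]

theorem toA2_append {h0 : G} {w w' : List (G × G)} (hw : Clw h0 w) (hw' : Clw h0 w') :
    toA2 h0 (w ++ w') = toA2 h0 w + toA2 h0 w' := by
  apply Subtype.ext
  funext lam
  rw [toA2_val (hw.append hw'), AddSubgroup.coe_add, Pi.add_apply, toA2_val hw, toA2_val hw',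
    lam.2.evw_append hw hw']

theorem exists_toA2 (h0 : G) (α : A2 h0) : ∃ w, Clw h0 w ∧ toA2 h0 w = α := by
  obtain ⟨F, w, hw, h⟩ := α
  refine ⟨w, hw, Subtype.ext (funext fun lam => ?_)⟩
  rw [toA2_val hw]
  exact (h lam).symm

theorem toA2_eq_zero {h0 : G} {w : List (G × G)} (hw : Clw h0 w) :
    toA2 h0 w = 0 ↔ Null h0 w := by
  constructor
  · intro h lam hl
    rw [← toA2_val hw ⟨lam, hl⟩, h]
    rfl
  · intro h
    apply Subtype.ext
    funext lam
    rw [toA2_val hw]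
    exact h lam.1 lam.2

theorem exists_addHom2 (h0 : G) (φ : List (G × G) → ℚ)
    (hφ : ∀ w w', Clw h0 w → Clw h0 w' → φ (w ++ w') = φ w + φ w')
    (hn : ∀ w, Clw h0 w → Null h0 w → φ w = 0) :
    ∃ E : A2 h0 →+ ℚ, ∀ w, Clw h0 w → E (toA2 h0 w) = φ w := by
  have hwd : ∀ w w', Clw h0 w → Clw h0 w' → toA2 h0 w = toA2 h0 w' → φ w = φ w' := by
    intro w w' hw hw' h
    have h1 : ∀ w, Clw h0 w → toA2 h0 w = toA2 h0 w' → φ w + φ (invW w') = 0 := by
      intro w hw h
      rw [← hφ _ _ hw hw'.invW]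
      apply hn _ (hw.append hw'.invW)
      intro lam hl
      have h2 := toA2_val hw ⟨lam, hl⟩
      rw [h, toA2_val hw'] at h2
      change evw lam w' = evw lam w at h2
      rw [hl.evw_append hw hw'.invW, hl.evw_invW hw', h2, add_neg_cancel]
    have h2 := h1 w hw h
    have h3 := h1 w' hw' rfl
    linarith
  choose s hs1 hs2 using exists_toA2 h0
  refine ⟨{ toFun := fun α => φ (s α), map_zero' := ?_, map_add' := fun α β => ?_ }, ?_⟩
  · apply hn _ (hs1 _)
    rw [← toA2_eq_zero (hs1 _), hs2]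
  · rw [← hφ _ _ (hs1 α) (hs1 β)]
    apply hwd _ _ (hs1 _) ((hs1 _).append (hs1 _))
    rw [toA2_append (hs1 _) (hs1 _), hs2, hs2, hs2]
  · intro w hw
    change φ (s (toA2 h0 w)) = φ w
    exact hwd _ _ (hs1 _) hw (hs2 _)

/-- The rational cocycle defined by an integral one. -/
def castQ {h0 : G} (f : G → G → ℤ) (hf : IsZ2 h0 f) : Z2Q h0 :=
  ⟨fun x y => (f x y : ℚ), fun x y z hx hy hz => by
    rw [← Int.cast_add, ← Int.cast_add, hf.coc x y z hx hy hz],
    fun x hx => by rw [hf.one_left x hx, Int.cast_zero],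
    fun x hx => by rw [hf.one_right x hx, Int.cast_zero]⟩

theorem evw_castQ {h0 : G} (f : G → G → ℤ) (hf : IsZ2 h0 f) (w : List (G × G)) :
    evw (castQ f hf).1 w = ((evw f w : ℤ) : ℚ) :=
  evw_hom (Int.castAddHom ℚ) f w

/-- The evaluation at a cocycle. -/
def evA {h0 : G} (lam : Z2Q h0) : A2 h0 →+ ℚ :=
  (Pi.evalAddMonoidHom (fun _ : Z2Q h0 => ℚ) lam).comp (A2 h0).subtype

theorem evA_toA2 {h0 : G} {w : List (G × G)} (hw : Clw h0 w) (lam : Z2Q h0) :
    evA lam (toA2 h0 w) = evw lam.1 w := toA2_val hw lam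

theorem detect_A2 {h0 : G} (hZ : IntDet h0) (α : A2 h0)
    (hα : ∀ (f : G → G → ℤ) (hf : IsZ2 h0 f), evA (castQ f hf) α = 0) : α = 0 := by
  obtain ⟨w, hw, rfl⟩ := exists_toA2 h0 α
  rw [toA2_eq_zero hw]
  apply hZ w hw
  intro f hf
  have h1 := hα f hf
  rw [evA_toA2 hw, evw_castQ] at h1
  exact_mod_cast h1

end Abel

end Pool.Agent.Lib25.H2
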