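import Pool.Agent.Lib_helper25.H2.Idm

/-!
# The local computation
-/

set_option autoImplicit false
set_option linter.unusedSectionVars false

open Matrix Pool.Agent.WhK

namespace Pool.Agent.Lib25.H2

section Wd

variable {T T' Z Z' : Type*} [Ring T] [Ring T'] [Group Z] [Group Z']

/-- The word in `GL₃` attached to a word in a group. -/
def wd (ν : Z →* T) (a : T) (w : List (Z × Z)) :
    List ((Matrix (Fin 3) (Fin 3) T)ˣ × (Matrix (Fin 3) (Fin 3) T)ˣ) :=
  w.map fun q => (DD ν a (0 : Fin 3) 1 q.1, DD ν a (0 : Fin 3) 2 q.2)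

theorem surf_wd (ν : Z →* T) (a : T) (w : List (Z × Z)) : surf (wd ν a w) = XW ν a w := rfl

theorem mapU_DD' {ι : Type*} [Fintype ι] [DecidableEq ι] (f : T →+* T') (ν : Z →* T) (a : T)
    (p q : ι) (U : Z) :
    mapU f (DD ν a p q U) = DD ((f : T →* T').comp ν) (f a) p q U := by
  unfold DD uu
  rw [mapU_Dd]
  simp only [map_add, map_one, map_mul, map_sub]
  rfl

theorem mapW_wd (f : T →+* T') (ν : Z →* T) (a : T) (w : List (Z × Z)) :
    mapW (mapU f) (wd ν a w) = wd ((f : T →* T').comp ν) (f a) w := by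
  unfold mapW wd
  rw [List.map_map]
  congr 1
  funext q
  change (mapU f _, mapU f _) = _
  rw [mapU_DD', mapU_DD']

theorem mapU_XW' (f : T →+* T') (ν : Z →* T) (a : T) (w : List (Z × Z)) :
    mapU f (XW ν a w) = XW ((f : T →* T').comp ν) (f a) w := by
  rw [← surf_wd, ← surf_map, mapW_wd, surf_wd]

theorem DD_comp {ι : Type*} [Fintype ι] [DecidableEq ι] (ν : Z →* T) (a : T) (φ : Z' →* Z)
    (p q : ι) (U : Z') : DD ν a p q (φ U) = DD (ν.comp φ) a p q U := by
  unfold DD uu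
  rw [← map_inv]
  rfl

theorem wd_mapW (ν : Z →* T) (a : T) (φ : Z' →* Z) (w : List (Z' × Z')) :
    wd ν a (mapW φ w) = wd (ν.comp φ) a w := by
  unfold mapW wd
  rw [List.map_map]
  congr 1
  funext q
  change (DD ν a (0 : Fin 3) 1 (φ q.1), DD ν a (0 : Fin 3) 2 (φ q.2)) = _
  rw [DD_comp, DD_comp]

theorem XW_mapW (ν : Z →* T) (a : T) (φ : Z' →* Z) (w : List (Z' × Z')) :
    XW ν a (mapW φ w) = XW (ν.comp φ) a w := by
  rw [← surf_wd, wd_mapW, surf_wd]

end Wd

section Triv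

variable {Γ : Type*} [Group Γ] {k : Type*} [AddCommGroup k] {α : Type*}

theorem surf_one_letters (w : List α) : surf (w.map fun _ => ((1, 1) : Γ × Γ)) = 1 := by
  induction w with
  | nil => rfl
  | cons q w ih => rw [List.map_cons, surf_cons, ih]; simp

theorem evw_one_letters (lam : Γ → Γ → k) (w : List α) :
    evw lam (w.map fun _ => ((1, 1) : Γ × Γ)) = 0 := by
  induction w with
  | nil => rfl
  | cons q w ih =>
    rw [List.map_cons, evw_cons, ih, surf_one_letters]
    simp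

theorem surf_right_one (f : α → Γ) (w : List α) :
    surf (w.map fun q => ((f q, 1) : Γ × Γ)) = 1 := by
  induction w with
  | nil => rfl
  | cons q w ih => rw [List.map_cons, surf_cons, ih]; simp

theorem evw_right_one {lam : Γ → Γ → k} (h1 : ∀ x, lam 1 x = 0) (h2 : ∀ x, lam x 1 = 0)
    (f : α → Γ) (w : List α) : evw lam (w.map fun q => ((f q, 1) : Γ × Γ)) = 0 := by
  induction w with
  | nil => rfl
  | cons q w ih =>
    rw [List.map_cons, evw_cons, ih, surf_right_one]
    simp [h1, h2]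

theorem surf_left_one (f : α → Γ) (w : List α) :
    surf (w.map fun q => ((1, f q) : Γ × Γ)) = 1 := by
  induction w with
  | nil => rfl
  | cons q w ih => rw [List.map_cons, surf_cons, ih]; simp

theorem evw_left_one {lam : Γ → Γ → k} (h1 : ∀ x, lam 1 x = 0) (h2 : ∀ x, lam x 1 = 0)
    (f : α → Γ) (w : List α) : evw lam (w.map fun q => ((1, f q) : Γ × Γ)) = 0 := by
  induction w with
  | nil => rfl
  | cons q w ih =>
    rw [List.map_cons, evw_cons, ih, surf_left_one]
    simp [h1, h2]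

end Triv

section Gd

variable {k : Type*} [CommRing k] {Z : Type*} [Group Z] {ι : Type*} [Fintype ι] [DecidableEq ι]

/-- The unit of the group ring attached to a group element. -/
noncomputable def oU (k : Type*) [CommRing k] {Z : Type*} [Group Z] : Z →* (MonoidAlgebra k Z)ˣ :=
  MonoidHom.toHomUnits (MonoidAlgebra.of k Z)

/-- Diagonal matrices with entries in the group. -/
noncomputable def gd (k : Type*) [CommRing k] {Z : Type*} [Group Z] {ι : Type*} [Fintype ι]
    [DecidableEq ι] : (ι → Z) →* (Matrix ι ι (MonoidAlgebra k Z))ˣ :=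
  dgF.comp (MonoidHom.compLeft (oU k) ι)

theorem gd_val (d : ι → Z) :
    (gd k d).val = Matrix.diagonal (fun i => MonoidAlgebra.of k Z (d i)) := rfl

theorem gd_single {p q : ι} (h : p ≠ q) (U : Z) :
    gd k (Pi.mulSingle p U * Pi.mulSingle q U⁻¹) =
      Dd p q (MonoidAlgebra.of k Z U) (MonoidAlgebra.of k Z U⁻¹) := by
  have h1 := Dd_unit h (oU k U : (MonoidAlgebra k Z)ˣ)
  have h2 : (((oU k U)⁻¹ : (MonoidAlgebra k Z)ˣ) : MonoidAlgebra k Z) =
      MonoidAlgebra.of k Z U⁻¹ := by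
    rw [← map_inv]
    rfl
  rw [h2] at h1
  change Dd p q (MonoidAlgebra.of k Z U) _ = _ at h1
  rw [h1]
  change dgF (R := MonoidAlgebra k Z) (ι := ι)
    (MonoidHom.compLeft (oU k) ι (Pi.mulSingle p U * Pi.mulSingle q U⁻¹)) = _
  congr 1
  funext i
  change oU k (Pi.mulSingle (M := fun _ => Z) p U i * Pi.mulSingle (M := fun _ => Z) q U⁻¹ i) =
    Pi.mulSingle (M := fun _ => (MonoidAlgebra k Z)ˣ) p (oU k U) i *
      Pi.mulSingle (M := fun _ => (MonoidAlgebra k Z)ˣ) q (oU k U)⁻¹ i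
  rw [map_mul, Pi.mulSingle_apply, Pi.mulSingle_apply, Pi.mulSingle_apply, Pi.mulSingle_apply]
  congr 1
  · split_ifs
    · rfl
    · exact map_one _
  · split_ifs
    · exact map_inv _ _
    · exact map_one _

/-- The weighted sum of the cocycles. -/
noncomputable def sumL (L : Z → Z → Z → ℤ) (s : MonoidAlgebra k Z) (x y : Z) : k :=
  ∑ z ∈ s.coeff.support, s.coeff z * (L x y z : k)

theorem phi3_central (L : Z → Z → Z → ℤ) (s : MonoidAlgebra k Z)
    (hs : ∀ z ∈ s.coeff.support, ∀ x, Commute x z) (x y : Z) :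
    phi3 L (s * MonoidAlgebra.of k Z (x * y)⁻¹) (MonoidAlgebra.of k Z x) (MonoidAlgebra.of k Z y) =
      sumL L s x y := by
  have h1 : s = ∑ z ∈ s.coeff.support, MonoidAlgebra.single z (s.coeff z) :=
    (MonoidAlgebra.sum_coeff_single s).symm
  conv_lhs => rw [h1]
  rw [Finset.sum_mul, map_sum, AddMonoidHom.finsetSum_apply, AddMonoidHom.finsetSum_apply]
  refine Finset.sum_congr rfl fun z hz => ?_
  change phi3 L (MonoidAlgebra.single z (s.coeff z) * MonoidAlgebra.single (x * y)⁻¹ 1)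
    (MonoidAlgebra.single x 1) (MonoidAlgebra.single y 1) = _
  rw [MonoidAlgebra.single_mul_single, phi3_single]
  have h2 : x * y * (z * (x * y)⁻¹) = z := by
    rw [← mul_assoc, (hs z hz (x * y)).eq]
    group
  rw [h2]
  ring

theorem Gs_gd (L : Z → Z → Z → ℤ) (s : MonoidAlgebra k Z)
    (hs : ∀ z ∈ s.coeff.support, ∀ x, Commute x z) (d d' : ι → Z) :
    Gs L s (gd k d) (gd k d') = ∑ i, sumL L s (d i) (d' i) := by
  unfold Gs
  rw [← map_mul, ← map_inv, gd_val, gd_val, gd_val]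
  unfold Phi3
  refine Finset.sum_congr rfl fun i _ => ?_
  rw [Finset.sum_eq_single i]
  · rw [Finset.sum_eq_single i]
    · rw [dg_mul_apply, Matrix.diagonal_apply_eq, Matrix.diagonal_apply_eq,
        Matrix.diagonal_apply_eq]
      exact phi3_central L s hs (d i) (d' i)
    · intro j _ hj
      rw [Matrix.diagonal_apply_ne _ hj.symm]
      simp
    · intro h; exact absurd (Finset.mem_univ _) h
  · intro j _ hj
    refine Finset.sum_eq_zero fun l _ => ?_
    rw [dg_mul_apply, Matrix.diagonal_apply_ne _ hj.symm, mul_zero]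
    simp
  · intro h; exact absurd (Finset.mem_univ _) h

theorem evw_sumL (L : Z → Z → Z → ℤ) (s : MonoidAlgebra k Z) (w : List (Z × Z)) :
    evw (sumL L s) w = ∑ z ∈ s.coeff.support, s.coeff z * ((evw (fun x y => L x y z) w : ℤ) : k) := by
  have h1 := evw_sum s.coeff.support (fun z (x y : Z) => s.coeff z * (L x y z : k)) w
  change evw (fun x y => ∑ z ∈ s.coeff.support, s.coeff z * (L x y z : k)) w = _
  rw [h1]
  refine Finset.sum_congr rfl fun z _ => ?_
  exact evw_hom ((AddMonoidHom.mulLeft (s.coeff z)).comp (Int.castAddHom k))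
    (fun x y => L x y z) w

theorem sumL_one_left {p : ℕ} {L : Z → Z → Z → ℤ} (H : GCo p L) (s : MonoidAlgebra k Z) (x : Z) :
    sumL L s 1 x = 0 := by
  unfold sumL
  refine Finset.sum_eq_zero fun z _ => ?_
  rw [H.one_left, Int.cast_zero, mul_zero]

theorem sumL_one_right {p : ℕ} {L : Z → Z → Z → ℤ} (H : GCo p L) (s : MonoidAlgebra k Z) (x : Z) :
    sumL L s x 1 = 0 := by
  unfold sumL
  refine Finset.sum_eq_zero fun z _ => ?_
  rw [H.one_right, Int.cast_zero, mul_zero]

/-- The diagonal word. -/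
def dw (w : List (Z × Z)) : List ((Fin 3 → Z) × (Fin 3 → Z)) :=
  w.map fun q => (Pi.mulSingle 0 q.1 * Pi.mulSingle 1 q.1⁻¹,
    Pi.mulSingle 0 q.2 * Pi.mulSingle 2 q.2⁻¹)

theorem mapW_eval (i : Fin 3) (w : List (Z × Z)) :
    mapW (Pi.evalMonoidHom (fun _ : Fin 3 => Z) i) (dw w) =
      w.map fun q => ((Pi.mulSingle (M := fun _ => Z) (0 : Fin 3) q.1 i *
        Pi.mulSingle (M := fun _ => Z) (1 : Fin 3) q.1⁻¹ i,
        Pi.mulSingle (M := fun _ => Z) (0 : Fin 3) q.2 i *
        Pi.mulSingle (M := fun _ => Z) (2 : Fin 3) q.2⁻¹ i)) := by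
  unfold mapW dw
  rw [List.map_map]
  rfl

theorem mapW_eval0 (w : List (Z × Z)) :
    mapW (Pi.evalMonoidHom (fun _ : Fin 3 => Z) 0) (dw w) = w := by
  rw [mapW_eval]
  conv_rhs => rw [← List.map_id w]
  congr 1
  funext q
  simp

theorem mapW_eval1 (w : List (Z × Z)) :
    mapW (Pi.evalMonoidHom (fun _ : Fin 3 => Z) 1) (dw w) = w.map fun q => (q.1⁻¹, 1) := by
  rw [mapW_eval]
  congr 1
  funext q
  simp

theorem mapW_eval2 (w : List (Z × Z)) :
    mapW (Pi.evalMonoidHom (fun _ : Fin 3 => Z) 2) (dw w) = w.map fun q => (1, q.2⁻¹) := by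
  rw [mapW_eval]
  congr 1
  funext q
  simp

theorem surf_dw {w : List (Z × Z)} (hw : surf w = 1) : surf (dw w) = 1 := by
  funext i
  have h1 : (Pi.evalMonoidHom (fun _ : Fin 3 => Z) i) (surf (dw w)) = 1 := by
    rw [← surf_map]
    fin_cases i
    · change surf (mapW (Pi.evalMonoidHom (fun _ : Fin 3 => Z) 0) (dw w)) = 1
      rw [mapW_eval0, hw]
    · change surf (mapW (Pi.evalMonoidHom (fun _ : Fin 3 => Z) 1) (dw w)) = 1
      rw [mapW_eval1]
      exact surf_right_one (fun q : Z × Z => q.1⁻¹) w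
    · change surf (mapW (Pi.evalMonoidHom (fun _ : Fin 3 => Z) 2) (dw w)) = 1
      rw [mapW_eval2]
      exact surf_left_one (fun q : Z × Z => q.2⁻¹) w
  exact h1

theorem evw_dw {lam : Z → Z → k} (h1 : ∀ x, lam 1 x = 0) (h2 : ∀ x, lam x 1 = 0)
    (w : List (Z × Z)) :
    evw (fun d d' : Fin 3 → Z => ∑ i, lam (d i) (d' i)) (dw w) = evw lam w := by
  have e := evw_sum (Finset.univ : Finset (Fin 3))
    (fun i (d d' : Fin 3 → Z) => lam (d i) (d' i)) (dw w)
  rw [e, Fin.sum_univ_three]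
  have e1 : ∀ i : Fin 3, evw (fun d d' : Fin 3 → Z => lam (d i) (d' i)) (dw w) =
      evw lam (mapW (Pi.evalMonoidHom (fun _ : Fin 3 => Z) i) (dw w)) := by
    intro i
    rw [evw_map]
    rfl
  rw [e1, e1, e1, mapW_eval0, mapW_eval1, mapW_eval2]
  have e2 := evw_right_one h1 h2 (fun q : Z × Z => q.1⁻¹) w
  have e3 := evw_left_one h1 h2 (fun q : Z × Z => q.2⁻¹) w
  rw [e2, e3, add_zero, add_zero]

end Gd

section Loc

variable {k : Type*} [CommRing k] {Z : Type*} [Group Z] {a s : MonoidAlgebra k Z}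
  (hs : CI s) (ha : s * a = 0) (hac : ∀ x, a * x = x * a)

theorem uu_part1 (hs : CI s) (ha : s * a = 0) (U : Z) :
    s * uu (MonoidAlgebra.of k Z) (a + s) U = s * MonoidAlgebra.of k Z U := by
  unfold uu
  have h1 : s * ((MonoidAlgebra.of k Z U - 1) * (a + s)) =
      (MonoidAlgebra.of k Z U - 1) * (s * a + s * s) := by
    rw [← mul_assoc, hs.cent, mul_assoc, mul_add]
  rw [mul_add, h1, ha, hs.idem, zero_add, mul_one, sub_mul, one_mul, hs.cent]
  abel

theorem uu_part2 (hs : CI s) (ha : s * a = 0) (U : Z) :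
    s * uu (MonoidAlgebra.of k Z) a U = s * 1 := by
  unfold uu
  have h1 : s * ((MonoidAlgebra.of k Z U - 1) * a) =
      (MonoidAlgebra.of k Z U - 1) * (s * a) := by
    rw [← mul_assoc, hs.cent, mul_assoc]
  rw [mul_add, h1, ha, mul_zero, add_zero]

theorem uu_part3 (hs : CI s) (U : Z) :
    (1 - s) * uu (MonoidAlgebra.of k Z) (a + s) U = (1 - s) * uu (MonoidAlgebra.of k Z) a U := by
  unfold uu
  have h0 : (1 - s) * s = 0 := by rw [sub_mul, one_mul, hs.idem, sub_self]
  have h1 : (1 - s) * ((MonoidAlgebra.of k Z U - 1) * s) = 0 := by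
    rw [← mul_assoc, hs.compl.cent, mul_assoc, h0, mul_zero]
  rw [mul_add (MonoidAlgebra.of k Z U - 1) a s, ← add_assoc, mul_add (1 - s) _
    ((MonoidAlgebra.of k Z U - 1) * s), h1, add_zero]

theorem fsU_DD1 (hs : CI s) (ha : s * a = 0) {p q : Fin 3} (hpq : p ≠ q) (U : Z) :
    fsU hs (DD (MonoidAlgebra.of k Z) (a + s) p q U) =
      fsU hs (gd k (Pi.mulSingle p U * Pi.mulSingle q U⁻¹)) := by
  rw [gd_single hpq]
  unfold DD
  exact fsU_Dd_congr hs hpq (uu_part1 hs ha U) (uu_part1 hs ha U⁻¹)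

theorem fsU_DD2 (hs : CI s) (ha : s * a = 0) {p q : Fin 3} (hpq : p ≠ q) (U : Z) :
    fsU hs (DD (MonoidAlgebra.of k Z) a p q U) = 1 := by
  have h2 := gd_single (k := k) hpq (1 : Z)
  rw [inv_one, Pi.mulSingle_one, Pi.mulSingle_one, mul_one, map_one, map_one] at h2
  unfold DD
  rw [fsU_Dd_congr hs hpq (uu_part2 hs ha U) (uu_part2 hs ha U⁻¹), ← h2, map_one]

theorem fsU_DD3 (hs : CI s) {p q : Fin 3} (hpq : p ≠ q) (U : Z) :
    fsU hs.compl (DD (MonoidAlgebra.of k Z) (a + s) p q U) =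
      fsU hs.compl (DD (MonoidAlgebra.of k Z) a p q U) := by
  unfold DD
  exact fsU_Dd_congr hs.compl hpq (uu_part3 hs U) (uu_part3 hs U⁻¹)

theorem fsU_wd1 (hs : CI s) (ha : s * a = 0) (w : List (Z × Z)) :
    mapW (fsU hs) (wd (MonoidAlgebra.of k Z) (a + s) w) = mapW (fsU hs) (mapW (gd k) (dw w)) := by
  unfold mapW wd dw
  rw [List.map_map, List.map_map, List.map_map]
  apply List.map_congr_left
  intro q _
  exact Prod.ext (fsU_DD1 hs ha (by decide) q.1) (fsU_DD1 hs ha (by decide) q.2)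

theorem fsU_wd2 (hs : CI s) (ha : s * a = 0) (w : List (Z × Z)) :
    mapW (fsU hs) (wd (MonoidAlgebra.of k Z) a w) = w.map fun _ => (1, 1) := by
  unfold mapW wd
  rw [List.map_map]
  apply List.map_congr_left
  intro q _
  exact Prod.ext (fsU_DD2 hs ha (by decide) q.1) (fsU_DD2 hs ha (by decide) q.2)

theorem fsU_wd3 (hs : CI s) (w : List (Z × Z)) :
    mapW (fsU hs.compl) (wd (MonoidAlgebra.of k Z) (a + s) w) =
      mapW (fsU hs.compl) (wd (MonoidAlgebra.of k Z) a w) := by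
  unfold mapW wd
  rw [List.map_map, List.map_map]
  apply List.map_congr_left
  intro q _
  exact Prod.ext (fsU_DD3 hs (by decide) q.1) (fsU_DD3 hs (by decide) q.2)

/-- The two words have the same product. -/
theorem XW_add (hs : CI s) (ha : s * a = 0) (w : List (Z × Z)) (hw : surf w = 1) :
    XW (MonoidAlgebra.of k Z) (a + s) w = XW (MonoidAlgebra.of k Z) a w := by
  rw [← surf_wd, ← surf_wd]
  apply eq_of_fsU hs
  · rw [← surf_map, ← surf_map, fsU_wd1 hs ha, fsU_wd2 hs ha, surf_map, surf_map, surf_dw hw,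
      map_one, map_one, surf_one_letters]
  · rw [← surf_map, ← surf_map, fsU_wd3 hs]

/-- **The local formula.** -/
theorem evw_wd_add {p : ℕ} {L : Z → Z → Z → ℤ} (H : GCo p L) (hs : CI s) (ha : s * a = 0)
    (hsupp : ∀ z ∈ s.coeff.support, ∀ x, Commute x z) (w : List (Z × Z)) (hw : surf w = 1) :
    evw (cL L) (wd (MonoidAlgebra.of k Z) (a + s) w) =
      evw (cL L) (wd (MonoidAlgebra.of k Z) a w) +
      ∑ z ∈ s.coeff.support, s.coeff z * ((evw (fun x y => L x y z) w : ℤ) : k) := by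
  rw [evw_cL_split H hs, evw_cL_split H hs, surf_wd, surf_wd, XW_add hs ha w hw,
    ← evw_Fs_fsU hs (wd (MonoidAlgebra.of k Z) (a + s) w),
    ← evw_Fs_fsU hs (wd (MonoidAlgebra.of k Z) a w),
    ← evw_Fs_fsU hs.compl (wd (MonoidAlgebra.of k Z) (a + s) w),
    ← evw_Fs_fsU hs.compl (wd (MonoidAlgebra.of k Z) a w), fsU_wd1 hs ha, fsU_wd2 hs ha,
    fsU_wd3 hs, evw_one_letters, evw_Fs_fsU hs]
  have h1 := evw_Gs H hs (mapW (gd k) (dw w))
  rw [surf_map, surf_dw hw, map_one, sub_self, add_zero, evw_map] at h1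
  have h2 : (fun d d' : Fin 3 → Z => Gs L s (gd k d) (gd k d')) =
      fun d d' => ∑ i, sumL L s (d i) (d' i) := by
    funext d d'
    exact Gs_gd L s hsupp d d'
  rw [h2, evw_dw (sumL_one_left H s) (sumL_one_right H s), evw_sumL] at h1
  rw [← h1]
  ring

end Loc

end Pool.Agent.Lib25.H2
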