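import Pool.Agent.Lib_helper25.H2.Kappa2
import Pool.Agent.Lib_helper25.Lin0

/-!
# The relation theorem in `K₁(ℤ[G])`
-/

set_option autoImplicit false
set_option linter.unusedSectionVars false

open Matrix Pool.Agent.WhK

namespace Pool.Agent.Lib25.H2

universe v

namespace Clw

variable {G : Type*} [Group G] {h : G} {w : List (G × G)}

theorem conj (H : Clw h w) (x : G) : Clw (x * h * x⁻¹) (mapW (fun y => x * y * x⁻¹) w) := by
  refine ⟨H.comm.mapW_conj x, ?_⟩
  have h1 := surf_map (MulAut.conj x).toMonoidHom w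
  change surf (mapW (fun y => x * y * x⁻¹) w) = x * surf w * x⁻¹ at h1
  rw [h1, H.closed]
  group

theorem conj' {c : G} (H : Clw c w) (hc : IsConj h c) :
    Clw h (mapW (fun y => (cx h c)⁻¹ * y * cx h c) w) := by
  have h1 := H.conj (cx h c)⁻¹
  have h2 : (cx h c)⁻¹ * c * (cx h c)⁻¹⁻¹ = h := by
    have h3 := cx_spec hc
    set x := cx h c
    rw [← h3]
    group
  rw [h2] at h1
  have h3 : (fun y => (cx h c)⁻¹ * y * cx h c) = fun y => (cx h c)⁻¹ * y * (cx h c)⁻¹⁻¹ := by
    funext y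
    rw [inv_inv]
  rw [h3]
  exact h1

theorem pow (H : Clw h w) (a : ℕ) : Clw (h ^ a) w :=
  ⟨fun q hq => ⟨(H.comm q hq).1.pow_right a, (H.comm q hq).2.pow_right a⟩, H.closed⟩

theorem append {w' : List (G × G)} (H : Clw h w) (H' : Clw h w') : Clw h (w ++ w') := by
  refine ⟨fun q hq => ?_, by rw [surf_append, H.closed, H'.closed, one_mul]⟩
  rcases List.mem_append.1 hq with h1 | h1
  · exact H.comm q h1
  · exact H'.comm q h1

theorem nil : Clw h ([] : List (G × G)) := ⟨fun _ hq => absurd hq List.not_mem_nil, rfl⟩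

end Clw

/-- The data of an element of order `n` and of a closed word in its centraliser, and of a prime
divisor of `n`. -/
structure Idx2 (G : Type v) [Group G] where
  /-- the order -/
  n : ℕ
  /-- the length of the word -/
  g : ℕ
  /-- the prime -/
  p : ℕ
  /-- the homomorphism -/
  φ : CS n g →* G
  hn : 0 < n
  hp : p.Prime
  hpn : p ∣ n
  hφ : Function.Injective (fun c => φ (c, 1))

namespace Idx2

variable {G : Type v} [Group G]

/-- the element of order `n` -/
def h (j : Idx2 G) : G := j.φ (gH j.n j.g)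

/-- the word -/
def w (j : Idx2 G) : List (G × G) := mapW j.φ (gW j.n j.g)

theorem clw (j : Idx2 G) : Clw j.h j.w := by
  have : NeZero j.n := ⟨j.hn.ne'⟩
  exact ⟨CW_gW j.φ, surf_map_gW j.φ⟩

theorem orderOf_h (j : Idx2 G) : orderOf j.h = j.n := by
  have : NeZero j.n := ⟨j.hn.ne'⟩
  let f : Multiplicative (ZMod j.n) →* G := j.φ.comp (MonoidHom.inl _ _)
  have h1 : orderOf (f (Multiplicative.ofAdd 1)) = orderOf (Multiplicative.ofAdd (1 : ZMod j.n)) :=
    orderOf_injective f j.hφ _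
  change orderOf (f (Multiplicative.ofAdd 1)) = j.n
  rw [h1, orderOf_gen (zpowers_one_eq_top j.n), card_Cn]

theorem pow_h (j : Idx2 G) : j.h ^ j.n = 1 := by
  rw [← j.orderOf_h]
  exact pow_orderOf_eq_one _

end Idx2

section Relation

variable {G : Type v} [Group G]

/-- The conditions on the family of cocycles. -/
structure IsAdm2 (L : ℕ → G → G → G → ℤ) : Prop where
  coc : ∀ p h, IsZ2 h (L p h)
  conj : ∀ p h x w, Clw h w →
    evw (L p (x * h * x⁻¹)) (mapW (fun y => x * y * x⁻¹) w) = evw (L p h) w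
  frob : ∀ p h h' w (j k : ℕ), Clw h w → Subgroup.zpowers h = Subgroup.zpowers h' →
    h ^ p ^ j = h' ^ p ^ k → evw (L p h) w = evw (L p h') w
  sum : ∀ h w, IsOfFinOrder h → Clw h w → ∑ p ∈ (orderOf h).primeFactors,
    ∑ a ∈ (Finset.range (orderOf h)).filter (fun a => a.Coprime (orderOf h)),
      evw (L p (h ^ a)) w = 0

theorem mu2_of_not {h c : G} (lam : G → G → ℤ) (w : List (G × G)) (hc : ¬ IsConj h c) :
    mu2 h lam w c = 0 := if_neg hc

theorem mu2_of {h c : G} (lam : G → G → ℤ) (w : List (G × G)) (hc : IsConj h c) :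
    mu2 h lam w c = evw lam (mapW (fun x => (cx h c)⁻¹ * x * cx h c) w) := if_pos hc

theorem mu2_sum_lam {ι : Type*} (s : Finset ι) (h : G) (lam : ι → G → G → ℤ)
    (w : List (G × G)) (c : G) :
    mu2 h (fun x y => ∑ i ∈ s, lam i x y) w c = ∑ i ∈ s, mu2 h (lam i) w c := by
  by_cases H : IsConj h c
  · rw [mu2_of _ _ H, evw_sum]
    refine Finset.sum_congr rfl fun i _ => ?_
    rw [mu2_of _ _ H]
  · rw [mu2_of_not _ _ H, Finset.sum_eq_zero fun i _ => mu2_of_not _ _ H]

theorem mu2_adm {L : ℕ → G → G → G → ℤ} (hL : IsAdm2 L) (q : ℕ) {h c : G} (a : ℕ)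
    {w : List (G × G)} (hw : Clw c w) (hc : IsConj h c) :
    mu2 h (L q (h ^ a)) w c = evw (L q (c ^ a)) w := by
  rw [mu2_of _ _ hc]
  have h1 := hL.conj q (h ^ a) (cx h c) _ ((hw.conj' hc).pow a)
  have h3 : cx h c * h ^ a * (cx h c)⁻¹ = c ^ a := by
    rw [← conj_pow, cx_spec hc]
  rw [h3, mapW_mapW] at h1
  rw [← h1]
  congr 1
  conv_rhs => rw [← mapW_id w]
  congr 1
  funext x
  group

open scoped Classical in
theorem relation2 (N : ℕ → ℕ)
    (κ : ∀ n : ℕ, ℕ → ∀ g : ℕ, K1 (MonoidAlgebra ℤ (CS n g)))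
    (hN : ∀ n, 0 < n → 0 < N n)
    (hκ : ∀ (n : ℕ) [NeZero n] (p : ℕ) [Fact p.Prime], p ∣ n → ∃ t : (ZMod n)ˣ → ℚ_[p],
      (∀ (Y : (ZMod n)ˣ → ℚ) (y : ℚ), ∑ u, t u * (Y u : ℚ_[p]) = (y : ℚ_[p]) →
        ∀ z, (N n : ℚ) * ∑ u ∈ Finset.univ.filter (fun u => uRel n p u z), Y u =
          y * (Finset.univ.filter (fun u => uRel n p u z)).card) ∧
      ∀ (g : ℕ) (φ : CS n g →* G),
        ∃ W : ∀ (q : ℕ) [Fact q.Prime], Pt2 G → ℚ_[q],
          Triv1 (k1g φ (κ n p g)) W ∧
          (∀ x, W p x = ∑ u : (ZMod n)ˣ, t u * ((mu2 x.1.1 x.1.2 (mapW φ (gW n g))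
            (φ (gH n g) ^ (u : ZMod n).val) : ℤ) : ℚ_[p])) ∧
          ∀ (q : ℕ) [Fact q.Prime], q ≠ p → ∀ x, W q x = 0)
    (L : ℕ → G → G → G → ℤ) (hL : IsAdm2 L) (c : Idx2 G →₀ ℤ)
    (hc : (c.sum fun j m => m • k1g j.φ (κ j.n j.p j.g)) = 0) :
    (c.sum fun j m => (m : ℚ) * ((evw (L j.p j.h) j.w : ℤ) : ℚ)) = 0 := by
  -- choose the local data
  have hκ' : ∀ (n : ℕ) (hn : 0 < n) (p : ℕ) (hp : p.Prime) (hpn : p ∣ n),
      haveI : NeZero n := ⟨hn.ne'⟩
      haveI : Fact p.Prime := ⟨hp⟩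
      ∃ t : (ZMod n)ˣ → ℚ_[p],
      (∀ (Y : (ZMod n)ˣ → ℚ) (y : ℚ), ∑ u, t u * (Y u : ℚ_[p]) = (y : ℚ_[p]) →
        ∀ z, (N n : ℚ) * ∑ u ∈ ucl p z, Y u = y * (ucl p z).card) ∧
      ∀ (g : ℕ) (φ : CS n g →* G),
        ∃ W : ∀ (q : ℕ) [Fact q.Prime], Pt2 G → ℚ_[q],
          Triv1 (k1g φ (κ n p g)) W ∧
          (∀ x, W p x = ∑ u : (ZMod n)ˣ, t u * ((mu2 x.1.1 x.1.2 (mapW φ (gW n g))
            (φ (gH n g) ^ (u : ZMod n).val) : ℤ) : ℚ_[p])) ∧
          ∀ (q : ℕ) [Fact q.Prime], q ≠ p → ∀ x, W q x = 0 := by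
    intro n hn p hp hpn
    have : NeZero n := ⟨hn.ne'⟩
    have : Fact p.Prime := ⟨hp⟩
    exact hκ n p hpn
  choose t ht1 ht2 using hκ'
  choose w hw1 hw3 hw4 using fun j : Idx2 G => ht2 j.n j.hn j.p j.hp j.hpn j.g j.φ
  -- detection
  have htriv := Triv1.sum c.support (fun j _ => (hw1 j).zsmul (c j))
  obtain ⟨y, hy⟩ := detection1 htriv hc
  have wform : ∀ (n : ℕ) (hn : 0 < n) (q : ℕ) (hq : q.Prime) (hqn : q ∣ n) (j : Idx2 G)
      (_ : j.n = n) (_ : j.p = q) (x : Pt2 G),
      haveI : NeZero n := ⟨hn.ne'⟩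
      haveI : Fact q.Prime := ⟨hq⟩
      w j q x = ∑ u : (ZMod n)ˣ, t n hn q hq hqn u *
        ((mu2 x.1.1 x.1.2 j.w (j.h ^ (u : ZMod n).val) : ℤ) : ℚ_[q]) := by
    intro n hn q hq hqn j h1 h2 x
    subst h1
    subst h2
    exact hw3 j x
  -- the relation for one prime and one functional
  have star : ∀ (n : ℕ) (hn : 0 < n) (h0 : G) (_ : orderOf h0 = n) (q : ℕ) (_ : q.Prime)
      (_ : q ∣ n) (x : Pt2 G), x.1.1 = h0 →
      haveI : NeZero n := ⟨hn.ne'⟩
      ∀ z : (ZMod n)ˣ, (N n : ℚ) * ∑ u ∈ ucl q z, ∑ j ∈ c.support.filter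
        (fun j => j.n = n ∧ j.p = q),
        (c j : ℚ) * ((mu2 h0 x.1.2 j.w (j.h ^ (u : ZMod n).val) : ℤ) : ℚ) =
      y x * (ucl q z).card := by
    intro n hn h0 hord q hq hqn x hx
    have : NeZero n := ⟨hn.ne'⟩
    have : Fact q.Prime := ⟨hq⟩
    apply ht1 n hn q hq hqn
    have h1 := hy q x (by rw [hx, hord]; exact hqn)
    rw [← h1]
    have h2 : ∀ j ∈ c.support, j ∉ c.support.filter (fun j => j.n = n ∧ j.p = q) →
        (c j : ℚ_[q]) * w j q x = 0 := by
      intro j hj hj'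
      by_cases hjp : j.p = q
      · have hjn : j.n ≠ n := fun h => hj' (Finset.mem_filter.2 ⟨hj, h, hjp⟩)
        have : NeZero j.n := ⟨j.hn.ne'⟩
        rw [wform j.n j.hn q hq (by rw [← hjp]; exact j.hpn) j rfl hjp x, Finset.sum_eq_zero,
          mul_zero]
        intro u _
        rw [mu2_of_not, Int.cast_zero, mul_zero]
        intro hcon
        apply hjn
        have h3 : orderOf (j.h ^ (u : ZMod j.n).val) = j.n := orderOf_pow_val j.orderOf_h u
        have h4 : orderOf x.1.1 = orderOf (j.h ^ (u : ZMod j.n).val) := by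
          obtain ⟨v, hv⟩ := hcon
          exact hv.orderOf_eq (v : G)
        rw [← h3, ← h4, hx, hord]
      · rw [hw4 j q (fun h => hjp h.symm), mul_zero]
    change _ = ∑ j ∈ c.support, (c j : ℚ_[q]) * w j q x
    rw [← Finset.sum_subset (Finset.filter_subset (fun j => j.n = n ∧ j.p = q) c.support) h2]
    push_cast
    simp only [Finset.mul_sum]
    rw [Finset.sum_comm]
    apply Finset.sum_congr rfl
    intro j hj
    obtain ⟨-, hjn, hjp⟩ := Finset.mem_filter.1 hj
    rw [wform n hn q hq hqn j hjn hjp x, Finset.mul_sum]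
    apply Finset.sum_congr rfl
    intro u _
    rw [hx]
    ring
  -- the main computation for one class
  have main : ∀ j0 : Idx2 G, ∑ j ∈ c.support.filter (fun j => cz j.h = cz j0.h),
      (c j : ℚ) * ((evw (L j.p j.h) j.w : ℤ) : ℚ) = 0 := by
    intro j0
    have hNe : NeZero j0.n := ⟨j0.hn.ne'⟩
    set n := j0.n with hn
    set h0 := j0.h with hh0
    have hnpos : 0 < n := j0.hn
    have hord : orderOf h0 = n := j0.orderOf_h
    have hfin : IsOfFinOrder h0 := by
      rw [← orderOf_pos_iff, hord]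
      exact j0.hn
    have hpow : h0 ^ n = 1 := j0.pow_h
    have hNn : (N n : ℚ) ≠ 0 := Nat.cast_ne_zero.2 (hN n hnpos).ne'
    -- the functionals
    have hcent : ∀ (q : ℕ) (a : ℕ), IsCC h0 (L q (h0 ^ a)) := by
      intro q a
      have h1 := hL.coc q (h0 ^ a)
      exact ⟨fun x y z hx hy hz => h1.coc x y z (hx.pow_right a) (hy.pow_right a)
        (hz.pow_right a), fun x hx => h1.one_left x (hx.pow_right a),
        fun x hx => h1.one_right x (hx.pow_right a)⟩
    let X : ℕ → (ZMod n)ˣ → Pt2 G := fun q a =>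
      ⟨(h0, L q (h0 ^ (a : ZMod n).val)), hcent q _, hfin⟩
    -- the number of units conjugating `j.h` into `h0`
    let W : Finset (ZMod n)ˣ := Finset.univ.filter (fun u => IsConj h0 (h0 ^ (u : ZMod n).val))
    have hW : (W.card : ℚ) ≠ 0 := by
      have : (1 : (ZMod n)ˣ) ∈ W := by
        rw [Finset.mem_filter, pow_val_one hpow]
        exact ⟨Finset.mem_univ _, IsConj.refl _⟩
      exact Nat.cast_ne_zero.2 (Finset.card_pos.2 ⟨_, this⟩).ne'
    have hr : ∀ j : Idx2 G, j.n = n →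
        ((Finset.univ.filter (fun u : (ZMod n)ˣ => IsConj h0 (j.h ^ (u : ZMod n).val))).card : ℚ) =
        if cz j.h = cz h0 then (W.card : ℚ) else 0 := by
      intro j hjn
      have hjord : orderOf j.h = n := by rw [j.orderOf_h, hjn]
      have hjpow : j.h ^ n = 1 := by rw [← hjord]; exact pow_orderOf_eq_one _
      split_ifs with hcz
      · obtain ⟨u0, hu0⟩ := exists_unit_of_cz hjord hcz
        congr 1
        refine Finset.card_bij (fun u _ => u0⁻¹ * u) ?_ ?_ ?_
        · intro u hu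
          rw [Finset.mem_filter] at hu ⊢
          refine ⟨Finset.mem_univ _, hu.2.trans ?_⟩
          have h1 := isConj_pow_nat hu0.symm ((u0⁻¹ * u : (ZMod n)ˣ) : ZMod n).val
          rw [← pow_val_mul hjpow, mul_inv_cancel_left] at h1
          exact h1
        · intro u _ v _ huv
          exact mul_left_cancel huv
        · intro v hv
          refine ⟨u0 * v, ?_, by rw [inv_mul_cancel_left]⟩
          rw [Finset.mem_filter] at hv ⊢
          refine ⟨Finset.mem_univ _, hv.2.trans ?_⟩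
          rw [pow_val_mul hjpow]
          exact isConj_pow_nat hu0 _
      · rw [Nat.cast_eq_zero, Finset.card_eq_zero, Finset.filter_eq_empty_iff]
        intro u _ hu
        apply hcz
        rw [← cz_pow_val hjpow u]
        exact (cz_of_isConj hu).symm
    -- the computation for one prime
    have hprime : ∀ q : ℕ, q.Prime → q ∣ n → ∑ a : (ZMod n)ˣ, y (X q a) =
        (N n : ℚ) * W.card * ∑ j ∈ c.support.filter (fun j => cz j.h = cz h0 ∧ j.p = q),
          (c j : ℚ) * ((evw (L j.p j.h) j.w : ℤ) : ℚ) := by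
      intro q hq hqn
      let Y' : (ZMod n)ˣ → ℚ := fun u => ∑ j ∈ c.support.filter (fun j => j.n = n ∧ j.p = q),
        (c j : ℚ) * (if IsConj h0 (j.h ^ (u : ZMod n).val) then ((evw (L q j.h) j.w : ℤ) : ℚ) else 0)
      have h1 : ∀ a : (ZMod n)ˣ, y (X q a) =
          (N n : ℚ) * ((∑ u ∈ ucl q a⁻¹, Y' u) / ((ucl q a⁻¹).card : ℚ)) := by
        intro a
        have h2 := star n hnpos h0 hord q hq hqn (X q a) rfl a⁻¹
        have h3 : ((ucl q a⁻¹).card : ℚ) ≠ 0 := Nat.cast_ne_zero.2 (card_ucl_pos q a⁻¹).ne'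
        rw [← mul_div_assoc, eq_div_iff h3, ← h2]
        congr 1
        apply Finset.sum_congr rfl
        intro u hu
        apply Finset.sum_congr rfl
        intro j hj
        obtain ⟨-, hjn, hjp⟩ := Finset.mem_filter.1 hj
        have hjord : orderOf j.h = n := by rw [j.orderOf_h, hjn]
        have hjpow : j.h ^ n = 1 := by rw [← hjord]; exact pow_orderOf_eq_one _
        congr 1
        have hcomm : Clw (j.h ^ (u : ZMod n).val) j.w := j.clw.pow _
        by_cases hc : IsConj h0 (j.h ^ (u : ZMod n).val)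
        · rw [if_pos hc]
          change ((mu2 h0 (L q (h0 ^ (a : ZMod n).val)) j.w (j.h ^ (u : ZMod n).val) : ℤ) : ℚ) = _
          rw [mu2_adm hL q _ hcomm hc, ← pow_val_mul hjpow]
          congr 1
          have h4 : uRel n q (u * a) 1 := by
            have h5 := uRel_mul (mem_ucl.1 hu) a
            rwa [inv_mul_cancel] at h5
          obtain ⟨i, k, hik⟩ := h4
          apply hL.frob q _ _ _ i k (j.clw.pow _) (zpowers_pow_val hjpow _)
          rw [← pow_mul, pow_eq_pow_iff_modEq, hjord, ← ZMod.natCast_eq_natCast_iff]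
          push_cast
          rw [ZMod.natCast_zmod_val]
          rw [Units.val_one, one_mul] at hik
          rw [← hik, Units.val_mul]
        · rw [if_neg hc, mu2_of_not _ _ hc, Int.cast_zero]
      rw [Finset.sum_congr rfl (fun a _ => h1 a), ← Finset.mul_sum, sum_classes, mul_assoc]
      congr 1
      simp only [Y']
      rw [Finset.sum_comm]
      have h2 : ∀ j ∈ c.support.filter (fun j => j.n = n ∧ j.p = q), ∑ u : (ZMod n)ˣ,
          (c j : ℚ) * (if IsConj h0 (j.h ^ (u : ZMod n).val) then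
            ((evw (L q j.h) j.w : ℤ) : ℚ) else 0) =
          if cz j.h = cz h0 then (W.card : ℚ) * ((c j : ℚ) * ((evw (L j.p j.h) j.w : ℤ) : ℚ))
            else 0 := by
        intro j hj
        obtain ⟨-, hjn, hjp⟩ := Finset.mem_filter.1 hj
        have h3 := hr j hjn
        rw [← Finset.mul_sum, ← Finset.sum_filter, Finset.sum_const, nsmul_eq_mul, h3, hjp]
        split_ifs <;> ring
      rw [Finset.sum_congr rfl h2, ← Finset.sum_filter, Finset.filter_filter, Finset.mul_sum]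
      apply Finset.sum_congr _ (fun _ _ => rfl)
      ext j
      rw [Finset.mem_filter, Finset.mem_filter]
      constructor
      · rintro ⟨h3, ⟨-, h4⟩, h5⟩
        exact ⟨h3, h5, h4⟩
      · rintro ⟨h3, h4, h5⟩
        refine ⟨h3, ⟨?_, h5⟩, h4⟩
        rw [← j.orderOf_h, orderOf_of_cz h4, hord]
    -- the sum over all primes
    have hzero : ∑ q ∈ n.primeFactors, ∑ a : (ZMod n)ˣ, y (X q a) = 0 := by
      have hy' : ∀ (x : Pt2 G), x.1.1 = h0 →
          y x = (N n : ℚ) / ((ucl j0.p (1 : (ZMod n)ˣ)).card : ℚ) *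
          ∑ u ∈ ucl j0.p (1 : (ZMod n)ˣ), ∑ j ∈ c.support.filter (fun j => j.n = n ∧ j.p = j0.p),
            (c j : ℚ) * ((mu2 h0 x.1.2 j.w (j.h ^ (u : ZMod n).val) : ℤ) : ℚ) := by
        intro x hx
        have h1 := star n hnpos h0 hord j0.p j0.hp j0.hpn x hx 1
        have h3 : ((ucl j0.p (1 : (ZMod n)ˣ)).card : ℚ) ≠ 0 :=
          Nat.cast_ne_zero.2 (card_ucl_pos j0.p 1).ne'
        rw [div_mul_eq_mul_div, eq_div_iff h3, ← h1]
      let A : (G → G → ℤ) → ℚ := fun lam => (N n : ℚ) / ((ucl j0.p (1 : (ZMod n)ˣ)).card : ℚ) *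
          ∑ u ∈ ucl j0.p (1 : (ZMod n)ˣ), ∑ j ∈ c.support.filter (fun j => j.n = n ∧ j.p = j0.p),
            (c j : ℚ) * ((mu2 h0 lam j.w (j.h ^ (u : ZMod n).val) : ℤ) : ℚ)
      have hA : ∀ {ι : Type} (s : Finset ι) (lam : ι → G → G → ℤ),
          A (fun g g' => ∑ i ∈ s, lam i g g') = ∑ i ∈ s, A (lam i) := by
        intro ι s lam
        simp only [A, mu2_sum_lam]
        rw [← Finset.mul_sum]
        congr 1
        rw [Finset.sum_comm (s := s)]
        apply Finset.sum_congr rfl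
        intro u _
        rw [Finset.sum_comm (s := s)]
        apply Finset.sum_congr rfl
        intro j _
        push_cast
        rw [Finset.mul_sum]
      have h1 : ∑ q ∈ n.primeFactors, ∑ a : (ZMod n)ˣ, y (X q a) =
          A (fun g g' => ∑ q ∈ n.primeFactors, ∑ a : (ZMod n)ˣ,
            L q (h0 ^ (a : ZMod n).val) g g') := by
        rw [hA]
        apply Finset.sum_congr rfl
        intro q _
        rw [hA]
        apply Finset.sum_congr rfl
        intro a _
        exact hy' (X q a) rfl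
      rw [h1]
      simp only [A]
      rw [Finset.sum_eq_zero, mul_zero]
      intro u _
      apply Finset.sum_eq_zero
      intro j _
      have h2 : mu2 h0 (fun g g' => ∑ q ∈ n.primeFactors, ∑ a : (ZMod n)ˣ,
          L q (h0 ^ (a : ZMod n).val) g g') j.w (j.h ^ (u : ZMod n).val) = 0 := by
        by_cases hc : IsConj h0 (j.h ^ (u : ZMod n).val)
        · rw [mu2_of _ _ hc, evw_sum]
          have h3 := hL.sum h0 _ hfin ((j.clw.pow (u : ZMod n).val).conj' hc)
          rw [hord] at h3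
          rw [← h3]
          apply Finset.sum_congr rfl
          intro q _
          rw [evw_sum]
          exact sum_units_eq (fun z => evw (L q z) _)
        · exact mu2_of_not _ _ hc
      rw [h2, Int.cast_zero, mul_zero]
    -- conclusion
    have hsum : (N n : ℚ) * W.card * ∑ j ∈ c.support.filter (fun j => cz j.h = cz h0),
        (c j : ℚ) * ((evw (L j.p j.h) j.w : ℤ) : ℚ) = 0 := by
      rw [← hzero]
      have h1 : ∑ j ∈ c.support.filter (fun j => cz j.h = cz h0),
          (c j : ℚ) * ((evw (L j.p j.h) j.w : ℤ) : ℚ) =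
          ∑ q ∈ n.primeFactors, ∑ j ∈ c.support.filter (fun j => cz j.h = cz h0 ∧ j.p = q),
          (c j : ℚ) * ((evw (L j.p j.h) j.w : ℤ) : ℚ) := by
        rw [← Finset.sum_fiberwise_of_maps_to (t := n.primeFactors) (g := fun j : Idx2 G => j.p)]
        · apply Finset.sum_congr rfl
          intro q _
          rw [Finset.filter_filter]
        · intro j hj
          have h2 := (Finset.mem_filter.1 hj).2
          have h3 : j.n = n := by rw [← j.orderOf_h, orderOf_of_cz h2, hord]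
          rw [Nat.mem_primeFactors]
          refine ⟨j.hp, ?_, hnpos.ne'⟩
          rw [← h3]
          exact j.hpn
      rw [h1, Finset.mul_sum]
      apply Finset.sum_congr rfl
      intro q hq
      rw [hprime q (Nat.prime_of_mem_primeFactors hq) (Nat.dvd_of_mem_primeFactors hq)]
    exact (mul_eq_zero.1 hsum).resolve_left (mul_ne_zero hNn hW)
  -- partition
  change ∑ j ∈ c.support, (c j : ℚ) * ((evw (L j.p j.h) j.w : ℤ) : ℚ) = 0
  rw [← Finset.sum_fiberwise_of_maps_to (t := c.support.image (fun j => cz j.h))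
    (g := fun j : Idx2 G => cz j.h) (fun j hj => Finset.mem_image_of_mem _ hj)]
  apply Finset.sum_eq_zero
  intro K hK
  obtain ⟨j0, -, rfl⟩ := Finset.mem_image.1 hK
  exact main j0

end Relation

end Pool.Agent.Lib25.H2
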