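import Pool.Agent.Lib_helper25.H2.KU

/-!
# The invariants of the classes attached to closed words
-/

set_option autoImplicit false
set_option linter.unusedSectionVars false

open Matrix Pool.Agent.WhK

namespace Pool.Agent.Lib25.H2

universe u v

section Nat

variable {k : Type*} [CommRing k] {A B : Type*} [Group A] [Group B] (f : A →* B)
  (L : B → B → B → ℤ)

/-- The pull back of a function of three variables. -/
def pbL (f : A →* B) (L : B → B → B → ℤ) (x y z : A) : ℤ := L (f x) (f y) (f z)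

theorem phi3_rm (x y z : MonoidAlgebra k A) :
    phi3 L (rm k f x) (rm k f y) (rm k f z) = phi3 (pbL f L) x y z := by
  induction x using MonoidAlgebra.induction_linear with
  | zero => simp
  | add p q hp hq => simp only [map_add, AddMonoidHom.add_apply, hp, hq]
  | single a u =>
    induction y using MonoidAlgebra.induction_linear with
    | zero => simp
    | add p q hp hq => simp only [map_add, AddMonoidHom.add_apply, hp, hq]
    | single b v =>
      induction z using MonoidAlgebra.induction_linear with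
      | zero => simp
      | add p q hp hq => simp only [map_add, hp, hq]
      | single c w =>
        rw [rm_single, rm_single, rm_single, phi3_single, phi3_single]
        unfold pbL
        rw [map_mul, map_mul]

theorem cL_rm {m : Type*} [Fintype m] [DecidableEq m] (X Y : (Matrix m m (MonoidAlgebra k A))ˣ) :
    cL L (mapU (rm k f) X) (mapU (rm k f) Y) = cL (pbL f L) X Y := by
  unfold cL
  rw [← map_mul, mapU_inv, mapU_val, mapU_val]
  unfold Phi3
  simp only [Matrix.map_apply, phi3_rm]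

theorem evw_cL_rm {m : Type*} [Fintype m] [DecidableEq m]
    (w : List ((Matrix m m (MonoidAlgebra k A))ˣ × (Matrix m m (MonoidAlgebra k A))ˣ)) :
    evw (cL L) (mapW (mapU (rm k f)) w) = evw (cL (pbL f L)) w := by
  rw [evw_map]
  simp only [cL_rm]

theorem GCo.pb {p : ℕ} {L : B → B → B → ℤ} (H : GCo p L) {f : A →* B}
    (hf : Function.Injective f) : GCo p (pbL f L) where
  coc x y z c := by
    have := H.coc (f x) (f y) (f z) (f c)
    unfold pbL
    simp only [map_mul, map_inv]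
    exact this
  one_left x c := by
    unfold pbL
    rw [map_one]
    exact H.one_left _ _
  one_right x c := by
    unfold pbL
    rw [map_one]
    exact H.one_right _ _
  sing x y c h := by
    obtain ⟨h1, h2⟩ := H.sing _ _ _ h
    rw [orderOf_injective f hf] at h2
    refine ⟨?_, h2⟩
    rw [← orderOf_pos_iff, ← orderOf_injective f hf]
    exact orderOf_pos_iff.2 h1

theorem rm_of (g : A) : rm k f (MonoidAlgebra.of k A g) = MonoidAlgebra.of k B (f g) := rm_single k f g 1

theorem wd_rm (a : MonoidAlgebra k A) (w : List (A × A)) :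
    mapW (mapU (rm k f)) (wd (MonoidAlgebra.of k A) a w) =
      wd (MonoidAlgebra.of k B) (rm k f a) (mapW f w) := by
  rw [mapW_wd, wd_mapW]
  congr 1
  apply MonoidHom.ext
  intro g
  exact rm_of f g

theorem XW_rm (a : MonoidAlgebra k A) (w : List (A × A)) :
    mapU (rm k f) (XW (MonoidAlgebra.of k A) a w) =
      XW (MonoidAlgebra.of k B) (rm k f a) (mapW f w) := by
  rw [← surf_wd, ← surf_map, wd_rm, surf_wd]

theorem wd_mapRingHom {k' : Type*} [CommRing k'] (i : k →+* k') (a : MonoidAlgebra k A)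
    (w : List (A × A)) :
    mapW (mapU (MonoidAlgebra.mapRingHom A i)) (wd (MonoidAlgebra.of k A) a w) =
      wd (MonoidAlgebra.of k' A) (MonoidAlgebra.mapRingHom A i a) w := by
  rw [mapW_wd]
  congr 1
  apply MonoidHom.ext
  intro g
  change MonoidAlgebra.mapRingHom A i (MonoidAlgebra.single g 1) = MonoidAlgebra.single g 1
  rw [MonoidAlgebra.mapRingHom_single, map_one]

theorem XW_mapRingHom {k' : Type*} [CommRing k'] (i : k →+* k') (a : MonoidAlgebra k A)
    (w : List (A × A)) :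
    mapU (MonoidAlgebra.mapRingHom A i) (XW (MonoidAlgebra.of k A) a w) =
      XW (MonoidAlgebra.of k' A) (MonoidAlgebra.mapRingHom A i a) w := by
  rw [← surf_wd, ← surf_map, wd_mapRingHom, surf_wd]

theorem sum_rm [Fintype A] (x : MonoidAlgebra k A) (F : B → k) :
    ∑ z ∈ (rm k f x).coeff.support, (rm k f x).coeff z * F z = ∑ c : A, x.coeff c * F (f c) := by
  have h1 : ∀ y : MonoidAlgebra k B, ∑ z ∈ y.coeff.support, y.coeff z * F z =
      Finsupp.liftAddHom (fun z => AddMonoidHom.mulRight (F z)) y.coeff := by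
    intro y
    rfl
  rw [h1]
  induction x using MonoidAlgebra.induction_linear with
  | zero =>
    rw [map_zero, MonoidAlgebra.coeff_zero, map_zero]
    simp
  | add p q hp hq =>
    rw [map_add, MonoidAlgebra.coeff_add, map_add, hp, hq, ← Finset.sum_add_distrib]
    refine Finset.sum_congr rfl fun c _ => ?_
    rw [MonoidAlgebra.coeff_add, Finsupp.add_apply, add_mul]
  | single a u =>
    classical
    rw [rm_single]
    have h2 : (MonoidAlgebra.single (f a) u : MonoidAlgebra k B).coeff =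
        Finsupp.single (f a) u := rfl
    rw [h2, Finsupp.liftAddHom_apply_single, Finset.sum_eq_single a]
    · have h3 : (MonoidAlgebra.single a u : MonoidAlgebra k A).coeff a = u := by
        change Finsupp.single a u a = u
        exact Finsupp.single_eq_same
      rw [h3]
      rfl
    · intro b _ hb
      have h3 : (MonoidAlgebra.single a u : MonoidAlgebra k A).coeff b = 0 := by
        change Finsupp.single a u b = 0
        exact Finsupp.single_eq_of_ne hb
      rw [h3, zero_mul]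
    · intro h; exact absurd (Finset.mem_univ _) h

end Nat

section Node

/-- The coefficient homomorphisms. -/
noncomputable abbrev qp (p : ℕ) [Fact p.Prime] (C : Type*) [Group C] :
    MonoidAlgebra ℚ C →+* MonoidAlgebra ℚ_[p] C := MonoidAlgebra.mapRingHom C (algebraMap ℚ ℚ_[p])

/-- The coefficient homomorphisms. -/
noncomputable abbrev zp (p : ℕ) [Fact p.Prime] (C : Type*) [Group C] :
    MonoidAlgebra ℤ_[p] C →+* MonoidAlgebra ℚ_[p] C :=
  MonoidAlgebra.mapRingHom C (PadicInt.Coe.ringHom (p := p))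

/-- The data attached to an idempotent of `ℚ_p[C]`. -/
structure Node (p : ℕ) [Fact p.Prime] {C : Type*} [CommGroup C] (a : MonoidAlgebra ℚ C)
    (e : MonoidAlgebra ℚ_[p] C) : Prop where
  int1 : ∃ b, cq C b = a - a * a
  int2 : ∃ c, cq C c = a * (a - a * a)
  idem : e * e = e
  orth : e * qp p C a = 0
  loc : ∃ a' : MonoidAlgebra ℤ_[p] C, zp p C a' = qp p C a + e
  away : ∀ (q : ℕ) [Fact q.Prime], q ≠ p → ∃ a' : MonoidAlgebra ℤ_[q] C, zp q C a' = qp q C a

variable {p : ℕ} [hp : Fact p.Prime] {C : Type v} [CommGroup C] [Fintype C]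
  {a : MonoidAlgebra ℚ C} {e : MonoidAlgebra ℚ_[p] C} (H : Node p a e)

theorem rm_central {k : Type*} [CommRing k] {Z : Type*} [Group Z] (ψ : C →* Z)
    (hψ : ∀ c z, Commute (ψ c) z) (a : MonoidAlgebra k C) (x : MonoidAlgebra k Z) :
    rm k ψ a * x = x * rm k ψ a := by
  induction a using MonoidAlgebra.induction_linear with
  | zero => simp
  | add p q hp hq => rw [map_add, add_mul, mul_add, hp, hq]
  | single c r =>
    induction x using MonoidAlgebra.induction_linear with
    | zero => simp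
    | add p q hp hq => rw [add_mul, mul_add, hp, hq]
    | single z s =>
      rw [rm_single, MonoidAlgebra.single_mul_single, MonoidAlgebra.single_mul_single,
        (hψ c z).eq, mul_comm r s]

include H

theorem Node.nodeZ {Z : Type u} [Group Z] (ψ : C →* Z) (hψ : ∀ c z, Commute (ψ c) z) :
    NodeZ (rm ℚ ψ a) where
  cent := rm_central ψ hψ a
  int1 := by
    obtain ⟨b, hb⟩ := H.int1
    refine ⟨rm ℤ ψ b, ?_⟩
    rw [← rm_mapRingHom_apply, hb, map_sub, map_mul]
  int2 := by
    obtain ⟨c, hc⟩ := H.int2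
    refine ⟨rm ℤ ψ c, ?_⟩
    rw [← rm_mapRingHom_apply, hc, map_mul, map_sub, map_mul]

omit H in
theorem mem_support_rm {k : Type*} [CommRing k] {Z : Type*} [Group Z] (ψ : C →* Z)
    (x : MonoidAlgebra k C) {z : Z} (hz : z ∈ (rm k ψ x).coeff.support) : ∃ c, ψ c = z := by
  classical
  by_contra hne
  have h1 := sum_rm ψ x (fun z' => if z' = z then 1 else 0)
  rw [Finset.sum_eq_single z, if_pos rfl, mul_one] at h1
  · rw [Finset.sum_eq_zero] at h1
    · exact (Finsupp.mem_support_iff.1 hz) h1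
    · intro c _
      rw [if_neg (fun h => hne ⟨c, h⟩), mul_zero]
  · intro b _ hb
    rw [if_neg hb, mul_zero]
  · intro h; exact absurd hz h

/-- **The invariants of the class attached to a closed word.** -/
theorem Node.triv {Z G : Type u} [Group Z] [Group G] (ι : Z →* G) (hι : Function.Injective ι)
    (ψ : C →* Z) (hψ : ∀ c z, Commute (ψ c) z) (w : List (Z × Z)) (hw : surf w = 1) :
    ∃ W : ∀ (q : ℕ) [Fact q.Prime], Pt2 G → ℚ_[q],
      Triv1 (xi (rm ℚ (ι.comp ψ) a) (mapW ι w)) W ∧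
      (∀ x, W p x = ∑ c : C, e.coeff c *
        ((mu2 x.1.1 x.1.2 (mapW ι w) (ι (ψ c)) : ℤ) : ℚ_[p])) ∧
      ∀ (q : ℕ) [Fact q.Prime], q ≠ p → ∀ x, W q x = 0 := by
  classical
  have hZ := H.nodeZ ψ hψ
  obtain ⟨hi, hx⟩ := xi_map ι (rm ℚ ψ a) (int_xi hZ hw)
  have e0 : rm ℚ ι (rm ℚ ψ a) = rm ℚ (ι.comp ψ) a := DFunLike.congr_fun (rm_comp ℚ ι ψ) a
  rw [e0] at hi
  obtain ⟨X, hX⟩ := hi
  -- the trivialisations
  have hY : ∀ (q : ℕ) [Fact q.Prime] (a' : MonoidAlgebra ℤ_[q] C) (s : MonoidAlgebra ℚ_[q] C),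
      zp q C a' = qp q C a + s → s * s = s → s * qp q C a = 0 →
      TrivW ℤ_[q] X (fun x => evw (cL x.L) (wd (MonoidAlgebra.of ℤ_[q] G)
        (rm ℤ_[q] (ι.comp ψ) a') (mapW ι w))) ∧
      ∀ x : Pt2 G, ((evw (cL x.L) (wd (MonoidAlgebra.of ℤ_[q] G)
        (rm ℤ_[q] (ι.comp ψ) a') (mapW ι w)) : ℤ_[q]) : ℚ_[q]) =
        ((evw (cL x.L) (wd (MonoidAlgebra.of ℚ G) (rm ℚ (ι.comp ψ) a) (mapW ι w)) : ℚ) : ℚ_[q]) +
          ∑ c : C, s.coeff c * ((mu2 x.1.1 x.1.2 (mapW ι w) (ι (ψ c)) : ℤ) : ℚ_[q]) := by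
    intro q _ a' s h1 h2 h3
    -- over `Z`
    have hs : CI (rm ℚ_[q] ψ s) := ⟨by rw [← map_mul, h2], rm_central ψ hψ s⟩
    have hsa : rm ℚ_[q] ψ s * rm ℚ_[q] ψ (qp q C a) = 0 := by rw [← map_mul, h3, map_zero]
    have hsupp : ∀ z ∈ (rm ℚ_[q] ψ s).coeff.support, ∀ x, Commute x z := by
      intro z hz x
      obtain ⟨c, rfl⟩ := mem_support_rm ψ s hz
      exact (hψ c x).symm
    have hadd := XW_add hs hsa w hw
    have ea : rm ℚ_[q] ι (rm ℚ_[q] ψ (qp q C a) + rm ℚ_[q] ψ s) =
        MonoidAlgebra.mapRingHom G (PadicInt.Coe.ringHom (p := q)) (rm ℤ_[q] (ι.comp ψ) a') := by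
      rw [← rm_mapRingHom_apply]
      change _ = rm ℚ_[q] (ι.comp ψ) (zp q C a')
      rw [h1, ← map_add, ← rm_comp, RingHom.comp_apply]
    have eb : rm ℚ_[q] ι (rm ℚ_[q] ψ (qp q C a)) =
        MonoidAlgebra.mapRingHom G (algebraMap ℚ ℚ_[q]) (rm ℚ (ι.comp ψ) a) := by
      rw [← rm_mapRingHom_apply, ← rm_comp, RingHom.comp_apply]
    have hinj : Function.Injective (mapU (ι := Fin 3)
        (MonoidAlgebra.mapRingHom G (PadicInt.Coe.ringHom (p := q)))) := by
      apply mapU_injective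
      intro x y hxy
      ext g
      have := congrArg (fun z => z.coeff g) hxy
      rw [coeff_mapRingHom', coeff_mapRingHom'] at this
      exact Subtype.coe_injective this
    refine ⟨⟨wd (MonoidAlgebra.of ℤ_[q] G) (rm ℤ_[q] (ι.comp ψ) a') (mapW ι w), ?_,
      fun x => rfl⟩, fun x => ?_⟩
    · rw [surf_wd]
      apply hinj
      rw [XW_mapRingHom, ← ea, ← XW_rm, hadd, XW_rm, eb, ← XW_mapRingHom, ← hX, mapU_comp,
        mapU_comp, mapRingHom_comp', mapRingHom_comp']
      congr 2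
    · have hL := x.gco.pb hι
      have h4 := evw_wd_add hL hs hsa hsupp w hw
      have h5 : evw (cL (k := ℚ_[q]) (pbL ι x.L)) (wd (MonoidAlgebra.of ℚ_[q] Z)
          (rm ℚ_[q] ψ (qp q C a) + rm ℚ_[q] ψ s) w) =
          ((evw (cL x.L) (wd (MonoidAlgebra.of ℤ_[q] G)
        (rm ℤ_[q] (ι.comp ψ) a') (mapW ι w)) : ℤ_[q]) : ℚ_[q]) := by
        rw [← evw_cL_rm, wd_rm, ea, ← wd_mapRingHom, evw_cL_map]
        rfl
      have h6 : evw (cL (k := ℚ_[q]) (pbL ι x.L)) (wd (MonoidAlgebra.of ℚ_[q] Z)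
          (rm ℚ_[q] ψ (qp q C a)) w) =
          ((evw (cL x.L) (wd (MonoidAlgebra.of ℚ G) (rm ℚ (ι.comp ψ) a) (mapW ι w)) : ℚ) :
            ℚ_[q]) := by
        rw [← evw_cL_rm, wd_rm, eb, ← wd_mapRingHom, evw_cL_map]
        rfl
      rw [h5, h6, sum_rm ψ s (fun z => ((evw (fun x' y' => pbL ι x.L x' y' z) w : ℤ) :
        ℚ_[q]))] at h4
      rw [h4]
      congr 1
      refine Finset.sum_congr rfl fun c _ => ?_
      congr 2
      have h7 : CW (ι (ψ c)) (mapW ι w) := by
        intro r hr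
        unfold mapW at hr
        rw [List.mem_map] at hr
        obtain ⟨r', -, rfl⟩ := hr
        constructor
        · change ι r'.1 * ι (ψ c) = ι (ψ c) * ι r'.1
          rw [← map_mul, ← map_mul, (hψ c r'.1).eq]
        · change ι r'.2 * ι (ψ c) = ι (ψ c) * ι r'.2
          rw [← map_mul, ← map_mul, (hψ c r'.2).eq]
      rw [← evw_Lp h7, evw_map]
      rfl
  obtain ⟨e', he1, he2⟩ : ∃ e' : ∀ (q : ℕ) [Fact q.Prime], MonoidAlgebra ℚ_[q] C, e' p = e ∧
      ∀ (q : ℕ) [Fact q.Prime], q ≠ p → e' q = 0 := by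
    refine ⟨fun q _ => if h : q = p then (by subst h; exact e) else 0, ?_, fun q _ hq => ?_⟩
    · exact dif_pos rfl
    · exact dif_neg hq
  obtain ⟨W, hW⟩ : ∃ W : ∀ (q : ℕ) [Fact q.Prime], Pt2 G → ℚ_[q],
      ∀ (q : ℕ) [Fact q.Prime] (x : Pt2 G), W q x = ∑ c : C, (e' q).coeff c *
      ((mu2 x.1.1 x.1.2 (mapW ι w) (ι (ψ c)) : ℤ) : ℚ_[q]) := ⟨_, fun _ _ _ => rfl⟩
  refine ⟨W, ?_, fun x => ?_, fun q _ hq x => ?_⟩
  · refine ⟨3, X, fun x => evw (cL x.L) (wd (MonoidAlgebra.of ℚ G) (rm ℚ (ι.comp ψ) a)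
      (mapW ι w)), ?_, ⟨_, ?_, fun x => rfl⟩, fun q _ => ?_⟩
    · unfold xi
      rw [← hX, tc_mapU cq_inj]
    · rw [surf_wd, hX]
    · by_cases hq : q = p
      · subst hq
        obtain ⟨a', ha'⟩ := H.loc
        obtain ⟨h1, h2⟩ := hY q a' e ha' H.idem H.orth
        refine ⟨_, h1, fun x => ?_⟩
        rw [h2, hW, he1]
        ring
      · obtain ⟨a', ha'⟩ := H.away q hq
        obtain ⟨h1, h2⟩ := hY q a' 0 (by rw [ha', add_zero]) (mul_zero _) (zero_mul _)
        refine ⟨_, h1, fun x => ?_⟩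
        rw [h2, hW, he2 q hq]
        simp
  · rw [hW, he1]
  · rw [hW, he2 q hq]
    simp

end Node

end Pool.Agent.Lib25.H2
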