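import Pool.Agent.Lib_helper25.H2.Slots

/-!
# The class of a null-homologous word vanishes
-/

set_option autoImplicit false
set_option linter.unusedSectionVars false

open Matrix Pool.Agent.WhK

namespace Pool.Agent.Lib25.H2

universe u v

variable {S : Type u} {T T' : Type*} [Ring S] [Ring T] [Ring T'] {i : S →+* T} {π : T →+* T'}
  {a : T} {Z : Type v} [Group Z] (H : ExcD i π a) (ν : Z →* T)

include H

theorem comFR_zero {x : FreeGroup (Z × Bool)} (hx : x ∈ comFR Z) :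
    ∃ Y0 : Finset (Z × Bool), ∀ Y, Y0 ⊆ Y →
      mapU π (Th ν a Y 0 x) = 1 ∧ tt i (Th ν a Y 0 x) = 0 := by
  classical
  unfold comFR at hx
  rw [Subgroup.commutator_def] at hx
  induction hx using Subgroup.closure_induction with
  | mem x hx =>
    obtain ⟨f, -, r, hr, rfl⟩ := hx
    obtain ⟨Y1, h1⟩ := exists_FY f
    obtain ⟨Y2, h2⟩ := exists_FY r
    refine ⟨Y1 ∪ Y2, fun Y hY => ?_⟩
    have h3 := pair_relator H ν Y (FY_mono (Finset.subset_union_left.trans hY) h1)
      (FY_mono (Finset.subset_union_right.trans hY) h2) hr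
    have e : Th ν a Y 0 (f * r * f⁻¹ * r⁻¹) = cm' (Th ν a Y 0 f) (Th ν a Y 0 r) := by
      rw [map_mul, map_mul, map_mul, map_inv, map_inv]
      rfl
    rw [← e] at h3
    exact h3
  | one =>
    refine ⟨∅, fun Y _ => ?_⟩
    rw [map_one, map_one, tt_one H.inj]
    exact ⟨rfl, rfl⟩
  | mul x y _ _ hx hy =>
    obtain ⟨Y1, h1⟩ := hx
    obtain ⟨Y2, h2⟩ := hy
    refine ⟨Y1 ∪ Y2, fun Y hY => ?_⟩
    obtain ⟨h3, h4⟩ := h1 Y (Finset.subset_union_left.trans hY)
    obtain ⟨h5, h6⟩ := h2 Y (Finset.subset_union_right.trans hY)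
    rw [map_mul, map_mul, h3, h5, mul_one, tt_mul H.inj (H.int_of_one h3) (H.int_of_one h5),
      h4, h6, add_zero]
    exact ⟨rfl, rfl⟩
  | inv x _ hx =>
    obtain ⟨Y1, h1⟩ := hx
    refine ⟨Y1, fun Y hY => ?_⟩
    obtain ⟨h3, h4⟩ := h1 Y hY
    rw [map_inv, map_inv, h3, inv_one, tt_inv H.inj (H.int_of_one h3), h4, neg_zero]
    exact ⟨rfl, rfl⟩

omit H in
/-- The matrix attached to a word. -/
def XW (ν : Z →* T) (a : T) (w : List (Z × Z)) : (Matrix (Fin 3) (Fin 3) T)ˣ :=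
  surf (w.map fun q => (DD ν a (0 : Fin 3) 1 q.1, DD ν a (0 : Fin 3) 2 q.2))

omit H in
theorem XW_append (w w' : List (Z × Z)) : XW ν a (w ++ w') = XW ν a w * XW ν a w' := by
  unfold XW
  rw [List.map_append, surf_append]

theorem mapU_XW (w : List (Z × Z)) :
    mapU π (XW ν a w) = dgF (Pi.mulSingle (0 : Fin 3) (thU H ν (surf w))) := by
  induction w with
  | nil =>
    rw [surf_nil, map_one, Pi.mulSingle_one, map_one]
    exact map_one _
  | cons q w ih =>
    have e1 : XW ν a (q :: w) = cm' (DD ν a (0 : Fin 3) 1 q.1) (DD ν a (0 : Fin 3) 2 q.2) *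
        XW ν a w := rfl
    rw [e1, map_mul, ih, mapU_cm', mapU_DD H ν (by decide), mapU_DD H ν (by decide), surf_cons]
    unfold cm'
    rw [← map_inv dgF, ← map_inv dgF, ← map_mul dgF, ← map_mul dgF, ← map_mul dgF, ← map_mul dgF]
    congr 1
    funext k
    simp only [Pi.mul_apply, Pi.inv_apply, map_mul, map_inv, Pi.mulSingle_apply]
    fin_cases k
    · simp
    · simp
    · simp

theorem mapU_XW_one {w : List (Z × Z)} (hw : surf w = 1) : mapU π (XW ν a w) = 1 := by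
  rw [mapU_XW H ν, hw, map_one, Pi.mulSingle_one, map_one]

theorem tt_XW_append {w w' : List (Z × Z)} (hw : surf w = 1) (hw' : surf w' = 1) :
    tt i (XW ν a (w ++ w')) = tt i (XW ν a w) + tt i (XW ν a w') := by
  rw [XW_append, tt_mul H.inj (H.int_of_one (mapU_XW_one H ν hw))
    (H.int_of_one (mapU_XW_one H ν hw'))]

theorem tt_pow {ι : Type*} [Fintype ι] [DecidableEq ι] {X : (Matrix ι ι T)ˣ} (hX : Int i X)
    (n : ℕ) : tt i (X ^ n) = n • tt i X ∧ Int i (X ^ n) := by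
  induction n with
  | zero => rw [pow_zero, zero_smul]; exact ⟨tt_one H.inj, Int.one⟩
  | succ n ih =>
    rw [pow_succ, tt_mul H.inj ih.2 hX, ih.1, succ_nsmul]
    exact ⟨rfl, ih.2.mul hX⟩

omit H in
theorem stage_comm {A : Type*} [Group A] {α β x x' : A} (c1 : Commute x β) (c2 : Commute x' α)
    (c3 : Commute x x') : cm' (α * x) (β * x') = cm' α β := by
  unfold cm'
  have c4 : x * (β * x') = (β * x') * x := (c1.mul_right c3).eq
  calc α * x * (β * x') * (α * x)⁻¹ * (β * x')⁻¹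
      = α * (x * (β * x')) * x⁻¹ * α⁻¹ * (β * x')⁻¹ := by group
    _ = α * β * (x' * α⁻¹) * x'⁻¹ * β⁻¹ := by rw [c4]; group
    _ = α * β * α⁻¹ * β⁻¹ := by rw [c2.inv_right.eq]; group

omit H in
theorem stU_step (Y : Finset (Z × Bool)) (q : Z × Z) :
    cm' (DD ν a (Sum.inl 0 : Sl Y) (Sum.inl 1) q.1 * Th ν a Y 1 (FreeGroup.of (q.1, false)))
      (DD ν a (Sum.inl 0 : Sl Y) (Sum.inl 2) q.2 * Th ν a Y 2 (FreeGroup.of (q.2, true))) =
    stU Y (cm' (DD ν a (0 : Fin 3) 1 q.1) (DD ν a (0 : Fin 3) 2 q.2)) := by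
  have c1 : Commute (Th ν a Y 1 (FreeGroup.of (q.1, false)))
      (DD ν a (Sum.inl 0 : Sl Y) (Sum.inl 2) q.2) := by
    by_cases h : (q.1, false) ∈ Y
    · rw [Th_of ν Y h]
      exact Dd_comm (by simp) (by simp) (by simp) (by simp) _ _ _ _
    · rw [Th_of_not ν Y h]
      exact Commute.one_left _
  have c2 : Commute (Th ν a Y 2 (FreeGroup.of (q.2, true)))
      (DD ν a (Sum.inl 0 : Sl Y) (Sum.inl 1) q.1) := by
    by_cases h : (q.2, true) ∈ Y
    · rw [Th_of ν Y h]
      exact Dd_comm (by simp) (by simp) (by simp) (by simp) _ _ _ _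
    · rw [Th_of_not ν Y h]
      exact Commute.one_left _
  have c3 : Commute (Th ν a Y 1 (FreeGroup.of (q.1, false)))
      (Th ν a Y 2 (FreeGroup.of (q.2, true))) := by
    by_cases h : (q.2, true) ∈ Y
    · by_cases h' : (q.1, false) ∈ Y
      · rw [Th_of ν Y h, Th_of ν Y h']
        exact Dd_comm (by simp) (by simp) (by simp) (by simp) _ _ _ _
      · rw [Th_of_not ν Y h']
        exact Commute.one_left _
    · rw [Th_of_not ν Y h]
      exact Commute.one_right _
  rw [stage_comm c1 c2 c3]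
  unfold cm' DD
  rw [map_mul, map_mul, map_mul, map_inv, map_inv, stU_Dd (by decide), stU_Dd (by decide)]

omit H in
theorem stU_XW (Y : Finset (Z × Bool)) (w : List (Z × Z)) :
    surf (w.map fun q =>
      (DD ν a (Sum.inl 0 : Sl Y) (Sum.inl 1) q.1 * Th ν a Y 1 (FreeGroup.of (q.1, false)),
       DD ν a (Sum.inl 0 : Sl Y) (Sum.inl 2) q.2 * Th ν a Y 2 (FreeGroup.of (q.2, true)))) =
    stU Y (XW ν a w) := by
  induction w with
  | nil => rw [List.map_nil, surf_nil]; exact (map_one _).symm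
  | cons q w ih =>
    have e1 : XW ν a (q :: w) = cm' (DD ν a (0 : Fin 3) 1 q.1) (DD ν a (0 : Fin 3) 2 q.2) *
        XW ν a w := rfl
    rw [e1, List.map_cons, surf_cons, ih, map_mul, ← stU_step]
    rfl

/-- **The class of a null-homologous word vanishes.** -/
theorem tt_XW_null (w : List (Z × Z)) (hw : surf w = 1)
    (hnull : ∀ lam : Z → Z → ℚ, IsCoc2 lam → evw lam w = 0) : tt i (XW ν a w) = 0 := by
  classical
  obtain ⟨N, hN, hx⟩ := hopf w hw hnull
  obtain ⟨Y0, hY0⟩ := comFR_zero H ν hx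
  obtain ⟨Y, hY', hY⟩ : ∃ Y : Finset (Z × Bool), Y0 ⊆ Y ∧
      ∀ q ∈ w, (q.1, false) ∈ Y ∧ (q.2, true) ∈ Y := by
    refine ⟨Y0 ∪ (w.flatMap fun q => [(q.1, false), (q.2, true)]).toFinset,
      Finset.subset_union_left, fun q hq => ?_⟩
    constructor
    · refine Finset.mem_union_right _ ?_
      rw [List.mem_toFinset, List.mem_flatMap]
      exact ⟨q, hq, by simp⟩
    · refine Finset.mem_union_right _ ?_
      rw [List.mem_toFinset, List.mem_flatMap]
      exact ⟨q, hq, by simp⟩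
  obtain ⟨h1, h2⟩ := hY0 Y hY'
  -- the two words
  let P := H.pres (Sl Y)
  let g1 : Z × Z → P × P := fun q =>
    (⟨Th ν a Y 0 (FreeGroup.of (q.1, false)), Th_mem_pres H ν Y 0 _⟩,
     ⟨Th ν a Y 0 (FreeGroup.of (q.2, true)), Th_mem_pres H ν Y 0 _⟩)
  let g2 : Z × Z → P × P := fun q =>
    (⟨DD ν a (Sum.inl 0) (Sum.inl 1) q.1 * Th ν a Y 1 (FreeGroup.of (q.1, false)),
      Subgroup.mul_mem _ (DD_mem_pres H ν _ _ _) (Th_mem_pres H ν Y 1 _)⟩,
     ⟨DD ν a (Sum.inl 0) (Sum.inl 2) q.2 * Th ν a Y 2 (FreeGroup.of (q.2, true)),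
      Subgroup.mul_mem _ (DD_mem_pres H ν _ _ _) (Th_mem_pres H ν Y 2 _)⟩)
  have hA : ((surf (w.map g1) : P) : (Matrix (Sl Y) (Sl Y) T)ˣ) =
      Th ν a Y 0 (surf (tagW w)) := by
    rw [← surf_map (Th ν a Y 0)]
    have := surf_map P.subtype (w.map g1)
    change P.subtype (surf (w.map g1)) = _
    rw [← this]
    unfold mapW tagW
    rw [List.map_map, List.map_map]
    rfl
  have hB : ((surf (w.map g2) : P) : (Matrix (Sl Y) (Sl Y) T)ˣ) = stU Y (XW ν a w) := by
    change P.subtype (surf (w.map g2)) = _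
    rw [← surf_map P.subtype (w.map g2), ← stU_XW]
    unfold mapW
    rw [List.map_map]
    rfl
  have hB1 : mapU π ((surf (w.map g2) : P) : (Matrix (Sl Y) (Sl Y) T)ˣ) = 1 := by
    rw [hB]
    change mapU π (diagU _ _) = 1
    rw [mapU_diagU, mapU_XW_one H ν hw, map_one]
    exact diagU_one_one
  have hcong := word_congr H (w := w.map g2) (w' := w.map g1) (by
    rw [List.forall₂_map_left_iff, List.forall₂_map_right_iff, List.forall₂_same]
    intro q hq
    obtain ⟨hq1, hq2⟩ := hY q hq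
    constructor
    · change mapU π (DD ν a (Sum.inl 0) (Sum.inl 1) q.1 *
        Th ν a Y 1 (FreeGroup.of (q.1, false))) = mapU π (Th ν a Y 0 (FreeGroup.of (q.1, false)))
      rw [map_mul (mapU π), Th_of ν Y hq1, Th_of ν Y hq1, mapU_DD H ν (by simp),
        mapU_DD H ν (by simp), mapU_DD H ν (by simp), ← map_mul dgF]
      congr 1
      rw [Pi.mulSingle_inv, Pi.mulSingle_inv]
      group
    · change mapU π (DD ν a (Sum.inl 0) (Sum.inl 2) q.2 *
        Th ν a Y 2 (FreeGroup.of (q.2, true))) = mapU π (Th ν a Y 0 (FreeGroup.of (q.2, true)))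
      rw [map_mul (mapU π), Th_of ν Y hq2, Th_of ν Y hq2, mapU_DD H ν (by simp),
        mapU_DD H ν (by simp), mapU_DD H ν (by simp), ← map_mul dgF]
      congr 1
      rw [Pi.mulSingle_inv, Pi.mulSingle_inv]
      group) hB1
  rw [hA, hB] at hcong
  obtain ⟨hc1, hc2⟩ := hcong
  have h3 := tt_pow H (H.int_of_one hc1) N
  rw [map_pow] at h2
  rw [h2] at h3
  have h4 : tt i (Th ν a Y 0 (surf (tagW w))) = 0 := ModTors.eq_zero hN h3.1.symm
  rw [h4] at hc2
  have h5 : tt i (stU Y (XW ν a w)) = tt i (XW ν a w) := by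
    change tt i (diagU _ _) = _
    rw [tt_diagU H.inj (H.int_of_one (mapU_XW_one H ν hw)) Int.one, tt_one H.inj, add_zero]
  rw [← h5, hc2]

end Pool.Agent.Lib25.H2
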