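import Pool.Agent.Lib_helper25.Phi
import Pool.Agent.Lib_helper25.H2.Rot

/-!
# The Hochschild cocycle of degree two attached to a conjugation cocycle of degree two
-/

set_option autoImplicit false
set_option linter.unusedSectionVars false

open Matrix

namespace Pool.Agent.Lib25.H2

section Phi3

variable {k : Type*} [CommRing k] {G : Type*} [Group G]

/-- The slice of the trilinear form. -/
noncomputable def phi3Aux (L : G → G → G → ℤ) (g : G) :
    k →+ (MonoidAlgebra k G →+ (MonoidAlgebra k G →+ k)) where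
  toFun a := (AddMonoidHom.compHom (AddMonoidHom.mulLeft a)).comp
    (phi (fun b c => L b c (b * c * g)))
  map_zero' := by
    ext
    simp
  map_add' a a' := by
    ext
    simp [add_mul]

theorem phi3Aux_apply (L : G → G → G → ℤ) (g : G) (a : k) (y z : MonoidAlgebra k G) :
    phi3Aux L g a y z = a * phi (fun b c => L b c (b * c * g)) y z := rfl

/-- The trilinear form `∑ x_a y_b z_c L b c (b c a)` on the group ring. -/
noncomputable def phi3 (L : G → G → G → ℤ) :
    MonoidAlgebra k G →+ (MonoidAlgebra k G →+ (MonoidAlgebra k G →+ k)) :=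
  (Finsupp.liftAddHom (fun g => phi3Aux L g)).comp
    (MonoidAlgebra.coeffAddEquiv (R := k) (M := G)).toAddMonoidHom

theorem phi3_single_left (L : G → G → G → ℤ) (g : G) (a : k) (y z : MonoidAlgebra k G) :
    phi3 L (MonoidAlgebra.single g a) y z = a * phi (fun b c => L b c (b * c * g)) y z := by
  simp only [phi3, AddMonoidHom.comp_apply]
  have : (MonoidAlgebra.coeffAddEquiv (R := k) (M := G)).toAddMonoidHom
      (MonoidAlgebra.single g a) = Finsupp.single g a := rfl
  rw [this, Finsupp.liftAddHom_apply_single]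
  rfl

theorem phi3_single (L : G → G → G → ℤ) (g g' g'' : G) (a b c : k) :
    phi3 L (MonoidAlgebra.single g a) (MonoidAlgebra.single g' b) (MonoidAlgebra.single g'' c) =
      a * b * c * (L g' g'' (g' * g'' * g) : k) := by
  rw [phi3_single_left, phi_single]
  ring

theorem phi3_map {k' : Type*} [CommRing k'] (f : k →+* k') (L : G → G → G → ℤ)
    (x y z : MonoidAlgebra k G) :
    phi3 L (MonoidAlgebra.mapRingHom G f x) (MonoidAlgebra.mapRingHom G f y)
      (MonoidAlgebra.mapRingHom G f z) = f (phi3 L x y z) := by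
  induction x using MonoidAlgebra.induction_linear with
  | zero => simp
  | add p q hp hq => simp [hp, hq]
  | single b u =>
    rw [MonoidAlgebra.mapRingHom_single, phi3_single_left, phi3_single_left, phi_map, map_mul]

variable {p : ℕ} {L : G → G → G → ℤ} (H : GCo p L)

include H

theorem phi3_cocycle (x y z w : MonoidAlgebra k G) :
    phi3 L (x * y) z w - phi3 L x (y * z) w + phi3 L x y (z * w) - phi3 L (w * x) y z = 0 := by
  induction x using MonoidAlgebra.induction_linear with
  | zero => simp
  | add p q hp hq =>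
    simp only [add_mul, mul_add, map_add, AddMonoidHom.add_apply]
    linear_combination hp + hq
  | single a u =>
    induction y using MonoidAlgebra.induction_linear with
    | zero => simp
    | add p q hp hq =>
      simp only [add_mul, mul_add, map_add, AddMonoidHom.add_apply]
      linear_combination hp + hq
    | single b v =>
      induction z using MonoidAlgebra.induction_linear with
      | zero => simp
      | add p q hp hq =>
        simp only [add_mul, mul_add, map_add, AddMonoidHom.add_apply]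
        linear_combination hp + hq
      | single c w' =>
        induction w using MonoidAlgebra.induction_linear with
        | zero => simp
        | add p q hp hq =>
          simp only [add_mul, mul_add, map_add, AddMonoidHom.add_apply]
          linear_combination hp + hq
        | single d s =>
          rw [MonoidAlgebra.single_mul_single, MonoidAlgebra.single_mul_single,
            MonoidAlgebra.single_mul_single, MonoidAlgebra.single_mul_single, phi3_single,
            phi3_single, phi3_single, phi3_single]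
          have h1 := H.coc b c d (b * c * d * a)
          have e1 : b⁻¹ * (b * c * d * a) * b = c * d * (a * b) := by group
          rw [e1] at h1
          have e2 : b * c * (d * a) = b * c * d * a := by group
          have e3 : b * (c * d) * a = b * c * d * a := by group
          rw [e2, e3]
          have h2 := congrArg (fun t : ℤ => (t : k)) h1
          push_cast at h2
          linear_combination (-(u * v * w' * s)) * h2

theorem phi3_one_mid (x z : MonoidAlgebra k G) : phi3 L x 1 z = 0 := by
  induction x using MonoidAlgebra.induction_linear with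
  | zero => simp
  | add p q hp hq => simp [hp, hq]
  | single a u =>
    induction z using MonoidAlgebra.induction_linear with
    | zero => simp
    | add p q hp hq => simp [hp, hq]
    | single c w =>
      rw [MonoidAlgebra.one_def, phi3_single, H.one_left]
      simp

theorem phi3_one_right (x y : MonoidAlgebra k G) : phi3 L x y 1 = 0 := by
  induction x using MonoidAlgebra.induction_linear with
  | zero => simp
  | add p q hp hq => simp [hp, hq]
  | single a u =>
    induction y using MonoidAlgebra.induction_linear with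
    | zero => simp
    | add p q hp hq => simp [hp, hq]
    | single c w =>
      rw [MonoidAlgebra.one_def, phi3_single, H.one_right]
      simp

end Phi3

section Mat

variable {k : Type*} [CommRing k] {G : Type*} [Group G] {l m n o : Type*} [Fintype l] [Fintype m]
  [Fintype n] [Fintype o]

/-- The extension of `phi3` to rectangular matrices. -/
noncomputable def Phi3 (L : G → G → G → ℤ) (X : Matrix l m (MonoidAlgebra k G))
    (Y : Matrix m n (MonoidAlgebra k G)) (Z : Matrix n l (MonoidAlgebra k G)) : k :=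
  ∑ i, ∑ j, ∑ c, phi3 L (X i j) (Y j c) (Z c i)

theorem Phi3_add_left (L : G → G → G → ℤ) (X X' : Matrix l m (MonoidAlgebra k G))
    (Y : Matrix m n (MonoidAlgebra k G)) (Z : Matrix n l (MonoidAlgebra k G)) :
    Phi3 L (X + X') Y Z = Phi3 L X Y Z + Phi3 L X' Y Z := by
  simp only [Phi3, Matrix.add_apply, map_add, AddMonoidHom.add_apply, Finset.sum_add_distrib]

theorem Phi3_add_mid (L : G → G → G → ℤ) (X : Matrix l m (MonoidAlgebra k G))
    (Y Y' : Matrix m n (MonoidAlgebra k G)) (Z : Matrix n l (MonoidAlgebra k G)) :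
    Phi3 L X (Y + Y') Z = Phi3 L X Y Z + Phi3 L X Y' Z := by
  simp only [Phi3, Matrix.add_apply, map_add, AddMonoidHom.add_apply, Finset.sum_add_distrib]

theorem Phi3_add_right (L : G → G → G → ℤ) (X : Matrix l m (MonoidAlgebra k G))
    (Y : Matrix m n (MonoidAlgebra k G)) (Z Z' : Matrix n l (MonoidAlgebra k G)) :
    Phi3 L X Y (Z + Z') = Phi3 L X Y Z + Phi3 L X Y Z' := by
  simp only [Phi3, Matrix.add_apply, map_add, Finset.sum_add_distrib]

theorem Phi3_zero_left (L : G → G → G → ℤ)
    (Y : Matrix m n (MonoidAlgebra k G)) (Z : Matrix n l (MonoidAlgebra k G)) :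
    Phi3 L (0 : Matrix l m (MonoidAlgebra k G)) Y Z = 0 := by
  simp [Phi3]

theorem Phi3_zero_mid (L : G → G → G → ℤ)
    (X : Matrix l m (MonoidAlgebra k G)) (Z : Matrix n l (MonoidAlgebra k G)) :
    Phi3 L X (0 : Matrix m n (MonoidAlgebra k G)) Z = 0 := by
  simp [Phi3]

theorem Phi3_zero_right (L : G → G → G → ℤ)
    (X : Matrix l m (MonoidAlgebra k G)) (Y : Matrix m n (MonoidAlgebra k G)) :
    Phi3 L X Y (0 : Matrix n l (MonoidAlgebra k G)) = 0 := by
  simp [Phi3]

theorem Phi3_neg_left (L : G → G → G → ℤ) (X : Matrix l m (MonoidAlgebra k G))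
    (Y : Matrix m n (MonoidAlgebra k G)) (Z : Matrix n l (MonoidAlgebra k G)) :
    Phi3 L (-X) Y Z = - Phi3 L X Y Z := by
  have h := Phi3_add_left L X (-X) Y Z
  rw [add_neg_cancel, Phi3_zero_left] at h
  linear_combination -h

theorem Phi3_neg_mid (L : G → G → G → ℤ) (X : Matrix l m (MonoidAlgebra k G))
    (Y : Matrix m n (MonoidAlgebra k G)) (Z : Matrix n l (MonoidAlgebra k G)) :
    Phi3 L X (-Y) Z = - Phi3 L X Y Z := by
  have h := Phi3_add_mid L X Y (-Y) Z
  rw [add_neg_cancel, Phi3_zero_mid] at h
  linear_combination -h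

theorem Phi3_neg_right (L : G → G → G → ℤ) (X : Matrix l m (MonoidAlgebra k G))
    (Y : Matrix m n (MonoidAlgebra k G)) (Z : Matrix n l (MonoidAlgebra k G)) :
    Phi3 L X Y (-Z) = - Phi3 L X Y Z := by
  have h := Phi3_add_right L X Y Z (-Z)
  rw [add_neg_cancel, Phi3_zero_right] at h
  linear_combination -h

theorem Phi3_map {k' : Type*} [CommRing k'] (f : k →+* k') (L : G → G → G → ℤ)
    (X : Matrix l m (MonoidAlgebra k G)) (Y : Matrix m n (MonoidAlgebra k G))
    (Z : Matrix n l (MonoidAlgebra k G)) :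
    Phi3 L (X.map (MonoidAlgebra.mapRingHom G f)) (Y.map (MonoidAlgebra.mapRingHom G f))
      (Z.map (MonoidAlgebra.mapRingHom G f)) = f (Phi3 L X Y Z) := by
  simp only [Phi3, Matrix.map_apply, phi3_map, map_sum]

theorem Phi3_submatrix {l' m' n' : Type*} [Fintype l'] [Fintype m'] [Fintype n']
    (L : G → G → G → ℤ) (X : Matrix l m (MonoidAlgebra k G))
    (Y : Matrix m n (MonoidAlgebra k G)) (Z : Matrix n l (MonoidAlgebra k G))
    (e : l' ≃ l) (f : m' ≃ m) (g : n' ≃ n) :
    Phi3 L (X.submatrix e f) (Y.submatrix f g) (Z.submatrix g e) = Phi3 L X Y Z := by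
  simp only [Phi3, Matrix.submatrix_apply]
  rw [← e.sum_comp (fun i => ∑ j, ∑ c, phi3 L (X i j) (Y j c) (Z c i))]
  refine Finset.sum_congr rfl fun i _ => ?_
  rw [← f.sum_comp (fun j => ∑ c, phi3 L (X (e i) j) (Y j c) (Z c (e i)))]
  exact Finset.sum_congr rfl fun j _ =>
    g.sum_comp (fun c => phi3 L (X (e i) (f j)) (Y (f j) c) (Z c (e i)))

theorem Phi3_blocks {l' m' n' : Type*} [Fintype l'] [Fintype m'] [Fintype n']
    (L : G → G → G → ℤ) (X : Matrix l m (MonoidAlgebra k G))
    (Y : Matrix m n (MonoidAlgebra k G)) (Z : Matrix n l (MonoidAlgebra k G))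
    (X' : Matrix l' m' (MonoidAlgebra k G))
    (Y' : Matrix m' n' (MonoidAlgebra k G)) (Z' : Matrix n' l' (MonoidAlgebra k G)) :
    Phi3 L (Matrix.fromBlocks X 0 0 X') (Matrix.fromBlocks Y 0 0 Y')
      (Matrix.fromBlocks Z 0 0 Z') = Phi3 L X Y Z + Phi3 L X' Y' Z' := by
  simp [Phi3, Fintype.sum_sum_type]

variable {p : ℕ} {L : G → G → G → ℤ} (H : GCo p L)

include H

theorem Phi3_cocycle (X : Matrix l m (MonoidAlgebra k G)) (Y : Matrix m n (MonoidAlgebra k G))
    (Z : Matrix n o (MonoidAlgebra k G)) (W : Matrix o l (MonoidAlgebra k G)) :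
    Phi3 L (X * Y) Z W - Phi3 L X (Y * Z) W + Phi3 L X Y (Z * W) - Phi3 L (W * X) Y Z = 0 := by
  have h1 : Phi3 L (X * Y) Z W =
      ∑ i, ∑ a, ∑ b, ∑ c, phi3 L (X i a * Y a b) (Z b c) (W c i) := by
    simp only [Phi3, Matrix.mul_apply, map_sum, AddMonoidHom.finsetSum_apply]
    refine Finset.sum_congr rfl fun i _ => ?_
    calc ∑ b, ∑ c, ∑ a, phi3 L (X i a * Y a b) (Z b c) (W c i)
        = ∑ b, ∑ a, ∑ c, phi3 L (X i a * Y a b) (Z b c) (W c i) :=
          Finset.sum_congr rfl fun b _ => Finset.sum_comm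
      _ = _ := Finset.sum_comm
  have h2 : Phi3 L X (Y * Z) W =
      ∑ i, ∑ a, ∑ b, ∑ c, phi3 L (X i a) (Y a b * Z b c) (W c i) := by
    simp only [Phi3, Matrix.mul_apply, map_sum, AddMonoidHom.finsetSum_apply]
    refine Finset.sum_congr rfl fun i _ => Finset.sum_congr rfl fun a _ => ?_
    exact Finset.sum_comm
  have h3 : Phi3 L X Y (Z * W) =
      ∑ i, ∑ a, ∑ b, ∑ c, phi3 L (X i a) (Y a b) (Z b c * W c i) := by
    simp only [Phi3, Matrix.mul_apply, map_sum]
  have h4 : Phi3 L (W * X) Y Z =
      ∑ i, ∑ a, ∑ b, ∑ c, phi3 L (W c i * X i a) (Y a b) (Z b c) := by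
    simp only [Phi3, Matrix.mul_apply, map_sum, AddMonoidHom.finsetSum_apply]
    calc ∑ c, ∑ a, ∑ b, ∑ i, phi3 L (W c i * X i a) (Y a b) (Z b c)
        = ∑ c, ∑ a, ∑ i, ∑ b, phi3 L (W c i * X i a) (Y a b) (Z b c) :=
          Finset.sum_congr rfl fun c _ => Finset.sum_congr rfl fun a _ => Finset.sum_comm
      _ = ∑ c, ∑ i, ∑ a, ∑ b, phi3 L (W c i * X i a) (Y a b) (Z b c) :=
          Finset.sum_congr rfl fun c _ => Finset.sum_comm
      _ = ∑ i, ∑ c, ∑ a, ∑ b, phi3 L (W c i * X i a) (Y a b) (Z b c) := Finset.sum_comm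
      _ = ∑ i, ∑ a, ∑ c, ∑ b, phi3 L (W c i * X i a) (Y a b) (Z b c) :=
          Finset.sum_congr rfl fun i _ => Finset.sum_comm
      _ = ∑ i, ∑ a, ∑ b, ∑ c, phi3 L (W c i * X i a) (Y a b) (Z b c) :=
          Finset.sum_congr rfl fun i _ => Finset.sum_congr rfl fun a _ => Finset.sum_comm
  rw [h1, h2, h3, h4]
  simp only [← Finset.sum_sub_distrib, ← Finset.sum_add_distrib]
  refine Finset.sum_eq_zero fun i _ => Finset.sum_eq_zero fun a _ => Finset.sum_eq_zero fun b _ =>
    Finset.sum_eq_zero fun c _ => phi3_cocycle H _ _ _ _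

theorem Phi3_one_mid [DecidableEq m] (X : Matrix l m (MonoidAlgebra k G))
    (Z : Matrix m l (MonoidAlgebra k G)) : Phi3 L X 1 Z = 0 := by
  unfold Phi3
  refine Finset.sum_eq_zero fun i _ => Finset.sum_eq_zero fun a _ => Finset.sum_eq_zero fun b _ => ?_
  by_cases h : a = b
  · subst h
    rw [Matrix.one_apply_eq, phi3_one_mid H]
  · rw [Matrix.one_apply_ne h]
    simp

theorem Phi3_one_right [DecidableEq l] (X : Matrix l m (MonoidAlgebra k G))
    (Y : Matrix m l (MonoidAlgebra k G)) : Phi3 L X Y 1 = 0 := by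
  unfold Phi3
  refine Finset.sum_eq_zero fun i _ => Finset.sum_eq_zero fun a _ => Finset.sum_eq_zero fun b _ => ?_
  by_cases h : b = i
  · subst h
    rw [Matrix.one_apply_eq, phi3_one_right H]
  · rw [Matrix.one_apply_ne h]
    simp

end Mat

section Det

variable {k : Type*} [CommRing k] {G : Type*} [Group G] {m n : Type*} [Fintype m]
  [DecidableEq m] [Fintype n] [DecidableEq n]

/-- The cocycle on the general linear group. -/
noncomputable def cL (L : G → G → G → ℤ) (X Y : (Matrix m m (MonoidAlgebra k G))ˣ) : k :=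
  Phi3 L (((X * Y)⁻¹ : (Matrix m m (MonoidAlgebra k G))ˣ) : Matrix m m (MonoidAlgebra k G))
    (X : Matrix m m (MonoidAlgebra k G)) (Y : Matrix m m (MonoidAlgebra k G))

theorem cL_isCoc2 {p : ℕ} {L : G → G → G → ℤ} (H : GCo p L) :
    IsCoc2 (cL (k := k) (m := m) L) where
  coc X Y Z := by
    have h := Phi3_cocycle (k := k) H
      (((X * Y * Z)⁻¹ : (Matrix m m (MonoidAlgebra k G))ˣ) : Matrix m m (MonoidAlgebra k G))
      (X : Matrix m m (MonoidAlgebra k G)) (Y : Matrix m m (MonoidAlgebra k G))
      (Z : Matrix m m (MonoidAlgebra k G))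
    have e1 : (((X * Y * Z)⁻¹ : (Matrix m m (MonoidAlgebra k G))ˣ) :
        Matrix m m (MonoidAlgebra k G)) * (X : Matrix m m (MonoidAlgebra k G)) =
        (((Y * Z)⁻¹ : (Matrix m m (MonoidAlgebra k G))ˣ) : Matrix m m (MonoidAlgebra k G)) := by
      rw [← Units.val_mul]
      congr 1
      group
    have e2 : (Z : Matrix m m (MonoidAlgebra k G)) *
        (((X * Y * Z)⁻¹ : (Matrix m m (MonoidAlgebra k G))ˣ) : Matrix m m (MonoidAlgebra k G)) =
        (((X * Y)⁻¹ : (Matrix m m (MonoidAlgebra k G))ˣ) : Matrix m m (MonoidAlgebra k G)) := by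
      rw [← Units.val_mul]
      congr 1
      group
    rw [e1, e2, ← Units.val_mul, ← Units.val_mul] at h
    unfold cL
    rw [← mul_assoc X Y Z]
    linear_combination -h
  one_left X := Phi3_one_mid H _ _
  one_right X := Phi3_one_right H _ _

end Det

end Pool.Agent.Lib25.H2
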