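import Pool.Agent.Lib_helper25.H2.Words3
import Pool.Agent.Lib_helper25.H2.Phi3

/-!
# Vanishing of the degree two characters on words over `ℤ_p[G]`
-/

set_option autoImplicit false
set_option linter.unusedSectionVars false

open Matrix

namespace Pool.Agent.Lib25.H2

section First

variable {k : Type*} [CommRing k] {m : Type*} [Fintype m] [DecidableEq m] {N : ℕ} [NeZero N]
  {G : Type*} [Group G] [DecidableEq G]

/-- Contraction of all letters but the first. -/
theorem ctr_first {J : Type*} [Fintype J] [DecidableEq J] (f : J → Matrix m m k) (π : J → G)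
    (hf : ∀ s, ∑ x ∈ Finset.univ.filter (fun x => π x = s), f x = if s = 1 then 1 else 0)
    (g : J → G → k) :
    ∑ w : ZMod N → J, ctr (fun t => f (w t)) * g (w 0) (cyc (fun t => π (w t))) =
      ∑ x, (f x).trace * g x (π x) := by
  let f' : ZMod N → Option J → Matrix m m k := fun t v =>
    match v with
    | none => if t = 0 then 0 else 1
    | some x => if t = 0 then f x else 0
  let π1 : ZMod N → J → Option J × G := fun t x => (if t = 0 then some x else none, π x)
  let π2 : ZMod N → Option J → Option J × G := fun _ v => (v, match v with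
    | none => 1
    | some x => π x)
  let Ψ : (ZMod N → Option J × G) → k := fun s =>
    match (s 0).1 with
    | none => 0
    | some x => g x (cyc (fun t => (s t).2))
  have h := ctr_contract (N := N) (fun _ x => f x) π1 f' π2 (fun t s => by
    by_cases ht : t = 0
    · subst ht
      have e1 : ∀ x, π1 0 x = (some x, π x) := fun x => by
        simp [π1]
      simp only [e1]
      rw [Finset.sum_filter, Finset.sum_filter, Fintype.sum_option]
      have e2 : (if π2 0 none = s then f' 0 none else 0) = 0 := by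
        have : f' 0 none = 0 := if_pos rfl
        rw [this, ite_self]
      rw [e2, zero_add]
      refine Finset.sum_congr rfl fun x _ => ?_
      have e3 : f' 0 (some x) = f x := if_pos rfl
      rw [e3]
    · have e1 : ∀ x, π1 t x = (none, π x) := fun x => by
        simp only [π1]
        rw [if_neg ht]
      simp only [e1]
      rw [Finset.sum_filter, Finset.sum_filter, Fintype.sum_option]
      have e3 : ∀ x, f' t (some x) = 0 := fun x => if_neg ht
      have e4 : f' t none = 1 := if_neg ht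
      have e5 : ∑ x, (if π2 t (some x) = s then f' t (some x) else 0) = 0 :=
        Finset.sum_eq_zero fun x _ => by rw [e3, ite_self]
      rw [e5, add_zero, e4]
      obtain ⟨s1, s2⟩ := s
      cases s1 with
      | none =>
        have h1 := hf s2
        rw [Finset.sum_filter] at h1
        have e6 : (π2 t none = (none, s2)) ↔ s2 = 1 := by
          change ((none, (1 : G)) = (none, s2)) ↔ _
          rw [Prod.mk.injEq]
          exact ⟨fun h => h.2.symm, fun h => ⟨rfl, h.symm⟩⟩
        simp only [e6]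
        rw [← h1]
        refine Finset.sum_congr rfl fun x _ => ?_
        simp only [Prod.mk.injEq, true_and]
      | some y =>
        have e6 : ¬ (π2 t none = (some y, s2)) := by
          intro h
          have := congrArg Prod.fst h
          exact absurd this (by simp [π2])
        rw [if_neg e6]
        refine Finset.sum_eq_zero fun x _ => ?_
        rw [if_neg]
        intro h
        have := congrArg Prod.fst h
        exact absurd this (by simp)) Ψ
  have h1 : ∀ w : ZMod N → J, Ψ (fun t => π1 t (w t)) = g (w 0) (cyc (fun t => π (w t))) := by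
    intro w
    have e1 : (π1 0 (w 0)).1 = some (w 0) := if_pos rfl
    simp only [Ψ]
    rw [e1]
  simp only [h1] at h
  rw [h]
  let vx : J ↪ (ZMod N → Option J) := ⟨fun x t => if t = 0 then some x else none, fun x y hxy => by
    have := congrFun hxy 0
    simpa using this⟩
  have hsub : ∑ w : ZMod N → Option J, ctr (fun t => f' t (w t)) * Ψ (fun t => π2 t (w t)) =
      ∑ w ∈ Finset.univ.map vx, ctr (fun t => f' t (w t)) * Ψ (fun t => π2 t (w t)) := by
    symm
    refine Finset.sum_subset (Finset.subset_univ _) fun w _ hw => ?_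
    have h3 : ∃ t, f' t (w t) = 0 := by
      by_contra hcon
      push Not at hcon
      apply hw
      rw [Finset.mem_map]
      have h4 : ∃ x, w 0 = some x := by
        cases h0 : w 0 with
        | none =>
          exfalso
          apply hcon 0
          rw [h0]
          exact if_pos rfl
        | some x => exact ⟨x, rfl⟩
      obtain ⟨x, hx⟩ := h4
      refine ⟨x, Finset.mem_univ _, ?_⟩
      funext t
      change (if t = 0 then some x else none) = w t
      split_ifs with ht
      · rw [ht, hx]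
      · cases h0 : w t with
        | none => rfl
        | some y =>
          exfalso
          apply hcon t
          rw [h0]
          exact if_neg ht
    obtain ⟨t, ht⟩ := h3
    rw [ctr_zero _ t ht, zero_mul]
  rw [hsub, Finset.sum_map]
  refine Finset.sum_congr rfl fun x _ => ?_
  have e1 : ctr (fun t => f' t (vx x t)) = (f x).trace := by
    rw [ctr_single]
    · change (f' 0 (if (0 : ZMod N) = 0 then some x else none)).trace = _
      rw [if_pos rfl]
      change (if (0 : ZMod N) = 0 then f x else 0).trace = _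
      rw [if_pos rfl]
    · intro t ht
      change f' t (if t = 0 then some x else none) = 1
      rw [if_neg ht]
      exact if_neg ht
  have e2 : Ψ (fun t => π2 t (vx x t)) = g x (π x) := by
    have e3 : vx x 0 = some x := if_pos rfl
    have e4 : cyc (fun t => (π2 t (vx x t)).2) = π x := by
      rw [cyc_single]
      · rw [e3]
      · intro t ht
        have : vx x t = none := if_neg ht
        rw [this]
    simp only [Ψ]
    have e5 : (π2 0 (vx x 0)).1 = some x := e3
    rw [e5]
    simp only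
    rw [e4]
  rw [e1, e2]

end First

section Sums3

variable {k : Type*} [CommRing k] {G : Type*} [Group G] {m : Type*} [Fintype m] [DecidableEq m]
  {N : ℕ} [NeZero N]

/-- The matrix of the coefficients at `g`. -/
def cm (A : Matrix m m (MonoidAlgebra k G)) (g : G) : Matrix m m k := fun i j => (A i j).coeff g

/-- The supports of the entries lie in `F`. -/
def InF (F : Finset G) (A : Matrix m m (MonoidAlgebra k G)) : Prop :=
  ∀ i j, (A i j).coeff.support ⊆ F

open scoped Classical in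
theorem cm_filter {F : Finset G} {A : Matrix m m (MonoidAlgebra k G)} (hA : InF F A) (s : G) :
    ∑ x : F, (if (x : G) = s then cm A x else 0) = cm A s := by
  by_cases hs : s ∈ F
  · rw [Finset.sum_eq_single ⟨s, hs⟩]
    · rw [if_pos rfl]
    · intro b _ hb
      rw [if_neg]
      intro h
      exact hb (Subtype.ext h)
    · intro h
      exact absurd (Finset.mem_univ _) h
  · rw [Finset.sum_eq_zero]
    · ext i j
      change 0 = (A i j).coeff s
      exact (Finsupp.notMem_support_iff.1 (fun h => hs (hA i j h))).symm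
    · intro x _
      rw [if_neg]
      rintro rfl
      exact hs x.2

open scoped Classical in
theorem cm_mul_filter {F : Finset G} {A B : Matrix m m (MonoidAlgebra k G)} (hA : InF F A)
    (hB : InF F B) (s : G) :
    ∑ x : F, ∑ y : F, (if (x : G) * y = s then cm A x * cm B y else 0) = cm (A * B) s := by
  ext i j
  have h := coeff_mul_matrix F A B hA hB i j s
  rw [Finset.sum_filter] at h
  simp only [Fintype.sum_prod_type] at h
  change _ = ((A * B) i j).coeff s
  rw [← h]
  have e : ∀ x y : F, (if (x : G) * y = s then cm A x * cm B y else 0) i j =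
      ∑ l, if (x : G) * y = s then (A i l).coeff x * (B l j).coeff y else 0 := by
    intro x y
    split_ifs with hxy
    · rw [Matrix.mul_apply]
      rfl
    · simp
  simp only [Matrix.sum_apply, e]
  calc ∑ x : F, ∑ y : F, ∑ l, (if (x : G) * y = s then (A i l).coeff x * (B l j).coeff y else 0)
      = ∑ x : F, ∑ l, ∑ y : F, (if (x : G) * y = s then (A i l).coeff x * (B l j).coeff y else 0) :=
        Finset.sum_congr rfl fun x _ => Finset.sum_comm
    _ = _ := Finset.sum_comm

/-- The word of group elements. -/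
def lt3 {F : Finset G} (w : ZMod N → F × F × F) : ZMod N → G × G × G :=
  fun t => ((w t).1, (w t).2.1, (w t).2.2)

/-- The word of group elements. -/
def lt2 {F : Finset G} (w : ZMod N → F × F) : ZMod N → G × G :=
  fun t => ((w t).1, (w t).2)

/-- The sum over words of triples. -/
def S3 (F : Finset G) (P Q R : Matrix m m (MonoidAlgebra k G))
    (Ψ : (ZMod N → G × G × G) → ℤ) : k :=
  ∑ w : ZMod N → F × F × F, ctr (fun t => cm P (w t).1 * cm Q (w t).2.1 * cm R (w t).2.2) *
    (Ψ (lt3 w) : k)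

/-- The sum over words of pairs. -/
def S2 (F : Finset G) (P Q : Matrix m m (MonoidAlgebra k G))
    (Ψ : (ZMod N → G × G) → ℤ) : k :=
  ∑ w : ZMod N → F × F, ctr (fun t => cm P (w t).1 * cm Q (w t).2) * (Ψ (lt2 w) : k)

theorem S3_add (F : Finset G) (P Q R : Matrix m m (MonoidAlgebra k G))
    (Ψ Ψ' : (ZMod N → G × G × G) → ℤ) :
    S3 F P Q R (fun w => Ψ w + Ψ' w) = S3 F P Q R Ψ + S3 F P Q R Ψ' := by
  unfold S3
  rw [← Finset.sum_add_distrib]
  refine Finset.sum_congr rfl fun w _ => ?_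
  push_cast
  ring

theorem S3_sub (F : Finset G) (P Q R : Matrix m m (MonoidAlgebra k G))
    (Ψ Ψ' : (ZMod N → G × G × G) → ℤ) :
    S3 F P Q R (fun w => Ψ w - Ψ' w) = S3 F P Q R Ψ - S3 F P Q R Ψ' := by
  unfold S3
  rw [← Finset.sum_sub_distrib]
  refine Finset.sum_congr rfl fun w _ => ?_
  push_cast
  ring

theorem S3_sum {ι : Type*} (s : Finset ι) (F : Finset G) (P Q R : Matrix m m (MonoidAlgebra k G))
    (Ψ : ι → (ZMod N → G × G × G) → ℤ) :
    S3 F P Q R (fun w => ∑ i ∈ s, Ψ i w) = ∑ i ∈ s, S3 F P Q R (Ψ i) := by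
  unfold S3
  rw [Finset.sum_comm]
  refine Finset.sum_congr rfl fun w _ => ?_
  push_cast
  rw [Finset.mul_sum]

theorem S3_smul (a : ℤ) (F : Finset G) (P Q R : Matrix m m (MonoidAlgebra k G))
    (Ψ : (ZMod N → G × G × G) → ℤ) :
    S3 F P Q R (fun w => a * Ψ w) = a * S3 F P Q R Ψ := by
  unfold S3
  rw [Finset.mul_sum]
  refine Finset.sum_congr rfl fun w _ => ?_
  push_cast
  ring

theorem S3_rot (F : Finset G) (P Q R : Matrix m m (MonoidAlgebra k G))
    (Ψ : (ZMod N → G × G × G) → ℤ) :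
    S3 F P Q R (fun w => Ψ (rot 1 w)) = S3 F P Q R Ψ := by
  unfold S3
  rw [← (rotE N (F × F × F)).sum_comp (fun w : ZMod N → F × F × F =>
    ctr (fun t => cm P (w t).1 * cm Q (w t).2.1 * cm R (w t).2.2) * (Ψ (lt3 w) : k))]
  refine Finset.sum_congr rfl fun w _ => ?_
  have h1 : ctr (fun t => cm P ((rotE N (F × F × F) w) t).1 * cm Q ((rotE N (F × F × F) w) t).2.1 *
      cm R ((rotE N (F × F × F) w) t).2.2) =
      ctr (fun t => cm P (w t).1 * cm Q (w t).2.1 * cm R (w t).2.2) :=
    ctr_rot (fun t => cm P (w t).1 * cm Q (w t).2.1 * cm R (w t).2.2)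
  have h2 : rot 1 (lt3 w) = lt3 ((rotE N (F × F × F)) w) := by
    funext t
    rw [rot1_apply]
    rfl
  rw [h1, ← h2]

theorem S3_rot' (F : Finset G) (P Q R : Matrix m m (MonoidAlgebra k G))
    (Ψ : (ZMod N → G × G × G) → ℤ) (d : ℕ) :
    S3 F P Q R (fun w => Ψ (rot d w)) = S3 F P Q R Ψ := by
  induction d with
  | zero =>
    simp only [rot_zero]
  | succ d ih =>
    have h1 := S3_rot F P Q R (fun w => Ψ (rot d w))
    rw [← ih, ← h1]
    congr 1
    funext w
    rw [rot_rot]

theorem fC_sum {F : Finset G} {P Q R : Matrix m m (MonoidAlgebra k G)} (hQ : InF F Q)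
    (hR : InF F R) (hQR : InF F (Q * R)) (Ψ : (ZMod N → G × G) → ℤ) :
    S3 F P Q R (fun w => Ψ (fC w)) = S2 F P (Q * R) Ψ := by
  classical
  unfold S3 S2
  refine ctr_contract (N := N) (fun _ (x : F × F × F) => cm P x.1 * cm Q x.2.1 * cm R x.2.2)
    (fun _ x => ((x.1 : G), (x.2.1 : G) * x.2.2))
    (fun _ (x : F × F) => cm P x.1 * cm (Q * R) x.2) (fun _ x => ((x.1 : G), (x.2 : G)))
    (fun _ s => ?_) (fun s => (Ψ s : k))
  rw [Finset.sum_filter, Finset.sum_filter, Fintype.sum_prod_type, Fintype.sum_prod_type]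
  refine Finset.sum_congr rfl fun x _ => ?_
  by_cases hx : (x : G) = s.1
  · have e1 := cm_mul_filter hQ hR s.2
    have e2 := cm_filter hQR s.2
    rw [Fintype.sum_prod_type]
    have e3 : ∀ y z : F, (if ((x : G), (y : G) * z) = s then cm P (x : G) * cm Q (y : G) * cm R (z : G)
        else 0) = cm P (x : G) * (if (y : G) * z = s.2 then cm Q (y : G) * cm R (z : G) else 0) := by
      intro y z
      by_cases h : (y : G) * z = s.2
      · rw [if_pos h, if_pos (Prod.ext hx h), mul_assoc]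
      · rw [if_neg h, if_neg (fun h' => h (congrArg Prod.snd h')), mul_zero]
    have e4 : ∀ y : F, (if ((x : G), (y : G)) = s then cm P (x : G) * cm (Q * R) (y : G) else 0) =
        cm P (x : G) * (if (y : G) = s.2 then cm (Q * R) (y : G) else 0) := by
      intro y
      by_cases h : (y : G) = s.2
      · rw [if_pos h, if_pos (Prod.ext hx h)]
      · rw [if_neg h, if_neg (fun h' => h (congrArg Prod.snd h')), mul_zero]
    simp only [e3, e4, ← Finset.mul_sum]
    rw [e1, e2]
  · rw [Finset.sum_eq_zero, Finset.sum_eq_zero]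
    · intro y _
      rw [if_neg (fun h' => hx (congrArg Prod.fst h'))]
    · intro y _
      rw [if_neg (fun h' => hx (congrArg Prod.fst h'))]

theorem fB_sum {F : Finset G} {P Q R : Matrix m m (MonoidAlgebra k G)} (hP : InF F P)
    (hQ : InF F Q) (hPQ : InF F (P * Q)) (Ψ : (ZMod N → G × G) → ℤ) :
    S3 F P Q R (fun w => Ψ (fB w)) = S2 F (P * Q) R Ψ := by
  classical
  unfold S3 S2
  refine ctr_contract (N := N) (fun _ (x : F × F × F) => cm P x.1 * cm Q x.2.1 * cm R x.2.2)
    (fun _ x => ((x.1 : G) * (x.2.1 : G), (x.2.2 : G)))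
    (fun _ (x : F × F) => cm (P * Q) x.1 * cm R x.2) (fun _ x => ((x.1 : G), (x.2 : G)))
    (fun _ s => ?_) (fun s => (Ψ s : k))
  rw [Finset.sum_filter, Finset.sum_filter]
  simp only [Fintype.sum_prod_type]
  have e1 := cm_mul_filter hP hQ s.1
  have e2 := cm_filter hPQ s.1
  have e3 : ∀ x y z : F, (if ((x : G) * y, (z : G)) = s then cm P (x : G) * cm Q (y : G) * cm R (z : G)
      else 0) = (if (x : G) * y = s.1 then cm P (x : G) * cm Q (y : G) else 0) *
        (if (z : G) = s.2 then cm R (z : G) else 0) := by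
    intro x y z
    by_cases h : (x : G) * y = s.1
    · by_cases h2 : (z : G) = s.2
      · rw [if_pos h, if_pos h2, if_pos (Prod.ext h h2)]
      · rw [if_neg h2, if_neg (fun h' => h2 (congrArg Prod.snd h')), mul_zero]
    · rw [if_neg h, if_neg (fun h' => h (congrArg Prod.fst h')), zero_mul]
  have e4 : ∀ x z : F, (if ((x : G), (z : G)) = s then cm (P * Q) (x : G) * cm R (z : G)
      else 0) = (if (x : G) = s.1 then cm (P * Q) (x : G) else 0) *
        (if (z : G) = s.2 then cm R (z : G) else 0) := by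
    intro x z
    by_cases h : (x : G) = s.1
    · by_cases h2 : (z : G) = s.2
      · rw [if_pos h, if_pos h2, if_pos (Prod.ext h h2)]
      · rw [if_neg h2, if_neg (fun h' => h2 (congrArg Prod.snd h')), mul_zero]
    · rw [if_neg h, if_neg (fun h' => h (congrArg Prod.fst h')), zero_mul]
  simp only [e3, e4, ← Finset.mul_sum, ← Finset.sum_mul]
  rw [e1, e2]

/-- Regrouping of the letters. -/
def regA (N : ℕ) (X : Type*) : (ZMod N → X × X × X) ≃ (ZMod N → X × X × X) where
  toFun w t := ((w (t - 1)).2.2, (w t).1, (w t).2.1)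
  invFun w t := ((w t).2.1, (w t).2.2, (w (t + 1)).1)
  left_inv w := by
    funext t
    change ((w t).1, (w t).2.1, (w (t + 1 - 1)).2.2) = w t
    rw [add_sub_cancel_right]
  right_inv w := by
    funext t
    change ((w (t - 1 + 1)).1, (w t).2.1, (w t).2.2) = w t
    rw [sub_add_cancel]

theorem S3_regA {F : Finset G} (P Q R : Matrix m m (MonoidAlgebra k G))
    (Ψ : (ZMod N → G × G × G) → ℤ) :
    S3 F P Q R Ψ = S3 F R P Q (fun w => Ψ (fun t => ((w t).2.1, (w t).2.2, (w (t + 1)).1))) := by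
  unfold S3
  rw [← (regA N F).sum_comp (fun w : ZMod N → F × F × F =>
    ctr (fun t => cm R (w t).1 * cm P (w t).2.1 * cm Q (w t).2.2) *
      ((Ψ (fun t => ((lt3 w t).2.1, (lt3 w t).2.2, (lt3 w (t + 1)).1)) : ℤ) : k))]
  refine Finset.sum_congr rfl fun w _ => ?_
  congr 1
  · have h := ctr_mul_comm (N := N) (fun t => cm R ((w (t - 1)).2.2 : G))
      (fun t => cm P ((w t).1 : G) * cm Q ((w t).2.1 : G))
    have e1 : (fun t : ZMod N => cm P ((w t).1 : G) * cm Q ((w t).2.1 : G) * cm R ((w t).2.2 : G)) =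
        fun t : ZMod N => cm P ((w t).1 : G) * cm Q ((w t).2.1 : G) *
          cm R ((w (t + 1 - 1)).2.2 : G) := by
      funext t
      rw [add_sub_cancel_right]
    rw [e1, ← h]
    congr 1
    funext t
    rw [← mul_assoc]
    rfl
  · congr 2
    funext t
    change ((w t).1.1, (w t).2.1.1, (w t).2.2.1) =
      ((w t).1.1, (w t).2.1.1, (w (t + 1 - 1)).2.2.1)
    rw [add_sub_cancel_right]

theorem fA_sum {F : Finset G} {P Q R : Matrix m m (MonoidAlgebra k G)} (hP : InF F P)
    (hR : InF F R) (hRP : InF F (R * P)) (Ψ : (ZMod N → G × G) → ℤ) :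
    S3 F P Q R (fun w => Ψ (fA w)) = S2 F (R * P) Q Ψ := by
  rw [S3_regA, ← fB_sum hR hP hRP]
  congr 1
  funext w
  congr 1
  funext t
  change ((w (t - 1 + 1)).1 * (w t).2.1, (w t).2.2) = _
  rw [sub_add_cancel]
  rfl

theorem expand {F : Finset G} {x : MonoidAlgebra k G} (hx : x.coeff.support ⊆ F) :
    ∑ g : F, MonoidAlgebra.single (g : G) (x.coeff g) = x := by
  have h1 : ∑ g : F, MonoidAlgebra.single (g : G) (x.coeff g) =
      ∑ g ∈ F, MonoidAlgebra.single g (x.coeff g) := by
    rw [← Finset.sum_coe_sort F (fun g => MonoidAlgebra.single g (x.coeff g))]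
  rw [h1]
  have h3 := Finset.sum_subset hx (f := fun g => MonoidAlgebra.single g (x.coeff g))
    (fun g _ hg => by
      rw [Finsupp.notMem_support_iff.1 hg]
      simp)
  rw [← h3]
  exact MonoidAlgebra.sum_coeff_single x

theorem phi3_sum {F : Finset G} {x y z : MonoidAlgebra k G} (hx : x.coeff.support ⊆ F)
    (hy : y.coeff.support ⊆ F) (hz : z.coeff.support ⊆ F) (L : G → G → G → ℤ) :
    phi3 L x y z = ∑ a : F, ∑ b : F, ∑ c : F, x.coeff a * y.coeff b * z.coeff c *
      ((L b c ((b : G) * c * a) : ℤ) : k) := by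
  conv_lhs => rw [← expand hx, ← expand hy, ← expand hz]
  rw [map_sum (phi3 L), AddMonoidHom.finsetSum_apply, AddMonoidHom.finsetSum_apply]
  refine Finset.sum_congr rfl fun a _ => ?_
  rw [map_sum (phi3 L _), AddMonoidHom.finsetSum_apply]
  refine Finset.sum_congr rfl fun b _ => ?_
  rw [map_sum]
  refine Finset.sum_congr rfl fun c _ => ?_
  rw [phi3_single]

theorem Phi3_sum {F : Finset G} {P Q R : Matrix m m (MonoidAlgebra k G)} (hP : InF F P)
    (hQ : InF F Q) (hR : InF F R) (L : G → G → G → ℤ) :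
    Phi3 L P Q R = ∑ a : F, ∑ b : F, ∑ c : F, (cm P (a : G) * cm Q (b : G) * cm R (c : G)).trace *
      ((L b c ((b : G) * c * a) : ℤ) : k) := by
  have h1 : ∀ a b c : F, (cm P (a : G) * cm Q (b : G) * cm R (c : G)).trace =
      ∑ i, ∑ j, ∑ l, (P i j).coeff a * (Q j l).coeff b * (R l i).coeff c := by
    intro a b c
    rw [Matrix.trace]
    refine Finset.sum_congr rfl fun i _ => ?_
    rw [Matrix.diag_apply, Matrix.mul_apply, Finset.sum_comm]
    refine Finset.sum_congr rfl fun l _ => ?_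
    rw [Matrix.mul_apply, Finset.sum_mul]
    rfl
  unfold Phi3
  simp only [h1, Finset.sum_mul]
  have h2 : ∀ i j l, phi3 L (P i j) (Q j l) (R l i) = ∑ a : F, ∑ b : F, ∑ c : F,
      (P i j).coeff a * (Q j l).coeff b * (R l i).coeff c *
      ((L b c ((b : G) * c * a) : ℤ) : k) := fun i j l => phi3_sum (hP i j) (hQ j l) (hR l i) L
  simp only [h2]
  have sw : ∀ (f : m → F → k), ∑ i, ∑ a, f i a = ∑ a, ∑ i, f i a := fun f => Finset.sum_comm
  calc ∑ i, ∑ j, ∑ l, ∑ a : F, ∑ b : F, ∑ c : F,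
      (P i j).coeff a * (Q j l).coeff b * (R l i).coeff c * ((L b c ((b : G) * c * a) : ℤ) : k)
      = ∑ i, ∑ j, ∑ a : F, ∑ l, ∑ b : F, ∑ c : F,
      (P i j).coeff a * (Q j l).coeff b * (R l i).coeff c * ((L b c ((b : G) * c * a) : ℤ) : k) :=
        Finset.sum_congr rfl fun i _ => Finset.sum_congr rfl fun j _ => Finset.sum_comm
    _ = ∑ i, ∑ a : F, ∑ j, ∑ l, ∑ b : F, ∑ c : F,
      (P i j).coeff a * (Q j l).coeff b * (R l i).coeff c * ((L b c ((b : G) * c * a) : ℤ) : k) :=
        Finset.sum_congr rfl fun i _ => Finset.sum_comm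
    _ = ∑ a : F, ∑ i, ∑ j, ∑ l, ∑ b : F, ∑ c : F,
      (P i j).coeff a * (Q j l).coeff b * (R l i).coeff c * ((L b c ((b : G) * c * a) : ℤ) : k) :=
        Finset.sum_comm
    _ = ∑ a : F, ∑ i, ∑ j, ∑ b : F, ∑ l, ∑ c : F,
      (P i j).coeff a * (Q j l).coeff b * (R l i).coeff c * ((L b c ((b : G) * c * a) : ℤ) : k) :=
        Finset.sum_congr rfl fun a _ => Finset.sum_congr rfl fun i _ =>
          Finset.sum_congr rfl fun j _ => Finset.sum_comm
    _ = ∑ a : F, ∑ i, ∑ b : F, ∑ j, ∑ l, ∑ c : F,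
      (P i j).coeff a * (Q j l).coeff b * (R l i).coeff c * ((L b c ((b : G) * c * a) : ℤ) : k) :=
        Finset.sum_congr rfl fun a _ => Finset.sum_congr rfl fun i _ => Finset.sum_comm
    _ = ∑ a : F, ∑ b : F, ∑ i, ∑ j, ∑ l, ∑ c : F,
      (P i j).coeff a * (Q j l).coeff b * (R l i).coeff c * ((L b c ((b : G) * c * a) : ℤ) : k) :=
        Finset.sum_congr rfl fun a _ => Finset.sum_comm
    _ = ∑ a : F, ∑ b : F, ∑ i, ∑ j, ∑ c : F, ∑ l,
      (P i j).coeff a * (Q j l).coeff b * (R l i).coeff c * ((L b c ((b : G) * c * a) : ℤ) : k) :=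
        Finset.sum_congr rfl fun a _ => Finset.sum_congr rfl fun b _ =>
          Finset.sum_congr rfl fun i _ => Finset.sum_congr rfl fun j _ => Finset.sum_comm
    _ = ∑ a : F, ∑ b : F, ∑ i, ∑ c : F, ∑ j, ∑ l,
      (P i j).coeff a * (Q j l).coeff b * (R l i).coeff c * ((L b c ((b : G) * c * a) : ℤ) : k) :=
        Finset.sum_congr rfl fun a _ => Finset.sum_congr rfl fun b _ =>
          Finset.sum_congr rfl fun i _ => Finset.sum_comm
    _ = ∑ a : F, ∑ b : F, ∑ c : F, ∑ i, ∑ j, ∑ l,
      (P i j).coeff a * (Q j l).coeff b * (R l i).coeff c * ((L b c ((b : G) * c * a) : ℤ) : k) :=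
        Finset.sum_congr rfl fun a _ => Finset.sum_congr rfl fun b _ => Finset.sum_comm

theorem lam0_sum {F : Finset G} {P Q R : Matrix m m (MonoidAlgebra k G)} (hP : InF F P)
    (hQ : InF F Q) (hR : InF F R) (hQR : InF F (Q * R)) (hQRP : Q * R * P = 1)
    (L : G → G → G → ℤ) :
    S3 (N := N) F P Q R (lam0 L) = Phi3 L P Q R := by
  classical
  have h1 : S3 (N := N) F P Q R (lam0 L) = ∑ w : ZMod N → F × F × F,
      ctr (fun t => cm Q ((w t).1 : G) * cm R ((w t).2.1 : G) * cm P ((w t).2.2 : G)) *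
        ((L ((w 0).1 : G) ((w 0).2.1 : G)
          (cyc (fun t => ((w t).1 : G) * (w t).2.1 * (w t).2.2)) : ℤ) : k) := by
    rw [← (regA N F).symm.sum_comp]
    unfold S3
    refine Finset.sum_congr rfl fun w _ => ?_
    congr 1
    have h := ctr_mul_comm (N := N) (fun t => cm P ((w t).1 : G))
      (fun t => cm Q ((w t).2.1 : G) * cm R ((w t).2.2 : G))
    have e1 : (fun t : ZMod N => cm P ((w t).1 : G) * cm Q ((w t).2.1 : G) * cm R ((w t).2.2 : G)) =
        fun t : ZMod N => cm P ((w t).1 : G) * (cm Q ((w t).2.1 : G) * cm R ((w t).2.2 : G)) := by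
      funext t
      rw [mul_assoc]
    rw [e1, h]
    rfl
  rw [h1]
  have h2 := ctr_first (N := N) (J := F × F × F) (G := G) (k := k)
    (fun x => cm Q (x.1 : G) * cm R (x.2.1 : G) * cm P (x.2.2 : G))
    (fun x => (x.1 : G) * x.2.1 * x.2.2) (fun s => by
      rw [Finset.sum_filter]
      simp only [Fintype.sum_prod_type]
      have e0 : cm (Q * R * P) s = if s = 1 then 1 else 0 := by
        rw [hQRP]
        ext i j
        change ((1 : Matrix m m (MonoidAlgebra k G)) i j).coeff s = _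
        rw [coeff_one_apply]
        split_ifs with hs hij
        · rw [hij, Matrix.one_apply_eq]
        · rw [Matrix.one_apply_ne hij]
        · rfl
      rw [← e0, ← cm_mul_filter hQR hP s]
      have e1 : ∀ v z : F, (if (v : G) * z = s then cm (Q * R) (v : G) * cm P (z : G) else 0) =
          (if (v : G) = s * (z : G)⁻¹ then cm (Q * R) (v : G) else 0) * cm P (z : G) := by
        intro v z
        by_cases h : (v : G) = s * (z : G)⁻¹
        · rw [if_pos h, if_pos (by rw [h]; group)]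
        · rw [if_neg h, if_neg (fun h' => h (by rw [← h']; group)), zero_mul]
      have e2 : ∀ x y z : F, (if (x : G) * y * z = s then cm Q (x : G) * cm R (y : G) *
          cm P (z : G) else 0) = (if (x : G) * y = s * (z : G)⁻¹ then cm Q (x : G) * cm R (y : G)
            else 0) * cm P (z : G) := by
        intro x y z
        by_cases h : (x : G) * y = s * (z : G)⁻¹
        · rw [if_pos h, if_pos (by rw [h]; group)]
        · rw [if_neg h, if_neg (fun h' => h (by rw [← h']; group)), zero_mul]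
      simp only [e1, e2]
      calc ∑ x : F, ∑ y : F, ∑ z : F, (if (x : G) * y = s * (z : G)⁻¹ then
            cm Q (x : G) * cm R (y : G) else 0) * cm P (z : G)
          = ∑ x : F, ∑ z : F, ∑ y : F, (if (x : G) * y = s * (z : G)⁻¹ then
            cm Q (x : G) * cm R (y : G) else 0) * cm P (z : G) :=
            Finset.sum_congr rfl fun x _ => Finset.sum_comm
        _ = ∑ z : F, ∑ x : F, ∑ y : F, (if (x : G) * y = s * (z : G)⁻¹ then
            cm Q (x : G) * cm R (y : G) else 0) * cm P (z : G) := Finset.sum_comm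
        _ = ∑ z : F, cm (Q * R) (s * (z : G)⁻¹) * cm P (z : G) := by
            refine Finset.sum_congr rfl fun z _ => ?_
            rw [← cm_mul_filter hQ hR]
            simp only [Finset.sum_mul]
        _ = ∑ z : F, ∑ v : F, (if (v : G) = s * (z : G)⁻¹ then cm (Q * R) (v : G) else 0) *
              cm P (z : G) := by
            refine Finset.sum_congr rfl fun z _ => ?_
            rw [← Finset.sum_mul, cm_filter hQR]
        _ = _ := Finset.sum_comm) (fun x c => ((L (x.1 : G) (x.2.1 : G) c : ℤ) : k))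
  rw [h2, Phi3_sum hP hQ hR]
  simp only [Fintype.sum_prod_type]
  calc ∑ x : F, ∑ y : F, ∑ z : F, (cm Q (x : G) * cm R (y : G) * cm P (z : G)).trace *
        ((L (x : G) (y : G) ((x : G) * y * z) : ℤ) : k)
      = ∑ x : F, ∑ z : F, ∑ y : F, (cm Q (x : G) * cm R (y : G) * cm P (z : G)).trace *
        ((L (x : G) (y : G) ((x : G) * y * z) : ℤ) : k) :=
        Finset.sum_congr rfl fun x _ => Finset.sum_comm
    _ = ∑ z : F, ∑ x : F, ∑ y : F, (cm Q (x : G) * cm R (y : G) * cm P (z : G)).trace *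
        ((L (x : G) (y : G) ((x : G) * y * z) : ℤ) : k) := Finset.sum_comm
    _ = _ := by
        refine Finset.sum_congr rfl fun z _ => Finset.sum_congr rfl fun x _ =>
          Finset.sum_congr rfl fun y _ => ?_
        congr 1
        rw [Matrix.trace_mul_comm, mul_assoc]

end Sums3

section Cas

variable {G : Type*} [Group G] {p : ℕ}

theorem pre_cas (n : ℕ) (s : ZMod (p ^ n) → G) (d : ℕ) :
    pre (fun t => s (cas p n t)) d = pre s d := by
  induction d with
  | zero => rfl
  | succ d ih => rw [pre_succ, pre_succ, ih, cas_natCast]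

theorem cyc_cas (n : ℕ) (s : ZMod (p ^ n) → G) :
    cyc (fun t => s (cas p n t)) = (cyc s) ^ p := by
  have h1 := pre_periodic (fun t => s (cas p n t)) (p ^ n) (fun i => by
    rw [map_add, cas_natCast, ZMod.natCast_self, add_zero]) p
  have h0 := pre_cas n s (p ^ n)
  have h2 : cyc (fun t => s (cas p n t)) = pre (fun t => s (cas p n t)) (p ^ n * p) := rfl
  rw [h2, h1, h0]
  rfl

theorem rot_cas {X : Type*} (n : ℕ) (s : ZMod (p ^ n) → X) (d : ℕ) :
    rot d (fun t => s (cas p n t)) = fun t => rot d s (cas p n t) := by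
  funext t
  change s (cas p n (t + (d : ZMod (p ^ (n + 1))))) = s (cas p n t + (d : ZMod (p ^ n)))
  rw [map_add, cas_natCast]

theorem lam0_cas (L : G → G → G → ℤ) (n : ℕ) (w : ZMod (p ^ n) → G × G × G) :
    lam0 L (fun t => w (cas p n t)) = lam0 (fun x y c => L x y (c ^ p)) w := by
  unfold lam0
  have h1 : c3 (fun t => w (cas p n t)) = (c3 w) ^ p := by
    unfold c3
    rw [← cyc_cas]
    congr 1
    funext t
    change (w (cas p n t)).2.1 * (w (cas p n t)).2.2 * (w (cas p n (t + 1))).1 = _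
    rw [map_add, map_one]
  rw [h1]
  change L (w (cas p n 0)).2.1 (w (cas p n 0)).2.2 _ = _
  rw [map_zero]

theorem Sw_cas (L : G → G → G → ℤ) (n : ℕ) (w : ZMod (p ^ n) → G × G × G) :
    Sw L (fun t => w (cas p n t)) = p * Sw (fun x y c => L x y (c ^ p)) w := by
  unfold Sw
  have h1 := sum_range_periodic (fun t : ℕ => lam0 (fun x y c => L x y (c ^ p)) (rot t w)) (p ^ n)
    (fun t => by
      congr 1
      funext i
      change w _ = w _
      congr 1
      rw [Nat.cast_add, ZMod.natCast_self, add_zero]) p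
  rw [← pow_succ] at h1
  rw [← h1]
  refine Finset.sum_congr rfl fun t _ => ?_
  rw [rot_cas, lam0_cas]

theorem fA_cas (n : ℕ) (w : ZMod (p ^ n) → G × G × G) :
    fA (fun t => w (cas p n t)) = fun t => fA w (cas p n t) := by
  funext t
  change ((w (cas p n (t - 1))).2.2 * _, _) = ((w (cas p n t - 1)).2.2 * _, _)
  rw [map_sub, map_one]

end Cas

section Main

variable {G : Type*} [Group G] {m : Type*} [Fintype m] [DecidableEq m] {p : ℕ}
  [hpf : Fact p.Prime]

/-- The supports of a unit and its inverse lie in `F`. -/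
def InU (F : Finset G) (X : (Matrix m m (MonoidAlgebra ℤ_[p] G))ˣ) : Prop :=
  InF F (X : Matrix m m (MonoidAlgebra ℤ_[p] G)) ∧
    InF F ((X⁻¹ : (Matrix m m (MonoidAlgebra ℤ_[p] G))ˣ) : Matrix m m (MonoidAlgebra ℤ_[p] G))

theorem approx {L : G → G → G → ℤ} (H : GCo p L) (F : Finset G) (j : ℕ) :
    ∃ (n : ℕ) (Θ : (Matrix m m (MonoidAlgebra ℤ_[p] G))ˣ → ℤ_[p]), ∀ X Y,
      InU F X → InU F Y → InU F (X * Y) →
      (p : ℤ_[p]) ^ (n + 1 + (j + 1)) ∣
        (p : ℤ_[p]) ^ (n + 1) * (cL L X Y - cL (fun x y c => L x y (c ^ p)) X Y) -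
          (Θ X + Θ Y - Θ (X * Y)) := by
  classical
  have hprime : p.Prime := hpf.out
  obtain ⟨χ, hχ, hχ2⟩ := H.exists_chi
  let E : Finset G := Finset.univ.image (fun x : F × F × F => (x.1 : G) * x.2.1 * x.2.2)
  have hE : ∀ x y z : F, (x : G) * y * z ∈ E := fun x y z =>
    Finset.mem_image.2 ⟨(x, y, z), Finset.mem_univ _, rfl⟩
  obtain ⟨M, hM⟩ := exists_good H hχ2 E j
  let n := max M (j + 1)
  have : NeZero (p ^ n) := ⟨pow_ne_zero _ hprime.ne_zero⟩
  have : NeZero (p ^ (n + 1)) := ⟨pow_ne_zero _ hprime.ne_zero⟩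
  obtain ⟨ψ, hψ1, hψ2⟩ := exists_psi H hχ (n := n + 1) (j := j) (by omega)
  refine ⟨n, fun X => S2 (N := p ^ (n + 1)) F
    ((X⁻¹ : (Matrix m m (MonoidAlgebra ℤ_[p] G))ˣ) : Matrix m m (MonoidAlgebra ℤ_[p] G)) X ψ -
    S2 (N := p ^ n) F
    ((X⁻¹ : (Matrix m m (MonoidAlgebra ℤ_[p] G))ˣ) : Matrix m m (MonoidAlgebra ℤ_[p] G)) X
      (fun u => ψ (fun t => u (cas p n t))), fun X Y hX hY hXY => ?_⟩
  set P : Matrix m m (MonoidAlgebra ℤ_[p] G) :=
    (((X * Y)⁻¹ : (Matrix m m (MonoidAlgebra ℤ_[p] G))ˣ) : Matrix m m (MonoidAlgebra ℤ_[p] G))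
    with hP
  set Q : Matrix m m (MonoidAlgebra ℤ_[p] G) := (X : Matrix m m (MonoidAlgebra ℤ_[p] G)) with hQ
  set R : Matrix m m (MonoidAlgebra ℤ_[p] G) := (Y : Matrix m m (MonoidAlgebra ℤ_[p] G)) with hR
  have hPQ : P * Q = ((Y⁻¹ : (Matrix m m (MonoidAlgebra ℤ_[p] G))ˣ) :
      Matrix m m (MonoidAlgebra ℤ_[p] G)) := by
    rw [hP, hQ, ← Units.val_mul]
    congr 1
    group
  have hRP : R * P = ((X⁻¹ : (Matrix m m (MonoidAlgebra ℤ_[p] G))ˣ) :
      Matrix m m (MonoidAlgebra ℤ_[p] G)) := by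
    rw [hP, hR, ← Units.val_mul]
    congr 1
    group
  have hQR : Q * R = ((X * Y : (Matrix m m (MonoidAlgebra ℤ_[p] G))ˣ) :
      Matrix m m (MonoidAlgebra ℤ_[p] G)) := by
    rw [hQ, hR, ← Units.val_mul]
  have hQRP : Q * R * P = 1 := by
    rw [hQR, hP, ← Units.val_mul, mul_inv_cancel, Units.val_one]
  have iP : InF F P := hXY.2
  have iQ : InF F Q := hX.1
  have iR : InF F R := hY.1
  have iPQ : InF F (P * Q) := by rw [hPQ]; exact hY.2
  have iRP : InF F (R * P) := by rw [hRP]; exact hX.2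
  have iQR : InF F (Q * R) := by rw [hQR]; exact hXY.1
  -- the divisible rotation invariant function
  let T : (ZMod (p ^ (n + 1)) → G × G × G) → ℤ := fun w =>
    Sw L w - (ψ (fA w) + ψ (fB w) - ψ (fC w))
  have hTrot : ∀ w, T (rot 1 w) = T w := by
    intro w
    simp only [T]
    rw [Sw_rot, fA_rot, fB_rot, fC_rot, hψ1, hψ1, hψ1]
  have hTd : ∀ v : ZMod (p ^ (n + 1)) → F × F × F, ∃ c, T (lt3 v) = (p : ℤ) ^ (j + 1) * c := by
    intro v
    refine hψ2 (lt3 v) ?_ ?_ ?_
    · refine hM (n + 1) (by omega) _ fun t => ?_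
      exact hE (v (t - 1)).2.2 (v t).1 (v t).2.1
    · refine hM (n + 1) (by omega) _ fun t => ?_
      exact hE (v t).1 (v t).2.1 (v t).2.2
    · refine hM (n + 1) (by omega) _ fun t => ?_
      change ((v (t - 1)).2.1 : G) * (((v (t - 1)).2.2 : G) * (v t).1) ∈ E
      rw [← mul_assoc]
      exact hE (v (t - 1)).2.1 (v (t - 1)).2.2 (v t).1
  choose T' hT' using hTd
  have hT'rot : ∀ v : ZMod (p ^ (n + 1)) → F × F × F, T' (fun t => v (t + 1)) = T' v := by
    intro v
    have h1 : T (lt3 (fun t => v (t + 1))) = T (lt3 v) := by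
      rw [← hTrot (lt3 v)]
      congr 1
      funext t
      rw [rot1_apply]
      rfl
    rw [hT', hT'] at h1
    exact mul_left_cancel₀ (pow_ne_zero _ (by exact_mod_cast hprime.ne_zero)) h1
  have hg := gauss_ctr (p := p) n (J := F × F × F)
    (fun x => cm P (x.1 : G) * cm Q (x.2.1 : G) * cm R (x.2.2 : G))
    (fun v => ((T' v : ℤ) : ℤ_[p])) (fun v => by rw [hT'rot])
  have h1 : (p : ℤ_[p]) ^ (n + 1 + (j + 1)) ∣ S3 (N := p ^ (n + 1)) F P Q R T -
      S3 (N := p ^ n) F P Q R (fun w => T (fun t => w (cas p n t))) := by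
    obtain ⟨c, hc⟩ := hg
    refine ⟨c, ?_⟩
    have e1 : S3 (N := p ^ (n + 1)) F P Q R T = (p : ℤ_[p]) ^ (j + 1) *
        ∑ w : ZMod (p ^ (n + 1)) → F × F × F,
        ctr (fun t => cm P ((w t).1 : G) * cm Q ((w t).2.1 : G) * cm R ((w t).2.2 : G)) *
        ((T' w : ℤ) : ℤ_[p]) := by
      unfold S3
      rw [Finset.mul_sum]
      refine Finset.sum_congr rfl fun w _ => ?_
      rw [hT']
      push_cast
      ring
    have e2 : S3 (N := p ^ n) F P Q R (fun w => T (fun t => w (cas p n t))) =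
        (p : ℤ_[p]) ^ (j + 1) * ∑ w : ZMod (p ^ n) → F × F × F,
        ctr (fun t => cm P ((w t).1 : G) * cm Q ((w t).2.1 : G) * cm R ((w t).2.2 : G)) *
        ((T' (fun t => w (cas p n t)) : ℤ) : ℤ_[p]) := by
      unfold S3
      rw [Finset.mul_sum]
      refine Finset.sum_congr rfl fun w _ => ?_
      have e3 : (fun t => lt3 w (cas p n t)) = lt3 (fun t => w (cas p n t)) := rfl
      change ctr _ * ((T (fun t => lt3 w (cas p n t)) : ℤ) : ℤ_[p]) = _
      rw [e3, hT']
      push_cast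
      ring
    rw [e1, e2, ← mul_sub, hc, pow_add]
    ring
  have h2 : S3 (N := p ^ (n + 1)) F P Q R T = (p : ℤ_[p]) ^ (n + 1) * cL L X Y -
      (S2 (N := p ^ (n + 1)) F ((X⁻¹ : (Matrix m m (MonoidAlgebra ℤ_[p] G))ˣ) :
        Matrix m m (MonoidAlgebra ℤ_[p] G)) X ψ +
      S2 (N := p ^ (n + 1)) F ((Y⁻¹ : (Matrix m m (MonoidAlgebra ℤ_[p] G))ˣ) :
        Matrix m m (MonoidAlgebra ℤ_[p] G)) Y ψ -
      S2 (N := p ^ (n + 1)) F (((X * Y)⁻¹ : (Matrix m m (MonoidAlgebra ℤ_[p] G))ˣ) :
        Matrix m m (MonoidAlgebra ℤ_[p] G))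
        ((X * Y : (Matrix m m (MonoidAlgebra ℤ_[p] G))ˣ) :
        Matrix m m (MonoidAlgebra ℤ_[p] G)) ψ) := by
    simp only [T]
    rw [S3_sub, S3_sub, S3_add, fA_sum iP iR iRP, fB_sum iP iQ iPQ, fC_sum iQ iR iQR, hRP, hPQ, hQR]
    congr 1
    unfold Sw
    rw [S3_sum, Finset.sum_congr rfl (fun t _ => S3_rot' F P Q R (lam0 L) t), Finset.sum_const,
      Finset.card_range, nsmul_eq_mul, lam0_sum iP iQ iR iQR hQRP]
    push_cast
    rfl
  have h3 : S3 (N := p ^ n) F P Q R (fun w => T (fun t => w (cas p n t))) =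
      (p : ℤ_[p]) ^ (n + 1) * cL (fun x y c => L x y (c ^ p)) X Y -
      (S2 (N := p ^ n) F ((X⁻¹ : (Matrix m m (MonoidAlgebra ℤ_[p] G))ˣ) :
        Matrix m m (MonoidAlgebra ℤ_[p] G)) X (fun u => ψ (fun t => u (cas p n t))) +
      S2 (N := p ^ n) F ((Y⁻¹ : (Matrix m m (MonoidAlgebra ℤ_[p] G))ˣ) :
        Matrix m m (MonoidAlgebra ℤ_[p] G)) Y (fun u => ψ (fun t => u (cas p n t))) -
      S2 (N := p ^ n) F (((X * Y)⁻¹ : (Matrix m m (MonoidAlgebra ℤ_[p] G))ˣ) :
        Matrix m m (MonoidAlgebra ℤ_[p] G))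
        ((X * Y : (Matrix m m (MonoidAlgebra ℤ_[p] G))ˣ) :
        Matrix m m (MonoidAlgebra ℤ_[p] G)) (fun u => ψ (fun t => u (cas p n t)))) := by
    have e0 : (fun w : ZMod (p ^ n) → G × G × G => T (fun t => w (cas p n t))) = fun w =>
        (p : ℤ) * Sw (fun x y c => L x y (c ^ p)) w -
        ((fun w => (fun u : ZMod (p ^ n) → G × G => ψ (fun t => u (cas p n t))) (fA w)) w +
        (fun w => (fun u : ZMod (p ^ n) → G × G => ψ (fun t => u (cas p n t))) (fB w)) w -
        (fun w => (fun u : ZMod (p ^ n) → G × G => ψ (fun t => u (cas p n t))) (fC w)) w) := by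
      funext w
      simp only [T]
      rw [Sw_cas, fA_cas]
      rfl
    rw [e0, S3_sub, S3_sub, S3_add, fA_sum iP iR iRP (fun u => ψ (fun t => u (cas p n t))),
      fB_sum iP iQ iPQ (fun u => ψ (fun t => u (cas p n t))),
      fC_sum iQ iR iQR (fun u => ψ (fun t => u (cas p n t))), hRP, hPQ, hQR]
    congr 1
    rw [S3_smul]
    unfold Sw
    rw [S3_sum, Finset.sum_congr rfl (fun t _ => S3_rot' F P Q R
      (lam0 (fun x y c => L x y (c ^ p))) t), Finset.sum_const,
      Finset.card_range, nsmul_eq_mul, lam0_sum iP iQ iR iQR hQRP]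
    push_cast
    rw [pow_succ', mul_assoc]
    rfl
  rw [h2, h3] at h1
  convert h1 using 1
  ring

theorem exists_F
    (w : List ((Matrix m m (MonoidAlgebra ℤ_[p] G))ˣ × (Matrix m m (MonoidAlgebra ℤ_[p] G))ˣ)) :
    ∃ F : Finset G, ∀ {A : Type} [AddCommGroup A]
      (lam mu : (Matrix m m (MonoidAlgebra ℤ_[p] G))ˣ → (Matrix m m (MonoidAlgebra ℤ_[p] G))ˣ → A),
      (∀ X Y, InU F X → InU F Y → InU F (X * Y) → lam X Y = mu X Y) → evw lam w = evw mu w := by
  classical
  -- the finite set of units involved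
  let U : Finset (Matrix m m (MonoidAlgebra ℤ_[p] G))ˣ :=
    {1} ∪ (w.flatMap (fun q => [q.1, q.2, q.1 * q.2, q.2 * q.1,
      q.1 * q.2 * q.1⁻¹ * q.2⁻¹])).toFinset ∪ (w.tails.map surf).toFinset
  let F : Finset G := U.biUnion fun X => (Finset.univ.biUnion fun q : m × m =>
    ((X : Matrix m m (MonoidAlgebra ℤ_[p] G)) q.1 q.2).coeff.support) ∪
    (Finset.univ.biUnion fun q : m × m =>
    (((X⁻¹ : (Matrix m m (MonoidAlgebra ℤ_[p] G))ˣ) : Matrix m m (MonoidAlgebra ℤ_[p] G))
      q.1 q.2).coeff.support)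
  have hF : ∀ X ∈ U, InU F X := by
    intro X hX
    refine ⟨fun i j g hg => ?_, fun i j g hg => ?_⟩
    · exact Finset.mem_biUnion.2 ⟨X, hX, Finset.mem_union_left _
        (Finset.mem_biUnion.2 ⟨(i, j), Finset.mem_univ _, hg⟩)⟩
    · exact Finset.mem_biUnion.2 ⟨X, hX, Finset.mem_union_right _
        (Finset.mem_biUnion.2 ⟨(i, j), Finset.mem_univ _, hg⟩)⟩
  refine ⟨F, fun {A} _ lam mu h => ?_⟩
  refine evw_congr {X | InU F X} (fun X hX Y hY hXY => h X Y hX hY hXY) w (hF 1 ?_)
    (fun q hq => ?_) (fun w' hw' => hF _ ?_)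
  · exact Finset.mem_union_left _ (Finset.mem_union_left _ (Finset.mem_singleton_self _))
  · have hm : ∀ Z ∈ [q.1, q.2, q.1 * q.2, q.2 * q.1, q.1 * q.2 * q.1⁻¹ * q.2⁻¹], Z ∈ U := by
      intro Z hZ
      refine Finset.mem_union_left _ (Finset.mem_union_right _ ?_)
      rw [List.mem_toFinset, List.mem_flatMap]
      exact ⟨q, hq, hZ⟩
    refine ⟨hF _ (hm _ ?_), hF _ (hm _ ?_), hF _ (hm _ ?_), hF _ (hm _ ?_), hF _ (hm _ ?_)⟩ <;>
    simp
  · refine Finset.mem_union_right _ ?_
    rw [List.mem_toFinset, List.mem_map]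
    exact ⟨w', (List.mem_tails _ _).2 hw', rfl⟩

theorem evw_cL_pow {L : G → G → G → ℤ} (H : GCo p L)
    (w : List ((Matrix m m (MonoidAlgebra ℤ_[p] G))ˣ × (Matrix m m (MonoidAlgebra ℤ_[p] G))ˣ))
    (hw : surf w = 1) :
    evw (cL L) w = evw (cL (fun x y c => L x y (c ^ p))) w := by
  have hprime : p.Prime := hpf.out
  obtain ⟨F, hF⟩ := exists_F w
  have key : ∀ j : ℕ, (p : ℤ_[p]) ^ (j + 1) ∣
      evw (cL L) w - evw (cL (fun x y c => L x y (c ^ p))) w := by
    intro j
    obtain ⟨n, Θ, hΘ⟩ := approx (m := m) H F j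
    let I : Ideal ℤ_[p] := Ideal.span {(p : ℤ_[p]) ^ (n + 1 + (j + 1))}
    let π : ℤ_[p] →+ ℤ_[p] ⧸ I := (Ideal.Quotient.mk I).toAddMonoidHom
    have h1 : evw (fun X Y => π ((p : ℤ_[p]) ^ (n + 1) *
        (cL L X Y - cL (fun x y c => L x y (c ^ p)) X Y))) w =
        evw (fun X Y => π (Θ X) + π (Θ Y) - π (Θ (X * Y))) w := by
      refine hF _ _ fun X Y hX hY hXY => ?_
      rw [← map_add, ← map_sub, ← sub_eq_zero, ← map_sub]
      change Ideal.Quotient.mk I _ = 0
      rw [Ideal.Quotient.eq_zero_iff_mem, Ideal.mem_span_singleton]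
      exact hΘ X Y hX hY hXY
    rw [evw_hom π, evw_coboundary (fun X => π (Θ X)), hw, sub_self] at h1
    have h2 : evw (fun X Y => (p : ℤ_[p]) ^ (n + 1) *
        (cL L X Y - cL (fun x y c => L x y (c ^ p)) X Y)) w =
        (p : ℤ_[p]) ^ (n + 1) * (evw (cL L) w - evw (cL (fun x y c => L x y (c ^ p))) w) := by
      rw [← evw_sub]
      exact evw_hom (AddMonoidHom.mulLeft ((p : ℤ_[p]) ^ (n + 1)))
        (fun X Y => cL L X Y - cL (fun x y c => L x y (c ^ p)) X Y) w
    rw [h2] at h1
    have h3 : Ideal.Quotient.mk I ((p : ℤ_[p]) ^ (n + 1) *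
        (evw (cL L) w - evw (cL (fun x y c => L x y (c ^ p))) w)) = 0 := h1
    rw [Ideal.Quotient.eq_zero_iff_mem, Ideal.mem_span_singleton, pow_add] at h3
    exact (mul_dvd_mul_iff_left (pow_ne_zero _ (by exact_mod_cast hprime.ne_zero))).1 h3
  rw [← sub_eq_zero]
  by_contra hne
  have h1 := key (evw (cL L) w - evw (cL (fun x y c => L x y (c ^ p))) w).valuation
  have h2 := (PadicInt.mem_span_pow_iff_le_valuation _ hne _).1
    (Ideal.mem_span_singleton.2 h1)
  omega

theorem evw_cL_pow' {L : G → G → G → ℤ} (H : GCo p L)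
    (w : List ((Matrix m m (MonoidAlgebra ℤ_[p] G))ˣ × (Matrix m m (MonoidAlgebra ℤ_[p] G))ˣ))
    (hw : surf w = 1) (i : ℕ) :
    GCo p (fun x y c => L x y (c ^ p ^ i)) ∧
      evw (cL L) w = evw (cL (fun x y c => L x y (c ^ p ^ i))) w := by
  induction i with
  | zero => simpa using H
  | succ i ih =>
    have e1 : (fun x y c => L x y (c ^ p ^ (i + 1))) = fun x y c => L x y ((c ^ p) ^ p ^ i) := by
      funext x y c
      rw [← pow_mul, ← pow_succ']
    rw [e1]
    exact ⟨ih.1.pow hpf.out.ne_zero, ih.2.trans (evw_cL_pow ih.1 w hw)⟩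

/-- **Vanishing theorem**: the degree two characters at `p`-singular elements vanish on closed
words in `GL(ℤ_p[G])`. -/
theorem evw_cL_vanish {L : G → G → G → ℤ} (H : GCo p L)
    (w : List ((Matrix m m (MonoidAlgebra ℤ_[p] G))ˣ × (Matrix m m (MonoidAlgebra ℤ_[p] G))ˣ))
    (hw : surf w = 1) : evw (cL L) w = 0 := by
  classical
  have hprime : p.Prime := hpf.out
  obtain ⟨F, hF⟩ := exists_F w
  obtain ⟨M, hM⟩ : ∃ M : ℕ, ∀ a b c : F, (orderOf ((a : G) * b * c)).factorization p ≤ M := by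
    obtain ⟨M, hM⟩ := (Set.finite_range (fun x : F × F × F =>
      (orderOf ((x.1 : G) * x.2.1 * x.2.2)).factorization p)).bddAbove
    exact ⟨M, fun a b c => hM ⟨(a, b, c), rfl⟩⟩
  rw [(evw_cL_pow' H w hw M).2]
  have h1 : evw (cL (fun x y c => L x y (c ^ p ^ M))) w =
      evw (fun _ _ => (0 : ℤ_[p])) w := by
    refine hF _ _ fun X Y hX hY hXY => ?_
    unfold cL
    rw [Phi3_sum hXY.2 hX.1 hY.1]
    refine Finset.sum_eq_zero fun a _ => Finset.sum_eq_zero fun b _ =>
      Finset.sum_eq_zero fun c _ => ?_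
    have h2 : L b c (((b : G) * c * a) ^ p ^ M) = 0 := by
      by_contra h
      obtain ⟨h3, h4⟩ := H.sing _ _ _ h
      have h5 : IsOfFinOrder ((b : G) * c * a) :=
        IsOfFinOrder.of_pow h3 (pow_ne_zero _ hprime.ne_zero)
      exact not_dvd_orderOf_pow hprime _ h5 M (hM b c a) h4
    rw [h2, Int.cast_zero, mul_zero]
  rw [h1, evw_zero]

end Main

end Pool.Agent.Lib25.H2
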