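import Pool.Agent.Lib_helper25.Detect0
import Pool.Agent.Lib_helper25.H2.Van2
import Pool.Agent.Lib_helper25.H2.Null

/-!
# Cocycles on centralisers
-/

set_option autoImplicit false
set_option linter.unusedSectionVars false

open Matrix Pool.Agent.WhK

namespace Pool.Agent.Lib25.H2

section Pts

variable {G : Type*} [Group G]

/-- A normalised cocycle of degree two on the centraliser of `h`. -/
structure IsCC (h : G) (lam : G → G → ℤ) : Prop where
  coc : ∀ x y z, Commute x h → Commute y h → Commute z h →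
    lam x y + lam (x * y) z = lam y z + lam x (y * z)
  one_left : ∀ x, Commute x h → lam 1 x = 0
  one_right : ∀ x, Commute x h → lam x 1 = 0

/-- The element of the centraliser of `h` attached to the arrow `g` from `g⁻¹ c g` to `c`. -/
noncomputable def rr (h g c : G) : G := (cx h c)⁻¹ * g * cx h (g⁻¹ * c * g)

theorem rr_comm {h g c : G} (hc : IsConj h c) : Commute (rr h g c) h := by
  have h1 := cx_spec hc
  have h2 := cx_spec ((isConj_conj' h g c).2 hc)
  unfold rr
  set x := cx h c
  set y := cx h (g⁻¹ * c * g)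
  change x⁻¹ * g * y * h = h * (x⁻¹ * g * y)
  calc x⁻¹ * g * y * h = x⁻¹ * g * (y * h * y⁻¹) * y := by group
    _ = x⁻¹ * c * g * y := by rw [h2]; group
    _ = x⁻¹ * (x * h * x⁻¹) * g * y := by rw [h1]
    _ = h * (x⁻¹ * g * y) := by group

theorem rr_mul (h g g' c : G) : rr h (g * g') c = rr h g c * rr h g' (g⁻¹ * c * g) := by
  unfold rr
  have h1 : (g * g')⁻¹ * c * (g * g') = g'⁻¹ * (g⁻¹ * c * g) * g' := by group
  rw [h1]
  group

theorem rr_one (h c : G) : rr h 1 c = 1 := by
  unfold rr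
  have h1 : (1 : G)⁻¹ * c * 1 = c := by group
  rw [h1]
  group

theorem rr_of_commute {h g c : G} (hg : Commute g c) :
    rr h g c = (cx h c)⁻¹ * g * cx h c := by
  unfold rr
  have h1 : g⁻¹ * c * g = c := by rw [mul_assoc, ← hg.eq]; group
  rw [h1]

open scoped Classical in
/-- The conjugation cocycle attached to a cocycle on the centraliser of `h`. -/
noncomputable def Lp (h : G) (lam : G → G → ℤ) (x y c : G) : ℤ :=
  if IsConj h c then lam (rr h x c) (rr h y (x⁻¹ * c * x)) else 0

theorem Lp_of_not {h c : G} (lam : G → G → ℤ) (x y : G) (hc : ¬ IsConj h c) :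
    Lp h lam x y c = 0 := if_neg hc

theorem Lp_of {h c : G} (lam : G → G → ℤ) (x y : G) (hc : IsConj h c) :
    Lp h lam x y c = lam (rr h x c) (rr h y (x⁻¹ * c * x)) := if_pos hc

theorem Lp_gco {h : G} {lam : G → G → ℤ} (H : IsCC h lam) (hfin : IsOfFinOrder h) {p : ℕ}
    (hp : p ∣ orderOf h) : GCo p (Lp h lam) where
  coc x y z c := by
    by_cases hc : IsConj h c
    · have hx := (isConj_conj' h x c).2 hc
      have hxy := (isConj_conj' h (x * y) c).2 hc
      have e1 : (x * y)⁻¹ * c * (x * y) = y⁻¹ * (x⁻¹ * c * x) * y := by group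
      rw [Lp_of _ _ _ hc, Lp_of _ _ _ hc, Lp_of _ _ _ hx, Lp_of _ _ _ hc, rr_mul, rr_mul, e1]
      exact H.coc _ _ _ (rr_comm hc) (rr_comm hx) (rr_comm (by rw [← e1]; exact hxy))
    · have hx : ¬ IsConj h (x⁻¹ * c * x) := fun hh => hc ((isConj_conj' h x c).1 hh)
      rw [Lp_of_not _ _ _ hc, Lp_of_not _ _ _ hc, Lp_of_not _ _ _ hx, Lp_of_not _ _ _ hc]
  one_left x c := by
    by_cases hc : IsConj h c
    · have e1 : (1 : G)⁻¹ * c * 1 = c := by group
      rw [Lp_of _ _ _ hc, rr_one, e1]
      exact H.one_left _ (rr_comm hc)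
    · exact Lp_of_not _ _ _ hc
  one_right x c := by
    by_cases hc : IsConj h c
    · rw [Lp_of _ _ _ hc, rr_one]
      exact H.one_right _ (rr_comm hc)
    · exact Lp_of_not _ _ _ hc
  sing x y c hne := by
    have hc : IsConj h c := by
      by_contra hc
      exact hne (Lp_of_not _ _ _ hc)
    have h1 : orderOf c = orderOf h := by
      obtain ⟨u, hu⟩ := hc
      exact (hu.orderOf_eq (u : G)).symm
    exact ⟨by rw [← orderOf_pos_iff, h1]; exact orderOf_pos_iff.2 hfin, by rw [h1]; exact hp⟩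

/-- A pair consisting of an element of finite order and a cocycle on its centraliser. -/
def Pt2 (G : Type*) [Group G] : Type _ :=
  {x : G × (G → G → ℤ) // IsCC x.1 x.2 ∧ IsOfFinOrder x.1}

/-- The conjugation cocycle attached to a point. -/
noncomputable def Pt2.L (x : Pt2 G) : G → G → G → ℤ := Lp x.1.1 x.1.2

theorem Pt2.gco (x : Pt2 G) : GCo 1 x.L := Lp_gco x.2.1 x.2.2 (one_dvd _)

theorem Pt2.gco' (x : Pt2 G) {p : ℕ} (hp : p ∣ orderOf x.1.1) : GCo p x.L :=
  Lp_gco x.2.1 x.2.2 hp

open scoped Classical in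
/-- The value of a cocycle on the centraliser of `h` on a word with letters commuting with `c`. -/
noncomputable def mu2 (h : G) (lam : G → G → ℤ) (w : List (G × G)) (c : G) : ℤ :=
  if IsConj h c then evw lam (mapW (fun x => (cx h c)⁻¹ * x * cx h c) w) else 0

theorem CW.surf {c : G} {w : List (G × G)} (hw : CW c w) : Commute (surf w) c := by
  induction w with
  | nil => exact Commute.one_left c
  | cons q w ih =>
    obtain ⟨h1, h2⟩ := hw q List.mem_cons_self
    rw [surf_cons]
    exact (((h1.mul_left h2).mul_left h1.inv_left).mul_left h2.inv_left).mul_left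
      (ih fun q hq => hw q (List.mem_cons_of_mem _ hq))

theorem evw_congr_CW {k : Type*} [AddCommGroup k] {c : G} {lam mu : G → G → k}
    (h : ∀ x y, Commute x c → Commute y c → lam x y = mu x y) {w : List (G × G)}
    (hw : CW c w) : evw lam w = evw mu w := by
  refine evw_congr {x | Commute x c} (fun x hx y hy _ => h x y hx hy) w (Commute.one_left c)
    (fun q hq => ?_) (fun w' hw' => CW.surf fun q hq => hw q (hw'.subset hq))
  obtain ⟨h1, h2⟩ := hw q hq
  exact ⟨h1, h2, h1.mul_left h2, h2.mul_left h1,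
    ((h1.mul_left h2).mul_left h1.inv_left).mul_left h2.inv_left⟩

theorem CW.mapW_conj {c : G} {w : List (G × G)} (hw : CW c w) (x : G) :
    CW (x * c * x⁻¹) (mapW (fun y => x * y * x⁻¹) w) := by
  have hc : ∀ y : G, Commute y c → Commute (x * y * x⁻¹) (x * c * x⁻¹) := by
    intro y hy
    change x * y * x⁻¹ * (x * c * x⁻¹) = x * c * x⁻¹ * (x * y * x⁻¹)
    calc x * y * x⁻¹ * (x * c * x⁻¹) = x * (y * c) * x⁻¹ := by group
      _ = x * (c * y) * x⁻¹ := by rw [hy.eq]
      _ = _ := by group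
  intro q hq
  unfold mapW at hq
  rw [List.mem_map] at hq
  obtain ⟨q', hq', rfl⟩ := hq
  obtain ⟨h1, h2⟩ := hw q' hq'
  exact ⟨hc _ h1, hc _ h2⟩

theorem evw_Lp {h : G} {lam : G → G → ℤ} {w : List (G × G)} {c : G} (hw : CW c w) :
    evw (fun x y => Lp h lam x y c) w = mu2 h lam w c := by
  unfold mu2
  split_ifs with hc
  · have e : (fun x : G => (cx h c)⁻¹ * x * cx h c) = fun x => (cx h c)⁻¹ * x * (cx h c)⁻¹⁻¹ := by
      funext x
      rw [inv_inv]
    rw [e]
    have e2 := evw_map (MulAut.conj (cx h c)⁻¹).toMonoidHom lam w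
    change evw lam (mapW (fun x => (cx h c)⁻¹ * x * (cx h c)⁻¹⁻¹) w) = _ at e2
    rw [e2]
    refine evw_congr_CW (fun x y hx hy => ?_) hw
    have h1 : x⁻¹ * c * x = c := by rw [mul_assoc, ← hx.eq]; group
    rw [Lp_of _ _ _ hc, h1, rr_of_commute hx, rr_of_commute hy]
    change lam _ _ = lam ((cx h c)⁻¹ * x * (cx h c)⁻¹⁻¹) ((cx h c)⁻¹ * y * (cx h c)⁻¹⁻¹)
    rw [inv_inv]
  · have e : (fun x y => Lp h lam x y c) = fun _ _ => (0 : ℤ) := by
      funext x y
      exact Lp_of_not _ _ _ hc
    rw [e, evw_zero]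

/-- the cocycle on the centraliser -/
def resC (h : G) (lam : G → G → ℤ) (x y : Subgroup.centralizer {h}) : ℤ := lam x y

theorem mem_cen {h x : G} : x ∈ Subgroup.centralizer {h} ↔ Commute x h := by
  rw [Subgroup.mem_centralizer_singleton_iff]
  rfl

theorem IsCC.isCoc2 {h : G} {lam : G → G → ℤ} (H : IsCC h lam) : IsCoc2 (resC h lam) where
  coc x y z := H.coc _ _ _ (mem_cen.1 x.2) (mem_cen.1 y.2) (mem_cen.1 z.2)
  one_left x := H.one_left _ (mem_cen.1 x.2)
  one_right x := H.one_right _ (mem_cen.1 x.2)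

/-- The word in the centraliser. -/
theorem exists_lift_CW {h : G} {w : List (G × G)} (hw : CW h w) :
    ∃ w' : List (Subgroup.centralizer {h} × Subgroup.centralizer {h}),
      mapW (Subgroup.centralizer {h}).subtype w' = w := by
  induction w with
  | nil => exact ⟨[], rfl⟩
  | cons q w ih =>
    obtain ⟨w', hw'⟩ := ih fun q hq => hw q (List.mem_cons_of_mem _ hq)
    obtain ⟨h1, h2⟩ := hw q List.mem_cons_self
    refine ⟨(⟨q.1, mem_cen.2 h1⟩, ⟨q.2, mem_cen.2 h2⟩) :: w', ?_⟩
    rw [mapW_cons, hw']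
    rfl

theorem evw_lift {k : Type*} [AddCommGroup k] {h : G} (lam : G → G → k)
    (w' : List (Subgroup.centralizer {h} × Subgroup.centralizer {h})) :
    evw lam (mapW (Subgroup.centralizer {h}).subtype w') =
      evw (fun x y : Subgroup.centralizer {h} => lam x y) w' :=
  evw_map _ _ _

theorem surf_lift_CW {h : G} {w' : List (Subgroup.centralizer {h} × Subgroup.centralizer {h})}
    (hw : surf (mapW (Subgroup.centralizer {h}).subtype w') = 1) : surf w' = 1 := by
  rw [surf_map] at hw
  exact Subtype.ext hw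

/-- Additivity. -/
theorem evw_append_CW {h : G} {lam : G → G → ℤ} (H : IsCC h lam) {w w' : List (G × G)}
    (hw : CW h w) (hw' : CW h w') (h1 : surf w = 1) (h2 : surf w' = 1) :
    evw lam (w ++ w') = evw lam w + evw lam w' := by
  obtain ⟨v, rfl⟩ := exists_lift_CW hw
  obtain ⟨v', rfl⟩ := exists_lift_CW hw'
  rw [← mapW_append]
  have e : ∀ v : List (Subgroup.centralizer {h} × Subgroup.centralizer {h}),
      evw lam (mapW (Subgroup.centralizer {h}).subtype v) = evw (resC h lam) v :=
    fun v => evw_lift lam v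
  rw [e, e, e, evw_append H.isCoc2, surf_lift_CW h1, H.isCoc2.one_left, add_zero]

/-- Conjugation invariance. -/
theorem evw_conj_CW {h x : G} {lam : G → G → ℤ} (H : IsCC h lam) (hx : Commute x h)
    {w : List (G × G)} (hw : CW h w) (h1 : surf w = 1) :
    evw lam (mapW (fun y => x * y * x⁻¹) w) = evw lam w := by
  obtain ⟨v, rfl⟩ := exists_lift_CW hw
  have e : ∀ v : List (Subgroup.centralizer {h} × Subgroup.centralizer {h}),
      evw lam (mapW (Subgroup.centralizer {h}).subtype v) = evw (resC h lam) v :=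
    fun v => evw_lift lam v
  have h2 := evw_conj H.isCoc2 ⟨x, mem_cen.2 hx⟩ v (surf_lift_CW h1)
  rw [e, ← h2, ← e, mapW_mapW, mapW_mapW]
  rfl

end Pts

end Pool.Agent.Lib25.H2
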