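import Pool.Agent.Lib_helper25.H2.Dd
import Pool.Agent.Lib_helper25.H2.Hopf

/-!
# The symbols attached to null-homologous words vanish
-/

set_option autoImplicit false
set_option linter.unusedSectionVars false

open Matrix Pool.Agent.WhK

namespace Pool.Agent.Lib25.H2

universe u v

section Pair

variable {S : Type u} {T T' : Type*} [Ring S] [Ring T] [Ring T'] {ι : Type*} [Fintype ι]
  [DecidableEq ι] {i : S →+* T} {π : T →+* T'} {a : T}

/-- The commutator. -/
def cm' {E : Type*} [Group E] (x y : E) : E := x * y * x⁻¹ * y⁻¹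

variable (H : ExcD i π a)

include H

theorem pair_mul_left {x x' y : (Matrix ι ι T)ˣ} (hx : x ∈ H.pres ι)
    (h1 : mapU π (cm' x y) = 1) (h2 : mapU π (cm' x' y) = 1) :
    tt i (cm' (x * x') y) = tt i (cm' x y) + tt i (cm' x' y) := by
  have e : cm' (x * x') y = (x * cm' x' y * x⁻¹) * cm' x y := by
    unfold cm'
    group
  rw [e, tt_mul H.inj (H.int_of_one (mapU_conj h2 _)) (H.int_of_one h1), hx _ h2, add_comm]

theorem pair_symm {x y : (Matrix ι ι T)ˣ} (h1 : mapU π (cm' x y) = 1) :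
    tt i (cm' y x) = - tt i (cm' x y) := by
  have e : cm' y x = (cm' x y)⁻¹ := by
    unfold cm'
    group
  rw [e, tt_inv H.inj (H.int_of_one h1)]

theorem pair_symm' {x y : (Matrix ι ι T)ˣ} (h1 : mapU π (cm' x y) = 1) :
    mapU π (cm' y x) = 1 := by
  have e : cm' y x = (cm' x y)⁻¹ := by
    unfold cm'
    group
  rw [e, map_inv, h1, inv_one]

theorem pair_mul_right {x y y' : (Matrix ι ι T)ˣ} (hy : y ∈ H.pres ι)
    (h1 : mapU π (cm' x y) = 1) (h2 : mapU π (cm' x y') = 1) :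
    tt i (cm' x (y * y')) = tt i (cm' x y) + tt i (cm' x y') := by
  have k1 := pair_symm' H h1
  have k2 := pair_symm' H h2
  have k3 : mapU π (cm' (y * y') x) = 1 := by
    have e : cm' (y * y') x = (y * cm' y' x * y⁻¹) * cm' y x := by
      unfold cm'
      group
    rw [e, map_mul, mapU_conj k2, k1, mul_one]
  rw [pair_symm H k3, pair_mul_left H hy k1 k2, pair_symm H h1, pair_symm H h2]
  abel

theorem ker_mem_pres {k : (Matrix ι ι T)ˣ} (hk : mapU π k = 1) : k ∈ H.pres ι :=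
  H.int_mem_pres (H.int_of_one hk)

theorem pair_ker_left {k y : (Matrix ι ι T)ˣ} (hk : mapU π k = 1) (hy : y ∈ H.pres ι) :
    mapU π (cm' k y) = 1 ∧ tt i (cm' k y) = 0 := by
  have e : cm' k y = k * (y * k⁻¹ * y⁻¹) := by
    unfold cm'
    group
  have hk' : mapU π k⁻¹ = 1 := by rw [map_inv, hk, inv_one]
  constructor
  · rw [e, map_mul, hk, mapU_conj hk', mul_one]
  · rw [e, tt_mul H.inj (H.int_of_one hk) (H.int_of_one (mapU_conj hk' _)), hy _ hk',
      tt_inv H.inj (H.int_of_one hk), add_neg_cancel]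

theorem pair_congr_left {x x' y : (Matrix ι ι T)ˣ} (hxx' : mapU π x = mapU π x')
    (hy : y ∈ H.pres ι) (h1 : mapU π (cm' x' y) = 1) :
    tt i (cm' x y) = tt i (cm' x' y) := by
  have hk : mapU π (x * x'⁻¹) = 1 := by rw [map_mul, map_inv, hxx', mul_inv_cancel]
  obtain ⟨k1, k2⟩ := pair_ker_left H hk hy
  have h2 := pair_mul_left H (ker_mem_pres H hk) k1 h1
  rw [k2, zero_add, inv_mul_cancel_right] at h2
  exact h2

theorem pair_congr_right {x y y' : (Matrix ι ι T)ˣ} (hyy' : mapU π y = mapU π y')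
    (hx : x ∈ H.pres ι) (h1 : mapU π (cm' x y') = 1) :
    tt i (cm' x y) = tt i (cm' x y') := by
  have h2 : mapU π (cm' x y) = 1 := by
    have e : ∀ z : (Matrix ι ι T)ˣ, mapU π (cm' x z) = cm' (mapU π x) (mapU π z) := by
      intro z
      unfold cm'
      simp only [map_mul, map_inv]
    rw [e, hyy', ← e, h1]
  rw [pair_symm H (pair_symm' H h2), pair_symm H (pair_symm' H h1),
    pair_congr_left H hyy' hx (pair_symm' H h1)]

omit H in
theorem mapU_cm' (x y : (Matrix ι ι T)ˣ) : mapU π (cm' x y) = cm' (mapU π x) (mapU π y) := by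
  unfold cm'
  simp only [map_mul, map_inv]

omit H in
theorem cm'_eq_one {E : Type*} [Group E] {x y : E} (h : Commute x y) : cm' x y = 1 := by
  unfold cm'
  rw [h.eq]
  group

omit H in
theorem cm'_dgF {R : Type*} [Ring R] {d d' : ι → Rˣ} (h : ∀ k, Commute (d k) (d' k)) :
    cm' (dgF d) (dgF d') = 1 := by
  apply cm'_eq_one
  change dgF d * dgF d' = dgF d' * dgF d
  rw [← map_mul dgF, ← map_mul dgF]
  congr 1
  funext k
  exact h k

omit H in
theorem mulSingle_comm {M : Type*} [Group M] (u : M) (p q r s k : ι) :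
    Commute ((Pi.mulSingle p u * Pi.mulSingle q u⁻¹ : ι → M) k)
      ((Pi.mulSingle r u * Pi.mulSingle s u⁻¹ : ι → M) k) := by
  have h1 : ∀ p : ι, (Pi.mulSingle p u : ι → M) k = u ∨ (Pi.mulSingle p u : ι → M) k = 1 := by
    intro p
    rw [Pi.mulSingle_apply]
    split_ifs
    · exact Or.inl rfl
    · exact Or.inr rfl
  have h2 : ∀ p : ι, (Pi.mulSingle p u⁻¹ : ι → M) k = u⁻¹ ∨
      (Pi.mulSingle p u⁻¹ : ι → M) k = 1 := by
    intro p
    rw [Pi.mulSingle_apply]
    split_ifs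
    · exact Or.inl rfl
    · exact Or.inr rfl
  have h3 : ∀ p q : ι, ∃ n : ℤ, (Pi.mulSingle p u * Pi.mulSingle q u⁻¹ : ι → M) k = u ^ n := by
    intro p q
    rw [Pi.mul_apply]
    rcases h1 p with h | h <;> rcases h2 q with h' | h' <;> rw [h, h']
    · exact ⟨0, by simp⟩
    · exact ⟨1, by simp⟩
    · exact ⟨-1, by simp⟩
    · exact ⟨0, by simp⟩
  obtain ⟨n, hn⟩ := h3 p q
  obtain ⟨n', hn'⟩ := h3 r s
  rw [hn, hn']
  exact (Commute.refl u).zpow_zpow n n'

/-- A pairing which vanishes on generators vanishes. -/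
theorem pair_free {α : Type*} (Θ : FreeGroup α →* (Matrix ι ι T)ˣ) {x : (Matrix ι ι T)ˣ}
    (hΘ : ∀ y, Θ (FreeGroup.of y) ∈ H.pres ι)
    (h1 : ∀ y, mapU π (cm' x (Θ (FreeGroup.of y))) = 1)
    (h2 : ∀ y, tt i (cm' x (Θ (FreeGroup.of y))) = 0) (f : FreeGroup α) :
    Θ f ∈ H.pres ι ∧ mapU π (cm' x (Θ f)) = 1 ∧ tt i (cm' x (Θ f)) = 0 := by
  have hone : cm' x (1 : (Matrix ι ι T)ˣ) = 1 := by
    unfold cm'
    group
  induction f using FreeGroup.induction_on with
  | C1 =>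
    rw [map_one, hone, map_one, tt_one H.inj]
    exact ⟨Subgroup.one_mem _, rfl, rfl⟩
  | of y => exact ⟨hΘ y, h1 y, h2 y⟩
  | inv_of y _ =>
    rw [map_inv]
    have hm := Subgroup.inv_mem _ (hΘ y)
    have e : cm' x (Θ (FreeGroup.of y))⁻¹ = (Θ (FreeGroup.of y))⁻¹ *
        (cm' x (Θ (FreeGroup.of y)))⁻¹ * ((Θ (FreeGroup.of y))⁻¹)⁻¹ := by
      unfold cm'
      group
    have k1 : mapU π (cm' x (Θ (FreeGroup.of y)))⁻¹ = 1 := by rw [map_inv, h1 y, inv_one]
    refine ⟨hm, ?_, ?_⟩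
    · rw [e, mapU_conj k1]
    · rw [e, hm _ k1, tt_inv H.inj (H.int_of_one (h1 y)), h2 y, neg_zero]
  | mul f g hf hg =>
    rw [map_mul]
    refine ⟨Subgroup.mul_mem _ hf.1 hg.1, ?_, ?_⟩
    · have e : cm' x (Θ f * Θ g) = cm' x (Θ f) * (Θ f * cm' x (Θ g) * (Θ f)⁻¹) := by
        unfold cm'
        group
      rw [e, map_mul, hf.2.1, mapU_conj hg.2.1, mul_one]
    · rw [pair_mul_right H hf.1 hf.2.1 hg.2.1, hf.2.2, hg.2.2, add_zero]

/-- The kernel of the symbol map. -/
def Nk : Subgroup (H.pres ι) where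
  carrier := {x | mapU π (x : (Matrix ι ι T)ˣ) = 1 ∧ tt i (x : (Matrix ι ι T)ˣ) = 0}
  one_mem' := ⟨map_one _, tt_one H.inj⟩
  mul_mem' := by
    intro x y hx hy
    refine ⟨?_, ?_⟩
    · rw [Subgroup.coe_mul, map_mul, hx.1, hy.1, mul_one]
    · rw [Subgroup.coe_mul, tt_mul H.inj (H.int_of_one hx.1) (H.int_of_one hy.1), hx.2, hy.2,
        add_zero]
  inv_mem' := by
    intro x hx
    refine ⟨?_, ?_⟩
    · rw [Subgroup.coe_inv, map_inv, hx.1, inv_one]
    · rw [Subgroup.coe_inv, tt_inv H.inj (H.int_of_one hx.1), hx.2, neg_zero]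

omit H in
theorem Nk_normal (H : ExcD i π a) : (Nk (ι := ι) H).Normal := by
  refine ⟨fun n hn g => ?_⟩
  refine ⟨?_, ?_⟩
  · rw [Subgroup.coe_mul, Subgroup.coe_mul, Subgroup.coe_inv, mapU_conj hn.1]
  · rw [Subgroup.coe_mul, Subgroup.coe_mul, Subgroup.coe_inv, g.2 _ hn.1, hn.2]

/-- Two words with the same letters modulo the kernel have the same class. -/
theorem word_congr {w w' : List (H.pres ι × H.pres ι)}
    (h : List.Forall₂ (fun q q' => mapU π (q.1 : (Matrix ι ι T)ˣ) = mapU π (q'.1 : (Matrix ι ι T)ˣ) ∧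
      mapU π (q.2 : (Matrix ι ι T)ˣ) = mapU π (q'.2 : (Matrix ι ι T)ˣ)) w w')
    (hw : mapU π ((surf w : H.pres ι) : (Matrix ι ι T)ˣ) = 1) :
    mapU π ((surf w' : H.pres ι) : (Matrix ι ι T)ˣ) = 1 ∧
      tt i ((surf w : H.pres ι) : (Matrix ι ι T)ˣ) =
        tt i ((surf w' : H.pres ι) : (Matrix ι ι T)ˣ) := by
  have := Nk_normal (ι := ι) H
  let E := H.pres ι ⧸ Nk (ι := ι) H
  let mk : H.pres ι →* E := QuotientGroup.mk' (Nk H)
  let f0 : H.pres ι →* (Matrix ι ι T')ˣ := (mapU π).comp (H.pres ι).subtype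
  let f : E →* (Matrix ι ι T')ˣ := QuotientGroup.lift (Nk H) f0 (fun x hx => hx.1)
  have hfmk : ∀ x, f (mk x) = f0 x := fun x => rfl
  have hmks : Function.Surjective mk := QuotientGroup.mk'_surjective _
  have hc : ∀ x, f x = 1 → ∀ y, x * y = y * x := by
    intro x hx y
    obtain ⟨x, rfl⟩ := hmks x
    obtain ⟨y, rfl⟩ := hmks y
    have h1 : x * y * x⁻¹ * y⁻¹ ∈ Nk (ι := ι) H :=
      pair_ker_left H (k := (x : (Matrix ι ι T)ˣ)) (y := (y : (Matrix ι ι T)ˣ)) hx y.2
    have h2 : mk (x * y * x⁻¹ * y⁻¹) = 1 := (QuotientGroup.eq_one_iff _).2 h1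
    rw [map_mul, map_mul, map_mul, map_inv, map_inv] at h2
    have h4 := congrArg (fun z => z * mk y * mk x) h2
    simp only [one_mul] at h4
    rw [← h4]
    group
  have h1 : surf (mapW mk w) = surf (mapW mk w') := by
    apply surf_congr f hc
    clear hw
    induction h with
    | nil => exact List.Forall₂.nil
    | cons h _ ih => exact List.Forall₂.cons ⟨h.1, h.2⟩ ih
  rw [surf_map, surf_map] at h1
  have h2 := QuotientGroup.eq.1 h1
  obtain ⟨h3, h4⟩ := h2
  have e1 : mapU π ((surf w' : H.pres ι) : (Matrix ι ι T)ˣ) = 1 := by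
    rw [Subgroup.coe_mul, Subgroup.coe_inv, map_mul, map_inv, hw, inv_one, one_mul] at h3
    exact h3
  refine ⟨e1, ?_⟩
  rw [Subgroup.coe_mul, Subgroup.coe_inv, tt_mul H.inj (H.int_of_one hw).inv (H.int_of_one e1),
    tt_inv H.inj (H.int_of_one hw)] at h4
  exact (neg_add_eq_zero.1 h4)

end Pair

section DDs

variable {S : Type u} {T T' : Type*} [Ring S] [Ring T] [Ring T'] {ι : Type*} [Fintype ι]
  [DecidableEq ι] {i : S →+* T} {π : T →+* T'} {a : T} {Z : Type v} [Group Z]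

/-- The element `1 + (U - 1) a`. -/
def uu (ν : Z →* T) (a : T) (U : Z) : T := 1 + (ν U - 1) * a

theorem uu_one (ν : Z →* T) (a : T) : uu ν a 1 = 1 := by
  unfold uu
  rw [map_one, sub_self, zero_mul, add_zero]

/-- The diagonal type element of the slots `p`, `q`. -/
def DD (ν : Z →* T) (a : T) (p q : ι) (U : Z) : (Matrix ι ι T)ˣ := Dd p q (uu ν a U) (uu ν a U⁻¹)

variable (H : ExcD i π a) (ν : Z →* T)

include H

theorem uu_mul (U V : Z) : π (uu ν a (U * V)) = π (uu ν a U) * π (uu ν a V) := by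
  have h1 : uu ν a U * uu ν a V - uu ν a (U * V) = (ν U - 1) * (ν V - 1) * (a * a - a) := by
    unfold uu
    rw [map_mul]
    have h2 := H.cent (ν V - 1)
    have h3 : (ν U - 1) * a * ((ν V - 1) * a) = (ν U - 1) * (ν V - 1) * (a * a) := by
      rw [mul_assoc (ν U - 1) a, ← mul_assoc a, h2]
      noncomm_ring
    rw [mul_add, add_mul, add_mul, one_mul, one_mul, mul_one, h3]
    noncomm_ring
  have h2 := congrArg π h1
  have hid : π (a * a - a) = 0 := by rw [map_sub, map_mul, H.idem, sub_self]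
  rw [map_sub, map_mul, map_mul, hid, mul_zero, sub_eq_zero] at h2
  exact h2.symm

/-- The homomorphism to the units of the quotient. -/
def thU : Z →* T'ˣ := MonoidHom.toHomUnits
  { toFun := fun U => π (uu ν a U)
    map_one' := by rw [uu_one, map_one]
    map_mul' := uu_mul H ν }

theorem thU_val (U : Z) : (thU H ν U : T') = π (uu ν a U) := rfl

theorem thU_inv_val (U : Z) : (((thU H ν U)⁻¹ : T'ˣ) : T') = π (uu ν a U⁻¹) := by
  rw [← map_inv]
  rfl

theorem mapU_DD {p q : ι} (h : p ≠ q) (U : Z) : mapU π (DD ν a p q U) =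
    dgF (Pi.mulSingle p (thU H ν U) * Pi.mulSingle q (thU H ν U)⁻¹) := by
  unfold DD
  rw [mapU_Dd, ← thU_val H ν, ← thU_inv_val H ν, Dd_unit h]

theorem DD_mem_pres (p q : ι) (U : Z) : DD ν a p q U ∈ H.pres ι := by
  have h : ∀ (p q : ι) (t : T), el p q t ∈ H.pres ι := fun p q t => H.el_mem_pres p q t
  exact Subgroup.mul_mem _ (Subgroup.mul_mem _ (Subgroup.mul_mem _ (h _ _ _) (h _ _ _))
    (h _ _ _)) (Subgroup.mul_mem _ (Subgroup.mul_mem _ (h _ _ _) (h _ _ _)) (h _ _ _))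

end DDs

section Main

variable {S : Type u} {T T' : Type*} [Ring S] [Ring T] [Ring T'] {i : S →+* T} {π : T →+* T'}
  {a : T} {Z : Type v} [Group Z] (H : ExcD i π a) (ν : Z →* T) (Y : Finset (Z × Bool))

/-- The slots. -/
abbrev Sl {Z : Type v} (Y : Finset (Z × Bool)) : Type v := Fin 3 ⊕ Y

noncomputable instance instDecY (Y : Finset (Z × Bool)) : DecidableEq Y := Classical.decEq _

open scoped Classical in
/-- The homomorphism defined by the slots `s` and `y`. -/
noncomputable def Th (ν : Z →* T) (a : T) (Y : Finset (Z × Bool)) (s : Fin 3) :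
    FreeGroup (Z × Bool) →* (Matrix (Sl Y) (Sl Y) T)ˣ :=
  FreeGroup.lift (fun y => if h : y ∈ Y then DD ν a (Sum.inl s) (Sum.inr ⟨y, h⟩) y.1 else 1)

open scoped Classical in
/-- The diagonal entries. -/
noncomputable def dl (H : ExcD i π a) (ν : Z →* T) (Y : Finset (Z × Bool)) (s : Fin 3) :
    FreeGroup (Z × Bool) →* (Sl Y → T'ˣ) :=
  FreeGroup.lift (fun y => if h : y ∈ Y then Pi.mulSingle (Sum.inl s) (thU H ν y.1) *
    Pi.mulSingle (Sum.inr ⟨y, h⟩) (thU H ν y.1)⁻¹ else 1)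

theorem Th_of {y : Z × Bool} (h : y ∈ Y) (s : Fin 3) :
    Th ν a Y s (FreeGroup.of y) = DD ν a (Sum.inl s) (Sum.inr ⟨y, h⟩) y.1 := by
  unfold Th
  rw [FreeGroup.lift_apply_of, dif_pos h]

theorem Th_of_not {y : Z × Bool} (h : y ∉ Y) (s : Fin 3) :
    Th ν a Y s (FreeGroup.of y) = 1 := by
  unfold Th
  rw [FreeGroup.lift_apply_of, dif_neg h]

theorem dl_of {y : Z × Bool} (h : y ∈ Y) (s : Fin 3) :
    dl H ν Y s (FreeGroup.of y) = Pi.mulSingle (Sum.inl s) (thU H ν y.1) *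
      Pi.mulSingle (Sum.inr ⟨y, h⟩) (thU H ν y.1)⁻¹ := by
  unfold dl
  rw [FreeGroup.lift_apply_of, dif_pos h]

theorem dl_of_not {y : Z × Bool} (h : y ∉ Y) (s : Fin 3) :
    dl H ν Y s (FreeGroup.of y) = 1 := by
  unfold dl
  rw [FreeGroup.lift_apply_of, dif_neg h]

include H in
theorem Th_mem_pres (s : Fin 3) (f : FreeGroup (Z × Bool)) : Th ν a Y s f ∈ H.pres (Sl Y) := by
  induction f using FreeGroup.induction_on with
  | C1 => rw [map_one]; exact Subgroup.one_mem _
  | of y =>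
    by_cases h : y ∈ Y
    · rw [Th_of ν Y h]
      exact DD_mem_pres H ν _ _ _
    · rw [Th_of_not ν Y h]
      exact Subgroup.one_mem _
  | inv_of y hy => rw [map_inv]; exact Subgroup.inv_mem _ hy
  | mul f g hf hg => rw [map_mul]; exact Subgroup.mul_mem _ hf hg

theorem mapU_Th (s : Fin 3) (f : FreeGroup (Z × Bool)) :
    mapU π (Th ν a Y s f) = dgF (dl H ν Y s f) := by
  have h : (mapU π).comp (Th ν a Y s) = dgF.comp (dl H ν Y s) := by
    apply FreeGroup.ext_hom
    intro y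
    change mapU π (Th ν a Y s (FreeGroup.of y)) = dgF (dl H ν Y s (FreeGroup.of y))
    by_cases h : y ∈ Y
    · rw [Th_of ν Y h, dl_of H ν Y h, mapU_DD H ν (by simp)]
    · rw [Th_of_not ν Y h, dl_of_not H ν Y h, map_one, map_one]
  exact DFunLike.congr_fun h f

/-- The subgroup of the words with letters in `Y`. -/
def FY (Y : Finset (Z × Bool)) : Subgroup (FreeGroup (Z × Bool)) :=
  Subgroup.closure (FreeGroup.of '' (Y : Set (Z × Bool)))

theorem FY_mono {Y Y' : Finset (Z × Bool)} (h : Y ⊆ Y') : FY Y ≤ FY Y' :=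
  Subgroup.closure_mono (Set.image_mono h)

theorem exists_FY (f : FreeGroup (Z × Bool)) : ∃ Y, f ∈ FY Y := by
  classical
  induction f using FreeGroup.induction_on with
  | C1 => exact ⟨∅, Subgroup.one_mem _⟩
  | of y => exact ⟨{y}, Subgroup.subset_closure ⟨y, by simp, rfl⟩⟩
  | inv_of y hy =>
    obtain ⟨Y, hY⟩ := hy
    exact ⟨Y, Subgroup.inv_mem _ hY⟩
  | mul f g hf hg =>
    obtain ⟨Y, hY⟩ := hf
    obtain ⟨Y', hY'⟩ := hg
    exact ⟨Y ∪ Y', Subgroup.mul_mem _ (FY_mono Finset.subset_union_left hY)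
      (FY_mono Finset.subset_union_right hY')⟩

theorem dl_self {s : Fin 3} {f : FreeGroup (Z × Bool)} (hf : f ∈ FY Y) :
    dl H ν Y s f (Sum.inl s) = thU H ν (fpr Z f) := by
  induction hf using Subgroup.closure_induction with
  | mem x hx =>
    obtain ⟨y, hy, rfl⟩ := hx
    rw [dl_of H ν Y hy, fpr_of, Pi.mul_apply, Pi.mulSingle_eq_same,
      Pi.mulSingle_eq_of_ne (by simp), mul_one]
  | one => rw [map_one, map_one, map_one]; rfl
  | mul x y _ _ hx hy => rw [map_mul, map_mul, map_mul, Pi.mul_apply, hx, hy]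
  | inv x _ hx => rw [map_inv, map_inv, map_inv, Pi.inv_apply, hx]

theorem dl_other {s s' : Fin 3} (hs : s ≠ s') (f : FreeGroup (Z × Bool)) :
    dl H ν Y s f (Sum.inl s') = 1 := by
  induction f using FreeGroup.induction_on with
  | C1 => rw [map_one]; rfl
  | of y =>
    by_cases h : y ∈ Y
    · rw [dl_of H ν Y h, Pi.mul_apply, Pi.mulSingle_eq_of_ne (by simp [hs.symm]),
        Pi.mulSingle_eq_of_ne (by simp), mul_one]
    · rw [dl_of_not H ν Y h]; rfl
  | inv_of y hy => rw [map_inv, Pi.inv_apply, hy, inv_one]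
  | mul f g hf hg => rw [map_mul, Pi.mul_apply, hf, hg, mul_one]

theorem dl_inr (s s' : Fin 3) (f : FreeGroup (Z × Bool)) (y : Y) :
    dl H ν Y s f (Sum.inr y) = dl H ν Y s' f (Sum.inr y) := by
  induction f using FreeGroup.induction_on with
  | C1 => rw [map_one, map_one]
  | of y' =>
    by_cases h : y' ∈ Y
    · rw [dl_of H ν Y h, dl_of H ν Y h, Pi.mul_apply, Pi.mul_apply,
        Pi.mulSingle_eq_of_ne (i := Sum.inl s) (by simp),
        Pi.mulSingle_eq_of_ne (i := Sum.inl s') (by simp)]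
    · rw [dl_of_not H ν Y h, dl_of_not H ν Y h]
  | inv_of y hy => rw [map_inv, map_inv, Pi.inv_apply, Pi.inv_apply, hy]
  | mul f g hf hg => rw [map_mul, map_mul, Pi.mul_apply, Pi.mul_apply, hf, hg]

theorem dl_comm (s : Fin 3) (f : FreeGroup (Z × Bool)) (y : Y) :
    Commute (thU H ν y.1.1) (dl H ν Y s f (Sum.inr y)) := by
  induction f using FreeGroup.induction_on with
  | C1 => rw [map_one]; exact Commute.one_right _
  | of y' =>
    by_cases h : y' ∈ Y
    · rw [dl_of H ν Y h, Pi.mul_apply, Pi.mulSingle_eq_of_ne (by simp), one_mul]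
      by_cases hy : y = ⟨y', h⟩
      · subst hy
        rw [Pi.mulSingle_eq_same]
        exact (Commute.refl _).inv_right
      · rw [Pi.mulSingle_eq_of_ne (by simpa using hy)]
        exact Commute.one_right _
    · rw [dl_of_not H ν Y h]
      exact Commute.one_right _
  | inv_of y' hy =>
    rw [map_inv, Pi.inv_apply]
    exact hy.inv_right
  | mul f g hf hg =>
    rw [map_mul, Pi.mul_apply]
    exact hf.mul_right hg

theorem dl_eq {f : FreeGroup (Z × Bool)} (hf : f ∈ FY Y) (hf1 : fpr Z f = 1) :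
    dl H ν Y 0 f = dl H ν Y 1 f := by
  funext k
  rcases k with k | k
  · have h1 : ∀ s : Fin 3, dl H ν Y s f (Sum.inl k) = 1 := by
      intro s
      by_cases hs : s = k
      · subst hs
        rw [dl_self H ν Y hf, hf1, map_one]
      · exact dl_other H ν Y hs f
    rw [h1, h1]
  · exact dl_inr H ν Y 0 1 f k

include H in
/-- The pairing of the image of a word and of the image of a relator vanishes. -/
theorem pair_relator {f r : FreeGroup (Z × Bool)} (hf : f ∈ FY Y) (hr : r ∈ FY Y)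
    (hr1 : fpr Z r = 1) :
    mapU π (cm' (Th ν a Y 0 f) (Th ν a Y 0 r)) = 1 ∧
      tt i (cm' (Th ν a Y 0 f) (Th ν a Y 0 r)) = 0 := by
  have hr0 : ∀ k : Fin 3, dl H ν Y 0 r (Sum.inl k) = 1 := by
    intro k
    by_cases hk : (0 : Fin 3) = k
    · subst hk
      rw [dl_self H ν Y hr, hr1, map_one]
    · exact dl_other H ν Y hk r
  -- the letters
  have key : ∀ (y : Z × Bool) (hy : y ∈ Y),
      mapU π (cm' (Th ν a Y 0 (FreeGroup.of y)) (Th ν a Y 0 r)) = 1 ∧
        tt i (cm' (Th ν a Y 0 (FreeGroup.of y)) (Th ν a Y 0 r)) = 0 := by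
    intro y hy
    have hcomm : mapU π (cm' (Th ν a Y 0 (FreeGroup.of y)) (Th ν a Y 0 r)) = 1 := by
      rw [mapU_cm', mapU_Th H ν, mapU_Th H ν]
      apply cm'_dgF
      intro k
      rcases k with k | k
      · rw [hr0]
        exact Commute.one_right _
      · rw [dl_of H ν Y hy, Pi.mul_apply, Pi.mulSingle_eq_of_ne (i := Sum.inl 0) (by simp),
          one_mul]
        by_cases hk : k = ⟨y, hy⟩
        · subst hk
          rw [Pi.mulSingle_eq_same]
          exact (dl_comm H ν Y 0 r ⟨y, hy⟩).inv_left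
        · rw [Pi.mulSingle_eq_of_ne (by simpa using hk)]
          exact Commute.one_left _
    refine ⟨hcomm, ?_⟩
    set D02 : (Matrix (Sl Y) (Sl Y) T)ˣ := DD ν a (Sum.inl 0) (Sum.inl 2) y.1 with hD02
    set D2y : (Matrix (Sl Y) (Sl Y) T)ˣ := DD ν a (Sum.inl 2) (Sum.inr ⟨y, hy⟩) y.1 with hD2y
    -- the two pairings with the second homomorphism
    have p1 := pair_free H (Th ν a Y 1) (x := D02) (fun y' => Th_mem_pres H ν Y 1 _)
      (fun y' => by
        by_cases h : y' ∈ Y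
        · rw [Th_of ν Y h, cm'_eq_one, map_one]
          exact Dd_comm (by simp) (by simp) (by simp) (by simp) _ _ _ _
        · rw [Th_of_not ν Y h, cm'_eq_one (Commute.one_right _), map_one])
      (fun y' => by
        by_cases h : y' ∈ Y
        · rw [Th_of ν Y h, cm'_eq_one, tt_one H.inj]
          exact Dd_comm (by simp) (by simp) (by simp) (by simp) _ _ _ _
        · rw [Th_of_not ν Y h, cm'_eq_one (Commute.one_right _), tt_one H.inj]) r
    have hyy : mapU π (cm' D2y (DD ν a (Sum.inl 1) (Sum.inr ⟨y, hy⟩) y.1)) = 1 := by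
      rw [mapU_cm', hD2y, mapU_DD H ν (by simp), mapU_DD H ν (by simp)]
      exact cm'_dgF fun k => mulSingle_comm _ _ _ _ _ _
    have hyy2 : tt i (cm' D2y (DD ν a (Sum.inl 1) (Sum.inr ⟨y, hy⟩) y.1)) = 0 := by
      let σ : Sl Y ≃ Sl Y := Equiv.swap (Sum.inl 1) (Sum.inl 2)
      have s1 : σ (Sum.inl 2) = Sum.inl 1 := Equiv.swap_apply_right _ _
      have s2 : σ (Sum.inl 1) = Sum.inl 2 := Equiv.swap_apply_left _ _
      have s3 : σ (Sum.inr ⟨y, hy⟩) = Sum.inr ⟨y, hy⟩ :=
        Equiv.swap_apply_of_ne_of_ne (by simp) (by simp)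
      have h1 := tt_reU H.inj σ _ (H.int_of_one hyy)
      have h2 : reU σ (cm' D2y (DD ν a (Sum.inl 1) (Sum.inr ⟨y, hy⟩) y.1)) =
          cm' (DD ν a (Sum.inl 1) (Sum.inr ⟨y, hy⟩) y.1) D2y := by
        unfold cm'
        rw [map_mul, map_mul, map_mul, map_inv, map_inv, hD2y]
        unfold DD
        rw [reU_Dd σ (by simp), reU_Dd σ (by simp), s1, s2, s3]
      rw [h2, pair_symm H hyy] at h1
      have h3 : (2 : ℕ) • tt i (cm' D2y (DD ν a (Sum.inl 1) (Sum.inr ⟨y, hy⟩) y.1)) = 0 := by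
        rw [two_nsmul]
        conv_lhs => arg 1; rw [← h1]
        rw [neg_add_cancel]
      exact ModTors.eq_zero two_pos h3
    have p2 := pair_free H (Th ν a Y 1) (x := D2y) (fun y' => Th_mem_pres H ν Y 1 _)
      (fun y' => by
        by_cases h : y' ∈ Y
        · rw [Th_of ν Y h]
          by_cases h' : y' = y
          · subst h'
            exact hyy
          · rw [cm'_eq_one, map_one]
            exact Dd_comm (by simp) (by simp) (by simp) (by simpa using Ne.symm h') _ _ _ _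
        · rw [Th_of_not ν Y h, cm'_eq_one (Commute.one_right _), map_one])
      (fun y' => by
        by_cases h : y' ∈ Y
        · rw [Th_of ν Y h]
          by_cases h' : y' = y
          · subst h'
            exact hyy2
          · rw [cm'_eq_one, tt_one H.inj]
            exact Dd_comm (by simp) (by simp) (by simp) (by simpa using Ne.symm h') _ _ _ _
        · rw [Th_of_not ν Y h, cm'_eq_one (Commute.one_right _), tt_one H.inj]) r
    have hm02 : D02 ∈ H.pres (Sl Y) := DD_mem_pres H ν _ _ _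
    have hm2y : D2y ∈ H.pres (Sl Y) := DD_mem_pres H ν _ _ _
    have hsum := pair_mul_left H hm02 p1.2.1 p2.2.1
    rw [p1.2.2, p2.2.2, add_zero] at hsum
    have e1 : mapU π (Th ν a Y 0 (FreeGroup.of y)) = mapU π (D02 * D2y) := by
      rw [mapU_Th H ν, dl_of H ν Y hy, map_mul (mapU π), hD02, hD2y, mapU_DD H ν (by simp),
        mapU_DD H ν (by simp), ← map_mul dgF]
      congr 1
      rw [Pi.mulSingle_inv, Pi.mulSingle_inv]
      group
    have e2 : mapU π (Th ν a Y 0 r) = mapU π (Th ν a Y 1 r) := by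
      rw [mapU_Th H ν, mapU_Th H ν, dl_eq H ν Y hr hr1]
    have c1 : mapU π (cm' (Th ν a Y 0 (FreeGroup.of y)) (Th ν a Y 1 r)) = 1 := by
      rw [mapU_cm', ← e2, ← mapU_cm', hcomm]
    rw [pair_congr_right H e2 (Th_mem_pres H ν Y 0 _) c1]
    have c2 : mapU π (cm' (D02 * D2y) (Th ν a Y 1 r)) = 1 := by
      rw [mapU_cm', ← e1, ← mapU_cm', c1]
    rw [pair_congr_left H e1 (Th_mem_pres H ν Y 1 _) c2, hsum]
  -- the general case
  have hrm := Th_mem_pres H ν Y 0 r
  induction hf using Subgroup.closure_induction with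
  | mem x hx =>
    obtain ⟨y, hy, rfl⟩ := hx
    exact key y hy
  | one =>
    rw [map_one, cm'_eq_one (Commute.one_left _), map_one, tt_one H.inj]
    exact ⟨rfl, rfl⟩
  | mul x y _ _ hx hy =>
    rw [map_mul]
    refine ⟨?_, ?_⟩
    · have e : cm' (Th ν a Y 0 x * Th ν a Y 0 y) (Th ν a Y 0 r) =
          (Th ν a Y 0 x * cm' (Th ν a Y 0 y) (Th ν a Y 0 r) * (Th ν a Y 0 x)⁻¹) *
            cm' (Th ν a Y 0 x) (Th ν a Y 0 r) := by
        unfold cm'
        group
      rw [e, map_mul, mapU_conj hy.1, hx.1, mul_one]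
    · rw [pair_mul_left H (Th_mem_pres H ν Y 0 x) hx.1 hy.1, hx.2, hy.2, add_zero]
  | inv x _ hx =>
    rw [map_inv]
    have e : cm' (Th ν a Y 0 x)⁻¹ (Th ν a Y 0 r) = (Th ν a Y 0 x)⁻¹ *
        (cm' (Th ν a Y 0 x) (Th ν a Y 0 r))⁻¹ * ((Th ν a Y 0 x)⁻¹)⁻¹ := by
      unfold cm'
      group
    have k1 : mapU π (cm' (Th ν a Y 0 x) (Th ν a Y 0 r))⁻¹ = 1 := by rw [map_inv, hx.1, inv_one]
    rw [e]
    refine ⟨mapU_conj k1 _, ?_⟩
    rw [Subgroup.inv_mem _ (Th_mem_pres H ν Y 0 x) _ k1, tt_inv H.inj (H.int_of_one hx.1), hx.2,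
      neg_zero]

end Main

end Pool.Agent.Lib25.H2
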