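import Pool.Agent.Lib_helper25.H2.Lin2

/-!
# From functionals to relations: the final form
-/

set_option autoImplicit false
set_option linter.unusedSectionVars false

open Matrix Pool.Agent.WhK

namespace Pool.Agent.Lib25.H2

universe v w

section Class

variable {G : Type v} [Group G] {n : ℕ} [NeZero n]

/-- The conditions on a `ℚ`-valued family of functionals. -/
structure IsAdmQ2 (ell : ℕ → G → List (G × G) → ℚ) : Prop where
  add : ∀ p h w w', Valid2 p h w → Valid2 p h w' → ell p h (w ++ w') = ell p h w + ell p h w'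
  null : ∀ p h w, Valid2 p h w → Null h w → ell p h w = 0
  conj : ∀ p h x w, Valid2 p h w →
    ell p (x * h * x⁻¹) (mapW (fun y => x * y * x⁻¹) w) = ell p h w
  frob : ∀ p h h' w (j k : ℕ), Valid2 p h w → Subgroup.zpowers h = Subgroup.zpowers h' →
    h ^ p ^ j = h' ^ p ^ k → ell p h' w = ell p h w
  sum : ∀ h w, IsOfFinOrder h → Clw h w → ∑ p ∈ (orderOf h).primeFactors,
    ∑ a ∈ (Finset.range (orderOf h)).filter (fun a => a.Coprime (orderOf h)), ell p (h ^ a) w = 0

open scoped Classical in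
/-- The contribution of one class of cyclic subgroups. -/
theorem class_zero2 {ι : Type w} (s : Finset ι) (p : ι → ℕ) (h : ι → G)
    (g : ι → List (G × G)) (c : ι → ℤ)
    (hv : ∀ i ∈ s, Valid2 (p i) (h i) (g i))
    (hs : ∀ L : ℕ → G → G → G → ℤ, IsAdm2 L →
      ∑ i ∈ s, (c i : ℚ) * ((evw (L (p i) (h i)) (g i) : ℤ) : ℚ) = 0)
    (ell : ℕ → G → List (G × G) → ℚ) (hell : IsAdmQ2 ell) (h0 : G) (hord : orderOf h0 = n)
    (q0 : ℕ) (hq0 : q0.Prime) (hq0n : q0 ∣ n) (hZ : IntDet h0) :
    ∑ i ∈ s.filter (fun i => cz h0 = cz (h i)), (c i : ℚ) * ell (p i) (h i) (g i) = 0 := by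
  have hnpos : 0 < n := Nat.pos_of_ne_zero (NeZero.ne n)
  have hpow : h0 ^ n = 1 := by rw [← hord]; exact pow_orderOf_eq_one _
  have hfin0 : IsOfFinOrder h0 := by rw [← orderOf_pos_iff, hord]; exact hnpos
  set T := s.filter (fun i => cz h0 = cz (h i)) with hT
  let wi : ι → (ZMod n)ˣ → List (G × G) := fun i a =>
    mapW (fun y => (cx (h0 ^ (a : ZMod n).val) (h i))⁻¹ * y * cx (h0 ^ (a : ZMod n).val) (h i)) (g i)
  let α : ι → (ZMod n)ˣ → A2 h0 := fun i a =>
    if IsConj (h0 ^ (a : ZMod n).val) (h i) then toA2 h0 (wi i a) else 0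
  let Zq : ℕ → (ZMod n)ˣ → A2 h0 := fun q a =>
    ∑ i ∈ T.filter (fun i => p i = q), c i • α i a
  have hTmem : ∀ i ∈ T, i ∈ s ∧ cz h0 = cz (h i) := fun i hi => Finset.mem_filter.1 hi
  have hTp : ∀ i ∈ T, p i ∈ n.primeFactors := by
    intro i hi
    obtain ⟨h1, h2⟩ := hTmem i hi
    rw [Nat.mem_primeFactors]
    refine ⟨(hv i h1).prime, ?_, hnpos.ne'⟩
    rw [← hord, orderOf_of_cz h2]
    exact (hv i h1).dvd
  have hvalid : ∀ q ∈ n.primeFactors, ∀ (a : (ZMod n)ˣ) x, Clw h0 x →
      Valid2 q (h0 ^ (a : ZMod n).val) x := by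
    intro q hq a x hx
    refine ⟨Nat.prime_of_mem_primeFactors hq, hfin0.pow, ?_, hx.pow _⟩
    rw [orderOf_pow_val hord]
    exact Nat.dvd_of_mem_primeFactors hq
  have hwi : ∀ i ∈ s, ∀ a : (ZMod n)ˣ, IsConj (h0 ^ (a : ZMod n).val) (h i) →
      Clw h0 (wi i a) := by
    intro i hi a hc
    rw [← clw_pow_val hpow a]
    exact (hv i hi).clw.conj' hc
  have hnull : ∀ (a : (ZMod n)ˣ) x, Null h0 x → Null (h0 ^ (a : ZMod n).val) x := by
    intro a x hx lam hl
    exact hx lam (hl.of_commute fun y hy => (commute_pow_val hpow a).2 hy)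
  -- the functionals on the group
  have hE : ∀ (q : ℕ) (a : (ZMod n)ˣ), ∃ E : A2 h0 →+ ℚ,
      q ∈ n.primeFactors → ∀ x, Clw h0 x → E (toA2 h0 x) = ell q (h0 ^ (a : ZMod n).val) x := by
    intro q a
    by_cases hq : q ∈ n.primeFactors
    · obtain ⟨E, hE⟩ := exists_addHom2 h0 (fun x => ell q (h0 ^ (a : ZMod n).val) x)
        (fun x y hx hy => hell.add _ _ _ _ (hvalid q hq a x hx) (hvalid q hq a y hy))
        (fun x hx hn => hell.null _ _ _ (hvalid q hq a x hx) (hnull a x hn))
      exact ⟨E, fun _ => hE⟩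
    · exact ⟨0, fun h => absurd h hq⟩
  choose E hE using hE
  -- step 1
  have step1 : ∀ (m : ℕ → (ZMod n)ˣ → ℤ) (_ : ∀ p a b, uRel n p a b → m p a = m p b)
      (_ : ∑ p ∈ n.primeFactors, ∑ a, m p a = 0) (F : A2 h0 →+ ℚ),
      ∑ q ∈ n.primeFactors, ∑ a, (m q a : ℚ) * F (Zq q a) = 0 := by
    intro m hm1 hm2 F
    have h1 : ∀ (f : G → G → ℤ) (hf : IsZ2 h0 f),
        evA (castQ f hf) (∑ q ∈ n.primeFactors, ∑ a, m q a • Zq q a) = 0 := by
      intro f hf
      have h2 := hs _ (isAdm2_Lf2 hord m f hf hm1 hm2)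
      have h3 : ∀ i ∈ s, evw (Lf2 h0 m f (p i) (h i)) (g i) =
          ∑ a, m (p i) a * mu2 (h0 ^ (a : ZMod n).val) f (g i) (h i) := by
        intro i hi
        exact evw_Lf2 m f (p i) (hv i hi).clw
      have h3' : ∀ i ∈ s, ∀ a : (ZMod n)ˣ, evA (castQ f hf) (α i a) =
          ((mu2 (h0 ^ (a : ZMod n).val) f (g i) (h i) : ℤ) : ℚ) := by
        intro i hi a
        by_cases hc : IsConj (h0 ^ (a : ZMod n).val) (h i)
        · simp only [α, if_pos hc]
          rw [evA_toA2 (hwi i hi a hc), evw_castQ, mu2_of _ _ hc]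
        · simp only [α, if_neg hc]
          rw [map_zero, mu2_of_not _ _ hc, Int.cast_zero]
      have h4 : ∀ i ∈ s, i ∉ T → (c i : ℚ) *
          ((evw (Lf2 h0 m f (p i) (h i)) (g i) : ℤ) : ℚ) = 0 := by
        intro i hi hiT
        rw [h3 i hi, Finset.sum_eq_zero, Int.cast_zero, mul_zero]
        intro a _
        rw [mu2_of_not, mul_zero]
        intro hc
        apply hiT
        rw [hT, Finset.mem_filter]
        exact ⟨hi, by rw [← cz_pow_val hpow a]; exact cz_of_isConj hc⟩
      rw [← Finset.sum_subset (Finset.filter_subset _ s) h4] at h2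
      rw [← h2, ← hT, ← Finset.sum_fiberwise_of_maps_to (t := n.primeFactors) (g := p) hTp,
        map_sum]
      apply Finset.sum_congr rfl
      intro q _
      have h6 : ∀ i ∈ T.filter (fun i => p i = q), (c i : ℚ) *
          ((evw (Lf2 h0 m f (p i) (h i)) (g i) : ℤ) : ℚ) =
          ∑ a, (m q a : ℚ) * ((c i : ℚ) * evA (castQ f hf) (α i a)) := by
        intro i hi
        obtain ⟨h7, h8⟩ := Finset.mem_filter.1 hi
        rw [h3 i (hTmem i h7).1, h8]
        push_cast
        rw [Finset.mul_sum]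
        apply Finset.sum_congr rfl
        intro a _
        rw [h3' i (hTmem i h7).1]
        ring
      rw [Finset.sum_congr rfl h6, Finset.sum_comm, map_sum]
      apply Finset.sum_congr rfl
      intro a _
      simp only [Zq]
      rw [map_zsmul, map_sum, zsmul_eq_mul, Finset.mul_sum]
      apply Finset.sum_congr rfl
      intro i _
      rw [map_zsmul, zsmul_eq_mul]
    have h2 := congrArg F (detect_A2 hZ _ h1)
    rw [map_zero] at h2
    rw [← h2, map_sum]
    apply Finset.sum_congr rfl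
    intro q _
    rw [map_sum]
    apply Finset.sum_congr rfl
    intro a _
    rw [map_zsmul, zsmul_eq_mul]
  -- step 2
  have hq0' : q0 ∈ n.primeFactors := Nat.mem_primeFactors.2 ⟨hq0, hq0n, hnpos.ne'⟩
  set card0 : ℕ := (ucl q0 (1 : (ZMod n)ˣ)).card with hcard0
  have hcard0' : (card0 : ℚ) ≠ 0 := Nat.cast_ne_zero.2 (card_ucl_pos q0 1).ne'
  set B0 := ∑ a ∈ ucl q0 (1 : (ZMod n)ˣ), Zq q0 a with hB0
  have step2 : ∀ q1 ∈ n.primeFactors, ∀ a1 : (ZMod n)ˣ,
      (card0 : ℚ) * ∑ a ∈ ucl q1 a1, E q1 a (Zq q1 a) =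
        ((ucl q1 a1).card : ℚ) * E q1 a1 B0 := by
    intro q1 hq1 a1
    let m : ℕ → (ZMod n)ˣ → ℤ := fun q a =>
      (if q = q1 ∧ uRel n q1 a a1 then (card0 : ℤ) else 0) -
      (if q = q0 ∧ uRel n q0 a 1 then ((ucl q1 a1).card : ℤ) else 0)
    have hcount : ∀ (q' : ℕ) (_ : q' ∈ n.primeFactors) (b : (ZMod n)ˣ) (K : ℤ),
        ∑ q ∈ n.primeFactors, ∑ a : (ZMod n)ˣ, (if q = q' ∧ uRel n q' a b then K else 0) =
        ((ucl q' b).card : ℤ) * K := by
      intro q' hq' b K
      rw [Finset.sum_eq_single q']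
      · have h1 : ∀ a : (ZMod n)ˣ, (if q' = q' ∧ uRel n q' a b then K else 0) =
            if uRel n q' a b then K else 0 := by
          intro a
          simp
        rw [Finset.sum_congr rfl (fun a _ => h1 a), ← Finset.sum_filter, Finset.sum_const,
          nsmul_eq_mul]
        rfl
      · intro q _ hq
        apply Finset.sum_eq_zero
        intro a _
        rw [if_neg (fun h => hq h.1)]
      · intro h
        exact absurd hq' h
    have hcount' : ∀ (q' : ℕ) (_ : q' ∈ n.primeFactors) (b : (ZMod n)ˣ) (K : ℤ)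
        (Y : ℕ → (ZMod n)ˣ → ℚ),
        ∑ q ∈ n.primeFactors, ∑ a : (ZMod n)ˣ,
          ((if q = q' ∧ uRel n q' a b then K else 0 : ℤ) : ℚ) * Y q a =
        (K : ℚ) * ∑ a ∈ ucl q' b, Y q' a := by
      intro q' hq' b K Y
      rw [Finset.sum_eq_single q']
      · have h1 : ∀ a : (ZMod n)ˣ, ((if q' = q' ∧ uRel n q' a b then K else 0 : ℤ) : ℚ) * Y q' a =
            if uRel n q' a b then (K : ℚ) * Y q' a else 0 := by
          intro a
          by_cases hr : uRel n q' a b
          · simp [hr]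
          · simp [hr]
        rw [Finset.sum_congr rfl (fun a _ => h1 a), ← Finset.sum_filter, Finset.mul_sum]
        rfl
      · intro q _ hq
        apply Finset.sum_eq_zero
        intro a _
        rw [if_neg (fun h => hq h.1), Int.cast_zero, zero_mul]
      · intro h
        exact absurd hq' h
    have h1 := step1 m ?_ ?_ (E q1 a1)
    · have h2 : ∀ q ∈ n.primeFactors, ∀ a : (ZMod n)ˣ, (m q a : ℚ) * E q1 a1 (Zq q a) =
          ((if q = q1 ∧ uRel n q1 a a1 then (card0 : ℤ) else 0 : ℤ) : ℚ) * E q1 a1 (Zq q a) -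
          ((if q = q0 ∧ uRel n q0 a 1 then ((ucl q1 a1).card : ℤ) else 0 : ℤ) : ℚ) *
            E q1 a1 (Zq q a) := by
        intro q _ a
        simp only [m]
        push_cast
        ring
      rw [Finset.sum_congr rfl (fun q hq => Finset.sum_congr rfl (fun a _ => h2 q hq a))] at h1
      simp only [Finset.sum_sub_distrib] at h1
      rw [hcount' q1 hq1 a1 _ (fun q a => E q1 a1 (Zq q a)),
        hcount' q0 hq0' 1 _ (fun q a => E q1 a1 (Zq q a))] at h1
      have h3 : ∑ a ∈ ucl q1 a1, E q1 a (Zq q1 a) = ∑ a ∈ ucl q1 a1, E q1 a1 (Zq q1 a) := by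
        apply Finset.sum_congr rfl
        intro a ha
        obtain ⟨x, hx, hxα⟩ := exists_toA2 h0 (Zq q1 a)
        rw [← hxα, hE q1 a hq1 x hx, hE q1 a1 hq1 x hx]
        obtain ⟨i, k, hik⟩ := mem_ucl.1 ha
        refine hell.frob q1 _ _ x k i (hvalid q1 hq1 a1 x hx) ?_ ?_
        · rw [zpowers_pow_val hpow, zpowers_pow_val hpow]
        · rw [← pow_mul, ← pow_mul, pow_eq_pow_iff_modEq, hord, ← ZMod.natCast_eq_natCast_iff]
          push_cast
          rw [ZMod.natCast_zmod_val, ZMod.natCast_zmod_val]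
          exact hik.symm
      have h4 : E q1 a1 B0 = ∑ a ∈ ucl q0 (1 : (ZMod n)ˣ), E q1 a1 (Zq q0 a) := by
        rw [hB0, map_sum]
      rw [h3, h4]
      push_cast at h1
      linarith
    · intro q a b hab
      simp only [m]
      congr 1
      · by_cases hq : q = q1
        · subst hq
          have : uRel n q a a1 ↔ uRel n q b a1 :=
            ⟨fun h => uRel_trans (uRel_symm hab) h, fun h => uRel_trans hab h⟩
          simp only [this]
        · rw [if_neg (fun h => hq h.1), if_neg (fun h => hq h.1)]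
      · by_cases hq : q = q0
        · subst hq
          have : uRel n q a 1 ↔ uRel n q b 1 :=
            ⟨fun h => uRel_trans (uRel_symm hab) h, fun h => uRel_trans hab h⟩
          simp only [this]
        · rw [if_neg (fun h => hq h.1), if_neg (fun h => hq h.1)]
    · simp only [m, Finset.sum_sub_distrib]
      rw [hcount q1 hq1, hcount q0 hq0']
      ring
  -- step 3
  have step3 : ∑ q ∈ n.primeFactors, ∑ a : (ZMod n)ˣ, E q a (Zq q a) = 0 := by
    have h1 : (card0 : ℚ) * ∑ q ∈ n.primeFactors, ∑ a : (ZMod n)ˣ, E q a (Zq q a) =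
        ∑ q ∈ n.primeFactors, ∑ a : (ZMod n)ˣ, E q a B0 := by
      rw [Finset.mul_sum]
      apply Finset.sum_congr rfl
      intro q hq
      rw [← sum_classes' q (fun a => E q a (Zq q a)), Finset.mul_sum]
      apply Finset.sum_congr rfl
      intro a _
      have h2 : ((ucl q a).card : ℚ) ≠ 0 := Nat.cast_ne_zero.2 (card_ucl_pos q a).ne'
      rw [← mul_div_assoc, step2 q hq a]
      field_simp
    have h2 : ∑ q ∈ n.primeFactors, ∑ a : (ZMod n)ˣ, E q a B0 = 0 := by
      obtain ⟨x, hx, hxα⟩ := exists_toA2 h0 B0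
      rw [← hxα]
      have h3 := hell.sum h0 x hfin0 hx
      rw [hord] at h3
      rw [← h3]
      apply Finset.sum_congr rfl
      intro q hq
      rw [← sum_units_eq' (fun z => ell q z x)]
      apply Finset.sum_congr rfl
      intro a _
      exact hE q a hq x hx
    rw [h2] at h1
    exact (mul_eq_zero.1 h1).resolve_left hcard0'
  -- step 4
  set W : ℕ := (Finset.univ.filter
    (fun a : (ZMod n)ˣ => IsConj (h0 ^ (a : ZMod n).val) h0)).card with hW
  have hW' : (W : ℚ) ≠ 0 := by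
    have : (1 : (ZMod n)ˣ) ∈ Finset.univ.filter
        (fun a : (ZMod n)ˣ => IsConj (h0 ^ (a : ZMod n).val) h0) := by
      rw [Finset.mem_filter, pow_val_one hpow]
      exact ⟨Finset.mem_univ _, IsConj.refl _⟩
    exact Nat.cast_ne_zero.2 (Finset.card_pos.2 ⟨_, this⟩).ne'
  have step4 : (W : ℚ) * ∑ i ∈ T, (c i : ℚ) * ell (p i) (h i) (g i) =
      ∑ q ∈ n.primeFactors, ∑ a : (ZMod n)ˣ, E q a (Zq q a) := by
    rw [← Finset.sum_fiberwise_of_maps_to (t := n.primeFactors) (g := p) hTp, Finset.mul_sum]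
    apply Finset.sum_congr rfl
    intro q hq
    have h1 : ∀ a : (ZMod n)ˣ, E q a (Zq q a) =
        ∑ i ∈ T.filter (fun i => p i = q), (c i : ℚ) * E q a (α i a) := by
      intro a
      simp only [Zq]
      rw [map_sum]
      apply Finset.sum_congr rfl
      intro i _
      rw [map_zsmul, zsmul_eq_mul]
    rw [Finset.sum_congr rfl (fun a _ => h1 a), Finset.sum_comm, Finset.mul_sum]
    apply Finset.sum_congr rfl
    intro i hi
    obtain ⟨hiT, hpi⟩ := Finset.mem_filter.1 hi
    obtain ⟨his, hcz⟩ := hTmem i hiT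
    have h2 : ∀ a : (ZMod n)ˣ, (c i : ℚ) * E q a (α i a) =
        if IsConj (h0 ^ (a : ZMod n).val) (h i) then (c i : ℚ) * ell (p i) (h i) (g i) else 0 := by
      intro a
      split_ifs with hc
      · simp only [α, if_pos hc]
        have h3 := hwi i his a hc
        rw [hE q a hq _ h3]
        have h4 := hell.conj q (h0 ^ (a : ZMod n).val)
          (cx (h0 ^ (a : ZMod n).val) (h i)) (wi i a) (hvalid q hq a _ h3)
        rw [← h4, cx_spec hc, hpi, mapW_mapW]
        congr 2
        conv_rhs => rw [← mapW_id (g i)]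
        congr 1
        funext y
        group
      · simp only [α, if_neg hc, map_zero, mul_zero]
    rw [Finset.sum_congr rfl (fun a _ => h2 a), ← Finset.sum_filter, Finset.sum_const,
      nsmul_eq_mul, card_conj hord hcz]
  rw [step3] at step4
  exact (mul_eq_zero.1 step4).resolve_left hW'

end Class

section ZD

variable {G : Type v} [Group G]

theorem intDet_of_zpowers {h h' x : G}
    (hx : Subgroup.zpowers (x * h' * x⁻¹) = Subgroup.zpowers h)
    (hZ : IntDet h) : IntDet h' := by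
  intro w hw h1 lam hl
  have h2 : ∀ y, Commute y (x * h' * x⁻¹) ↔ Commute y h := fun y =>
    ⟨commute_of_zpowers hx, commute_of_zpowers hx.symm⟩
  have hw' : Clw h (mapW (fun y => x * y * x⁻¹) w) := by
    have h3 := hw.conj x
    exact ⟨fun q hq => ⟨(h2 _).1 (h3.comm q hq).1, (h2 _).1 (h3.comm q hq).2⟩, h3.closed⟩
  have h3 : Null h (mapW (fun y => x * y * x⁻¹) w) := by
    apply hZ _ hw'
    intro f hf
    rw [evw_conj_fun]
    exact h1 _ (IsZ2.conj x (hf.of_commute fun y hy => (h2 y).1 hy))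
  have hl' : IsZ2 (x⁻¹ * h * x⁻¹⁻¹) lam := by
    refine hl.of_commute fun y hy => ?_
    have h4 : Commute (x * y * x⁻¹) h := by
      rw [inv_inv] at hy
      change x * y * x⁻¹ * h = h * (x * y * x⁻¹)
      calc x * y * x⁻¹ * h = x * (y * (x⁻¹ * h * x)) * x⁻¹ := by group
        _ = x * ((x⁻¹ * h * x) * y) * x⁻¹ := by rw [hy.eq]
        _ = _ := by group
    have h5 := (h2 _).2 h4
    change y * h' = h' * y
    have h6 : x * y * x⁻¹ * (x * h' * x⁻¹) = x * h' * x⁻¹ * (x * y * x⁻¹) := h5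
    have h7 : x * (y * h') * x⁻¹ = x * (h' * y) * x⁻¹ := by
      calc x * (y * h') * x⁻¹ = x * y * x⁻¹ * (x * h' * x⁻¹) := by group
        _ = _ := h6
        _ = _ := by group
    exact mul_left_cancel (mul_right_cancel h7)
  have h4 := h3 _ (IsZ2.conj x⁻¹ hl')
  rw [← evw_conj_fun, mapW_mapW] at h4
  rw [← h4]
  congr 1
  conv_lhs => rw [← mapW_id w]
  congr 1
  funext y
  group

theorem intDet_of_cz {h h' : G} (hc : cz h = cz h') (hZ : IntDet h) : IntDet h' := by
  have h1 : Subgroup.zpowers h ∈ cz h := ⟨1, by simp⟩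
  rw [hc] at h1
  obtain ⟨x, hx⟩ := h1
  exact intDet_of_zpowers hx hZ

open scoped Classical in
/-- If all integral functionals vanish on a combination of the symbols, then its good part is a
combination of the relations. -/
theorem span_of_adm2 {ι : Type w} (s : Finset ι) (p : ι → ℕ) (h : ι → G)
    (g : ι → List (G × G)) (c : ι → ℤ)
    (hv : ∀ i ∈ s, Valid2 (p i) (h i) (g i))
    (hs : ∀ L : ℕ → G → G → G → ℤ, IsAdm2 L →
      ∑ i ∈ s, (c i : ℚ) * ((evw (L (p i) (h i)) (g i) : ℤ) : ℚ) = 0) :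
    ∑ i ∈ s.filter (fun i => IntDet (h i)),
      Finsupp.single (p i, h i, g i) (c i : ℚ) ∈ Submodule.span ℚ {x | Rel2 G x} := by
  by_contra hnot
  obtain ⟨ℓ, hℓv, hℓ⟩ := Submodule.exists_le_ker_of_notMem hnot
  apply hℓv
  have hrel : ∀ x, Rel2 G x → ℓ x = 0 := fun x hx => hℓ (Submodule.subset_span hx)
  let ell : ℕ → G → List (G × G) → ℚ := fun p h g => ℓ (Finsupp.single (p, h, g) 1)
  have hell : IsAdmQ2 ell := by
    refine ⟨?_, ?_, ?_, ?_, ?_⟩
    · intro p h g g' h1 h2
      have h3 := hrel _ (Rel2.add p h g g' h1 h2)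
      rw [map_sub, map_sub] at h3
      change ℓ _ = ℓ _ + ℓ _
      linarith
    · intro p h g h1 h2
      exact hrel _ (Rel2.null p h g h1 h2)
    · intro p h x g h1
      have h3 := hrel _ (Rel2.conj p h x g h1)
      rw [map_sub] at h3
      change ℓ _ = ℓ _
      linarith
    · intro p h h' g j k h1 h2 h3
      have h3 := hrel _ (Rel2.frob p h h' g j k h1 h2 h3)
      rw [map_sub] at h3
      change ℓ _ = ℓ _
      linarith
    · intro h g h1 h2
      have h3 := hrel _ (Rel2.sum h g h1 h2)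
      rw [map_sum] at h3
      rw [← h3]
      apply Finset.sum_congr rfl
      intro p _
      rw [map_sum]
  have hsingle : ∀ i, ℓ (Finsupp.single (p i, h i, g i) (c i : ℚ)) =
      (c i : ℚ) * ell (p i) (h i) (g i) := by
    intro i
    change _ = (c i : ℚ) * ℓ _
    rw [← smul_eq_mul, ← map_smul, Finsupp.smul_single, smul_eq_mul, mul_one]
  rw [map_sum, Finset.sum_congr rfl (fun i _ => hsingle i)]
  set s' := s.filter (fun i => IntDet (h i)) with hs'
  rw [← Finset.sum_fiberwise_of_maps_to (t := s'.image (fun i => cz (h i)))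
    (g := fun i => cz (h i)) (fun i hi => Finset.mem_image_of_mem _ hi)]
  apply Finset.sum_eq_zero
  intro K hK
  obtain ⟨i0, hi0, rfl⟩ := Finset.mem_image.1 hK
  obtain ⟨hi0s, hZ0⟩ := Finset.mem_filter.1 hi0
  have hpos : 0 < orderOf (h i0) := orderOf_pos_iff.2 (hv i0 hi0s).fin
  have : NeZero (orderOf (h i0)) := ⟨hpos.ne'⟩
  rw [← class_zero2 (n := orderOf (h i0)) s p h g c hv hs ell hell (h i0) rfl (p i0)
    (hv i0 hi0s).prime (hv i0 hi0s).dvd hZ0]
  apply Finset.sum_congr _ (fun _ _ => rfl)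
  ext i
  rw [Finset.mem_filter, Finset.mem_filter, Finset.mem_filter]
  constructor
  · rintro ⟨⟨h1, -⟩, h2⟩
    exact ⟨h1, h2.symm⟩
  · rintro ⟨h1, h2⟩
    exact ⟨⟨h1, intDet_of_cz h2 hZ0⟩, h2.symm⟩

end ZD

end Pool.Agent.Lib25.H2
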