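import Pool.Agent.Lib_helper25.H2.Gauss

/-!
# Cyclic words of triples of group elements
-/

set_option autoImplicit false
set_option linter.unusedSectionVars false

namespace Pool.Agent.Lib25.H2

section Sums

theorem sum_range_shift {k : Type*} [AddCommMonoid k] (F : ℕ → k) (M : ℕ)
    (hF : F M = F 0) :
    ∑ t ∈ Finset.range M, F (t + 1) = ∑ t ∈ Finset.range M, F t := by
  cases M with
  | zero => simp
  | succ M =>
    rw [Finset.sum_range_succ, Finset.sum_range_succ' F, hF]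

theorem sum_range_periodic {k : Type*} [CommRing k] (F : ℕ → k) (M : ℕ)
    (hF : ∀ t, F (t + M) = F t) (r : ℕ) :
    ∑ t ∈ Finset.range (M * r), F t = r * (∑ t ∈ Finset.range M, F t) := by
  induction r with
  | zero => simp
  | succ r ih =>
    rw [Nat.mul_succ, Finset.sum_range_add, ih]
    have h1 : ∑ t ∈ Finset.range M, F (M * r + t) = ∑ t ∈ Finset.range M, F t := by
      refine Finset.sum_congr rfl fun t _ => ?_
      have : ∀ r : ℕ, F (M * r + t) = F t := by
        intro r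
        induction r with
        | zero => simp
        | succ r ih =>
          rw [← ih, ← hF (M * r + t)]
          congr 1
          ring
      exact this r
    rw [h1]
    push_cast
    ring

end Sums

section Period

variable {p : ℕ} [hpf : Fact p.Prime]

/-- If the rotation by `e` fixes a word of length `p ^ n` then `p ^ (j + 1)` divides `e` or the
rotation by `p ^ j` fixes the word. -/
theorem period_dvd {n : ℕ} {X : Type*} (s : ZMod (p ^ n) → X) (e : ℤ)
    (hs : ∀ t, s (t + (e : ZMod (p ^ n))) = s t) (j : ℕ) :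
    ((p : ℤ) ^ (j + 1) ∣ e) ∨ rot (p ^ j) s = s := by
  have hprime : p.Prime := hpf.out
  have hmul : ∀ (k : ℤ) (t : ZMod (p ^ n)), s (t + (k * e : ℤ)) = s t := by
    intro k t
    induction k using Int.induction_on with
    | zero => simp
    | succ i ih =>
      rw [← ih, ← hs (t + ((i * e : ℤ) : ZMod (p ^ n)))]
      congr 1
      push_cast
      ring
    | pred i ih =>
      rw [← ih, ← hs (t + (((-(i : ℤ) - 1) * e : ℤ) : ZMod (p ^ n)))]
      congr 1
      push_cast
      ring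
  by_cases h : (p : ℤ) ^ (j + 1) ∣ e
  · exact Or.inl h
  · right
    obtain ⟨i, hi1, hi⟩ := (Nat.dvd_prime_pow hprime).1
      (Int.natCast_dvd_natCast.1 (by
        exact Int.gcd_dvd_right e ((p ^ n : ℕ) : ℤ)))
    have hij : i ≤ j := by
      by_contra hlt
      apply h
      have h1 : ((Int.gcd e ((p ^ n : ℕ) : ℤ) : ℕ) : ℤ) ∣ e := Int.gcd_dvd_left _ _
      rw [hi] at h1
      refine dvd_trans ?_ h1
      push_cast
      exact pow_dvd_pow _ (by omega)
    have hb := Int.gcd_eq_gcd_ab e ((p ^ n : ℕ) : ℤ)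
    rw [hi] at hb
    have h2 : ∀ t : ZMod (p ^ n), s (t + ((p ^ i : ℕ) : ZMod (p ^ n))) = s t := by
      intro t
      have h3 : (((p ^ i : ℕ) : ℤ) : ZMod (p ^ n)) =
          ((Int.gcdA e ((p ^ n : ℕ) : ℤ) * e : ℤ) : ZMod (p ^ n)) := by
        rw [hb]
        push_cast
        have h4 : ((p : ZMod (p ^ n)) ^ n) = 0 := by
          rw [← Nat.cast_pow]
          exact ZMod.natCast_self _
        rw [h4]
        ring
      rw [← Int.cast_natCast, h3]
      exact hmul _ t
    have h5 : ∀ (r : ℕ) (t : ZMod (p ^ n)), s (t + ((p ^ i * r : ℕ) : ZMod (p ^ n))) = s t := by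
      intro r t
      induction r with
      | zero => simp
      | succ r ih =>
        rw [← ih, ← h2 (t + ((p ^ i * r : ℕ) : ZMod (p ^ n)))]
        congr 1
        push_cast
        ring
    funext t
    have h6 := h5 (p ^ (j - i)) t
    rw [← pow_add, Nat.add_sub_cancel' hij] at h6
    exact h6

/-- Representatives of the rotation classes. -/
theorem exists_rep (N : ℕ) [NeZero N] (X : Type*) :
    ∃ (rep : (ZMod N → X) → (ZMod N → X)) (d : (ZMod N → X) → ℕ),
      (∀ s, rep (rot 1 s) = rep s) ∧ ∀ s, rot (d s) (rep s) = s := by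
  let rep : (ZMod N → X) → (ZMod N → X) := fun s => (Quotient.mk (rotSetoid N X) s).out
  have hrep : ∀ s, ∃ d : ℕ, rot d (rep s) = s := by
    intro s
    exact Quotient.exact (s := rotSetoid N X) (Quotient.out_eq (Quotient.mk (rotSetoid N X) s))
  choose d hd using hrep
  refine ⟨rep, d, fun s => ?_, hd⟩
  have : Quotient.mk (rotSetoid N X) (rot 1 s) = Quotient.mk (rotSetoid N X) s := by
    apply Eq.symm
    apply Quotient.sound
    exact ⟨1, rfl⟩
  exact congrArg Quotient.out this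

theorem exists_q (n j : ℕ) (X : Type*) : ∃ q : (ZMod (p ^ n) → X) → ℤ,
    ∀ s, ((p : ℤ) ^ (j + 1) ∣ 1 + q (rot 1 s) - q s) ∨ rot (p ^ j) s = s := by
  have : NeZero (p ^ n) := ⟨pow_ne_zero _ hpf.out.ne_zero⟩
  obtain ⟨rep, d, h1, h2⟩ := exists_rep (p ^ n) X
  refine ⟨fun s => -(d s : ℤ), fun s => ?_⟩
  have h3 := h2 s
  have h4 := h2 (rot 1 s)
  rw [h1] at h4
  -- the difference of the two rotations is a period of the representative
  have h5 : ∀ t, s (t + ((1 + -(d (rot 1 s) : ℤ) - -(d s : ℤ) : ℤ) : ZMod (p ^ n))) = s t := by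
    intro t
    have e1 := congrFun h4 (t - (d (rot 1 s) : ZMod (p ^ n)) + (d s : ZMod (p ^ n)))
    have e2 := congrFun h3 t
    change rep s (t - (d (rot 1 s) : ZMod (p ^ n)) + (d s : ZMod (p ^ n)) +
      (d (rot 1 s) : ZMod (p ^ n))) = s (t - (d (rot 1 s) : ZMod (p ^ n)) +
      (d s : ZMod (p ^ n)) + ((1 : ℕ) : ZMod (p ^ n))) at e1
    change rep s (t + (d s : ZMod (p ^ n))) = s t at e2
    rw [← e2]
    have e3 : t - (d (rot 1 s) : ZMod (p ^ n)) + (d s : ZMod (p ^ n)) +
      (d (rot 1 s) : ZMod (p ^ n)) = t + (d s : ZMod (p ^ n)) := by ring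
    rw [e3] at e1
    rw [e1]
    congr 1
    push_cast
    ring
  exact period_dvd s _ h5 j

end Period

section Triples

variable {G : Type*} [Group G] {N : ℕ}

/-- The product of a word of triples. -/
def c3 (w : ZMod N → G × G × G) : G := cyc (fun t => (w t).2.1 * (w t).2.2 * (w (t + 1)).1)

/-- The value at the first letter. -/
def lam0 (L : G → G → G → ℤ) (w : ZMod N → G × G × G) : ℤ := L (w 0).2.1 (w 0).2.2 (c3 w)

/-- first grouping -/
def aw (u : ZMod N → G × G) : ZMod N → G := fun t => (u t).1 * (u t).2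

/-- second grouping -/
def bw (u : ZMod N → G × G) : ZMod N → G := fun t => (u t).2 * (u (t + 1)).1

/-- second grouping, rotated -/
def bw' (u : ZMod N → G × G) : ZMod N → G := fun t => (u (t - 1)).2 * (u t).1

/-- the function on words of pairs -/
def th (L : G → G → G → ℤ) (u : ZMod N → G × G) : ℤ :=
  L (u 1).1 (u 1).2 (cyc (rot 1 (aw u))) - L (u 0).2 (u 1).1 (cyc (bw u))

/-- first face -/
def fA (w : ZMod N → G × G × G) : ZMod N → G × G :=
  fun t => ((w (t - 1)).2.2 * (w t).1, (w t).2.1)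

/-- second face -/
def fB (w : ZMod N → G × G × G) : ZMod N → G × G :=
  fun t => ((w t).1 * (w t).2.1, (w t).2.2)

/-- third face -/
def fC (w : ZMod N → G × G × G) : ZMod N → G × G :=
  fun t => ((w t).1, (w t).2.1 * (w t).2.2)

theorem rot1_apply {X : Type*} (s : ZMod N → X) (t : ZMod N) : rot 1 s t = s (t + 1) := by
  change s (t + ((1 : ℕ) : ZMod N)) = _
  rw [Nat.cast_one]

theorem rot_bw' (u : ZMod N → G × G) : rot 1 (bw' u) = bw u := by
  funext t
  rw [rot1_apply]
  change (u (t + 1 - 1)).2 * (u (t + 1)).1 = _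
  rw [add_sub_cancel_right]
  rfl

theorem aw_rot (u : ZMod N → G × G) (d : ℕ) : aw (rot d u) = rot d (aw u) := rfl

theorem bw_rot (u : ZMod N → G × G) (d : ℕ) : bw (rot d u) = rot d (bw u) := by
  funext t
  change (u (t + (d : ZMod N))).2 * (u (t + 1 + (d : ZMod N))).1 =
    (u (t + (d : ZMod N))).2 * (u (t + (d : ZMod N) + 1)).1
  rw [add_right_comm]

theorem bw'_rot (u : ZMod N → G × G) (d : ℕ) : bw' (rot d u) = rot d (bw' u) := by
  funext t
  change (u (t - 1 + (d : ZMod N))).2 * (u (t + (d : ZMod N))).1 =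
    (u (t + (d : ZMod N) - 1)).2 * (u (t + (d : ZMod N))).1
  rw [sub_add_eq_add_sub]

theorem fA_rot (w : ZMod N → G × G × G) (d : ℕ) : fA (rot d w) = rot d (fA w) := by
  funext t
  change ((w (t - 1 + (d : ZMod N))).2.2 * (w (t + (d : ZMod N))).1, _) =
    ((w (t + (d : ZMod N) - 1)).2.2 * (w (t + (d : ZMod N))).1, _)
  rw [sub_add_eq_add_sub]
  rfl

theorem fB_rot (w : ZMod N → G × G × G) (d : ℕ) : fB (rot d w) = rot d (fB w) := rfl

theorem fC_rot (w : ZMod N → G × G × G) (d : ℕ) : fC (rot d w) = rot d (fC w) := rfl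

theorem aw_fB (w : ZMod N → G × G × G) : aw (fB w) = aw (fC w) := by
  funext t
  exact mul_assoc _ _ _

theorem aw_fA (w : ZMod N → G × G × G) : aw (fA w) = bw' (fB w) := by
  funext t
  exact mul_assoc _ _ _

theorem bw'_fA (w : ZMod N → G × G × G) : bw' (fA w) = bw' (fC w) := by
  funext t
  exact (mul_assoc _ _ _).symm

variable {p : ℕ} {L : G → G → G → ℤ} (H : GCo p L)

include H

theorem lam0_rot (w : ZMod N → G × G × G) :
    lam0 L (rot 1 w) - lam0 L w = th L (fA w) + th L (fB w) - th L (fC w) := by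
  set c := c3 w with hc
  set c1 := cyc (fun t => (w t).2.2 * ((w (t + 1)).1 * (w (t + 1)).2.1)) with hc1
  set c2 := cyc (fun t => (w (t + 1)).1 * ((w (t + 1)).2.1 * (w (t + 1)).2.2)) with hc2
  have h1 : c1 = ((w 0).2.1)⁻¹ * c * (w 0).2.1 := by
    have := cyc_alt (fun t => (w t).2.1) (fun t => (w t).2.2 * (w (t + 1)).1)
    simp only [mul_assoc] at this
    rw [hc1, this, hc]
    unfold c3
    simp only [mul_assoc]
  have h2 : c2 = ((w 0).2.2)⁻¹ * c1 * (w 0).2.2 := by
    have := cyc_alt (fun t => (w t).2.2) (fun t => (w (t + 1)).1 * (w (t + 1)).2.1)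
    simp only [mul_assoc] at this
    rw [hc2, this, hc1]
    simp only [mul_assoc]
  have h3 : c3 (rot 1 w) = ((w 1).1)⁻¹ * c2 * (w 1).1 := by
    have := cyc_alt (fun t => (w (t + 1)).1) (fun t => (w (t + 1)).2.1 * (w (t + 1)).2.2)
    simp only [zero_add] at this
    rw [hc2, ← this]
    unfold c3
    congr 1
    funext t
    rw [rot1_apply, rot1_apply]
  have a1 : cyc (rot 1 (aw (fA w))) = c1 := by
    rw [hc1]
    congr 1
    funext t
    rw [rot1_apply]
    change (w (t + 1 - 1)).2.2 * (w (t + 1)).1 * (w (t + 1)).2.1 = _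
    rw [add_sub_cancel_right, mul_assoc]
  have a2 : cyc (bw (fA w)) = c := by
    rw [hc]
    unfold c3
    congr 1
    funext t
    change (w t).2.1 * ((w (t + 1 - 1)).2.2 * (w (t + 1)).1) = _
    rw [add_sub_cancel_right, mul_assoc]
  have a3 : cyc (rot 1 (aw (fB w))) = c2 := by
    rw [hc2]
    congr 1
    funext t
    rw [rot1_apply]
    exact mul_assoc _ _ _
  have a4 : cyc (bw (fB w)) = c1 := rfl
  have a5 : cyc (rot 1 (aw (fC w))) = c2 := by
    rw [hc2]
    congr 1
    funext t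
    rw [rot1_apply]
    rfl
  have a6 : cyc (bw (fC w)) = c := rfl
  unfold th
  rw [a1, a2, a3, a4, a5, a6]
  have e1 : (fA w 1).1 = (w 0).2.2 * (w 1).1 := by
    change (w (1 - 1)).2.2 * (w 1).1 = _
    rw [sub_self]
  rw [e1]
  change L (rot 1 w 0).2.1 (rot 1 w 0).2.2 (c3 (rot 1 w)) - L (w 0).2.1 (w 0).2.2 c = 
    L ((w 0).2.2 * (w 1).1) (w 1).2.1 c1 - L (w 0).2.1 ((w 0).2.2 * (w 1).1) c +
    (L ((w 1).1 * (w 1).2.1) (w 1).2.2 c2 - L (w 0).2.2 ((w 1).1 * (w 1).2.1) c1) -
    (L (w 1).1 ((w 1).2.1 * (w 1).2.2) c2 - L ((w 0).2.1 * (w 0).2.2) (w 1).1 c)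
  rw [rot1_apply, zero_add, h3]
  have k1 := H.coc (w 1).1 (w 1).2.1 (w 1).2.2 c2
  have k2 := H.coc (w 0).2.2 (w 1).1 (w 1).2.1 c1
  have k3 := H.coc (w 0).2.1 (w 0).2.2 (w 1).1 c
  rw [← h2] at k2
  rw [← h1] at k3
  linarith

variable {χ : G → ℤ} (hχ : ∀ g c, L g (g⁻¹ * c * g) c + χ (g⁻¹ * c * g) = L c g c + χ c)

include hχ

theorem sum_th (u : ZMod N → G × G) :
    ∑ t ∈ Finset.range N, th L (rot t u) = kap L χ (bw' u) - kap L χ (aw u) := by
  have h1 := kap_alt H hχ (fun t => (u t).1) (fun t => (u t).2)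
  have h2 : kap L χ (bw' u) = kap L χ (bw u) := by
    rw [← rot_bw', kap_rot H hχ]
  rw [h2]
  change _ = kap L χ (fun t => (u t).2 * (u (t + 1)).1) - kap L χ (fun t => (u t).1 * (u t).2)
  rw [← h1]
  unfold th
  rw [Finset.sum_sub_distrib]
  congr 1
  · have h3 := sum_range_shift (fun t : ℕ => L (u (t : ZMod N)).1 (u (t : ZMod N)).2
      (cyc (rot t (fun t => (u t).1 * (u t).2)))) N (by
        rw [rot_N, rot_zero, ZMod.natCast_self, Nat.cast_zero])
    rw [← h3]
    refine Finset.sum_congr rfl fun t _ => ?_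
    have e1 : rot t u 1 = u ((t + 1 : ℕ) : ZMod N) := by
      change u _ = u _
      congr 1
      push_cast
      ring
    rw [e1, aw_rot, rot_rot, add_comm 1 t]
    rfl
  · refine Finset.sum_congr rfl fun t _ => ?_
    have e1 : rot t u 1 = u ((t : ZMod N) + 1) := by
      change u _ = u _
      rw [add_comm]
    have e2 : rot t u 0 = u (t : ZMod N) := by
      change u _ = u _
      rw [zero_add]
    rw [e1, e2, bw_rot]
    rfl

omit hχ H in
/-- The accumulated defect. -/
def Pi0 (L : G → G → G → ℤ) (u : ZMod N → G × G) : ℤ :=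
  ∑ t ∈ Finset.range N, ∑ s ∈ Finset.range t, th L (rot s u)

theorem Pi0_rot (u : ZMod N → G × G) :
    Pi0 L (rot 1 u) - Pi0 L u = kap L χ (bw' u) - kap L χ (aw u) - N * th L u := by
  unfold Pi0
  rw [← Finset.sum_sub_distrib]
  have h1 : ∀ t : ℕ, (∑ s ∈ Finset.range t, th L (rot s (rot 1 u)) -
      ∑ s ∈ Finset.range t, th L (rot s u)) = th L (rot t u) - th L u := by
    intro t
    rw [← Finset.sum_sub_distrib]
    have := Finset.sum_range_sub (fun s => th L (rot s u)) t
    rw [rot_zero] at this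
    rw [← this]
    refine Finset.sum_congr rfl fun s _ => ?_
    rw [rot_rot]
  rw [Finset.sum_congr rfl (fun t _ => h1 t), Finset.sum_sub_distrib, sum_th H hχ,
    Finset.sum_const, Finset.card_range, nsmul_eq_mul]

omit hχ H in
/-- The rotation invariant sum. -/
def Sw (L : G → G → G → ℤ) (w : ZMod N → G × G × G) : ℤ :=
  ∑ t ∈ Finset.range N, lam0 L (rot t w)

omit hχ in
theorem Sw_eq (w : ZMod N → G × G × G) :
    Sw L w = N * lam0 L w + Pi0 L (fA w) + Pi0 L (fB w) - Pi0 L (fC w) := by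
  have h1 : ∀ t : ℕ, lam0 L (rot t w) = lam0 L w + ∑ s ∈ Finset.range t,
      (th L (rot s (fA w)) + th L (rot s (fB w)) - th L (rot s (fC w))) := by
    intro t
    have := Finset.sum_range_sub (fun s => lam0 L (rot s w)) t
    rw [rot_zero] at this
    have h2 : ∀ s, lam0 L (rot (s + 1) w) - lam0 L (rot s w) =
        th L (rot s (fA w)) + th L (rot s (fB w)) - th L (rot s (fC w)) := by
      intro s
      rw [← fA_rot, ← fB_rot, ← fC_rot, ← lam0_rot H, rot_rot, add_comm s 1]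
    rw [Finset.sum_congr rfl (fun s _ => h2 s)] at this
    linarith
  unfold Sw Pi0
  rw [Finset.sum_congr rfl (fun t _ => h1 t), Finset.sum_add_distrib, Finset.sum_const,
    Finset.card_range, nsmul_eq_mul]
  simp only [Finset.sum_add_distrib, Finset.sum_sub_distrib]
  ring

omit hχ H in
theorem Sw_rot (w : ZMod N → G × G × G) : Sw L (rot 1 w) = Sw L w := by
  have h3 := sum_range_shift (fun t : ℕ => lam0 L (rot t w)) N (by simp only [rot_N, rot_zero])
  unfold Sw
  rw [← h3]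
  refine Finset.sum_congr rfl fun t _ => ?_
  rw [rot_rot]

end Triples

section Correct

variable {G : Type*} [Group G] {p : ℕ} [hpf : Fact p.Prime] {n j : ℕ}
  {L : G → G → G → ℤ} (H : GCo p L) {χ : G → ℤ}
  (hχ : ∀ g c, L g (g⁻¹ * c * g) c + χ (g⁻¹ * c * g) = L c g c + χ c)

/-- Words of small period have no defect. -/
def Good (L : G → G → G → ℤ) (χ : G → ℤ) (p j : ℕ) {N : ℕ} (s : ZMod N → G) : Prop :=
  rot (p ^ j) s = s → kap L χ s = 0

/-- The corrected defect. -/
def G1 (L : G → G → G → ℤ) (χ : G → ℤ) {N : ℕ} (q : (ZMod N → G) → ℤ) (u : ZMod N → G × G) : ℤ :=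
  Pi0 L u + q (bw' u) * kap L χ (bw' u) - q (aw u) * kap L χ (aw u)

theorem G1_delta {N : ℕ} (q : (ZMod N → G) → ℤ) (w : ZMod N → G × G × G) :
    G1 L χ q (fA w) + G1 L χ q (fB w) - G1 L χ q (fC w) =
      Pi0 L (fA w) + Pi0 L (fB w) - Pi0 L (fC w) := by
  unfold G1
  rw [aw_fB, aw_fA, bw'_fA]
  ring

include H hχ

theorem Good.rot {N : ℕ} {s : ZMod N → G} (h : Good L χ p j s) (d : ℕ) :
    Good L χ p j (rot d s) := by
  intro h1
  rw [kap_rot' H hχ]
  apply h
  rw [rot_rot, add_comm, ← rot_rot] at h1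
  funext t
  have h2 := congrFun h1 (t - (d : ZMod N))
  change s (t - (d : ZMod N) + (d : ZMod N) + _) = s (t - (d : ZMod N) + (d : ZMod N)) at h2
  rw [sub_add_cancel] at h2
  exact h2

theorem G1_rot (hn : j + 1 ≤ n) {q : (ZMod (p ^ n) → G) → ℤ}
    (hq : ∀ s, ((p : ℤ) ^ (j + 1) ∣ 1 + q (rot 1 s) - q s) ∨ rot (p ^ j) s = s)
    (u : ZMod (p ^ n) → G × G) (ha : Good L χ p j (aw u)) (hb : Good L χ p j (bw' u)) :
    (p : ℤ) ^ (j + 1) ∣ G1 L χ q (rot 1 u) - G1 L χ q u := by
  have h1 := Pi0_rot H hχ u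
  have h2 : G1 L χ q (rot 1 u) - G1 L χ q u =
      (1 + q (rot 1 (bw' u)) - q (bw' u)) * kap L χ (bw' u) -
      (1 + q (rot 1 (aw u)) - q (aw u)) * kap L χ (aw u) - ((p ^ n : ℕ) : ℤ) * th L u := by
    unfold G1
    rw [aw_rot, bw'_rot, kap_rot H hχ, kap_rot H hχ]
    linear_combination h1
  have key : ∀ s, Good L χ p j s → (p : ℤ) ^ (j + 1) ∣ (1 + q (rot 1 s) - q s) * kap L χ s := by
    intro s hs
    rcases hq s with h | h
    · exact Dvd.dvd.mul_right h _
    · rw [hs h, mul_zero]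
      exact dvd_zero _
  rw [h2]
  refine dvd_sub (dvd_sub (key _ hb) (key _ ha)) (Dvd.dvd.mul_right ?_ _)
  push_cast
  exact pow_dvd_pow _ hn

theorem G1_rot' (hn : j + 1 ≤ n) {q : (ZMod (p ^ n) → G) → ℤ}
    (hq : ∀ s, ((p : ℤ) ^ (j + 1) ∣ 1 + q (rot 1 s) - q s) ∨ rot (p ^ j) s = s)
    (u : ZMod (p ^ n) → G × G) (ha : Good L χ p j (aw u)) (hb : Good L χ p j (bw' u)) (d : ℕ) :
    (p : ℤ) ^ (j + 1) ∣ G1 L χ q (rot d u) - G1 L χ q u := by
  induction d with
  | zero => rw [rot_zero, sub_self]; exact dvd_zero _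
  | succ d ih =>
    have h1 := G1_rot H hχ hn hq (rot d u) (by rw [aw_rot]; exact Good.rot H hχ ha d)
      (by rw [bw'_rot]; exact Good.rot H hχ hb d)
    rw [rot_rot, add_comm 1 d] at h1
    have := dvd_add h1 ih
    rwa [sub_add_sub_cancel] at this

/-- **The combinatorial heart**: for `n` large there is a function `ψ` on words of pairs such that
`Sw - δψ` is rotation invariant and divisible by `p ^ (j + 1)`. -/
theorem exists_psi (hn : j + 1 ≤ n) : ∃ ψ : (ZMod (p ^ n) → G × G) → ℤ,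
    (∀ u, ψ (rot 1 u) = ψ u) ∧
    ∀ w : ZMod (p ^ n) → G × G × G, Good L χ p j (aw (fA w)) → Good L χ p j (aw (fB w)) →
      Good L χ p j (bw' (fA w)) →
      (p : ℤ) ^ (j + 1) ∣ Sw L w - (ψ (fA w) + ψ (fB w) - ψ (fC w)) := by
  have : NeZero (p ^ n) := ⟨pow_ne_zero _ hpf.out.ne_zero⟩
  obtain ⟨q, hq⟩ := exists_q (p := p) n j G
  obtain ⟨rep, d, h1, h2⟩ := exists_rep (p ^ n) (G × G)
  refine ⟨fun u => G1 L χ q (rep u), fun u => congrArg (G1 L χ q) (h1 u), fun w hA hB hA' => ?_⟩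
  have key : ∀ u : ZMod (p ^ n) → G × G, Good L χ p j (aw u) → Good L χ p j (bw' u) →
      (p : ℤ) ^ (j + 1) ∣ G1 L χ q (rep u) - G1 L χ q u := by
    intro u ha hb
    have h3 : rot (p ^ n * (d u) - d u) u = rep u := by
      have h4 := congrArg (rot (p ^ n * (d u) - d u)) (h2 u)
      rw [rot_rot, Nat.sub_add_cancel (Nat.le_mul_of_pos_left _ (Nat.pos_of_ne_zero
        (NeZero.ne _)))] at h4
      rw [← h4]
      funext t
      change rep u (t + ((p ^ n * d u : ℕ) : ZMod (p ^ n))) = _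
      rw [Nat.cast_mul, ZMod.natCast_self, zero_mul, add_zero]
    rw [← h3]
    exact G1_rot' H hχ hn hq u ha hb _
  have kA := key (fA w) hA hA'
  have kB := key (fB w) hB (by rw [← aw_fA]; exact hA)
  have kC := key (fC w) (by rw [← aw_fB]; exact hB) (by rw [← bw'_fA]; exact hA')
  have h5 := G1_delta (L := L) (χ := χ) q w
  have h6 := Sw_eq H w
  have h7 : (p : ℤ) ^ (j + 1) ∣ ((p ^ n : ℕ) : ℤ) * lam0 L w := by
    refine Dvd.dvd.mul_right ?_ _
    push_cast
    exact pow_dvd_pow _ hn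
  have h8 : Sw L w - (G1 L χ q (rep (fA w)) + G1 L χ q (rep (fB w)) - G1 L χ q (rep (fC w))) =
      ((p ^ n : ℕ) : ℤ) * lam0 L w - (G1 L χ q (rep (fA w)) - G1 L χ q (fA w)) -
      (G1 L χ q (rep (fB w)) - G1 L χ q (fB w)) + (G1 L χ q (rep (fC w)) - G1 L χ q (fC w)) := by
    linear_combination h6 - h5
  rw [h8]
  exact dvd_add (dvd_sub (dvd_sub h7 kA) kB) kC

omit H hχ in
/-- For long words in a finite alphabet, goodness is automatic. -/
theorem exists_good (H : GCo p L) (hχ2 : ∀ c, χ c ≠ 0 → IsOfFinOrder c ∧ p ∣ orderOf c)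
    (E : Finset G) (j : ℕ) : ∃ M, ∀ n, M ≤ n → ∀ s : ZMod (p ^ n) → G, (∀ t, s t ∈ E) →
      Good L χ p j s := by
  classical
  have hprime : p.Prime := hpf.out
  let γ : (Fin (p ^ j) → E) → G := fun v => (List.ofFn fun i => (v i : G)).prod
  let M : ℕ := Finset.univ.sup fun v => (orderOf (γ v)).factorization p
  refine ⟨j + M, fun n hn s hs hper => ?_⟩
  have hns : ¬ (IsOfFinOrder (cyc s) ∧ p ∣ orderOf (cyc s)) := by
    rintro ⟨hf, hd⟩
    have h5 : cyc s = (pre s (p ^ j)) ^ (p ^ (n - j)) := by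
      have h6 := pre_periodic s (p ^ j) (fun i => congrFun hper i) (p ^ (n - j))
      rw [← pow_add, Nat.add_sub_cancel' (by omega)] at h6
      exact h6
    let v : Fin (p ^ j) → E := fun i => ⟨s ((i : ℕ) : ZMod (p ^ n)), hs _⟩
    have h7 : pre s (p ^ j) = γ v := by
      unfold pre
      simp only [γ]
      rw [List.ofFn_eq_map, ← List.map_coe_finRange_eq_range, List.map_map]
      rfl
    rw [h5, h7] at hd hf
    have hm : (orderOf (γ v)).factorization p ≤ M :=
      Finset.le_sup (f := fun v => (orderOf (γ v)).factorization p) (Finset.mem_univ v)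
    have hfin' : IsOfFinOrder (γ v) := IsOfFinOrder.of_pow hf (pow_ne_zero _ hprime.ne_zero)
    exact not_dvd_orderOf_pow hprime (γ v) hfin' (n - j) (by omega) hd
  unfold kap Kd
  rw [Finset.sum_eq_zero, zero_sub, neg_eq_zero]
  · by_contra h
    exact hns (hχ2 _ h)
  · intro i _
    by_contra h
    exact hns (H.sing _ _ _ h)

end Correct

end Pool.Agent.Lib25.H2
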